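import Pool.Agent.Work.MP_f82ddf_M1.Interface

/-! # Block ALG (helper87): rules for representatives -/

open Topology Filter
open scoped Differential
open Pool.Agent.Work.MP_f82ddf_nt.DQ

namespace Pool.ThmM

namespace ALG

theorem cod {p : ℂ → Prop} : (∀ᶠ z in codiscrete ℂ, p z) ↔ ∀ z₀, ∀ᶠ z in 𝓝[≠] z₀, p z := by
  unfold Filter.Eventually Filter.codiscrete
  rw [mem_codiscreteWithin_iff_forall_mem_nhdsNE]
  simp

theorem of_mk (hR : Stmt_REP) (f : Mer) (g : ℂ → ℂ) (hg : ∀ z, MeromorphicAt g z)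
    (hf : f = Mer.mk g hg) : rep f =ᶠ[codiscrete ℂ] g := by
  obtain ⟨_, _, h, h1⟩ := hR f
  exact cod.2 (Mer.mk_eq_mk.1 (h1.trans hf))

theorem mul (hR : Stmt_REP) (f g : Mer) :
    rep (f * g) =ᶠ[codiscrete ℂ] fun z => rep f z * rep g z := by
  obtain ⟨_, _, h1, h2⟩ := hR f
  obtain ⟨_, _, h3, h4⟩ := hR g
  refine of_mk hR _ _ (fun z => (h1 z).mul (h3 z)) ?_
  rw [← Mer.mk_mul _ _ h1 h3, h2, h4]

theorem const (hR : Stmt_REP) (a : ℂ) : rep (algebraMap ℂ Mer a) =ᶠ[codiscrete ℂ] fun _ => a :=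
  of_mk hR _ _ (fun z => MeromorphicAt.const a z) (Mer.algebraMap_eq a)

theorem mul_inv (hR : Stmt_REP) {f : Mer} (hf : f ≠ 0) :
    ∀ᶠ z in codiscrete ℂ, rep f z * rep f⁻¹ z = 1 := by
  have h1 := mul hR f f⁻¹
  have h2 := const hR 1
  rw [mul_inv_cancel₀ hf] at h1
  rw [map_one] at h2
  filter_upwards [h1, h2] with z h3 h4
  rw [← h3, h4]

end ALG

open ALG in
theorem p_ALG (hR : Stmt_REP) : Stmt_ALG := by
  refine ⟨of_mk hR, ?_, ?_, mul hR, ?_, ?_, const hR, ?_⟩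
  · intro f g
    obtain ⟨_, _, h1, h2⟩ := hR f
    obtain ⟨_, _, h3, h4⟩ := hR g
    refine of_mk hR _ _ (fun z => (h1 z).add (h3 z)) ?_
    rw [← Mer.mk_add _ _ h1 h3, h2, h4]
  · intro f g
    obtain ⟨_, _, h1, h2⟩ := hR f
    obtain ⟨_, _, h3, h4⟩ := hR g
    refine of_mk hR _ _ (fun z => (h1 z).sub (h3 z)) ?_
    rw [← Mer.mk_sub _ _ h1 h3, h2, h4]
  · intro f
    by_cases hf : f = 0
    · have h0 := const hR 0
      rw [map_zero] at h0
      rw [hf, inv_zero]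
      filter_upwards [h0] with z h1
      rw [h1, inv_zero]
    · filter_upwards [mul_inv hR hf] with z h1
      exact eq_inv_of_mul_eq_one_right h1
  · intro f
    obtain ⟨_, _, h1, h2⟩ := hR f
    refine of_mk hR _ _ (fun z => (h1 z).deriv) ?_
    rw [← Mer.deriv_mk _ h1, h2]
  · intro f hf
    filter_upwards [mul_inv hR hf] with z h1 h2
    rw [h2, zero_mul] at h1
    exact zero_ne_one h1

end Pool.ThmM
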