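import Pool.Agent.Work.MP_f82ddf_M1.Interface

set_option autoImplicit false

/-! # CHR: the height of (φ, 1) is the characteristic function -/

open Topology Filter
open scoped Differential
open Pool.Agent.Work.MP_f82ddf_nt.DQ

namespace Pool.ThmM

namespace CHR

theorem dv_min (hORD : Stmt_ORD) (hVAL : Stmt_VAL) (φ : Mer) (z : ℂ) :
    dv ![φ, 1] z = min (dv1 φ z) 0 := by
  have h1 : dv1 (1 : Mer) z = 0 := by
    obtain ⟨-, -, -, h4, h5, -⟩ := hVAL z
    have h6 := h4 1 one_ne_zero
    rw [map_one, h5 1 one_ne_zero] at h6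
    exact_mod_cast h6
  have hc : (![φ, 1] : Fin 2 → Mer) ≠ 0 := by
    intro h
    have := congrFun h 1
    simp at this
  obtain ⟨h2, i, hi, hi'⟩ := (hORD (Fin 2) ![φ, 1]).2 hc z
  have h3 := h2 1 (by simp)
  simp only [Matrix.cons_val_one, Matrix.cons_val_fin_one] at h3
  rw [h1] at h3
  by_cases hφ : φ = 0
  · have h4 : dv1 φ z = 0 := by
      unfold dv1
      have h5 := ((hVAL z).2.2.1 φ).2 hφ
      by_cases hm : MeromorphicOn (rep φ) Set.univ
      · rw [MeromorphicOn.divisor_apply hm (Set.mem_univ z)]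
        unfold om at h5
        rw [h5]
        rfl
      · simp [MeromorphicOn.divisor, hm]
    rw [h4, min_self]
    fin_cases i
    · simp [hφ] at hi
    · simp only [Fin.mk_one, Matrix.cons_val_one, Matrix.cons_val_fin_one] at hi'
      rw [← hi', h1]
  · have h4 := h2 0 (by simpa using hφ)
    simp only [Matrix.cons_val_zero] at h4
    fin_cases i
    · simp only [Fin.zero_eta, Matrix.cons_val_zero] at hi'
      rw [hi', min_eq_left h3]
    · simp only [Fin.mk_one, Matrix.cons_val_one, Matrix.cons_val_fin_one] at hi'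
      rw [h1] at hi'
      rw [← hi'] at h4 ⊢
      exact (min_eq_right h4).symm

theorem dv_eq (hORD : Stmt_ORD) (hVAL : Stmt_VAL) (φ : Mer) :
    dv ![φ, 1] = -(dv1 φ)⁻ := by
  ext z
  rw [dv_min hORD hVAL]
  have h1 : (-(dv1 φ)⁻ : Function.locallyFinsupp ℂ ℤ) z = -((dv1 φ z)⁻) := by
    simp
  rw [h1, negPart_def]
  show min (dv1 φ z) 0 = -(max (-(dv1 φ z)) 0)
  omega

theorem LL_eq (hALG : Stmt_ALG) (φ : Mer) (r : ℝ) (hr : r ≠ 0) : LL ![φ, 1] r = MP φ r := by
  unfold LL MP
  apply Real.circleAverage_congr_codiscreteWithin _ hr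
  have h1 := hALG.2.2.2.2.2.2.1 1
  rw [map_one] at h1
  refine (Filter.Eventually.filter_mono (codiscreteWithin_mono (Set.subset_univ _)) ?_)
  filter_upwards [h1] with z hz
  have h2 : ‖vec ![φ, 1] z‖ = max 1 ‖rep φ z‖ := by
    unfold vec
    apply le_antisymm
    · rw [pi_norm_le_iff_of_nonneg (le_max_of_le_left zero_le_one)]
      intro i
      fin_cases i
      · simp
      · simp [hz]
    · apply max_le
      · have := norm_le_pi_norm (fun i => rep (![φ, 1] i) z) 1
        simpa [hz] using this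
      · have := norm_le_pi_norm (fun i => rep (![φ, 1] i) z) 0
        simpa using this
  rw [h2, Real.posLog_eq_log_max_one (norm_nonneg _)]

end CHR

open CHR in
theorem p_CHR (_h1 : Stmt_REP) (h2 : Stmt_ALG) (h3 : Stmt_ORD) (h4 : Stmt_VAL) : Stmt_CHR := by
  intro φ
  have hT : ∀ r : ℝ, r ≠ 0 → TT ![φ, 1] r = MP φ r + NN (dv1 φ)⁻ r := by
    intro r hr
    unfold TT
    rw [LL_eq h2 φ r hr, dv_eq h3 h4]
    unfold NN
    rw [map_neg]
    simp
  have hC : ∀ r : ℝ, r ≠ 0 → TT ![φ, 1] r = ValueDistribution.characteristic (rep φ) ⊤ r := by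
    intro r hr
    rw [hT r hr]
    unfold ValueDistribution.characteristic
    rw [Pi.add_apply, ValueDistribution.proximity_top, ValueDistribution.logCounting_top]
    rfl
  refine ⟨hC, ?_, ?_, hT⟩
  · intro a ha b hb hab
    rw [hC a (ne_of_gt ha), hC b (ne_of_gt hb)]
    exact ValueDistribution.characteristic_monotoneOn ((_h1 φ).2.1) ha hb hab
  · intro r hr
    rw [hC r (by linarith)]
    exact ValueDistribution.characteristic_nonneg hr

end Pool.ThmM
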