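import Pool.Agent.Work.MP_f82ddf_M1.Interface

/-! # Theorem M, part 1, block CMP (helper65): comparison of circle averages off a discrete set -/

open Topology Filter

namespace Pool.ThmM

theorem p_CMP : Stmt_CMP := by
  intro g h r hr hg hh hle
  have h1 : g =ᶠ[codiscrete ℂ] fun z => min (g z) (h z) :=
    hle.mono fun z hz => (min_eq_left hz).symm
  have h2 : g =ᶠ[codiscreteWithin (Metric.sphere (0 : ℂ) |r|)] fun z => min (g z) (h z) :=
    h1.filter_mono (codiscreteWithin_mono (Set.subset_univ _))
  rw [Real.circleAverage_congr_codiscreteWithin h2 hr]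
  exact Real.circleAverage_mono (CircleIntegrable.congr_codiscreteWithin h2 hg) hh
    fun z _ => min_le_right _ _

end Pool.ThmM
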