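import Pool.Agent.Work.MP_f82ddf_M1.Interface

/-! # Block DV1 (helper25): rules for divisors -/

open Topology Filter
open scoped Differential
open Pool.Agent.Work.MP_f82ddf_nt.DQ

namespace Pool.ThmM

theorem p_DV1 (hVAL : Stmt_VAL) : Stmt_DV1 := by
  have h1 : ∀ f g : Mer, f ≠ 0 → g ≠ 0 → dv1 (f * g) = dv1 f + dv1 g := by
    intro f g hf hg
    ext z
    obtain ⟨hm, -, -, -, hd, -⟩ := hVAL z
    have e1 := hm f g
    rw [hd _ (mul_ne_zero hf hg), hd f hf, hd g hg] at e1
    show dv1 (f * g) z = dv1 f z + dv1 g z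
    exact_mod_cast e1
  have h3 : ∀ a : ℂ, a ≠ 0 → dv1 (algebraMap ℂ Mer a) = 0 := by
    intro a ha
    ext z
    obtain ⟨-, -, -, hc, hd, -⟩ := hVAL z
    have e1 := hc a ha
    have hne : algebraMap ℂ Mer a ≠ 0 := by
      intro h
      exact ha ((map_eq_zero _).1 h)
    rw [hd _ hne] at e1
    show dv1 (algebraMap ℂ Mer a) z = 0
    exact_mod_cast e1
  have h0 : dv1 (1 : Mer) = 0 := by
    have := h3 1 one_ne_zero
    rwa [map_one] at this
  refine ⟨h1, ?_, h3, ?_⟩
  · intro f hf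
    have e1 := h1 f f⁻¹ hf (inv_ne_zero hf)
    rw [mul_inv_cancel₀ hf, h0] at e1
    exact (neg_eq_of_add_eq_zero_right e1.symm).symm
  · intro f n hf
    induction n with
    | zero => rw [pow_zero, h0, zero_smul]
    | succ n ih => rw [pow_succ, h1 _ _ (pow_ne_zero n hf) hf, ih, succ_nsmul]

end Pool.ThmM
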