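import Pool.Agent.Work.MP_f82ddf_M1.Interface

/-! # Block GAU (helper25): Gauss' lemma for the orders of the coefficients -/

open Topology Filter
open scoped Differential
open Pool.Agent.Work.MP_f82ddf_nt.DQ

namespace Pool.ThmM

namespace GAU

variable {K : Type} [Field K] (w : K → WithTop ℤ)

/-- the rules used -/
structure Va : Prop where
  mul : ∀ f g : K, w (f * g) = w f + w g
  add : ∀ f g : K, min (w f) (w g) ≤ w (f + g)
  top : ∀ f : K, w f = ⊤ ↔ f = 0
  neg : ∀ f : K, w (-f) = w f

variable {w}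

theorem Va.sum_le (h : Va w) {ι : Type} (s : Finset ι) (x : ι → K) (a : WithTop ℤ)
    (hx : ∀ i ∈ s, a ≤ w (x i)) : a ≤ w (∑ i ∈ s, x i) := by
  classical
  induction s using Finset.induction_on with
  | empty =>
    rw [Finset.sum_empty, (h.top 0).2 rfl]
    exact le_top
  | insert i s hi ih =>
    rw [Finset.sum_insert hi]
    refine le_trans (le_min (hx i (Finset.mem_insert_self i s)) ?_) (h.add _ _)
    exact ih fun j hj => hx j (Finset.mem_insert_of_mem hj)

theorem Va.sum_lt (h : Va w) {ι : Type} (s : Finset ι) (x : ι → K) (a : WithTop ℤ) (ha : a < ⊤)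
    (hx : ∀ i ∈ s, a < w (x i)) : a < w (∑ i ∈ s, x i) := by
  classical
  induction s using Finset.induction_on with
  | empty =>
    rw [Finset.sum_empty, (h.top 0).2 rfl]
    exact ha
  | insert i s hi ih =>
    rw [Finset.sum_insert hi]
    refine lt_of_lt_of_le (lt_min (hx i (Finset.mem_insert_self i s)) ?_) (h.add _ _)
    exact ih fun j hj => hx j (Finset.mem_insert_of_mem hj)

theorem Va.add_eq (h : Va w) {x y : K} (hxy : w x < w y) : w (x + y) = w x := by
  apply le_antisymm
  · by_contra hlt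
    rw [not_le] at hlt
    have h1 := h.add (x + y) (-y)
    rw [add_neg_cancel_right, h.neg] at h1
    exact absurd (lt_of_lt_of_le (lt_min hlt hxy) h1) (lt_irrefl _)
  · have h1 := h.add x y
    rwa [min_eq_left hxy.le] at h1

theorem main (h : Va w) {σ : Type} [Finite σ] (F G : MvPolynomial σ K) :
    ((F * G).support.inf fun α => w (MvPolynomial.coeff α (F * G))) =
      (F.support.inf fun α => w (MvPolynomial.coeff α F)) +
        (G.support.inf fun α => w (MvPolynomial.coeff α G)) := by
  classical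
  by_cases hF : F = 0
  · simp [hF]
  by_cases hG : G = 0
  · simp [hG]
  obtain ⟨n, ⟨e⟩⟩ := Finite.exists_equiv_fin σ
  let _ : LinearOrder σ := LinearOrder.lift' e e.injective
  set m : MonomialOrder σ := MonomialOrder.lex with hm
  set a := F.support.inf fun α => w (MvPolynomial.coeff α F) with ha
  set b := G.support.inf fun α => w (MvPolynomial.coeff α G) with hb
  have hFs : F.support.Nonempty := by rwa [MvPolynomial.support_nonempty]
  have hGs : G.support.Nonempty := by rwa [MvPolynomial.support_nonempty]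
  have hFa : ∀ α, a ≤ w (MvPolynomial.coeff α F) := by
    intro α
    by_cases hα : α ∈ F.support
    · exact Finset.inf_le hα
    · rw [MvPolynomial.notMem_support_iff] at hα
      rw [hα, (h.top 0).2 rfl]
      exact le_top
  have hGb : ∀ α, b ≤ w (MvPolynomial.coeff α G) := by
    intro α
    by_cases hα : α ∈ G.support
    · exact Finset.inf_le hα
    · rw [MvPolynomial.notMem_support_iff] at hα
      rw [hα, (h.top 0).2 rfl]
      exact le_top
  obtain ⟨α₁, hα₁, hα₁'⟩ := Finset.exists_mem_eq_inf F.support hFs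
    fun α => w (MvPolynomial.coeff α F)
  obtain ⟨β₁, hβ₁, hβ₁'⟩ := Finset.exists_mem_eq_inf G.support hGs
    fun α => w (MvPolynomial.coeff α G)
  obtain ⟨α₀, hα₀, hα₀'⟩ := Finset.exists_min_image
    (F.support.filter fun α => w (MvPolynomial.coeff α F) = a) m.toSyn
    ⟨α₁, Finset.mem_filter.2 ⟨hα₁, hα₁'.symm⟩⟩
  obtain ⟨β₀, hβ₀, hβ₀'⟩ := Finset.exists_min_image
    (G.support.filter fun α => w (MvPolynomial.coeff α G) = b) m.toSyn
    ⟨β₁, Finset.mem_filter.2 ⟨hβ₁, hβ₁'.symm⟩⟩
  rw [Finset.mem_filter] at hα₀ hβ₀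
  have hFlt : ∀ α, m.toSyn α < m.toSyn α₀ → a < w (MvPolynomial.coeff α F) := by
    intro α hα
    refine lt_of_le_of_ne (hFa α) fun heq => ?_
    by_cases hs : α ∈ F.support
    · exact absurd (hα₀' α (Finset.mem_filter.2 ⟨hs, heq.symm⟩)) (not_le.2 hα)
    · rw [MvPolynomial.notMem_support_iff] at hs
      rw [hs, (h.top 0).2 rfl] at heq
      rw [heq, h.top] at hα₀
      exact (MvPolynomial.mem_support_iff.1 hα₀.1) hα₀.2
  have hGlt : ∀ β, m.toSyn β < m.toSyn β₀ → b < w (MvPolynomial.coeff β G) := by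
    intro α hα
    refine lt_of_le_of_ne (hGb α) fun heq => ?_
    by_cases hs : α ∈ G.support
    · exact absurd (hβ₀' α (Finset.mem_filter.2 ⟨hs, heq.symm⟩)) (not_le.2 hα)
    · rw [MvPolynomial.notMem_support_iff] at hs
      rw [hs, (h.top 0).2 rfl] at heq
      rw [heq, h.top] at hβ₀
      exact (MvPolynomial.mem_support_iff.1 hβ₀.1) hβ₀.2
  have haT : a ≠ ⊤ := by
    intro heq
    rw [heq, h.top] at hα₀
    exact (MvPolynomial.mem_support_iff.1 hα₀.1) hα₀.2
  have hbT : b ≠ ⊤ := by
    intro heq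
    rw [heq, h.top] at hβ₀
    exact (MvPolynomial.mem_support_iff.1 hβ₀.1) hβ₀.2
  have habT : a + b < ⊤ := by
    rw [WithTop.add_lt_top]
    exact ⟨lt_top_iff_ne_top.2 haT, lt_top_iff_ne_top.2 hbT⟩
  have hmem : (α₀, β₀) ∈ Finset.HasAntidiagonal.antidiagonal (α₀ + β₀) := by
    rw [Finset.HasAntidiagonal.mem_antidiagonal]
  have hcoef : w (MvPolynomial.coeff (α₀ + β₀) (F * G)) = a + b := by
    rw [MvPolynomial.coeff_mul, ← Finset.add_sum_erase _ _ hmem]
    have h1 : w (MvPolynomial.coeff α₀ F * MvPolynomial.coeff β₀ G) = a + b := by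
      rw [h.mul, hα₀.2, hβ₀.2]
    have h2 : a + b < w (∑ x ∈ (Finset.HasAntidiagonal.antidiagonal (α₀ + β₀)).erase (α₀, β₀),
        MvPolynomial.coeff x.1 F * MvPolynomial.coeff x.2 G) := by
      refine h.sum_lt _ _ _ habT fun x hx => ?_
      rw [Finset.mem_erase, Finset.HasAntidiagonal.mem_antidiagonal] at hx
      obtain ⟨hne, hs⟩ := hx
      rw [h.mul]
      have hs' : m.toSyn x.1 + m.toSyn x.2 = m.toSyn α₀ + m.toSyn β₀ := by
        rw [← map_add, ← map_add, hs]
      rcases lt_trichotomy (m.toSyn x.1) (m.toSyn α₀) with h3 | h3 | h3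
      · exact WithTop.add_lt_add_of_lt_of_le hbT (hFlt _ h3) (hGb _)
      · exfalso
        apply hne
        have e1 : x.1 = α₀ := m.toSyn.injective h3
        have e2 : x.2 = β₀ := by
          rw [e1] at hs
          exact add_left_cancel hs
        exact Prod.ext e1 e2
      · have h4 : m.toSyn x.2 < m.toSyn β₀ := by
          by_contra h5
          rw [not_lt] at h5
          have h6 := add_lt_add_of_lt_of_le h3 h5
          rw [hs'] at h6
          exact lt_irrefl _ h6
        exact WithTop.add_lt_add_of_le_of_lt haT (hFa _) (hGlt _ h4)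
    rw [h.add_eq (by rw [h1]; exact h2), h1]
  apply le_antisymm
  · rw [← hcoef]
    refine Finset.inf_le (f := fun α => w (MvPolynomial.coeff α (F * G))) ?_
    rw [MvPolynomial.mem_support_iff]
    intro h0
    rw [h0, (h.top 0).2 rfl] at hcoef
    rw [← hcoef] at habT
    exact lt_irrefl _ habT
  · refine Finset.le_inf fun γ _ => ?_
    rw [MvPolynomial.coeff_mul]
    refine h.sum_le _ _ _ fun x _ => ?_
    rw [h.mul]
    exact add_le_add (hFa _) (hGb _)

end GAU

theorem p_GAU (hVAL : Stmt_VAL) : Stmt_GAU := by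
  intro σ _ F G z
  obtain ⟨h1, h2, h3, h4, -, -⟩ := hVAL z
  have hv : GAU.Va (fun f : Mer => om f z) :=
    { mul := h1
      add := h2
      top := h3
      neg := fun f => by
        have h5 : -f = algebraMap ℂ Mer (-1) * f := by
          rw [map_neg, map_one, neg_one_mul]
        rw [h5, h1, h4 _ (by norm_num), zero_add] }
  exact GAU.main hv F G

end Pool.ThmM
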