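import Pool.Agent.Work.MP_f82ddf_M1.Interface

/-! # Block GEL (helper54): heights of products of polynomials -/

open Topology Filter
open scoped Differential
open Pool.Agent.Work.MP_f82ddf_nt.DQ

namespace Pool.ThmM

namespace GEL

theorem rep_zero (hALG : Stmt_ALG) : rep (0 : Mer) =ᶠ[codiscrete ℂ] fun _ => 0 := by
  have := hALG.2.2.2.2.2.2.1 0
  rwa [map_zero] at this

theorem rep_sum (hALG : Stmt_ALG) {ι : Type} (s : Finset ι) (f : ι → Mer) :
    rep (∑ i ∈ s, f i) =ᶠ[codiscrete ℂ] fun z => ∑ i ∈ s, rep (f i) z := by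
  classical
  induction s using Finset.induction_on with
  | empty =>
    simp only [Finset.sum_empty]
    exact rep_zero hALG
  | insert a s ha ih =>
    rw [Finset.sum_insert ha]
    filter_upwards [hALG.2.1 (f a) (∑ i ∈ s, f i), ih] with z h1 h2
    rw [h1, h2, Finset.sum_insert ha]

/-- the value at `z` of the coefficients -/
noncomputable def at' {σ : Type} (F : MvPolynomial σ Mer) (z : ℂ) : MvPolynomial σ ℂ :=
  ∑ α ∈ F.support, MvPolynomial.monomial α (rep (MvPolynomial.coeff α F) z)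

theorem coeff_at {σ : Type} (F : MvPolynomial σ Mer) (z : ℂ) (h0 : rep (0 : Mer) z = 0)
    (α : σ →₀ ℕ) : MvPolynomial.coeff α (at' F z) = rep (MvPolynomial.coeff α F) z := by
  classical
  unfold at'
  rw [MvPolynomial.coeff_sum]
  simp only [MvPolynomial.coeff_monomial]
  rw [Finset.sum_ite_eq']
  split_ifs with h
  · rfl
  · rw [MvPolynomial.notMem_support_iff.1 h, h0]

theorem support_at {σ : Type} (F : MvPolynomial σ Mer) (z : ℂ) (h0 : rep (0 : Mer) z = 0) :
    (at' F z).support ⊆ F.support := by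
  intro α hα
  by_contra h
  rw [MvPolynomial.mem_support_iff, coeff_at F z h0, MvPolynomial.notMem_support_iff.1 h, h0] at hα
  exact hα rfl

theorem coeff_le {σ : Type} (F : MvPolynomial σ Mer) (z : ℂ) (h0 : rep (0 : Mer) z = 0)
    (α : σ →₀ ℕ) : ‖rep (MvPolynomial.coeff α F) z‖ ≤ ‖vec (cf F) z‖ := by
  by_cases h : α ∈ F.support
  · exact norm_le_pi_norm (vec (cf F) z) ⟨α, h⟩
  · rw [MvPolynomial.notMem_support_iff.1 h, h0, norm_zero]
    exact norm_nonneg _

theorem exists_eq {σ : Type} (F : MvPolynomial σ Mer) (hF : F ≠ 0) (z : ℂ) :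
    ∃ α, ‖rep (MvPolynomial.coeff α F) z‖ = ‖vec (cf F) z‖ := by
  have hne : F.support.Nonempty := by
    rw [Finset.nonempty_iff_ne_empty]
    intro h
    exact hF (MvPolynomial.support_eq_empty.1 h)
  obtain ⟨a, ha⟩ := hne
  have : Nonempty F.support := ⟨⟨a, ha⟩⟩
  obtain ⟨i, hi⟩ := Finite.exists_max (fun i : F.support => ‖vec (cf F) z i‖)
  refine ⟨i.1, le_antisymm (norm_le_pi_norm (vec (cf F) z) i) ?_⟩
  rw [pi_norm_le_iff_of_nonneg (norm_nonneg _)]
  exact hi

theorem norm_pos {σ : Type} (hALG : Stmt_ALG) (F : MvPolynomial σ Mer) (hF : F ≠ 0) :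
    ∀ᶠ z in codiscrete ℂ, 0 < ‖vec (cf F) z‖ := by
  have hne : F.support.Nonempty := by
    rw [Finset.nonempty_iff_ne_empty]
    intro h
    exact hF (MvPolynomial.support_eq_empty.1 h)
  obtain ⟨a, ha⟩ := hne
  filter_upwards [hALG.2.2.2.2.2.2.2 _ (MvPolynomial.mem_support_iff.1 ha)] with z hz
  exact lt_of_lt_of_le (norm_pos_iff.2 hz) (norm_le_pi_norm (vec (cf F) z) ⟨a, ha⟩)

/-- generically the coefficients of the product are those of the product of the values -/
theorem mul_at {σ : Type} (hALG : Stmt_ALG) (F G : MvPolynomial σ Mer) :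
    ∀ᶠ z in codiscrete ℂ, ∀ γ, MvPolynomial.coeff γ (at' F z * at' G z) =
      rep (MvPolynomial.coeff γ (F * G)) z := by
  classical
  have h1 : ∀ γ ∈ Finset.image (fun x : (σ →₀ ℕ) × (σ →₀ ℕ) => x.1 + x.2) (F.support ×ˢ G.support),
      ∀ᶠ z in codiscrete ℂ, rep (MvPolynomial.coeff γ (F * G)) z =
        ∑ x ∈ Finset.HasAntidiagonal.antidiagonal γ, rep (MvPolynomial.coeff x.1 F) z *
          rep (MvPolynomial.coeff x.2 G) z := by
    intro γ _
    rw [MvPolynomial.coeff_mul]
    have h2 : ∀ x ∈ Finset.HasAntidiagonal.antidiagonal γ, ∀ᶠ z in codiscrete ℂ,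
        rep (MvPolynomial.coeff x.1 F * MvPolynomial.coeff x.2 G) z =
          rep (MvPolynomial.coeff x.1 F) z * rep (MvPolynomial.coeff x.2 G) z :=
      fun x _ => hALG.2.2.2.1 _ _
    filter_upwards [rep_sum hALG (Finset.HasAntidiagonal.antidiagonal γ)
      (fun x => MvPolynomial.coeff x.1 F * MvPolynomial.coeff x.2 G),
      (Finset.eventually_all _).2 h2] with z hz hz2
    rw [hz]
    exact Finset.sum_congr rfl hz2
  filter_upwards [(Finset.eventually_all _).2 h1, rep_zero hALG] with z hz h0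
  intro γ
  rw [MvPolynomial.coeff_mul]
  simp only [coeff_at _ z h0]
  by_cases hγ : γ ∈ Finset.image (fun x : (σ →₀ ℕ) × (σ →₀ ℕ) => x.1 + x.2)
      (F.support ×ˢ G.support)
  · exact (hz γ hγ).symm
  · have h3 : ∀ x ∈ Finset.HasAntidiagonal.antidiagonal γ, MvPolynomial.coeff x.1 F = 0 ∨
        MvPolynomial.coeff x.2 G = 0 := by
      intro x hx
      by_contra hcon
      push Not at hcon
      apply hγ
      rw [Finset.mem_image]
      exact ⟨x, Finset.mem_product.2 ⟨MvPolynomial.mem_support_iff.2 hcon.1,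
        MvPolynomial.mem_support_iff.2 hcon.2⟩, Finset.HasAntidiagonal.mem_antidiagonal.1 hx⟩
    have h4 : MvPolynomial.coeff γ (F * G) = 0 := by
      rw [MvPolynomial.coeff_mul]
      refine Finset.sum_eq_zero fun x hx => ?_
      rcases h3 x hx with h | h
      · rw [h, zero_mul]
      · rw [h, mul_zero]
    rw [h4, h0]
    refine Finset.sum_eq_zero fun x hx => ?_
    rcases h3 x hx with h | h
    · rw [h, h0, zero_mul]
    · rw [h, h0, mul_zero]

end GEL

open GEL

theorem p_GEL (hGEP : Stmt_GEP) (hGAU : Stmt_GAU) (hVPD : Stmt_VPD) (hALG : Stmt_ALG)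
    (hCMP : Stmt_CMP) (hORD : Stmt_ORD) : Stmt_GEL := by
  intro σ _ F G hF hG
  have hFG : F * G ≠ 0 := mul_ne_zero hF hG
  obtain ⟨c, hc, hgep⟩ := hGEP σ F.support G.support
  -- pointwise
  have hpt : ∀ᶠ z in codiscrete ℂ,
      Real.log ‖vec (cf (F * G)) z‖ ≤ Real.log ‖vec (cf F) z‖ + Real.log ‖vec (cf G) z‖ + |Real.log c| ∧
      Real.log ‖vec (cf F) z‖ + Real.log ‖vec (cf G) z‖ ≤
        Real.log ‖vec (cf (F * G)) z‖ + |Real.log c| := by
    filter_upwards [mul_at hALG F G, rep_zero hALG, norm_pos hALG F hF, norm_pos hALG G hG]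
      with z hz h0 hx hy
    obtain ⟨h1, h2⟩ := hgep (at' F z) (at' G z) (support_at F z h0) (support_at G z h0)
      ‖vec (cf F) z‖ ‖vec (cf G) z‖
      (fun α => by rw [coeff_at F z h0]; exact coeff_le F z h0 α)
      (by
        obtain ⟨α, hα⟩ := exists_eq F hF z
        exact ⟨α, by rw [coeff_at F z h0]; exact hα⟩)
      (fun α => by rw [coeff_at G z h0]; exact coeff_le G z h0 α)
      (by
        obtain ⟨α, hα⟩ := exists_eq G hG z
        exact ⟨α, by rw [coeff_at G z h0]; exact hα⟩)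
    have hxy : 0 < ‖vec (cf F) z‖ * ‖vec (cf G) z‖ := mul_pos hx hy
    have hlow : c * (‖vec (cf F) z‖ * ‖vec (cf G) z‖) ≤ ‖vec (cf (F * G)) z‖ := by
      obtain ⟨γ, hγ⟩ := h1
      rw [hz γ] at hγ
      exact hγ.trans (coeff_le (F * G) z h0 γ)
    have hup : ‖vec (cf (F * G)) z‖ ≤ c⁻¹ * (‖vec (cf F) z‖ * ‖vec (cf G) z‖) := by
      rw [pi_norm_le_iff_of_nonneg (by positivity)]
      intro i
      have := h2 i.1
      rw [hz i.1] at this
      exact this
    have hpos : 0 < ‖vec (cf (F * G)) z‖ := lt_of_lt_of_le (mul_pos hc hxy) hlow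
    have e1 := Real.log_le_log (mul_pos hc hxy) hlow
    have e2 := Real.log_le_log hpos hup
    rw [Real.log_mul hc.ne' hxy.ne', Real.log_mul hx.ne' hy.ne'] at e1
    rw [Real.log_mul (inv_pos.2 hc).ne' hxy.ne', Real.log_mul hx.ne' hy.ne', Real.log_inv] at e2
    have e3 := neg_abs_le (Real.log c)
    constructor
    · linarith
    · linarith
  -- integration
  have hint : ∀ (H : MvPolynomial σ Mer) (r : ℝ),
      CircleIntegrable (fun z => Real.log ‖vec (cf H) z‖) 0 r := fun H r =>
    MeromorphicOn.circleIntegrable_log_norm (fun z _ => (hORD _ (cf H)).1 z)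
  have hLL : ∀ r : ℝ, r ≠ 0 → |LL (cf (F * G)) r - LL (cf F) r - LL (cf G) r| ≤ |Real.log c| := by
    intro r hr
    have i1 := hint F r
    have i2 := hint G r
    have i3 := hint (F * G) r
    have i12 : CircleIntegrable (fun z => Real.log ‖vec (cf F) z‖ + Real.log ‖vec (cf G) z‖) 0 r :=
      i1.add i2
    have i4 : CircleIntegrable (fun _ : ℂ => |Real.log c|) 0 r := circleIntegrable_const _ _ _
    have s1 : Real.circleAverage (fun z => Real.log ‖vec (cf F) z‖ + Real.log ‖vec (cf G) z‖) 0 r =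
        LL (cf F) r + LL (cf G) r := Real.circleAverage_fun_add i1 i2
    have s2 : Real.circleAverage (fun z => Real.log ‖vec (cf F) z‖ + Real.log ‖vec (cf G) z‖ +
        |Real.log c|) 0 r = LL (cf F) r + LL (cf G) r + |Real.log c| := by
      rw [Real.circleAverage_fun_add i12 i4, s1, Real.circleAverage_const]
    have s3 : Real.circleAverage (fun z => Real.log ‖vec (cf (F * G)) z‖ + |Real.log c|) 0 r =
        LL (cf (F * G)) r + |Real.log c| := by
      rw [Real.circleAverage_fun_add i3 i4, Real.circleAverage_const]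
      rfl
    have a1 := hCMP _ _ r hr i3 (i12.add i4) (hpt.mono fun z h => h.1)
    have a2 := hCMP _ _ r hr i12 (i3.add i4) (hpt.mono fun z h => h.2)
    have a1' : LL (cf (F * G)) r ≤ LL (cf F) r + LL (cf G) r + |Real.log c| := by
      rw [← s2]; exact a1
    have a2' : LL (cf F) r + LL (cf G) r ≤ LL (cf (F * G)) r + |Real.log c| := by
      rw [← s1, ← s3]; exact a2
    rw [abs_le]
    constructor <;> linarith
  -- orders
  have hdv : dvP (F * G) = dvP F + dvP G := by
    ext z
    have h := hGAU σ F G z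
    rw [hVPD σ _ hFG z, hVPD σ _ hF z, hVPD σ _ hG z] at h
    have h' : dvP (F * G) z = dvP F z + dvP G z := by exact_mod_cast h
    rw [h']
    rfl
  refine ⟨|Real.log c|, fun r hr => ⟨hLL r hr, ?_⟩⟩
  have hN : NN (dvP (F * G)) r = NN (dvP F) r + NN (dvP G) r := by
    rw [hdv]
    unfold NN
    rw [map_add]
    rfl
  have h := hLL r hr
  have e : TP (F * G) r - TP F r - TP G r = LL (cf (F * G)) r - LL (cf F) r - LL (cf G) r := by
    show (LL (cf (F * G)) r - NN (dvP (F * G)) r) - (LL (cf F) r - NN (dvP F) r) -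
      (LL (cf G) r - NN (dvP G) r) = _
    rw [hN]
    ring
  rw [e]
  exact h

end Pool.ThmM
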