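import Pool.Agent.Work.MP_f82ddf_M1.Interface

set_option autoImplicit false

open Topology Filter

namespace Pool.ThmM

namespace GEP

open MvPolynomial

variable {σ : Type}

/-- The polynomial with given coefficients at the exponents of `A`. -/
private noncomputable def pol (A : Finset (σ →₀ ℕ)) (v : A → ℂ) : MvPolynomial σ ℂ :=
  ∑ α : A, monomial (α : σ →₀ ℕ) (v α)

private theorem coeff_pol_mem (A : Finset (σ →₀ ℕ)) (v : A → ℂ) (α : A) :
    coeff (α : σ →₀ ℕ) (pol A v) = v α := by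
  classical
  unfold pol
  rw [coeff_sum, Finset.sum_eq_single α]
  · rw [coeff_monomial, if_pos rfl]
  · intro β _ hβ
    rw [coeff_monomial, if_neg]
    intro h
    exact hβ (Subtype.ext h)
  · intro h
    exact absurd (Finset.mem_univ α) h

private theorem coeff_pol_notMem (A : Finset (σ →₀ ℕ)) (v : A → ℂ) (α : σ →₀ ℕ) (hα : α ∉ A) :
    coeff α (pol A v) = 0 := by
  classical
  unfold pol
  rw [coeff_sum]
  apply Finset.sum_eq_zero
  intro β _
  rw [coeff_monomial, if_neg]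
  intro h
  exact hα (h ▸ β.2)

private theorem eq_pol (A : Finset (σ →₀ ℕ)) (F : MvPolynomial σ ℂ) (hF : F.support ⊆ A) :
    F = pol A (fun α => coeff (α : σ →₀ ℕ) F) := by
  ext α
  by_cases h : α ∈ A
  · exact (coeff_pol_mem A (fun α => coeff (α : σ →₀ ℕ) F) ⟨α, h⟩).symm
  · rw [coeff_pol_notMem A _ α h]
    by_contra h1
    exact h (hF (mem_support_iff.2 h1))

private theorem pol_smul (A : Finset (σ →₀ ℕ)) (v : A → ℂ) (a : ℂ) :
    pol A (a • v) = a • pol A v := by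
  unfold pol
  rw [Finset.smul_sum]
  refine Finset.sum_congr rfl fun α _ => ?_
  rw [smul_monomial]
  rfl

private theorem pol_ne_zero (A : Finset (σ →₀ ℕ)) (v : A → ℂ) (hv : v ≠ 0) : pol A v ≠ 0 := by
  intro h
  apply hv
  funext α
  rw [← coeff_pol_mem A v α, h]
  simp

private theorem continuous_coeff (A : Finset (σ →₀ ℕ)) (γ : σ →₀ ℕ) :
    Continuous fun v : A → ℂ => coeff γ (pol A v) := by
  by_cases h : γ ∈ A
  · have : (fun v : A → ℂ => coeff γ (pol A v)) = fun v => v ⟨γ, h⟩ := by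
      funext v
      exact coeff_pol_mem A v ⟨γ, h⟩
    rw [this]
    exact continuous_apply _
  · have : (fun v : A → ℂ => coeff γ (pol A v)) = fun _ => 0 := by
      funext v
      exact coeff_pol_notMem A v γ h
    rw [this]
    exact continuous_const

private theorem continuous_mul (A B : Finset (σ →₀ ℕ)) (γ : σ →₀ ℕ) :
    Continuous fun p : (A → ℂ) × (B → ℂ) => coeff γ (pol A p.1 * pol B p.2) := by
  classical
  have : (fun p : (A → ℂ) × (B → ℂ) => coeff γ (pol A p.1 * pol B p.2)) =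
      fun p => ∑ x ∈ Finset.HasAntidiagonal.antidiagonal γ, coeff x.1 (pol A p.1) * coeff x.2 (pol B p.2) := by
    funext p
    rw [coeff_mul]
  rw [this]
  refine continuous_finsetSum _ fun x _ => ?_
  exact ((continuous_coeff A x.1).comp continuous_fst).mul
    ((continuous_coeff B x.2).comp continuous_snd)

private theorem norm_eq (A : Finset (σ →₀ ℕ)) (F : MvPolynomial σ ℂ) (hF : F.support ⊆ A) (x : ℝ)
    (hx : ∀ α, ‖F.coeff α‖ ≤ x) (hx' : ∃ α, ‖F.coeff α‖ = x) :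
    ‖(fun α : A => coeff (α : σ →₀ ℕ) F)‖ = x := by
  obtain ⟨α, hα⟩ := hx'
  have hx0 : 0 ≤ x := hα ▸ norm_nonneg _
  apply le_antisymm
  · rw [pi_norm_le_iff_of_nonneg hx0]
    intro β
    exact hx _
  · by_cases h : α ∈ A
    · rw [← hα]
      exact norm_le_pi_norm (fun α : A => coeff (α : σ →₀ ℕ) F) ⟨α, h⟩
    · have h1 : coeff α F = 0 := by
        by_contra h1
        exact h (hF (mem_support_iff.2 h1))
      rw [← hα, h1, norm_zero]
      exact norm_nonneg _

private theorem upper (A : Finset (σ →₀ ℕ)) (F G : MvPolynomial σ ℂ) (hF : F.support ⊆ A)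
    (x y : ℝ) (hx : ∀ α, ‖F.coeff α‖ ≤ x) (hy : ∀ α, ‖G.coeff α‖ ≤ y) (γ : σ →₀ ℕ) :
    ‖(F * G).coeff γ‖ ≤ A.card * (x * y) := by
  classical
  have hx0 : 0 ≤ x := (norm_nonneg _).trans (hx 0)
  have hy0 : 0 ≤ y := (norm_nonneg _).trans (hy 0)
  rw [coeff_mul]
  refine (norm_sum_le _ _).trans ?_
  have h1 : ∑ p ∈ Finset.HasAntidiagonal.antidiagonal γ, ‖coeff p.1 F * coeff p.2 G‖ =
      ∑ p ∈ (Finset.HasAntidiagonal.antidiagonal γ).filter (fun p => p.1 ∈ A), ‖coeff p.1 F * coeff p.2 G‖ := by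
    symm
    apply Finset.sum_subset (Finset.filter_subset _ _)
    intro p hp hp'
    have h2 : p.1 ∉ A := fun h => hp' (Finset.mem_filter.2 ⟨hp, h⟩)
    have h3 : coeff p.1 F = 0 := by
      by_contra h3
      exact h2 (hF (mem_support_iff.2 h3))
    rw [h3, zero_mul, norm_zero]
  rw [h1]
  have h2 : ((Finset.HasAntidiagonal.antidiagonal γ).filter (fun p => p.1 ∈ A)).card ≤ A.card := by
    apply Finset.card_le_card_of_injOn (fun p => p.1)
    · intro p hp
      exact (Finset.mem_filter.1 hp).2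
    · intro p hp q hq hpq
      have hp1 := Finset.HasAntidiagonal.mem_antidiagonal.1 (Finset.mem_filter.1 hp).1
      have hq1 := Finset.HasAntidiagonal.mem_antidiagonal.1 (Finset.mem_filter.1 hq).1
      have h3 : p.1 = q.1 := hpq
      refine Prod.ext h3 ?_
      have h4 : p.1 + p.2 = p.1 + q.2 := by rw [hp1, h3, hq1]
      exact add_left_cancel h4
  calc ∑ p ∈ (Finset.HasAntidiagonal.antidiagonal γ).filter (fun p => p.1 ∈ A), ‖coeff p.1 F * coeff p.2 G‖
      ≤ ∑ p ∈ (Finset.HasAntidiagonal.antidiagonal γ).filter (fun p => p.1 ∈ A), x * y := by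
        refine Finset.sum_le_sum fun p _ => ?_
        rw [norm_mul]
        exact mul_le_mul (hx _) (hy _) (norm_nonneg _) hx0
    _ = ((Finset.HasAntidiagonal.antidiagonal γ).filter (fun p => p.1 ∈ A)).card * (x * y) := by
        rw [Finset.sum_const, nsmul_eq_mul]
    _ ≤ A.card * (x * y) := by
        refine mul_le_mul_of_nonneg_right ?_ (mul_nonneg hx0 hy0)
        exact_mod_cast h2

private theorem lower (A B : Finset (σ →₀ ℕ)) : ∃ c : ℝ, 0 < c ∧ ∀ F G : MvPolynomial σ ℂ,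
    F.support ⊆ A → G.support ⊆ B → ∀ x y : ℝ, (∀ α, ‖F.coeff α‖ ≤ x) →
    (∃ α, ‖F.coeff α‖ = x) → (∀ α, ‖G.coeff α‖ ≤ y) → (∃ α, ‖G.coeff α‖ = y) →
    ∃ γ, c * (x * y) ≤ ‖(F * G).coeff γ‖ := by
  classical
  set C : Finset (σ →₀ ℕ) := (A ×ˢ B).image (fun p => p.1 + p.2) with hC
  set g : (A → ℂ) × (B → ℂ) → ℝ := fun p => ∑ γ ∈ C, ‖coeff γ (pol A p.1 * pol B p.2)‖ with hg
  have hgc : Continuous g := by
    refine continuous_finsetSum _ fun γ _ => ?_
    exact (continuous_mul A B γ).norm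
  set K : Set ((A → ℂ) × (B → ℂ)) := Metric.sphere (0 : A → ℂ) 1 ×ˢ Metric.sphere (0 : B → ℂ) 1
    with hK
  have hKc : IsCompact K := (isCompact_sphere _ _).prod (isCompact_sphere _ _)
  have hpos : ∀ p ∈ K, 0 < g p := by
    rintro ⟨v, w⟩ ⟨hv, hw⟩
    have hv0 : v ≠ 0 := by
      rintro rfl
      simp at hv
    have hw0 : w ≠ 0 := by
      rintro rfl
      simp at hw
    have h1 : pol A v * pol B w ≠ 0 := mul_ne_zero (pol_ne_zero A v hv0) (pol_ne_zero B w hw0)
    obtain ⟨γ, hγ⟩ := MvPolynomial.ne_zero_iff.1 h1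
    have hγC : γ ∈ C := by
      rw [coeff_mul] at hγ
      obtain ⟨p, hp, hp'⟩ := Finset.exists_ne_zero_of_sum_ne_zero hγ
      have h2 : p.1 ∈ A := by
        by_contra h
        exact hp' (by rw [coeff_pol_notMem A v _ h, zero_mul])
      have h3 : p.2 ∈ B := by
        by_contra h
        exact hp' (by rw [coeff_pol_notMem B w _ h, mul_zero])
      rw [hC, Finset.mem_image]
      exact ⟨p, Finset.mem_product.2 ⟨h2, h3⟩, Finset.HasAntidiagonal.mem_antidiagonal.1 hp⟩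
    refine Finset.sum_pos' (fun _ _ => norm_nonneg _) ⟨γ, hγC, norm_pos_iff.2 hγ⟩
  obtain ⟨c0, hc0, hmin⟩ : ∃ c0 : ℝ, 0 < c0 ∧ ∀ p ∈ K, c0 ≤ g p := by
    rcases K.eq_empty_or_nonempty with h | h
    · exact ⟨1, one_pos, fun p hp => by rw [h] at hp; exact absurd hp (Set.notMem_empty p)⟩
    · obtain ⟨p, hp, hp'⟩ := hKc.exists_isMinOn h hgc.continuousOn
      exact ⟨g p, hpos p hp, fun q hq => hp' hq⟩
  refine ⟨c0 / (C.card + 1), by positivity, ?_⟩
  intro F G hF hG x y hx hx' hy hy'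
  by_contra hcon
  push Not at hcon
  have hx0 : 0 ≤ x := (norm_nonneg _).trans (hx 0)
  have hy0 : 0 ≤ y := (norm_nonneg _).trans (hy 0)
  have hpos' : 0 < c0 / (C.card + 1) * (x * y) := lt_of_le_of_lt (norm_nonneg _) (hcon 0)
  have hxy : 0 < x * y := by
    rcases (mul_nonneg hx0 hy0).lt_or_eq with h | h
    · exact h
    · rw [← h, mul_zero] at hpos'
      exact absurd hpos' (lt_irrefl 0)
  have hx1 : 0 < x := by
    rcases hx0.lt_or_eq with h | h
    · exact h
    · rw [← h, zero_mul] at hxy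
      exact absurd hxy (lt_irrefl 0)
  have hy1 : 0 < y := by
    rcases hy0.lt_or_eq with h | h
    · exact h
    · rw [← h, mul_zero] at hxy
      exact absurd hxy (lt_irrefl 0)
  set v : A → ℂ := fun α => coeff (α : σ →₀ ℕ) F with hv
  set w : B → ℂ := fun α => coeff (α : σ →₀ ℕ) G with hw
  have hvn : ‖v‖ = x := norm_eq A F hF x hx hx'
  have hwn : ‖w‖ = y := norm_eq B G hG y hy hy'
  have hp : (((x : ℂ)⁻¹ • v, (y : ℂ)⁻¹ • w) : (A → ℂ) × (B → ℂ)) ∈ K := by
    constructor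
    · rw [mem_sphere_zero_iff_norm, norm_smul, hvn, norm_inv, Complex.norm_real,
        Real.norm_of_nonneg hx0, inv_mul_cancel₀ hx1.ne']
    · rw [mem_sphere_zero_iff_norm, norm_smul, hwn, norm_inv, Complex.norm_real,
        Real.norm_of_nonneg hy0, inv_mul_cancel₀ hy1.ne']
  have h1 := hmin _ hp
  have h2 : g ((x : ℂ)⁻¹ • v, (y : ℂ)⁻¹ • w) = (x * y)⁻¹ * ∑ γ ∈ C, ‖coeff γ (F * G)‖ := by
    rw [hg, Finset.mul_sum]
    refine Finset.sum_congr rfl fun γ _ => ?_
    change ‖coeff γ (pol A ((x : ℂ)⁻¹ • v) * pol B ((y : ℂ)⁻¹ • w))‖ = _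
    rw [pol_smul, pol_smul, ← eq_pol A F hF, ← eq_pol B G hG, smul_mul_smul_comm, coeff_smul,
      smul_eq_mul, norm_mul, norm_mul, norm_inv, norm_inv, Complex.norm_real, Complex.norm_real,
      Real.norm_of_nonneg hx0, Real.norm_of_nonneg hy0, mul_inv]
  rw [h2] at h1
  have h3 : ∑ γ ∈ C, ‖coeff γ (F * G)‖ ≤ C.card * (c0 / (C.card + 1) * (x * y)) := by
    rw [← nsmul_eq_mul, ← Finset.sum_const]
    exact Finset.sum_le_sum fun γ _ => (hcon γ).le
  have h4 : c0 ≤ (x * y)⁻¹ * (C.card * (c0 / (C.card + 1) * (x * y))) :=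
    h1.trans (mul_le_mul_of_nonneg_left h3 (inv_nonneg.2 hxy.le))
  have h5 : (x * y)⁻¹ * (C.card * (c0 / (C.card + 1) * (x * y))) =
      C.card / (C.card + 1) * c0 := by
    field_simp
  rw [h5] at h4
  have h6 : (C.card : ℝ) / (C.card + 1) < 1 := by
    rw [div_lt_one (by positivity)]
    linarith
  nlinarith

end GEP

theorem p_GEP : Stmt_GEP := by
  intro σ _ A B
  obtain ⟨c, hc, h⟩ := GEP.lower A B
  refine ⟨min c ((A.card : ℝ) + 1)⁻¹, lt_min hc (by positivity), ?_⟩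
  intro F G hF hG x y hx hx' hy hy'
  have hx0 : 0 ≤ x := (norm_nonneg _).trans (hx 0)
  have hy0 : 0 ≤ y := (norm_nonneg _).trans (hy 0)
  have hxy : 0 ≤ x * y := mul_nonneg hx0 hy0
  constructor
  · obtain ⟨γ, hγ⟩ := h F G hF hG x y hx hx' hy hy'
    exact ⟨γ, (mul_le_mul_of_nonneg_right (min_le_left _ _) hxy).trans hγ⟩
  · intro γ
    refine (GEP.upper A F G hF x y hx hy γ).trans ?_
    refine mul_le_mul_of_nonneg_right ?_ hxy
    have h1 : ((A.card : ℝ) + 1)⁻¹⁻¹ ≤ (min c ((A.card : ℝ) + 1)⁻¹)⁻¹ :=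
      inv_anti₀ (lt_min hc (by positivity)) (min_le_right _ _)
    rw [inv_inv] at h1
    linarith

end Pool.ThmM
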