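import Pool.Agent.Work.MP_f82ddf_M1.Interface

/-! # Block JEN (helper87): Jensen's formula -/

open Topology Filter
open scoped Differential
open Pool.Agent.Work.MP_f82ddf_nt.DQ

namespace Pool.ThmM

theorem p_JEN (hR : Stmt_REP) : Stmt_JEN := by
  intro f
  obtain ⟨_, hm, _, _⟩ := hR f
  refine ⟨Real.log ‖meromorphicTrailingCoeffAt (rep f) 0‖, fun r hr => ?_⟩
  have h1 := Function.locallyFinsuppWithin.logCounting_divisor_eq_circleAverage_sub_const hm hr
  have h2 : NN (dv1 f) r = Function.locallyFinsuppWithin.logCounting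
    (MeromorphicOn.divisor (rep f) Set.univ) r := rfl
  rw [h2, h1]
  unfold LL1
  ring

end Pool.ThmM
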