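import Pool.Agent.Work.MP_f82ddf_M1.Interface

/-!
# Block LIN: linear images of tuples
-/

open Topology Filter
open scoped Differential
open Pool.Agent.Work.MP_f82ddf_nt.DQ

namespace Pool.ThmM

namespace LIN

theorem om_sum (hVAL : Stmt_VAL) {ι : Type} (s : Finset ι) (g : ι → Mer) (z : ℂ) (m : WithTop ℤ)
    (h : ∀ i ∈ s, m ≤ om (g i) z) : m ≤ om (∑ i ∈ s, g i) z := by
  classical
  induction s using Finset.induction_on with
  | empty =>
    rw [Finset.sum_empty, (hVAL z).2.2.1 0 |>.2 rfl]
    exact le_top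
  | insert a s ha ih =>
    rw [Finset.sum_insert ha]
    refine le_trans (le_min ?_ ?_) ((hVAL z).2.1 _ _)
    · exact h a (Finset.mem_insert_self _ _)
    · exact ih fun i hi => h i (Finset.mem_insert_of_mem hi)

theorem rep_sum (hALG : Stmt_ALG) {ι : Type} (s : Finset ι) (g : ι → Mer) (G : ι → ℂ → ℂ)
    (h : ∀ i ∈ s, rep (g i) =ᶠ[codiscrete ℂ] G i) :
    rep (∑ i ∈ s, g i) =ᶠ[codiscrete ℂ] fun z => ∑ i ∈ s, G i z := by
  classical
  induction s using Finset.induction_on with
  | empty =>
    have h0 := hALG.2.2.2.2.2.2.1 0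
    rw [map_zero] at h0
    simpa using h0
  | insert a s ha ih =>
    rw [Finset.sum_insert ha]
    have h1 := ih fun i hi => h i (Finset.mem_insert_of_mem hi)
    have h2 := h a (Finset.mem_insert_self _ _)
    filter_upwards [hALG.2.1 (g a) (∑ i ∈ s, g i), h1, h2] with z e1 e2 e3
    rw [e1, e2, e3, Finset.sum_insert ha]

end LIN

theorem p_LIN (_hREP : Stmt_REP) (hALG : Stmt_ALG) (hORD : Stmt_ORD) (hVAL : Stmt_VAL)
    (hCMP : Stmt_CMP) : Stmt_LIN := by
  intro ι κ _ _ M c d hd hd0
  have hc0 : c ≠ 0 := by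
    rintro rfl
    apply hd0
    funext k
    rw [hd k]
    simp
  obtain ⟨hmc, hc⟩ := hORD ι c
  obtain ⟨hmd, hdd⟩ := hORD κ d
  refine ⟨?_, ?_⟩
  · rw [Function.locallyFinsuppWithin.le_def]
    intro z
    obtain ⟨k, hk0, hk⟩ := (hdd hd0 z).2
    rw [← hk]
    have h1 : ((dv c z : ℤ) : WithTop ℤ) ≤ om (d k) z := by
      rw [hd k]
      refine LIN.om_sum hVAL _ _ z _ fun i _ => ?_
      by_cases hM : M k i = 0
      · rw [hM, map_zero, zero_mul, ((hVAL z).2.2.1 0).2 rfl]
        exact le_top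
      by_cases hci : c i = 0
      · rw [hci, mul_zero, ((hVAL z).2.2.1 0).2 rfl]
        exact le_top
      rw [(hVAL z).1, (hVAL z).2.2.2.1 _ hM, zero_add, (hVAL z).2.2.2.2.1 _ hci]
      exact_mod_cast (hc hc0 z).1 i hci
    rw [(hVAL z).2.2.2.2.1 _ hk0] at h1
    exact_mod_cast h1
  · set K : ℝ := (∑ k, ∑ i, ‖M k i‖) + 1 with hK
    have hS : 0 ≤ ∑ k, ∑ i, ‖M k i‖ := Finset.sum_nonneg fun k _ =>
      Finset.sum_nonneg fun i _ => norm_nonneg _
    have hK0 : 0 < K := by linarith
    refine ⟨Real.log K, ?_⟩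
    intro r hr
    have hrow : ∀ k, rep (d k) =ᶠ[codiscrete ℂ] fun z => ∑ i, M k i * rep (c i) z := by
      intro k
      rw [hd k]
      refine LIN.rep_sum hALG _ _ (fun i z => M k i * rep (c i) z) fun i _ => ?_
      filter_upwards [hALG.2.2.2.1 (algebraMap ℂ Mer (M k i)) (c i), hALG.2.2.2.2.2.2.1 (M k i)]
        with z e1 e2
      rw [e1, e2]
    have hall : ∀ᶠ z in codiscrete ℂ, ∀ k, rep (d k) z = ∑ i, M k i * rep (c i) z :=
      Filter.eventually_all.2 hrow
    obtain ⟨k0, hk0⟩ : ∃ k, d k ≠ 0 := by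
      by_contra hcon
      push Not at hcon
      exact hd0 (funext hcon)
    have hne : ∀ᶠ z in codiscrete ℂ, rep (d k0) z ≠ 0 := hALG.2.2.2.2.2.2.2 _ hk0
    have hintc : CircleIntegrable (fun z => Real.log ‖vec c z‖) 0 r :=
      MeromorphicOn.circleIntegrable_log_norm fun z _ => hmc z
    have hintd : CircleIntegrable (fun z => Real.log ‖vec d z‖) 0 r :=
      MeromorphicOn.circleIntegrable_log_norm fun z _ => hmd z
    have hintK : CircleIntegrable (fun _ : ℂ => Real.log K) 0 r := circleIntegrable_const _ _ _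
    have hcmp := hCMP (fun z => Real.log ‖vec d z‖)
      ((fun z => Real.log ‖vec c z‖) + fun _ => Real.log K) r hr hintd (hintc.add hintK) (by
        filter_upwards [hall, hne] with z h1 h2
        have hb : ‖vec d z‖ ≤ K * ‖vec c z‖ := by
          refine (pi_norm_le_iff_of_nonneg (by positivity)).2 fun k => ?_
          change ‖rep (d k) z‖ ≤ _
          rw [h1 k]
          calc ‖∑ i, M k i * rep (c i) z‖ ≤ ∑ i, ‖M k i * rep (c i) z‖ := norm_sum_le _ _
            _ ≤ ∑ i, ‖M k i‖ * ‖vec c z‖ := by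
              refine Finset.sum_le_sum fun i _ => ?_
              rw [norm_mul]
              exact mul_le_mul_of_nonneg_left (norm_le_pi_norm (vec c z) i) (norm_nonneg _)
            _ = (∑ i, ‖M k i‖) * ‖vec c z‖ := by rw [Finset.sum_mul]
            _ ≤ K * ‖vec c z‖ := by
              refine mul_le_mul_of_nonneg_right ?_ (norm_nonneg _)
              have : ∑ i, ‖M k i‖ ≤ ∑ k, ∑ i, ‖M k i‖ :=
                Finset.single_le_sum (f := fun k => ∑ i, ‖M k i‖)
                  (fun k _ => Finset.sum_nonneg fun i _ => norm_nonneg _) (Finset.mem_univ k)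
              linarith
        have hd1 : 0 < ‖vec d z‖ := by
          rw [norm_pos_iff]
          intro h0
          exact h2 (congrFun h0 k0)
        have hc1 : 0 < ‖vec c z‖ := by
          by_contra hcon
          have : ‖vec c z‖ = 0 := le_antisymm (not_lt.1 hcon) (norm_nonneg _)
          rw [this, mul_zero] at hb
          linarith
        change Real.log ‖vec d z‖ ≤ Real.log ‖vec c z‖ + Real.log K
        rw [← Real.log_mul hc1.ne' hK0.ne', mul_comm]
        exact Real.log_le_log hd1 hb)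
    rw [Real.circleAverage_add hintc hintK, Real.circleAverage_const] at hcmp
    exact hcmp

end Pool.ThmM
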