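import Pool.Agent.Work.MP_f82ddf_M1.Interface

/-! # Block LOW (helper29): heights are bounded below, first main theorem -/

open Topology Filter
open scoped Differential
open Pool.Agent.Work.MP_f82ddf_nt.DQ

namespace Pool.ThmM

namespace LOW

theorem mer_rep (f : Mer) (z : ℂ) : MeromorphicAt (rep f) z :=
  ((meromorphicNFOn_toMeromorphicNFOn (Mer.exists_mk f).choose Set.univ :
    MeromorphicNFOn (rep f) Set.univ) (Set.mem_univ z)).meromorphicAt

/-- The tuple with one entry. -/
theorem vec_one (f : Mer) : vec (fun _ : Unit => f) = rep f • fun _ : ℂ => (fun _ : Unit => (1 : ℂ)) := by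
  funext z u
  simp [vec]

theorem dv_one (f : Mer) : dv (fun _ : Unit => f) = dv1 f := by
  have h1 : ∀ z, MeromorphicAt (vec (fun _ : Unit => f)) z := by
    intro z
    rw [vec_one]
    exact (mer_rep f z).smul (MeromorphicAt.const _ z)
  ext z
  show MeromorphicOn.divisor (vec (fun _ : Unit => f)) Set.univ z =
    MeromorphicOn.divisor (rep f) Set.univ z
  rw [MeromorphicOn.divisor_apply (fun z _ => h1 z) (Set.mem_univ z),
    MeromorphicOn.divisor_apply (fun z _ => mer_rep f z) (Set.mem_univ z), vec_one,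
    meromorphicOrderAt_smul (mer_rep f z) (MeromorphicAt.const _ z)]
  classical
  rw [meromorphicOrderAt_const, if_neg, add_zero]
  intro h
  have := congrFun h ()
  simp at this

theorem LL_one (f : Mer) (r : ℝ) : LL (fun _ : Unit => f) r = LL1 f r := by
  unfold LL LL1
  congr 1
  funext z
  have : ‖vec (fun _ : Unit => f) z‖ = ‖rep f z‖ := pi_norm_const (rep f z)
  rw [this]

end LOW

theorem p_LOW (h1 : Stmt_LIN) (h2 : Stmt_JEN) (h3 : Stmt_NNP) (_ : Stmt_SML) : Stmt_LOW := by
  intro ι _ c m f hf hf0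
  have hd : (fun _ : Unit => f) ≠ 0 := fun h => hf0 (congrFun h ())
  obtain ⟨e1, C1, e2⟩ := h1 ι Unit (fun _ i => m i) c (fun _ => f) (fun _ => hf) hd
  rw [LOW.dv_one] at e1
  obtain ⟨C0, e3⟩ := h2 f
  obtain ⟨-, nsub, -, -, npos, -⟩ := h3
  refine ⟨e1, C0, C1 + |C1| + |C0|, ?_, ?_, ?_⟩
  · intro r hr
    have := e3 r hr
    unfold TT
    rw [nsub]
    linarith
  · intro r hr
    have h4 := e2 r hr
    rw [LOW.LL_one] at h4
    have := abs_nonneg C1
    have := abs_nonneg C0
    linarith
  · intro r hr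
    have hr0 : r ≠ 0 := by linarith
    have h4 := e2 r hr0
    rw [LOW.LL_one] at h4
    have h5 := e3 r hr0
    have h6 : 0 ≤ NN (dv1 f - dv c) r := npos _ r (sub_nonneg.2 e1) hr
    rw [nsub] at h6
    unfold TT
    have := abs_nonneg C1
    have := neg_abs_le C0
    linarith

end Pool.ThmM
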