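import Pool.Agent.Work.MP_f82ddf_M1.Interface

set_option autoImplicit false

open Topology Filter
open Pool.Agent.Work.MP_f82ddf_nt.DQ

namespace Pool.ThmM

namespace ORD

private theorem mero {ι : Type} [Fintype ι] (c : ι → Mer) (h : ∀ i, Meromorphic (rep (c i))) :
    Meromorphic (vec c) := by
  intro x
  have hx : ∀ i, MeromorphicAt (rep (c i)) x := fun i => h i x
  choose n hn using hx
  refine ⟨Finset.univ.sup n, ?_⟩
  have h1 : (fun z => (z - x) ^ (Finset.univ.sup n) • vec c z) =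
      fun z i => (z - x) ^ (Finset.univ.sup n - n i) * ((z - x) ^ n i • rep (c i) z) := by
    funext z i
    have h2 : n i ≤ Finset.univ.sup n := Finset.le_sup (Finset.mem_univ i)
    rw [Pi.smul_apply, smul_eq_mul, smul_eq_mul, ← mul_assoc, ← pow_add, Nat.sub_add_cancel h2]
    rfl
  rw [h1]
  refine AnalyticAt.pi fun i => ?_
  exact ((analyticAt_id.sub analyticAt_const).pow _).mul (hn i)

private theorem order {ι : Type} [Fintype ι] (c : ι → Mer) (hm : ∀ i, Meromorphic (rep (c i)))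
    (z : ℂ) (m : ι → ℤ) (S : Finset ι) (m₀ : ℤ) (hS : ∀ i ∈ S, m₀ ≤ m i)
    (i₀ : ι) (hi₀ : i₀ ∈ S) (hi₀' : m i₀ = m₀)
    (ho : ∀ i ∈ S, meromorphicOrderAt (rep (c i)) z = (m i : ℤ))
    (ho' : ∀ i, i ∉ S → meromorphicOrderAt (rep (c i)) z = ⊤) :
    meromorphicOrderAt (vec c) z = (m₀ : ℤ) := by
  classical
  have hmv : MeromorphicAt (vec c) z := mero c hm z
  rw [meromorphicOrderAt_eq_int_iff hmv]
  have h1 : ∀ i ∈ S, ∃ g : ℂ → ℂ, AnalyticAt ℂ g z ∧ g z ≠ 0 ∧
      ∀ᶠ w in 𝓝[≠] z, rep (c i) w = (w - z) ^ m i • g w := by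
    intro i hi
    exact (meromorphicOrderAt_eq_int_iff (hm i z)).1 (ho i hi)
  choose! g hg hg0 hgr using h1
  refine ⟨fun w i => if i ∈ S then (w - z) ^ (m i - m₀).toNat * g i w else 0, ?_, ?_, ?_⟩
  · refine AnalyticAt.pi fun i => ?_
    by_cases hi : i ∈ S
    · simp only [if_pos hi]
      exact ((analyticAt_id.sub analyticAt_const).pow _).mul (hg i hi)
    · simp only [if_neg hi]
      exact analyticAt_const
  · intro h
    have h2 := congrFun h i₀
    simp only [if_pos hi₀, hi₀', sub_self, Int.toNat_zero, pow_zero, one_mul, Pi.zero_apply] at h2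
    exact hg0 i₀ hi₀ h2
  · have h3 : ∀ i, ∀ᶠ w in 𝓝[≠] z, rep (c i) w =
        (w - z) ^ m₀ * (if i ∈ S then (w - z) ^ (m i - m₀).toNat * g i w else 0) := by
      intro i
      by_cases hi : i ∈ S
      · simp only [if_pos hi]
        filter_upwards [hgr i hi, self_mem_nhdsWithin] with w hw hw'
        have hw0 : w - z ≠ 0 := sub_ne_zero.2 hw'
        rw [hw, smul_eq_mul, ← mul_assoc]
        congr 1
        have h4 : m i = m₀ + ((m i - m₀).toNat : ℤ) := by
          rw [Int.toNat_of_nonneg (sub_nonneg.2 (hS i hi))]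
          ring
        conv_lhs => rw [h4]
        rw [zpow_add₀ hw0, zpow_natCast]
      · simp only [if_neg hi, mul_zero]
        exact meromorphicOrderAt_eq_top_iff.1 (ho' i hi)
    filter_upwards [eventually_all.2 h3] with w hw
    funext i
    rw [Pi.smul_apply, smul_eq_mul]
    exact hw i

end ORD

theorem p_ORD (hR : Stmt_REP) (hV : Stmt_VAL) : Stmt_ORD := by
  classical
  intro ι _ c
  have hm : ∀ i, Meromorphic (rep (c i)) := fun i => (hR (c i)).2.1
  refine ⟨ORD.mero c hm, fun hc z => ?_⟩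
  obtain ⟨-, -, hV3, -, hV5, -⟩ := hV z
  set S : Finset ι := Finset.univ.filter (fun i => c i ≠ 0) with hSdef
  have hSne : S.Nonempty := by
    obtain ⟨i, hi⟩ := Function.ne_iff.1 hc
    exact ⟨i, Finset.mem_filter.2 ⟨Finset.mem_univ i, hi⟩⟩
  obtain ⟨i₀, hi₀, hmin⟩ := S.exists_min_image (fun i => dv1 (c i) z) hSne
  have hi₀0 : c i₀ ≠ 0 := (Finset.mem_filter.1 hi₀).2
  have ho : meromorphicOrderAt (vec c) z = (dv1 (c i₀) z : ℤ) := by
    refine ORD.order c hm z (fun i => dv1 (c i) z) S (dv1 (c i₀) z) hmin i₀ hi₀ rfl ?_ ?_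
    · intro i hi
      exact hV5 (c i) (Finset.mem_filter.1 hi).2
    · intro i hi
      have h1 : c i = 0 := by
        by_contra h1
        exact hi (Finset.mem_filter.2 ⟨Finset.mem_univ i, h1⟩)
      exact (hV3 (c i)).2 h1
  have hdv : dv c z = dv1 (c i₀) z := by
    unfold dv
    rw [MeromorphicOn.divisor_apply (fun x _ => ORD.mero c hm x) (Set.mem_univ z), ho]
    rfl
  refine ⟨fun i hi => ?_, i₀, hi₀0, hdv.symm⟩
  rw [hdv]
  exact hmin i (Finset.mem_filter.2 ⟨Finset.mem_univ i, hi⟩)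

end Pool.ThmM
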