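import Pool.Agent.Work.MP_f82ddf_M1.Interface

/-! # Block POL (helper87): polynomial expressions of representatives -/

open Topology Filter
open scoped Differential
open Pool.Agent.Work.MP_f82ddf_nt.DQ

namespace Pool.ThmM

theorem p_POL (hA : Stmt_ALG) : Stmt_POL := by
  obtain ⟨_, hadd, _, hmul, _, _, hconst, _⟩ := hA
  intro ι _ P c
  induction P using MvPolynomial.induction_on with
  | C a =>
    have h1 := hconst a
    rw [MvPolynomial.aeval_C]
    filter_upwards [h1] with z h2
    rw [h2, MvPolynomial.eval_C]
  | add p q hp hq =>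
    rw [map_add]
    filter_upwards [hp, hq, hadd (MvPolynomial.aeval c p) (MvPolynomial.aeval c q)] with z h1 h2 h3
    rw [h3, h1, h2, map_add]
  | mul_X p i hp =>
    rw [map_mul, MvPolynomial.aeval_X]
    filter_upwards [hp, hmul (MvPolynomial.aeval c p) (c i)] with z h1 h2
    rw [h2, h1, map_mul, MvPolynomial.eval_X]
    rfl

end Pool.ThmM
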