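import Pool.Agent.Work.MP_f82ddf_M1.Interface

/-! # Block SML (helper59): multiplication of a tuple by a scalar -/

open Topology Filter
open scoped Differential
open Pool.Agent.Work.MP_f82ddf_nt.DQ

namespace Pool.ThmM

namespace SML

theorem mero (f : Mer) : Meromorphic (rep f) := by
  have h := (meromorphicNFOn_toMeromorphicNFOn (Mer.exists_mk f).choose Set.univ).meromorphicOn
  exact fun z => h z (Set.mem_univ z)

theorem smul_ne {ι : Type} {f : Mer} {c : ι → Mer} (hf : f ≠ 0) (hc : c ≠ 0) : f • c ≠ 0 := by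
  intro h
  apply hc
  funext i
  have h1 := congrFun h i
  simp only [Pi.smul_apply, smul_eq_mul, Pi.zero_apply, mul_eq_zero] at h1
  exact h1.resolve_left hf

theorem div_eq (hO : Stmt_ORD) (hD : Stmt_DV1) (ι : Type) [Fintype ι] (f : Mer) (c : ι → Mer)
    (hf : f ≠ 0) (hc : c ≠ 0) : dv (f • c) = dv1 f + dv c := by
  ext z
  obtain ⟨h1, i, hi, h2⟩ := (hO ι c).2 hc z
  obtain ⟨h3, j, hj, h4⟩ := (hO ι (f • c)).2 (smul_ne hf hc) z
  have h5 : ∀ k, c k ≠ 0 → dv1 ((f • c) k) z = dv1 f z + dv1 (c k) z := by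
    intro k hk
    have h6 := hD.1 f (c k) hf hk
    rw [Pi.smul_apply, smul_eq_mul, h6]
    rfl
  have h7 : ∀ k, (f • c) k ≠ 0 → c k ≠ 0 := by
    intro k hk h0
    apply hk
    rw [Pi.smul_apply, h0, smul_zero]
  have h8 : (f • c) i ≠ 0 := by
    rw [Pi.smul_apply, smul_eq_mul]
    exact mul_ne_zero hf hi
  have h9 := h3 i h8
  have h10 := h1 j (h7 j hj)
  rw [h5 i hi, h2] at h9
  rw [h5 j (h7 j hj)] at h4
  change dv (f • c) z = dv1 f z + dv c z
  omega

theorem log_eq (hA : Stmt_ALG) (ι : Type) [Fintype ι] (f : Mer) (c : ι → Mer)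
    (hf : f ≠ 0) (hc : c ≠ 0) :
    (fun z => Real.log ‖vec (f • c) z‖) =ᶠ[codiscrete ℂ]
      fun z => Real.log ‖rep f z‖ + Real.log ‖vec c z‖ := by
  obtain ⟨-, -, -, hm, -, -, -, hn⟩ := hA
  have h1 : ∀ᶠ z in codiscrete ℂ, ∀ i, vec (f • c) z i = rep f z * vec c z i := by
    rw [eventually_all]
    intro i
    filter_upwards [hm f (c i)] with z hz
    exact hz
  obtain ⟨i, hi⟩ : ∃ i, c i ≠ 0 := by
    by_contra h
    push Not at h
    exact hc (funext h)
  filter_upwards [h1, hn f hf, hn (c i) hi] with z h2 h3 h4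
  have h5 : vec (f • c) z = rep f z • vec c z := by
    funext k
    exact h2 k
  have h6 : vec c z ≠ 0 := by
    intro h0
    exact h4 (congrFun h0 i)
  rw [h5, norm_smul, Real.log_mul (norm_ne_zero_iff.2 h3) (norm_ne_zero_iff.2 h6)]

theorem LL_eq (hA : Stmt_ALG) (hO : Stmt_ORD) (ι : Type) [Fintype ι] (f : Mer) (c : ι → Mer)
    (hf : f ≠ 0) (hc : c ≠ 0) (r : ℝ) (hr : r ≠ 0) : LL (f • c) r = LL1 f r + LL c r := by
  unfold LL LL1
  have h1 : CircleIntegrable (fun z => Real.log ‖rep f z‖) 0 r :=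
    MeromorphicOn.circleIntegrable_log_norm fun z _ => mero f z
  have h2 : CircleIntegrable (fun z => Real.log ‖vec c z‖) 0 r :=
    MeromorphicOn.circleIntegrable_log_norm fun z _ => (hO ι c).1 z
  rw [← Real.circleAverage_fun_add h1 h2]
  apply Real.circleAverage_congr_codiscreteWithin _ hr
  exact (log_eq hA ι f c hf hc).filter_mono (Filter.codiscreteWithin_mono (Set.subset_univ _))

end SML

theorem p_SML (hA : Stmt_ALG) (hO : Stmt_ORD) (hD : Stmt_DV1) (hJ : Stmt_JEN) (_ : Stmt_CMP) :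
    Stmt_SML := by
  intro ι _ f c hf hc
  have h1 := SML.div_eq hO hD ι f c hf hc
  have h2 := SML.LL_eq hA hO ι f c hf hc
  refine ⟨h1, h2, ?_⟩
  obtain ⟨C, hC⟩ := hJ f
  refine ⟨C, fun r hr => ?_⟩
  have h3 : NN (dv1 f + dv c) r = NN (dv1 f) r + NN (dv c) r := by
    unfold NN
    rw [map_add]
    rfl
  unfold TT
  rw [h2 r hr, h1, h3, hC r hr]
  ring

end Pool.ThmM
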