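import Pool.Agent.Work.MP_f82ddf_M1.Interface

/-! # Block TOP (helper25): height of a tuple against the heights of the quotients -/

open Topology Filter
open scoped Differential
open Pool.Agent.Work.MP_f82ddf_nt.DQ

namespace Pool.ThmM

namespace TOP

theorem log_le {ι : Type} [Fintype ι] (v : ι → ℂ) :
    Real.log ‖v‖ ≤ ∑ i, Real.posLog ‖v i‖ := by
  have h0 : ∀ i, 0 ≤ Real.posLog ‖v i‖ := fun i => Real.posLog_nonneg
  by_cases hv : v = 0
  · rw [hv, norm_zero, Real.log_zero]
    exact Finset.sum_nonneg fun i _ => Real.posLog_nonneg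
  · have hne : Nonempty ι := by
      by_contra h
      rw [not_nonempty_iff] at h
      exact hv (Subsingleton.elim _ _)
    obtain ⟨i, hi⟩ := Finite.exists_max fun i => ‖v i‖
    have h1 : ‖v‖ ≤ ‖v i‖ := (pi_norm_le_iff_of_nonneg (norm_nonneg _)).2 hi
    have h2 : 0 < ‖v‖ := norm_pos_iff.2 hv
    calc Real.log ‖v‖ ≤ Real.log ‖v i‖ := Real.log_le_log h2 h1
      _ ≤ Real.posLog ‖v i‖ := le_max_right _ _
      _ ≤ _ := Finset.single_le_sum (fun i _ => h0 i) (Finset.mem_univ i)

theorem ci (f : Mer) (r : ℝ) : CircleIntegrable (fun z => Real.posLog ‖rep f z‖) 0 r := by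
  refine MeromorphicOn.circleIntegrable_posLog_norm fun z _ => ?_
  exact (meromorphicNFOn_toMeromorphicNFOn (Mer.exists_mk f).choose Set.univ).meromorphicOn z
    (Set.mem_univ z)

theorem negPart_apply' (D : Function.locallyFinsupp ℂ ℤ) (z : ℂ) : -(D z) ≤ D⁻ z ∧ 0 ≤ D⁻ z := by
  have h1 : D⁻ z = (D z)⁻ := rfl
  rw [h1]
  exact ⟨neg_le_negPart _, negPart_nonneg _⟩

theorem NN_neg (h : Stmt_NNP) (D : Function.locallyFinsupp ℂ ℤ) (r : ℝ) :
    NN (-D) r = - NN D r := by
  have h1 := h.2.1 0 D r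
  have h2 := h.2.1 D D r
  rw [sub_self] at h2
  rw [zero_sub] at h1
  rw [h1, h2]
  ring

theorem NN_zero (h : Stmt_NNP) (r : ℝ) : NN 0 r = 0 := by
  have h2 := h.2.1 0 0 r
  rw [sub_self] at h2
  rw [h2]
  ring

theorem NN_sum (h : Stmt_NNP) {ι : Type} (s : Finset ι) (D : ι → Function.locallyFinsupp ℂ ℤ)
    (r : ℝ) : NN (∑ i ∈ s, D i) r = ∑ i ∈ s, NN (D i) r := by
  classical
  induction s using Finset.induction_on with
  | empty =>
    rw [Finset.sum_empty, Finset.sum_empty, NN_zero h]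
  | insert i s hi ih =>
    rw [Finset.sum_insert hi, Finset.sum_insert hi, h.1, ih]

theorem sum_apply' {ι : Type} (s : Finset ι) (D : ι → Function.locallyFinsupp ℂ ℤ) (z : ℂ) :
    (∑ i ∈ s, D i) z = ∑ i ∈ s, D i z := by
  classical
  induction s using Finset.induction_on with
  | empty =>
    rw [Finset.sum_empty, Finset.sum_empty]
    rfl
  | insert i s hi ih =>
    rw [Finset.sum_insert hi, Finset.sum_insert hi, ← ih]
    rfl

end TOP

theorem p_TOP (hLIN : Stmt_LIN) (hSML : Stmt_SML) (hCHR : Stmt_CHR) (hNNP : Stmt_NNP)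
    (hORD : Stmt_ORD) (_hALG : Stmt_ALG) (_hCMP : Stmt_CMP) : Stmt_TOP := by
  classical
  intro ι _ c
  constructor
  · intro m n hg
    set f := ∑ i, algebraMap ℂ Mer (m i) * c i with hf
    set g := ∑ i, algebraMap ℂ Mer (n i) * c i with hgdef
    have hd : (![f, g] : Fin 2 → Mer) ≠ 0 := by
      intro h
      exact hg (congrFun h 1)
    have hdk : ∀ k : Fin 2, (![f, g] : Fin 2 → Mer) k =
        ∑ i, algebraMap ℂ Mer ((![m, n] : Fin 2 → ι → ℂ) k i) * c i := by
      intro k
      fin_cases k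
      · rfl
      · rfl
    obtain ⟨h1, C, h2⟩ := hLIN ι (Fin 2) ![m, n] c ![f, g] hdk hd
    obtain ⟨-, -, C', h3⟩ := hSML (Fin 2) g⁻¹ ![f, g] (inv_ne_zero hg) hd
    have h4 : g⁻¹ • (![f, g] : Fin 2 → Mer) = ![f / g, 1] := by
      funext k
      fin_cases k
      · show g⁻¹ * f = f / g
        rw [div_eq_mul_inv, mul_comm]
      · show g⁻¹ * g = 1
        exact inv_mul_cancel₀ hg
    refine ⟨C + C', fun r hr => ?_⟩
    have hr0 : r ≠ 0 := by
      intro h0
      rw [h0] at hr
      norm_num at hr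
    have h5 := h3 r hr0
    rw [h4] at h5
    have h6 := h2 r hr0
    have h7 := hNNP.2.2.2.1 _ _ r h1 hr
    have h8 : TT (![f, g] : Fin 2 → Mer) r = LL ![f, g] r - NN (dv ![f, g]) r := rfl
    have h9 : TT c r = LL c r - NN (dv c) r := rfl
    rw [h5, h8, h9]
    linarith
  · intro i₀ hi₀
    set e : ι → Mer := fun i => c i / c i₀ with he
    have hce : c i₀ • e = c := by
      funext i
      show c i₀ * (c i / c i₀) = c i
      rw [mul_div_cancel₀]
      exact hi₀
    have he0 : e ≠ 0 := by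
      intro h
      have h1 := congrFun h i₀
      have h2 : c i₀ / c i₀ = 0 := h1
      rw [div_self hi₀] at h2
      exact one_ne_zero h2
    obtain ⟨-, -, C, h1⟩ := hSML ι (c i₀) e hi₀ he0
    rw [hce] at h1
    obtain ⟨hmer, hord⟩ := hORD ι e
    have hord' := hord he0
    refine ⟨C, fun r hr => ?_⟩
    have hr0 : r ≠ 0 := by
      intro h0
      rw [h0] at hr
      norm_num at hr
    rw [h1 r hr0]
    -- the two parts
    have h2 : LL e r ≤ ∑ i, MP (e i) r := by
      unfold LL MP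
      rw [← Real.circleAverage_fun_sum]
      · refine Real.circleAverage_mono ?_ ?_ fun z _ => ?_
        · exact MeromorphicOn.circleIntegrable_log_norm fun z _ => hmer z
        · exact CircleIntegrable.fun_sum _ fun i _ => TOP.ci (e i) r
        · exact TOP.log_le (vec e z)
      · exact fun i _ => TOP.ci (e i) r
    have h3 : - NN (dv e) r ≤ ∑ i, NN (dv1 (e i))⁻ r := by
      rw [← TOP.NN_neg hNNP, ← TOP.NN_sum hNNP]
      refine hNNP.2.2.2.1 _ _ r ?_ hr
      intro z
      rw [TOP.sum_apply']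
      obtain ⟨-, i, -, hi2⟩ := hord' z
      have h4 := TOP.negPart_apply' (dv1 (e i)) z
      have h5 : (-(dv e)) z = -(dv e z) := rfl
      rw [h5, ← hi2]
      exact h4.1.trans (Finset.single_le_sum
        (f := fun i => (dv1 (e i))⁻ z) (fun j _ => (TOP.negPart_apply' (dv1 (e j)) z).2)
        (Finset.mem_univ i))
    have h4 : ∀ i, TT ![e i, 1] r = MP (e i) r + NN (dv1 (e i))⁻ r := fun i =>
      (hCHR (e i)).2.2.2 r hr0
    have h5 : TT e r = LL e r - NN (dv e) r := rfl
    have h6 : ∑ i, TT ![c i / c i₀, 1] r = ∑ i, MP (e i) r + ∑ i, NN (dv1 (e i))⁻ r := by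
      rw [← Finset.sum_add_distrib]
      exact Finset.sum_congr rfl fun i _ => h4 i
    rw [h5, h6]
    linarith

end Pool.ThmM
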