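import Pool.Agent.Work.MP_f82ddf_M1.Interface

/-!
# VAL: the order at a point is a discrete valuation of the field of meromorphic functions
-/

open Topology Filter
open scoped Differential
open Pool.Agent.Work.MP_f82ddf_nt.DQ

namespace Pool.ThmM

namespace VAL

theorem evNE {P : ℂ → Prop} (h : ∀ᶠ z in codiscrete ℂ, P z) (z₀ : ℂ) :
    ∀ᶠ z in 𝓝[≠] z₀, P z := by
  have h1 := (mem_codiscreteWithin_iff_forall_mem_nhdsNE.1 h) z₀ (Set.mem_univ z₀)
  rw [Set.compl_univ, Set.union_empty] at h1
  exact h1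

theorem om_congr {f : Mer} {g : ℂ → ℂ} (h : rep f =ᶠ[codiscrete ℂ] g) (z : ℂ) :
    om f z = meromorphicOrderAt g z :=
  meromorphicOrderAt_congr (evNE h z)

end VAL

theorem p_VAL (hR : Stmt_REP) (hA : Stmt_ALG) : Stmt_VAL := by
  intro z
  obtain ⟨hA1, hAadd, hAsub, hAmul, hAinv, hAder, hAalg, hAne⟩ := hA
  refine ⟨?_, ?_, ?_, ?_, ?_, ?_⟩
  · intro f g
    have h := VAL.om_congr (hAmul f g) z
    rw [h]
    exact meromorphicOrderAt_mul ((hR f).2.1 z) ((hR g).2.1 z)
  · intro f g
    have h := VAL.om_congr (hAadd f g) z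
    rw [h]
    exact meromorphicOrderAt_add ((hR f).2.1 z) ((hR g).2.1 z)
  · intro f
    constructor
    · intro h
      by_contra hf
      have h1 := VAL.evNE (hAne f hf) z
      have h2 : ∀ᶠ w in 𝓝[≠] z, rep f w = 0 := meromorphicOrderAt_eq_top_iff.1 h
      obtain ⟨w, hw1, hw2⟩ := (h1.and h2).exists
      exact hw1 hw2
    · rintro rfl
      have h := hAalg 0
      rw [map_zero] at h
      have h1 := VAL.om_congr h z
      rw [h1]
      exact meromorphicOrderAt_eq_top_iff.2 (Eventually.of_forall fun _ => rfl)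
  · intro a ha
    have h1 := VAL.om_congr (hAalg a) z
    rw [h1, meromorphicOrderAt_const]
    simp [ha]
  · intro f hf
    have h1 : om f z ≠ ⊤ := by
      intro h
      have h1 := VAL.evNE (hAne f hf) z
      have h2 : ∀ᶠ w in 𝓝[≠] z, rep f w = 0 := meromorphicOrderAt_eq_top_iff.1 h
      obtain ⟨w, hw1, hw2⟩ := (h1.and h2).exists
      exact hw1 hw2
    have h2 : (dv1 f z : ℤ) = (om f z).untop₀ := by
      unfold dv1 om
      rw [MeromorphicOn.divisor_apply (fun w _ => (hR f).2.1 w) (Set.mem_univ z)]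
    rw [h2, WithTop.coe_untop₀_of_ne_top h1]
  · have h := hA1 (zt z) (fun w => w - z)
      (fun w => (MeromorphicAt.id w).sub (MeromorphicAt.const z w)) rfl
    have h1 := VAL.om_congr h z
    rw [h1]
    have h3 : meromorphicOrderAt (fun w : ℂ => w - z) z = ((1 : ℤ) : WithTop ℤ) := by
      have hm : MeromorphicAt (fun w : ℂ => w - z) z :=
        (MeromorphicAt.id z).sub (MeromorphicAt.const z z)
      refine (meromorphicOrderAt_eq_int_iff hm).2 ⟨fun _ => 1, analyticAt_const, one_ne_zero, ?_⟩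
      refine Eventually.of_forall fun w => ?_
      simp
    rw [h3]
    rfl

end Pool.ThmM
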