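import Pool.Agent.Work.MP_f82ddf_M1.Interface

/-!
# Theorem M, part 1, block VPD
-/

open Topology Filter
open scoped Differential
open Pool.Agent.Work.MP_f82ddf_nt.DQ

namespace Pool.ThmM

/-- VPD: the two orders of a polynomial agree. -/
theorem p_VPD (hO : Stmt_ORD) (hV : Stmt_VAL) : Stmt_VPD := by
  intro σ F hF z
  have hne : ∀ i : F.support, cf F i ≠ 0 := fun i => MvPolynomial.mem_support_iff.1 i.2
  have hcf : cf F ≠ 0 := by
    intro h
    obtain ⟨α, hα⟩ := MvPolynomial.support_nonempty.2 hF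
    exact hne ⟨α, hα⟩ (congrFun h ⟨α, hα⟩)
  obtain ⟨-, h2⟩ := hO F.support (cf F)
  obtain ⟨hle, i, hi, heq⟩ := h2 hcf z
  obtain ⟨-, -, -, -, hom, -⟩ := hV z
  unfold vP dvP
  apply le_antisymm
  · have h3 : (F.support.inf fun α => om (MvPolynomial.coeff α F) z) ≤ om (cf F i) z :=
      Finset.inf_le (f := fun α => om (MvPolynomial.coeff α F) z) i.2
    rw [hom _ hi, heq] at h3
    exact h3
  · refine Finset.le_inf fun α hα => ?_
    have h4 := hle ⟨α, hα⟩ (hne ⟨α, hα⟩)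
    have h5 := hom _ (hne ⟨α, hα⟩)
    have h6 : om (MvPolynomial.coeff α F) z = ((dv1 (cf F ⟨α, hα⟩) z : ℤ) : WithTop ℤ) := h5
    rw [h6]
    exact_mod_cast h4

end Pool.ThmM
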