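import Pool.Agent.Work.MP_f82ddf_M1.B_REP
import Pool.Agent.Work.MP_f82ddf_M1.B_ALG
import Pool.Agent.Work.MP_f82ddf_M1.B_POL
import Pool.Agent.Work.MP_f82ddf_M1.B_VAL
import Pool.Agent.Work.MP_f82ddf_M1.B_DV1
import Pool.Agent.Work.MP_f82ddf_M1.B_ORD
import Pool.Agent.Work.MP_f82ddf_M1.B_CMP
import Pool.Agent.Work.MP_f82ddf_M1.B_JEN
import Pool.Agent.Work.MP_f82ddf_M1.B_LIN
import Pool.Agent.Work.MP_f82ddf_M1.B_SML
import Pool.Agent.Work.MP_f82ddf_M1.B_NNP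
import Pool.Agent.Work.MP_f82ddf_M1.B_LOW
import Pool.Agent.Work.MP_f82ddf_M1.B_CHR
import Pool.Agent.Work.MP_f82ddf_M1.B_TOP
import Pool.Agent.Work.MP_f82ddf_M1.B_VPD
import Pool.Agent.Work.MP_f82ddf_M1.B_GAU
import Pool.Agent.Work.MP_f82ddf_M1.B_GEP
import Pool.Agent.Work.MP_f82ddf_M1.B_GEL

/-!
# Theorem M, part 1, first half: all blocks
-/

namespace Pool.ThmM

theorem all_REP : Stmt_REP := p_REP

theorem all_ALG : Stmt_ALG := p_ALG all_REP

theorem all_POL : Stmt_POL := p_POL all_ALG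

theorem all_VAL : Stmt_VAL := p_VAL all_REP all_ALG

theorem all_DV1 : Stmt_DV1 := p_DV1 all_VAL

theorem all_ORD : Stmt_ORD := p_ORD all_REP all_VAL

theorem all_CMP : Stmt_CMP := p_CMP

theorem all_JEN : Stmt_JEN := p_JEN all_REP

theorem all_LIN : Stmt_LIN := p_LIN all_REP all_ALG all_ORD all_VAL all_CMP

theorem all_SML : Stmt_SML := p_SML all_ALG all_ORD all_DV1 all_JEN all_CMP

theorem all_NNP : Stmt_NNP := p_NNP

theorem all_LOW : Stmt_LOW := p_LOW all_LIN all_JEN all_NNP all_SML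

theorem all_CHR : Stmt_CHR := p_CHR all_REP all_ALG all_ORD all_VAL

theorem all_TOP : Stmt_TOP := p_TOP all_LIN all_SML all_CHR all_NNP all_ORD all_ALG all_CMP

theorem all_VPD : Stmt_VPD := p_VPD all_ORD all_VAL

theorem all_GAU : Stmt_GAU := p_GAU all_VAL

theorem all_GEP : Stmt_GEP := p_GEP

theorem all_GEL : Stmt_GEL := p_GEL all_GEP all_GAU all_VPD all_ALG all_CMP all_ORD

end Pool.ThmM
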