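import Pool.Agent.Work.MP_f82ddf_M1.Interface3

/-! # Block COP (helper29): products of moving irreducibles are coprime to their derivative -/

open Topology Filter
open scoped Differential
open Pool.Agent.Work.MP_f82ddf_nt.DQ

namespace Pool.ThmM

theorem p_COP (hD : Stmt_DVD) (hZ : Stmt_DZR) : Stmt_COP := by
  classical
  obtain ⟨-, -, d3, -, -, -⟩ := hZ
  intro σ s hs hna B hB
  have hrel : (s : Set (MvPolynomial σ Mer)).Pairwise (Function.onFun IsRelPrime fun P => P) := by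
    intro P hP P' hP' hne
    show IsRelPrime P P'
    rw [(hs P hP).1.isRelPrime_iff_not_dvd]
    intro hdvd
    exact hna P hP P' hP' hne ((hs P hP).1.associated_of_dvd (hs P' hP').1 hdvd)
  apply Finset.prod_dvd_of_isRelPrime hrel
  intro P hP
  have hirr := (hs P hP).1
  have hpr : Prime P := hirr.prime
  have hR : ∏ Q ∈ s, Q = P * ∏ Q ∈ s.erase P, Q := (Finset.mul_prod_erase s (fun Q => Q) hP).symm
  have hPR : P ∣ ∏ Q ∈ s, Q := ⟨_, hR⟩
  have h1 : P ∣ B * dz (∏ Q ∈ s, Q) := hPR.trans hB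
  rw [hR, d3, mul_add] at h1
  have h2 : P ∣ B * (P * dz (∏ Q ∈ s.erase P, Q)) := by
    rw [mul_left_comm]
    exact dvd_mul_right _ _
  have h3 : P ∣ B * (dz P * ∏ Q ∈ s.erase P, Q) := (dvd_add_left h2).1 h1
  rcases hpr.dvd_or_dvd h3 with h4 | h4
  · exact h4
  · exfalso
    rcases hpr.dvd_or_dvd h4 with h5 | h5
    · exact (hs P hP).2 ((hD σ P hirr.ne_zero).1 h5)
    · obtain ⟨Q, hQ, hPQ⟩ := (hpr.dvd_finsetProd_iff _).1 h5
      rw [Finset.mem_erase] at hQ
      exact hna P hP Q hQ.2 (Ne.symm hQ.1) (hirr.associated_of_dvd (hs Q hQ.2).1 hPQ)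

end Pool.ThmM
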