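import Pool.Agent.Work.MP_f82ddf_M1.Interface3

/-! # Block DVD (helper29): polynomials dividing their coefficientwise derivative -/

open Topology Filter
open scoped Differential
open Pool.Agent.Work.MP_f82ddf_nt.DQ

namespace Pool.ThmM

namespace DVD

theorem d_mul (a b : Mer) : (a * b)′ = a′ * b + a * b′ := by
  have := Derivation.leibniz (Differential.deriv : Derivation ℤ Mer Mer) a b
  rw [this]
  simp only [smul_eq_mul]
  ring

end DVD

theorem p_DVD (h : Stmt_DZR) : Stmt_DVD := by
  classical
  obtain ⟨d1, -, -, -, -, d6⟩ := h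
  intro σ F hF
  constructor
  · rintro ⟨H, hH⟩
    by_cases h0 : dz F = 0
    · obtain ⟨G, hG⟩ := (d6 σ F).1 h0
      exact ⟨1, G, by rw [map_one, one_mul]; exact hG⟩
    · have hH0 : H ≠ 0 := by
        rintro rfl
        exact h0 (by rw [hH, mul_zero])
      have hdeg : (dz F).totalDegree ≤ F.totalDegree := by
        apply MvPolynomial.totalDegree_le_of_support_subset
        intro α hα
        rw [MvPolynomial.mem_support_iff] at hα ⊢
        intro h1
        apply hα
        rw [d1, h1]
        exact map_zero _
      rw [hH, MvPolynomial.totalDegree_mul_of_isDomain hF hH0] at hdeg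
      have hHd : H.totalDegree = 0 := by omega
      obtain ⟨κ, hκ⟩ : ∃ κ, H = MvPolynomial.C κ :=
        ⟨_, MvPolynomial.totalDegree_eq_zero_iff_eq_C.1 hHd⟩
      have hc : ∀ α, (F.coeff α)′ = F.coeff α * κ := by
        intro α
        rw [← d1, hH, hκ, mul_comm F, MvPolynomial.coeff_C_mul, mul_comm]
      obtain ⟨β, hβ⟩ := MvPolynomial.exists_coeff_ne_zero hF
      have hex : ∀ α, ∃ c : ℂ, F.coeff α = F.coeff β * algebraMap ℂ Mer c := by
        intro α
        have h1 : F.coeff α = F.coeff α / F.coeff β * F.coeff β := by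
          rw [div_mul_cancel₀ _ hβ]
        have h2 : (F.coeff α / F.coeff β)′ = 0 := by
          have h3 := hc α
          conv_lhs at h3 => rw [h1, DVD.d_mul, hc β]
          have h4 : (F.coeff α / F.coeff β)′ * F.coeff β = 0 := by
            have h5 : F.coeff α / F.coeff β * (F.coeff β * κ) = F.coeff α * κ := by
              rw [← mul_assoc, ← h1]
            rw [h5] at h3
            exact add_eq_right.1 h3
          exact (mul_eq_zero.1 h4).resolve_right hβ
        obtain ⟨c, hc'⟩ := Mer.exists_algebraMap h2
        refine ⟨c, ?_⟩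
        rw [← hc', mul_comm]
        exact h1
      choose c hcc using hex
      refine ⟨F.coeff β, ∑ α ∈ F.support, MvPolynomial.monomial α (c α), ?_⟩
      ext α
      rw [MvPolynomial.coeff_C_mul, MvPolynomial.coeff_map, MvPolynomial.coeff_sum]
      simp only [MvPolynomial.coeff_monomial]
      rw [Finset.sum_ite_eq']
      split_ifs with h2
      · exact hcc α
      · rw [MvPolynomial.notMem_support_iff.1 h2, map_zero, mul_zero]
  · rintro ⟨c, G, hG⟩
    have hc : c ≠ 0 := by
      rintro rfl
      apply hF
      rw [hG, map_zero, zero_mul]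
    refine ⟨MvPolynomial.C (c′ / c), ?_⟩
    ext α
    rw [d1, mul_comm F, MvPolynomial.coeff_C_mul, hG, MvPolynomial.coeff_C_mul, MvPolynomial.coeff_map,
      DVD.d_mul, Mer.deriv_algebraMap, mul_zero, add_zero]
    field_simp

end Pool.ThmM
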