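import Pool.Agent.Work.MP_f82ddf_M1.Interface

/-! # Block REP (helper87): the representative in normal form -/

open Topology Filter
open scoped Differential
open Pool.Agent.Work.MP_f82ddf_nt.DQ

namespace Pool.ThmM

theorem p_REP : Stmt_REP := by
  intro f
  obtain ⟨hf, hf2⟩ := (Mer.exists_mk f).choose_spec
  have h1 : MeromorphicNFOn (rep f) Set.univ := meromorphicNFOn_toMeromorphicNFOn _ _
  have h2 : ∀ z, MeromorphicAt (rep f) z := fun z => (h1 (Set.mem_univ z)).meromorphicAt
  refine ⟨h1, h2, h2, Eq.trans ?_ hf2.symm⟩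
  refine Mer.mk_eq_mk.2 fun z₀ => ?_
  exact MeromorphicOn.toMeromorphicNFOn_eq_self_on_nhdsNE (fun z _ => hf z) (Set.mem_univ z₀)

end Pool.ThmM
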