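import Pool.Agent.Work.MP_f82ddf_M1.Interface

/-!
# Theorem M, part 1, second half: logarithmic derivative lemma and Lemma S
-/

open Topology Filter
open scoped Differential
open Pool.Agent.Work.MP_f82ddf_nt.DQ

namespace Pool.ThmM

/-! ## B. The lemma of the logarithmic derivative -/

/-- LDA.  Zero free analytic functions.
Proof: `log ‖g ·‖` is harmonic near the closed ball.  Let
`Φ w = circleAverage (fun ζ => herglotzRieszKernel 0 w ζ • log ‖g ζ‖) 0 ρ`; it is analytic in the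
ball (`analyticOnNhd_circleAverage_herglotzRieszKernel_smul`) with `Re Φ = log ‖g‖` (Poisson
formula), so `g * exp (-Φ)` has modulus `1` in the ball, hence is constant and
`deriv g / g = deriv Φ`.  `hasDerivAt_circleAverage_herglotzRieszKernel_smul` (or differentiation
under the integral) gives `deriv Φ w = circleAverage (2 ζ / (ζ - w) ^ 2 • log ‖g ζ‖) 0 ρ`, and
`‖2 ζ / (ζ - w) ^ 2‖ ≤ 2 ρ / (ρ - r) ^ 2`. -/
def Stmt_LDA : Prop := ∀ (g : ℂ → ℂ) (ρ r : ℝ), 0 < r → r < ρ →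
  AnalyticOnNhd ℂ g (Metric.closedBall 0 ρ) → (∀ z ∈ Metric.closedBall (0 : ℂ) ρ, g z ≠ 0) →
  ∀ w ∈ Metric.closedBall (0 : ℂ) r, ‖deriv g w / g w‖ ≤
    2 * ρ / (ρ - r) ^ 2 * Real.circleAverage (fun z => |Real.log ‖g z‖|) 0 ρ

/-- LDB.  The logarithmic derivative of a canonical factor
`(ρ ^ 2 - conj a * z) / (ρ * (z - a))` is `- conj a / (ρ ^ 2 - conj a * z) - 1 / (z - a)`, and
`|conj a / (ρ ^ 2 - conj a z)| ≤ ρ / (ρ ^ 2 - ρ r) = 1 / (ρ - r)`. -/
def Stmt_LDB : Prop := ∀ (ρ r : ℝ) (a z : ℂ), 0 < r → r < ρ → ‖a‖ < ρ → ‖z‖ ≤ r → z ≠ a →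
  ‖logDeriv (Complex.canonicalFactor ρ a) z‖ ≤ 1 / ‖z - a‖ + 1 / (ρ - r)

/-- LDC (uses LDA, LDB).  Bound for the logarithmic derivative of a meromorphic function without
zeros and poles on the circle of radius `ρ`.
Proof: `MeromorphicOn.exists_ecanonicalDecomp` on the closed ball of radius `ρ`: off a discrete set
`f = (∏ canonicalFactor ρ u ^ (- divisor f u)) • g`, `g` analytic without zeros (the sphere
factors are trivial).  On the sphere the canonical factors have modulus `1`, so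
`|log ‖g‖| = |log ‖f‖|` there (a finite set of exceptions does not change the average; or use
continuity).  LDA for `g`, LDB for the factors, `logDeriv` of a product. The formula for the
logarithmic derivative holds off a discrete set of the open ball. -/
def Stmt_LDC : Prop := ∀ (f : ℂ → ℂ) (ρ r : ℝ), Meromorphic f →
  (∀ z, meromorphicOrderAt f z ≠ ⊤) → 0 < r → r < ρ →
  (∀ z : ℂ, ‖z‖ = ρ → meromorphicOrderAt f z = 0) →
  ∃ s : Finset ℂ, (∀ a, a ∈ s ↔ ‖a‖ < ρ ∧ MeromorphicOn.divisor f Set.univ a ≠ 0) ∧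
  ∀ᶠ z in codiscrete ℂ, ‖z‖ ≤ r → ‖logDeriv f z‖ ≤
    2 * ρ / (ρ - r) ^ 2 * Real.circleAverage (fun z => |Real.log ‖f z‖|) 0 ρ +
      ∑ a ∈ s, |(MeromorphicOn.divisor f Set.univ a : ℝ)| * (1 / ‖z - a‖ + 1 / (ρ - r))

/-- LDD.  Circle averages of `‖z - a‖ ^ (-1/2)`.
Proof: `‖r e^{iθ} - a‖ ≥ r |sin (θ - arg a)|` (distance to the line through `0` and `a`); for `a = 0`
the function is constant.  `|sin|^(-1/2)` is integrable on a period: near its zeros
`|sin x| ≥ (2/π) |x|`. -/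
def Stmt_LDD : Prop := ∃ C₀ : ℝ, 1 ≤ C₀ ∧ ∀ (a : ℂ) (r : ℝ), 1 ≤ r →
  CircleIntegrable (fun z => ‖z - a‖ ^ (-(1 / 2) : ℝ)) 0 r ∧
  Real.circleAverage (fun z => ‖z - a‖ ^ (-(1 / 2) : ℝ)) 0 r ≤ C₀

/-- LDE (uses LDD, CMP).  Average of `log⁺` of a sum of simple poles.
Proof: with `n = ∑ n a`, `log⁺ (A + n B + Y) ≤ log⁺ A + log⁺ n + log⁺ B + log⁺ Y + log 3`,
`Y = ∑ n a / ‖z - a‖`; `log⁺ Y = 2 log⁺ (√Y) ≤ 2 log (1 + W)`, `W = ∑ n a ‖z - a‖ ^ (-1/2)`
(`√(∑ x) ≤ ∑ √x`, `√n ≤ n` for natural numbers); concavity of the logarithm (Jensen's inequality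
for the average): average of `log (1 + W)` is at most `log (1 + average of W) ≤ log (1 + n C₀)
≤ log⁺ n + log (1 + C₀)`.  `K = log 3 + 2 log (1 + C₀)`. -/
def Stmt_LDE : Prop := ∃ K : ℝ, 0 ≤ K ∧ ∀ (s : Finset ℂ) (n : ℂ → ℕ) (A B r : ℝ) (φ : ℂ → ℝ),
  1 ≤ r → 0 ≤ A → 0 ≤ B → (∀ z, 0 ≤ φ z) → CircleIntegrable (fun z => Real.posLog (φ z)) 0 r →
  (∀ᶠ z in codiscrete ℂ, ‖z‖ = r → φ z ≤ A + ∑ a ∈ s, (n a : ℝ) * (1 / ‖z - a‖ + B)) →
  Real.circleAverage (fun z => Real.posLog (φ z)) 0 r ≤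
    K + Real.posLog A + Real.posLog B + 3 * Real.posLog (∑ a ∈ s, (n a : ℝ))

/-- LDF.  Unintegrated against integrated counting function.
Proof: definition of `logCounting`: `∑ᶠ D(z) log (ρ' / ‖z‖) + D(0) log ρ'`, all terms `≥ 0`; for
`‖a‖ ≤ ρ`, `a ≠ 0`: `log (ρ' / ‖a‖) ≥ log (ρ' / ρ)`, and `log ρ' ≥ log (ρ' / ρ)`. -/
def Stmt_LDF : Prop := ∀ (D : Function.locallyFinsupp ℂ ℤ) (ρ ρ' : ℝ) (s : Finset ℂ), 0 ≤ D →
  1 ≤ ρ → ρ < ρ' → (∀ a ∈ s, ‖a‖ ≤ ρ) →
  (∑ a ∈ s, (D a : ℝ)) * Real.log (ρ' / ρ) ≤ NN D ρ'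

/-- LDG (uses REP, ALG, VAL, JEN, NNP, CHR, DV1, CMP, LDC, LDE, LDF).  Pointwise lemma of the
logarithmic derivative.
Proof: `h = ρ - r`; choose `ρ₁` in `(r + h/3, r + 2h/3)` with no zero and no pole of `rep f` on the
circle `‖z‖ = ρ₁` (finitely many moduli are excluded).  `average |log ‖f‖|` at `ρ₁` is
`MP f ρ₁ + MP f⁻¹ ρ₁ ≤ 2 TT ![f, 1] ρ₁ + C₁ ≤ 2 TT ![f, 1] ρ + C₁` (Jensen; CHR monotone).  Number of
zeros and poles with multiplicity in `‖z‖ < ρ₁`: LDF with the positive and the negative part of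
`dv1 f`, `log (ρ / ρ₁) ≥ (ρ - ρ₁) / ρ ≥ h / (3 ρ)`: at most `(3 ρ / h) (2 TT ![f, 1] ρ + C₁)` (JEN for the
zeros).  Now LDC at radius `ρ₁` and LDE with `A = (18 ρ / h ^ 2) (2 TT ![f, 1] ρ + C₁)`,
`B = 3 / h`, and `log⁺ (x y) ≤ log⁺ x + log⁺ y`, `log⁺ (x + y) ≤ log⁺ x + log⁺ y + log 2`. -/
def Stmt_LDG : Prop := ∀ f : Mer, f ≠ 0 → ∃ C : ℝ, 0 ≤ C ∧ ∀ r ρ : ℝ, 1 ≤ r → r < ρ →
  MP (f′ / f) r ≤ C * (1 + Real.posLog ρ + Real.posLog (1 / (ρ - r)) +
    Real.posLog (TT ![f, 1] ρ))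

/-- LDH.  Borel's growth lemma (weak form).
Proof: otherwise, with `r₁ = max r₀ 1` and `r (n+1) = r n + 1 / T (r n)`, `T (r n) ≥ 2 ^ n`, so
`r n ≤ r₁ + 2` for all `n`, but `2 ^ n ≤ T (r n) ≤ T (r₁ + 2)`. -/
def Stmt_LDH : Prop := ∀ T : ℝ → ℝ, MonotoneOn T (Set.Ici 1) → (∀ r, 1 ≤ r → 1 ≤ T r) →
  ∀ r₀ : ℝ, ∃ r, r₀ ≤ r ∧ 1 ≤ r ∧ T (r + 1 / T r) ≤ 2 * T r

/-- LDX (uses TOP, CHR, LDG, LDH, VAL).  The form which is used.
Proof: `c i₀ ≠ 0` for some `i₀` (otherwise `TT c = 0`).  `T r = 1 + ∑ i, TT ![c i / c i₀, 1] r`;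
TOP: `TT c ≤ T + C`, `T ≤ s * TT c + C`, `TT ![f k / g k, 1] ≤ TT c + C ≤ T + C'`.  Take `r` large
from LDH, `ρ = r + 1 / T r ≤ r + 1`, LDG for `f k / g k` (its logarithmic derivative is the
difference): each term is at most `C (1 + log⁺ (r + 1) + log⁺ (T r) + log⁺ (2 T r + C'))`, which is
`o(T r) + O(log r) = o(TT c r)`. -/
def Stmt_LDX : Prop := ∀ (ι κ : Type) [Fintype ι] [Fintype κ] (c : ι → Mer) (f g : κ → Mer)
  (m n : κ → ι → ℂ), (∀ k, f k = ∑ i, algebraMap ℂ Mer (m k i) * c i) →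
  (∀ k, g k = ∑ i, algebraMap ℂ Mer (n k i) * c i) → (∀ k, f k ≠ 0) → (∀ k, g k ≠ 0) →
  Tendsto (fun r => TT c r / Real.log r) atTop atTop →
  ∀ ε : ℝ, 0 < ε → ∀ r₀ : ℝ, ∃ r, r₀ ≤ r ∧ 1 ≤ r ∧
    ∑ k, MP ((f k)′ / f k - (g k)′ / g k) r ≤ ε * TT c r

/-- The rational functions inside `Mer`. -/
def IsRat (f : Mer) : Prop := ∃ P Q : Polynomial ℂ, Q ≠ 0 ∧
  f * Polynomial.aeval (zt 0) Q = Polynomial.aeval (zt 0) P

/-- RAT (uses REP, ALG, VAL, DV1, JEN, NNP, CHR, CMP, LDA, LDF).  Functions with logarithmic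
growth are rational.
Proof: otherwise there is `K` with `TT ![φ, 1] r ≤ K log r` for arbitrarily large `r`.  LDF for the
negative part of `dv1 φ` (`n(t) log (r / t) ≤ K log r`): at most `K` poles; multiply by a polynomial:
`ψ` without poles, `MP ψ r ≤ K' log r` for arbitrarily large `r`.  `ψ ≠ 0`, JEN and LDF: finitely
many zeros; divide by a polynomial: `g` entire without zeros, and `MP g r ≤ K'' log r`,
`average |log ‖g‖| ≤ 2 MP g r + C` (mean value of `log ‖g‖` is constant).  LDA with `ρ → ∞` along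
these radii: `deriv g / g = 0`.  So `g` is constant and `φ` is rational. -/
def Stmt_RAT : Prop := ∀ φ : Mer, ¬ IsRat φ →
  Tendsto (fun r => TT ![φ, 1] r / Real.log r) atTop atTop

/-- GRW (uses TOP, RAT).  The same for tuples: one non rational quotient is enough.
Proof: TOP (1) with the two coordinates `i`, `i₀`. -/
def Stmt_GRW : Prop := ∀ (ι : Type) [Fintype ι] (c : ι → Mer) (i i₀ : ι), c i₀ ≠ 0 →
  ¬ IsRat (c i / c i₀) → Tendsto (fun r => TT c r / Real.log r) atTop atTop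

/-- TRA (uses REP, ALG).  Translation by `2πi`, rational periodic functions.
Proof: `tr (mk f) = mk (f (· + 2πi))` (well defined by `Mer.mk_eq_mk`, an algebra automorphism, the
inverse is the translation by `- 2πi`).  A rational function `f` of period `2πi n` is constant: a
pole would give infinitely many poles (a rational function has finitely many); without poles it is
a polynomial (`Q ∣ P`), and a periodic polynomial is constant (`P - P (0)` has infinitely many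
zeros). -/
def Stmt_TRA : Prop := ∃ tr : Mer ≃ₐ[ℂ] Mer, (∀ f : Mer, tr (f′) = (tr f)′) ∧
  (∀ f : Mer, IsRat (tr f) ↔ IsRat f) ∧
  (∀ (f : Mer) (n : ℕ), 1 ≤ n → (tr^[n]) f = f → IsRat f → ∃ a : ℂ, f = algebraMap ℂ Mer a) ∧
  (∀ f : ℂ → ℂ, ∀ hf : ∀ z, MeromorphicAt f z,
    ∃ hf' : ∀ z, MeromorphicAt (fun z => f (z + 2 * Real.pi * Complex.I)) z,
      tr (Mer.mk f hf) = Mer.mk _ hf')

/-- EXP.  Composition with the exponential function is an injective homomorphism.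
Proof: `exp` is analytic and not constant near every point: `MeromorphicAt.comp_analyticAt`; the
preimage of a discrete closed set under `exp` is discrete and closed (`exp` is locally injective),
so the map is well defined by `Mer.mk_eq_mk`; ring homomorphisms of fields are injective. -/
def Stmt_EXP : Prop := ∃ E : Mer →ₐ[ℂ] Mer, Function.Injective E ∧
  ∀ (f : ℂ → ℂ) (hf : ∀ z, MeromorphicAt f z),
    ∃ hf' : ∀ z, MeromorphicAt (fun z => f (Complex.exp z)) z, E (Mer.mk f hf) = Mer.mk _ hf'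

/-! ## C. Lemma S -/

/-- Exponents of degree `a` in `w + 1` variables. -/
abbrev MonT (w a : ℕ) : Type :=
  {α : Fin (w + 1) →₀ ℕ // α ∈ Finset.finsuppAntidiag (Finset.univ : Finset (Fin (w + 1))) a}

/-- The number of monomials of degree `a` in `w + 1` variables. -/
def numM (w a : ℕ) : ℕ := Fintype.card (MonT w a)

/-- MON.  Number of monomials and the membership condition.
Proof: `Finset.card_finsuppAntidiag` / stars and bars (`Finset.Nat.card_antidiagonalTuple`,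
`Sym.card_sym_eq_choose`), or induction on `w` (Vandermonde / hockey stick). -/
def Stmt_MON : Prop := (∀ w a : ℕ, numM w a = (a + w).choose w) ∧
  ∀ (w a : ℕ) (α : Fin (w + 1) →₀ ℕ),
    α ∈ Finset.finsuppAntidiag (Finset.univ : Finset (Fin (w + 1))) a ↔ α.degree = a

/-- The matrix of multiplication by a form of degree `q` from degree `a` to degree `b`. -/
noncomputable def mulM {K : Type} [Field K] {w : ℕ} (a b : ℕ)
    (F : MvPolynomial (Fin (w + 1)) K) : Matrix (MonT w b) (MonT w a) K :=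
  fun β α => MvPolynomial.coeff β.1 (F * MvPolynomial.monomial α.1 1)

/-- The value of the monomial `α` at `p`. -/
noncomputable def mval {w a : ℕ} (p : Fin (w + 1) → ℂ) (α : MonT w a) : ℂ := ∏ i, p i ^ α.1 i

/-- Unit columns. -/
def unitC {K : Type} [Field K] {m : Type} [DecidableEq m] {ρ : ℕ} (e : Fin ρ → m) :
    Matrix m (Fin ρ) K := fun i l => if i = e l then 1 else 0

/-- DZR.  Rules for the coefficientwise derivative.
Proof: coefficients; `dz` is additive and satisfies the product rule (on monomials). -/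
def Stmt_DZR : Prop :=
  (∀ (σ : Type) (F : MvPolynomial σ Mer) (α : σ →₀ ℕ), (dz F).coeff α = (F.coeff α)′) ∧
  (∀ (σ : Type) (F G : MvPolynomial σ Mer), dz (F + G) = dz F + dz G) ∧
  (∀ (σ : Type) (F G : MvPolynomial σ Mer), dz (F * G) = dz F * G + F * dz G) ∧
  (∀ (σ : Type) (F : MvPolynomial σ Mer) (q : ℕ), F.IsHomogeneous q → (dz F).IsHomogeneous q) ∧
  (∀ (σ : Type) (F : MvPolynomial σ Mer) (p : σ → ℂ), evC p (dz F) = (evC p F)′) ∧
  (∀ (σ : Type) (F : MvPolynomial σ Mer), dz F = 0 ↔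
    ∃ G : MvPolynomial σ ℂ, F = MvPolynomial.map (algebraMap ℂ Mer) G)

/-- DET.  The determinant identity behind Lemma S.
Proof: if both second factors vanish, both sides are `0`.  By symmetry let
`[A | G']` (rows reindexed by `η`) be invertible; then `G = A Y + G' M` for some `Y`, `M`, so
`[A | G] = [A | G'] [[1, Y], [0, M]]` and, because `diag(τ) E A = E A'`,
`[E | τ E G] = [E | τ E G'] [[1, A' Y], [0, M]]`; take determinants. -/
def Stmt_DET : Prop := ∀ (K : Type) [Field K] (m n : Type) [Fintype m] [Fintype n]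
  [DecidableEq m] [DecidableEq n] (ρ : ℕ) (A A' : Matrix m n K) (E : Matrix (m ⊕ Fin ρ) m K)
  (τ : m ⊕ Fin ρ → K) (G G' : Matrix m (Fin ρ) K) (η : n ⊕ Fin ρ ≃ m),
  (∀ j i, τ j * (E * A) j i = (E * A') j i) →
  Matrix.det (Matrix.fromCols E (fun j l => τ j * (E * G) j l)) *
      Matrix.det ((Matrix.fromCols A G').submatrix η id) =
    Matrix.det (Matrix.fromCols E (fun j l => τ j * (E * G') j l)) *
      Matrix.det ((Matrix.fromCols A G).submatrix η id)

/-- SHF.  Shift invariance: adding one scalar `s` to all `τ j` does not change the determinant.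
Proof: `[E | (τ + s) E G] = [E | τ E G] [[1, s G], [0, 1]]`. -/
def Stmt_SHF : Prop := ∀ (K : Type) [Field K] (m : Type) [Fintype m] [DecidableEq m] (ρ : ℕ)
  (E : Matrix (m ⊕ Fin ρ) m K) (τ : m ⊕ Fin ρ → K) (s : K) (G : Matrix m (Fin ρ) K),
  Matrix.det (Matrix.fromCols E (fun j l => (τ j + s) * (E * G) j l)) =
    Matrix.det (Matrix.fromCols E (fun j l => τ j * (E * G) j l))

/-- PLA.  Complex Pluecker coordinates of `F S_a` inside `S_(a+q)` do not all vanish, with a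
uniform lower bound (compactness).
Proof: for `F ≠ 0` multiplication `S_a → S_(a+q)` is injective, so the columns of `mulM F` are
linearly independent and can be completed by unit columns to a basis: some determinant is not `0`.
The maximum over `e` of the absolute values is continuous in the coefficients of `F` and positive
on the unit sphere (maximum norm of the coefficients) of the finite dimensional space of forms of
degree `q`; it is homogeneous of degree `numM w a`. -/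
def Stmt_PLA : Prop := ∀ (w q a ρ : ℕ) (η : MonT w a ⊕ Fin ρ ≃ MonT w (a + q)),
  ∃ c : ℝ, 0 < c ∧ ∀ F : MvPolynomial (Fin (w + 1)) ℂ, F.IsHomogeneous q → ∀ x : ℝ, 0 ≤ x →
    (∃ α, x ≤ ‖F.coeff α‖) → ∃ e : Fin ρ → MonT w (a + q), c * x ^ numM w a ≤
      ‖Matrix.det ((Matrix.fromCols (mulM a (a + q) F) (unitC e)).submatrix η id)‖

/-- The tuple of Pluecker coordinates of `F S_a` in `S_(a+q)`. -/
noncomputable def plu {w : ℕ} (q a ρ : ℕ) (η : MonT w a ⊕ Fin ρ ≃ MonT w (a + q))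
    (F : MvPolynomial (Fin (w + 1)) Mer) : (Fin ρ → MonT w (a + q)) → Mer :=
  fun e => Matrix.det ((Matrix.fromCols (mulM a (a + q) F) (unitC e)).submatrix η id)

/-- PLT (uses PLA, ALG, VAL, ORD, CMP, VPD).  Height of the Pluecker tuple.
Proof: pointwise off a discrete set `rep` of a determinant is the determinant of the values
(ALG), so PLA with `x = ‖vec (cf F) z‖` gives `log ‖vec (plu F) z‖ ≥ numM log ‖vec (cf F) z‖ + log c`.
Orders at `z`: `F = zt z ^ v * F₀` (`v = dvP F z`), `plu F = zt z ^ (numM v) plu F₀` (multilinear in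
the `numM` columns), the entries of `plu F₀` have order `≥ 0`, and one of them order `0`: their
values at `z` are the Pluecker coordinates of the reduction of `F₀`, which is a non zero complex
form (PLA). -/
def Stmt_PLT : Prop := ∀ (w q a ρ : ℕ) (η : MonT w a ⊕ Fin ρ ≃ MonT w (a + q))
  (F : MvPolynomial (Fin (w + 1)) Mer), F.IsHomogeneous q → F ≠ 0 →
  plu q a ρ η F ≠ 0 ∧ dv (plu q a ρ η F) = numM w a • dvP F ∧
  ∃ C : ℝ, ∀ r : ℝ, r ≠ 0 → numM w a * LL (cf F) r ≤ LL (plu q a ρ η F) r + C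

/-- The matrix of Lemma S and its determinants (`f j`: value of `F` at the node `j`). -/
noncomputable def psi {w : ℕ} (b ρ : ℕ) (p : MonT w b ⊕ Fin ρ → Fin (w + 1) → ℂ)
    (τ : MonT w b ⊕ Fin ρ → Mer) : (Fin ρ → MonT w b) → Mer :=
  fun e => Matrix.det (Matrix.fromCols
    (fun j α => algebraMap ℂ Mer (mval (p j) α) : Matrix (MonT w b ⊕ Fin ρ) (MonT w b) Mer)
    (fun j l => τ j * algebraMap ℂ Mer (mval (p j) (e l))))

/-- PSO (uses VAL, SHF).  Orders of the determinants.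
Proof: SHF: replace `τ j` by `τ j + s`; in the Leibniz expansion the factor from row `j` has order
`≥ 0` if it comes from the first block and `≥ - t j` otherwise; every term has order
`≥ - ∑ t j`. -/
def Stmt_PSO : Prop := ∀ (w b ρ : ℕ) (p : MonT w b ⊕ Fin ρ → Fin (w + 1) → ℂ)
  (τ : MonT w b ⊕ Fin ρ → Mer) (z : ℂ) (s : Mer) (t : MonT w b ⊕ Fin ρ → ℕ),
  (∀ j, ((- (t j : ℤ) : ℤ) : WithTop ℤ) ≤ om (τ j + s) z) →
  ∀ e, ((- (∑ j, (t j : ℤ)) : ℤ) : WithTop ℤ) ≤ om (psi b ρ p τ e) z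

/-- PSU (uses ALG, VAL, ORD, SHF, CMP).  Size of the determinants.
Proof: SHF with `s = - τ j₀`; pointwise, off a discrete set, `|psi e| ≤ C ∏ max(1, |τ j - τ j₀|)`
(Leibniz, the complex entries are bounded), take logarithms and means. -/
def Stmt_PSU : Prop := ∀ (w b ρ : ℕ) (p : MonT w b ⊕ Fin ρ → Fin (w + 1) → ℂ)
  (τ : MonT w b ⊕ Fin ρ → Mer) (j₀ : MonT w b ⊕ Fin ρ), psi b ρ p τ ≠ 0 →
  ∃ C : ℝ, ∀ r : ℝ, r ≠ 0 → LL (psi b ρ p τ) r ≤ ∑ j, MP (τ j - τ j₀) r + C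

/-- LGD (uses REP, ALG, VAL, DZR).  Orders of shifted logarithmic derivatives of the values of a
form: with `n = dvP F z`, `d = dv1 (evC p F) z - n ≥ 0`, the function
`(evC p F)′ / evC p F - n / (x - z)` has order `≥ - min d 1`.
Proof: `f = (x - z)^(n + d) h`, `h` a unit at `z`; `f′ / f = (n + d) / (x - z) + h′ / h`. -/
def Stmt_LGD : Prop := ∀ (f : Mer) (z : ℂ) (n : ℤ), f ≠ 0 → n ≤ dv1 f z →
  ((- min (dv1 f z - n) 1 : ℤ) : WithTop ℤ) ≤
    om (f′ / f + - (algebraMap ℂ Mer n * (zt z)⁻¹)) z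

/-- INJ (uses MON).  Choice of the nodes by linear algebra over the field `Mer`.
Proof: put `b = a + q`.  Choose `e : Fin ρ → MonT w b` such that `F S_a` and the monomials
`x^(e l)` form a basis of `S_b` over `Mer` (Steinitz; multiplication by `F` is injective, so
`F S_a` has dimension `numM w a`; `η` gives `numM w a + ρ = numM w b`).  The `numM w b + ρ` vectors
`F x^α` (`α` of degree `b`) and `F' x^(e l)` of `S_(b+q)` are linearly independent over `Mer`: if
`F B + F' G = 0` with `B ∈ S_b` and `G` in the span of the `x^(e l)`, then `F ∣ G F'`, so `F ∣ G`, hence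
`G ∈ F S_a` (the quotient is homogeneous) and `G = 0`, `B = 0`.  Evaluation at the points of `S` is
injective on complex forms of degree `b + q = a + 2 q`, hence already at finitely many points of
`S` (finite dimension), and then on forms with coefficients in `Mer` (the matrix is complex; its
rank does not change).  So the matrix (finitely many points of `S`) x (these `numM w b + ρ`
vectors) has full column rank and a non vanishing square minor: its rows give `p`, injective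
because equal rows give determinant `0`.  Row `j` is `evC (p j) F` times the row of
`psi b ρ p (evC F' / evC F) e`, so this coordinate of `psi` is not `0`. -/
def Stmt_INJ : Prop := ∀ (w q a ρ : ℕ) (_η : MonT w a ⊕ Fin ρ ≃ MonT w (a + q))
  (F F' : MvPolynomial (Fin (w + 1)) Mer) (S : Set (Fin (w + 1) → ℂ)),
  F.IsHomogeneous q → F'.IsHomogeneous q → F ≠ 0 →
  (∀ B : MvPolynomial (Fin (w + 1)) Mer, B.IsHomogeneous (a + q) → F ∣ B * F' → F ∣ B) →
  (∀ p ∈ S, evC p F ≠ 0) →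
  (∀ G : MvPolynomial (Fin (w + 1)) ℂ, G.IsHomogeneous (a + 2 * q) →
    (∀ p ∈ S, MvPolynomial.eval p G = 0) → G = 0) →
  ∃ (p : MonT w (a + q) ⊕ Fin ρ → Fin (w + 1) → ℂ), (∀ j, p j ∈ S) ∧ Function.Injective p ∧
    psi (a + q) ρ p (fun j => evC (p j) F' / evC (p j) F) ≠ 0

/-- SMT (uses INJ, DET, PLT, PSO, PSU, LGD, SML, NNP, MON, DZR, VAL, ORD, VPD).  Lemma S with the
proximity terms.
Proof: `ρ = numM w (a+q) - numM w a` and any `η`.  `p` from INJ with `F' = dz F`,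
`τ j = evC (dz F) / evC F = (evC F)′ / evC F`.  DET with `E j α = mval (p j) α`,
`A = mulM a (a+q) F`, `A' = mulM a (a+q) (dz F)` (`(E A) j α = evC (p j) F * mval (p j) α`): the tuples
`psi` and `plu F` are proportional, `psi = λ • plu F` with `λ ≠ 0`.  SML: `TT psi = TT (plu F) + C`,
and by PLT `TT (plu F) ≥ numM w a * TP F - C`.  `TT psi = LL psi - NN (dv psi)`; PSO with
`s = - n (x - z)⁻¹`, `n = dvP F z`, and LGD: `- dv psi ≤ ∑ tru (dv1 (evC F) - dvP F)`; PSU. -/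
def Stmt_SMT : Prop := ∀ (w q a : ℕ) (F : MvPolynomial (Fin (w + 1)) Mer)
  (S : Set (Fin (w + 1) → ℂ)), F.IsHomogeneous q → F ≠ 0 →
  (∀ B : MvPolynomial (Fin (w + 1)) Mer, B.IsHomogeneous (a + q) → F ∣ B * dz F → F ∣ B) →
  (∀ p ∈ S, evC p F ≠ 0) →
  (∀ G : MvPolynomial (Fin (w + 1)) ℂ, G.IsHomogeneous (a + 2 * q) →
    (∀ p ∈ S, MvPolynomial.eval p G = 0) → G = 0) →
  ∃ J : Finset (Fin (w + 1) → ℂ), (∀ p ∈ J, p ∈ S) ∧
    J.card + numM w a = 2 * numM w (a + q) ∧ ∀ p₀ ∈ J, ∃ C : ℝ, ∀ r : ℝ, 1 ≤ r →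
    numM w a * TP F r ≤ ∑ p ∈ J, NN (tru (dv1 (evC p F) - dvP F)) r +
      ∑ p ∈ J, MP ((evC p F)′ / evC p F - (evC p₀ F)′ / evC p₀ F) r + C

/-- LEMS (uses SMT, LDX, MON, NNP, LOW).  Lemma S, final form.
Proof: SMT; LDX with `c = cf F`, `f = evC p F` (a complex linear combination of the coefficients),
`g = evC p₀ F`, `ε / 2`; the constant `C` is absorbed because `TP F r → ∞`. -/
def Stmt_LEMS : Prop := ∀ (w q a : ℕ) (F : MvPolynomial (Fin (w + 1)) Mer)
  (S : Set (Fin (w + 1) → ℂ)), F.IsHomogeneous q → F ≠ 0 →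
  (∀ B : MvPolynomial (Fin (w + 1)) Mer, B.IsHomogeneous (a + q) → F ∣ B * dz F → F ∣ B) →
  (∀ p ∈ S, evC p F ≠ 0) →
  (∀ G : MvPolynomial (Fin (w + 1)) ℂ, G.IsHomogeneous (a + 2 * q) →
    (∀ p ∈ S, MvPolynomial.eval p G = 0) → G = 0) →
  Tendsto (fun r => TP F r / Real.log r) atTop atTop →
  ∃ J : Finset (Fin (w + 1) → ℂ), (∀ p ∈ J, p ∈ S) ∧
    J.card + numM w a = 2 * numM w (a + q) ∧ ∀ ε : ℝ, 0 < ε → ∀ r₀ : ℝ, ∃ r, r₀ ≤ r ∧ 1 ≤ r ∧
    numM w a * TP F r ≤ ∑ p ∈ J, NN (tru (dv1 (evC p F) - dvP F)) r + ε * TP F r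

end Pool.ThmM
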