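import Pool.Agent.Work.MP_f82ddf_M1.Defs

/-!
# Theorem M, part 1: statements (kit of value distribution and Lemma S)

Every `Stmt_X` is one block; its docstring is a complete proof.  Block file
`Pool/Agent/Work/MP_f82ddf_M1/B_X.lean`: import this file, namespace `Pool.ThmM`,
`theorem p_X (h1 : Stmt_Y) ... : Stmt_X` with the hypotheses of the column `uses`.
-/

open Topology Filter
open scoped Differential
open Pool.Agent.Work.MP_f82ddf_nt.DQ

namespace Pool.ThmM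

/-! ## A. Representatives, orders, Jensen -/

/-- REP.  `rep f` is a meromorphic normal form and represents `f`.
Proof: `toMeromorphicNFOn g univ` agrees with `g` on a codiscrete set (Mathlib:
`meromorphicNFOn_toMeromorphicNFOn`, `toMeromorphicNFOn_eqOn_codiscrete`); `Mer.mk_eq_mk`. -/
def Stmt_REP : Prop := ∀ f : Mer, MeromorphicNFOn (rep f) Set.univ ∧ Meromorphic (rep f) ∧
  ∃ h : ∀ z, MeromorphicAt (rep f) z, Mer.mk (rep f) h = f

/-- ALG (uses REP).  Rules for representatives, outside of a discrete closed set.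
Proof: `Mer.mk_add`, `Mer.mk_mul`, `Mer.deriv_mk`, `Mer.mk_eq_mk`; two normal forms of the same
element agree everywhere off a discrete set. `codiscrete`: `∀ z₀, ∀ᶠ z in 𝓝[≠] z₀, _` is the same
as `∀ᶠ z in codiscrete ℂ, _`. -/
def Stmt_ALG : Prop :=
  (∀ (f : Mer) (g : ℂ → ℂ) (hg : ∀ z, MeromorphicAt g z), f = Mer.mk g hg →
    rep f =ᶠ[codiscrete ℂ] g) ∧
  (∀ f g : Mer, rep (f + g) =ᶠ[codiscrete ℂ] fun z => rep f z + rep g z) ∧
  (∀ f g : Mer, rep (f - g) =ᶠ[codiscrete ℂ] fun z => rep f z - rep g z) ∧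
  (∀ f g : Mer, rep (f * g) =ᶠ[codiscrete ℂ] fun z => rep f z * rep g z) ∧
  (∀ f : Mer, rep f⁻¹ =ᶠ[codiscrete ℂ] fun z => (rep f z)⁻¹) ∧
  (∀ f : Mer, rep (f′) =ᶠ[codiscrete ℂ] deriv (rep f)) ∧
  (∀ a : ℂ, rep (algebraMap ℂ Mer a) =ᶠ[codiscrete ℂ] fun _ => a) ∧
  (∀ f : Mer, f ≠ 0 → ∀ᶠ z in codiscrete ℂ, rep f z ≠ 0)

/-- POL (uses ALG).  A polynomial with complex coefficients evaluated at a tuple of elements of
`Mer` is represented by the pointwise value.  Proof: `MvPolynomial.induction_on`. -/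
def Stmt_POL : Prop := ∀ (ι : Type) [Finite ι] (P : MvPolynomial ι ℂ) (c : ι → Mer),
  rep (MvPolynomial.aeval c P) =ᶠ[codiscrete ℂ] fun z => MvPolynomial.eval (vec c z) P

/-- VAL (uses REP, ALG).  `om · z` is a discrete valuation of the field `Mer`.
Proof: `meromorphicOrderAt_mul`, `meromorphicOrderAt_add`, `meromorphicOrderAt_congr`,
`meromorphicOrderAt_eq_top_iff` with the identity theorem (`eventually_ne_zero_of_not_mem` in
DQ.Mer), `MeromorphicOn.divisor_apply` for the relation with `dv1`. -/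
def Stmt_VAL : Prop := ∀ z : ℂ,
  (∀ f g : Mer, om (f * g) z = om f z + om g z) ∧
  (∀ f g : Mer, min (om f z) (om g z) ≤ om (f + g) z) ∧
  (∀ f : Mer, om f z = ⊤ ↔ f = 0) ∧
  (∀ a : ℂ, a ≠ 0 → om (algebraMap ℂ Mer a) z = 0) ∧
  (∀ f : Mer, f ≠ 0 → om f z = (dv1 f z : ℤ)) ∧
  (om (zt z) z = 1)

/-- DV1 (uses VAL).  The same rules for divisors. -/
def Stmt_DV1 : Prop :=
  (∀ f g : Mer, f ≠ 0 → g ≠ 0 → dv1 (f * g) = dv1 f + dv1 g) ∧
  (∀ f : Mer, f ≠ 0 → dv1 f⁻¹ = - dv1 f) ∧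
  (∀ a : ℂ, a ≠ 0 → dv1 (algebraMap ℂ Mer a) = 0) ∧
  (∀ (f : Mer) (n : ℕ), f ≠ 0 → dv1 (f ^ n) = n • dv1 f)

/-- ORD (uses REP, VAL).  The divisor of a tuple is the minimum of the divisors of the non zero
entries; the vector valued function is meromorphic.
Proof: near `z` write `vec c w = (w - z) ^ m • h w` with `m` the minimum of the orders and `h`
analytic (entrywise), `h z ≠ 0`; `meromorphicOrderAt_eq_int_iff`. -/
def Stmt_ORD : Prop := ∀ (ι : Type) [Fintype ι] (c : ι → Mer), Meromorphic (vec c) ∧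
  (c ≠ 0 → ∀ z : ℂ, (∀ i, c i ≠ 0 → dv c z ≤ dv1 (c i) z) ∧ ∃ i, c i ≠ 0 ∧ dv1 (c i) z = dv c z)

/-- CMP.  Comparison of circle averages outside of a discrete set.
Proof: the exceptional set meets the circle in a finite set (compactness), hence `g ≤ h` almost
everywhere on the circle; `intervalIntegral.integral_mono_ae`.  (Or: change `g` on the exceptional
set and use `circleAverage_congr_codiscreteWithin` and `circleAverage_mono`.) -/
def Stmt_CMP : Prop := ∀ (g h : ℂ → ℝ) (r : ℝ), r ≠ 0 → CircleIntegrable g 0 r →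
  CircleIntegrable h 0 r → (∀ᶠ z in codiscrete ℂ, g z ≤ h z) →
  Real.circleAverage g 0 r ≤ Real.circleAverage h 0 r

/-- JEN (uses REP).  Jensen's formula. Proof:
`Function.locallyFinsuppWithin.logCounting_divisor_eq_circleAverage_sub_const`. -/
def Stmt_JEN : Prop := ∀ f : Mer, ∃ C : ℝ, ∀ r : ℝ, r ≠ 0 → LL1 f r = NN (dv1 f) r + C

/-- LIN (uses REP, ALG, ORD, VAL, CMP).  A linear image `d` of a tuple `c` (complex coefficients).
Proof: orders: `VAL` (finite sums).  Norms: `|rep (d k) z| ≤ K ‖vec c z‖` outside a discrete set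
(ALG), take logarithms where `vec d z ≠ 0` (codiscrete because `d ≠ 0`), CMP, integrability of
`log ‖vec c‖`: `MeromorphicOn.circleIntegrable_log_norm`. -/
def Stmt_LIN : Prop := ∀ (ι κ : Type) [Fintype ι] [Fintype κ] (M : κ → ι → ℂ) (c : ι → Mer)
  (d : κ → Mer), (∀ k, d k = ∑ i, algebraMap ℂ Mer (M k i) * c i) → d ≠ 0 →
  dv c ≤ dv d ∧ ∃ C : ℝ, ∀ r : ℝ, r ≠ 0 → LL d r ≤ LL c r + C

/-- SML (uses ALG, ORD, DV1, JEN, CMP).  Multiplication of a tuple by a non zero scalar.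
Proof: orders from ORD and DV1; `‖vec (f • c) z‖ = |rep f z| ‖vec c z‖` off a discrete set; JEN. -/
def Stmt_SML : Prop := ∀ (ι : Type) [Fintype ι] (f : Mer) (c : ι → Mer), f ≠ 0 → c ≠ 0 →
  dv (f • c) = dv1 f + dv c ∧ (∀ r : ℝ, r ≠ 0 → LL (f • c) r = LL1 f r + LL c r) ∧
  ∃ C : ℝ, ∀ r : ℝ, r ≠ 0 → TT (f • c) r = TT c r + C

/-- NNP.  Rules for the counting function (`r ≥ 1`): additive, monotone, positive; truncation.
Proof: `map_add`, `Function.locallyFinsuppWithin.logCounting_nonneg`, `logCounting_le`. -/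
def Stmt_NNP : Prop :=
  (∀ (D E : Function.locallyFinsupp ℂ ℤ) (r : ℝ), NN (D + E) r = NN D r + NN E r) ∧
  (∀ (D E : Function.locallyFinsupp ℂ ℤ) (r : ℝ), NN (D - E) r = NN D r - NN E r) ∧
  (∀ (D : Function.locallyFinsupp ℂ ℤ) (n : ℕ) (r : ℝ), NN (n • D) r = n * NN D r) ∧
  (∀ (D E : Function.locallyFinsupp ℂ ℤ) (r : ℝ), D ≤ E → 1 ≤ r → NN D r ≤ NN E r) ∧
  (∀ (D : Function.locallyFinsupp ℂ ℤ) (r : ℝ), 0 ≤ D → 1 ≤ r → 0 ≤ NN D r) ∧
  (∀ (D E : Function.locallyFinsupp ℂ ℤ) (r : ℝ), 0 ≤ D → (∀ z, E z ≤ D z ∧ 0 ≤ E z ∧ E z ≠ 1) →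
    1 ≤ r → NN E r ≤ 2 * (NN D r - NN (tru D) r))

/-- LOW (uses LIN, JEN, NNP, SML).  Heights are bounded below, and the first main theorem: for a
non zero linear combination `f` of the entries, `T(c) = N(dv1 f - dv c) + (LL c - LL1 f) + C` and
`LL c - LL1 f ≥ - C`.  Proof: JEN for `f`; LIN with one row (`d : Unit → Mer`, `LL d = LL1 f`). -/
def Stmt_LOW : Prop := ∀ (ι : Type) [Fintype ι] (c : ι → Mer) (m : ι → ℂ) (f : Mer),
  f = ∑ i, algebraMap ℂ Mer (m i) * c i → f ≠ 0 →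
  dv c ≤ dv1 f ∧ ∃ C K : ℝ,
    (∀ r : ℝ, r ≠ 0 → TT c r = NN (dv1 f - dv c) r + (LL c r - LL1 f r) + C) ∧
    (∀ r : ℝ, r ≠ 0 → LL1 f r ≤ LL c r + K) ∧ ∀ r : ℝ, 1 ≤ r → - K ≤ TT c r

/-- CHR (uses REP, ALG, ORD, VAL).  The height of `(φ, 1)` is Mathlib's characteristic function.
Proof: `log max(|φ|, 1) = log⁺ |φ|` off a discrete set, `dv ![φ, 1] z = min (ord φ) 0`, so
`- dv ![φ, 1]` is the negative part of the divisor: `logCounting_top`, `proximity_top`.
Monotone: `ValueDistribution.characteristic_monotoneOn`. -/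
def Stmt_CHR : Prop := ∀ φ : Mer,
  (∀ r : ℝ, r ≠ 0 → TT ![φ, 1] r = ValueDistribution.characteristic (rep φ) ⊤ r) ∧
  MonotoneOn (TT ![φ, 1]) (Set.Ioi 0) ∧ (∀ r : ℝ, 1 ≤ r → 0 ≤ TT ![φ, 1] r) ∧
  (∀ r : ℝ, r ≠ 0 → TT ![φ, 1] r = MP φ r + NN (dv1 φ)⁻ r)

/-- TOP (uses LIN, SML, CHR, NNP, ORD, ALG, CMP).  Height of a tuple against the heights of the
quotients.
Proof: (1) `![f / g, 1] = g⁻¹ • ![f, g]`, LIN and SML.  (2) `c = c i₀ • (c i / c i₀)`;
`log max_i |c i / c i₀| ≤ ∑ log⁺ |c i / c i₀|`, and the negative of the minimum of the orders is at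
most the sum of the negative parts. -/
def Stmt_TOP : Prop := ∀ (ι : Type) [Fintype ι] (c : ι → Mer),
  (∀ (m n : ι → ℂ), (∑ i, algebraMap ℂ Mer (n i) * c i) ≠ 0 → ∃ C : ℝ, ∀ r : ℝ, 1 ≤ r →
    TT ![(∑ i, algebraMap ℂ Mer (m i) * c i) / (∑ i, algebraMap ℂ Mer (n i) * c i), 1] r
      ≤ TT c r + C) ∧
  (∀ i₀ : ι, c i₀ ≠ 0 → ∃ C : ℝ, ∀ r : ℝ, 1 ≤ r → TT c r ≤ ∑ i, TT ![c i / c i₀, 1] r + C)

/-- VPD (uses ORD, VAL).  `vP` and `dvP` agree. -/
def Stmt_VPD : Prop := ∀ (σ : Type) (F : MvPolynomial σ Mer), F ≠ 0 → ∀ z : ℂ,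
  vP F z = (dvP F z : ℤ)

/-- GAU (uses VAL).  Gauss' lemma for the orders of the coefficients.
Proof at `z`: multiply `F`, `G` by powers of `zt z` so that both have minimal order `0`; reduce the
coefficients at `z` (ring of elements of order `≥ 0` modulo elements of order `≥ 1` is a domain;
choose the lexicographically smallest exponent with coefficient of order `0` in `F` and in `G`: the
product coefficient at the sum is (unit) + (elements of order `≥ 1`)).  First `σ = Fin n` with a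
linear order on exponents (`MonomialOrder.lex`), then rename (`Finite.equivFin`). -/
def Stmt_GAU : Prop := ∀ (σ : Type) [Finite σ] (F G : MvPolynomial σ Mer) (z : ℂ),
  vP (F * G) z = vP F z + vP G z

/-- GEP.  Gelfond's inequality for complex polynomials by compactness.
Proof: the vector spaces of polynomials with exponents in a finite set are finite dimensional, the
product is bilinear and has no zero divisors, so on the product of the two unit spheres (compact)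
the norm of the product has a positive minimum; homogeneity. -/
def Stmt_GEP : Prop := ∀ (σ : Type) [Finite σ] (A B : Finset (σ →₀ ℕ)), ∃ c : ℝ, 0 < c ∧
  ∀ F G : MvPolynomial σ ℂ, F.support ⊆ A → G.support ⊆ B →
  ∀ x y : ℝ, (∀ α, ‖F.coeff α‖ ≤ x) → (∃ α, ‖F.coeff α‖ = x) → (∀ α, ‖G.coeff α‖ ≤ y) →
    (∃ α, ‖G.coeff α‖ = y) → (∃ γ, c * (x * y) ≤ ‖(F * G).coeff γ‖) ∧
    ∀ γ, ‖(F * G).coeff γ‖ ≤ c⁻¹ * (x * y)

/-- GEL (uses GEP, GAU, VPD, ALG, CMP, ORD).  Heights of products of polynomials.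
Proof: pointwise GEP outside of a discrete set, CMP, then GAU for the orders. -/
def Stmt_GEL : Prop := ∀ (σ : Type) [Finite σ] (F G : MvPolynomial σ Mer), F ≠ 0 → G ≠ 0 →
  ∃ C : ℝ, ∀ r : ℝ, r ≠ 0 → |LL (cf (F * G)) r - LL (cf F) r - LL (cf G) r| ≤ C ∧
    |TP (F * G) r - TP F r - TP G r| ≤ C

end Pool.ThmM
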