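import Pool.Agent.Work.MP_f82ddf_M1.Interface2

/-!
# Theorem M, part 1, block DET: the determinant identity behind Lemma S
-/

set_option linter.unusedSectionVars false

namespace Pool.ThmM

namespace DET

variable {K : Type} [Field K] {m n : Type} [Fintype m] [Fintype n]
  [DecidableEq m] [DecidableEq n] {ρ : ℕ}

private theorem main (A A' : Matrix m n K) (E : Matrix (m ⊕ Fin ρ) m K)
    (τ : m ⊕ Fin ρ → K) (G G' : Matrix m (Fin ρ) K) (η : n ⊕ Fin ρ ≃ m)
    (h : ∀ j i, τ j * (E * A) j i = (E * A') j i)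
    (h0 : Matrix.det ((Matrix.fromCols A G').submatrix η id) ≠ 0) :
    Matrix.det (Matrix.fromCols E (fun j l => τ j * (E * G) j l)) *
      Matrix.det ((Matrix.fromCols A G').submatrix η id) =
    Matrix.det (Matrix.fromCols E (fun j l => τ j * (E * G') j l)) *
      Matrix.det ((Matrix.fromCols A G).submatrix η id) := by
  obtain ⟨Z, hZ⟩ : ∃ Z : Matrix (n ⊕ Fin ρ) (Fin ρ) K, Matrix.fromCols A G' * Z = G := by
    refine ⟨((Matrix.fromCols A G').submatrix η id)⁻¹ * G.submatrix η id, ?_⟩
    have hu : IsUnit (Matrix.det ((Matrix.fromCols A G').submatrix η id)) := isUnit_iff_ne_zero.2 h0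
    have h1 : (Matrix.fromCols A G').submatrix η id *
        (((Matrix.fromCols A G').submatrix η id)⁻¹ * G.submatrix η id) = G.submatrix η id := by
      rw [← Matrix.mul_assoc, Matrix.mul_nonsing_inv _ hu, Matrix.one_mul]
    ext i j
    have h2 := congrFun (congrFun h1 (η.symm i)) j
    rw [Matrix.mul_apply] at h2 ⊢
    simpa using h2
  obtain ⟨Y, M, rfl⟩ : ∃ (Y : Matrix n (Fin ρ) K) (M : Matrix (Fin ρ) (Fin ρ) K),
      Z = Matrix.fromRows Y M := ⟨Z.toRows₁, Z.toRows₂, (Matrix.fromRows_toRows Z).symm⟩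
  rw [Matrix.fromCols_mul_fromRows] at hZ
  have e1 : (Matrix.fromCols A G).submatrix η id =
      (Matrix.fromCols A G').submatrix η id * Matrix.fromBlocks 1 Y 0 M := by
    have : Matrix.fromCols A G = Matrix.fromCols A G' * Matrix.fromBlocks 1 Y 0 M := by
      rw [Matrix.fromCols_mul_fromBlocks, hZ]
      simp
    rw [this]
    ext i j
    simp [Matrix.mul_apply]
  have e2 : Matrix.fromCols E (fun j l => τ j * (E * G) j l) =
      Matrix.fromCols E (fun j l => τ j * (E * G') j l) * Matrix.fromBlocks 1 (A' * Y) 0 M := by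
    rw [Matrix.fromCols_mul_fromBlocks]
    have key : ∀ W : Matrix (m ⊕ Fin ρ) (Fin ρ) K, (∀ j l, W j l = τ j * (E * G') j l) →
        ∀ j l, (E * (A' * Y) + W * M) j l = τ j * (E * G) j l := by
      intro W hW j l
      rw [← hZ, Matrix.add_apply, Matrix.mul_add, Matrix.add_apply, ← Matrix.mul_assoc,
        ← Matrix.mul_assoc, ← Matrix.mul_assoc, mul_add]
      congr 1
      · rw [Matrix.mul_apply, Matrix.mul_apply, Finset.mul_sum]
        refine Finset.sum_congr rfl fun k _ => ?_
        rw [← h, mul_assoc]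
      · rw [Matrix.mul_apply, Matrix.mul_apply, Finset.mul_sum]
        refine Finset.sum_congr rfl fun k _ => ?_
        rw [hW, mul_assoc]
    rw [show E * (A' * Y) + HMul.hMul (α := Matrix (m ⊕ Fin ρ) (Fin ρ) K)
      (fun j l => τ j * (E * G') j l) M = (fun j l => τ j * (E * G) j l) from
      funext fun j => funext fun l => key _ (fun _ _ => rfl) j l]
    simp
  rw [e1, e2, Matrix.det_mul, Matrix.det_mul, Matrix.det_fromBlocks_zero₂₁,
    Matrix.det_fromBlocks_zero₂₁, Matrix.det_one, Matrix.det_one]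
  ring

end DET

theorem p_DET : Stmt_DET := by
  intro K _ m n _ _ _ _ ρ A A' E τ G G' η h
  by_cases h0 : Matrix.det ((Matrix.fromCols A G').submatrix η id) = 0
  · by_cases h1 : Matrix.det ((Matrix.fromCols A G).submatrix η id) = 0
    · rw [h0, h1, mul_zero, mul_zero]
    · exact (DET.main A A' E τ G' G η h h1).symm
  · exact DET.main A A' E τ G G' η h h0

end Pool.ThmM
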