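import Pool.Agent.Work.MP_f82ddf_M1.Interface2

/-! # Block DZR (helper29): rules for the coefficientwise derivative -/

open Topology Filter
open scoped Differential
open Pool.Agent.Work.MP_f82ddf_nt.DQ

namespace Pool.ThmM

namespace DZR

theorem d_zero : ((0 : Mer)′) = 0 := map_zero _

theorem d_add (a b : Mer) : (a + b)′ = a′ + b′ := map_add _ _ _

theorem d_mul (a b : Mer) : (a * b)′ = a′ * b + a * b′ := by
  have := Derivation.leibniz (Differential.deriv : Derivation ℤ Mer Mer) a b
  rw [this]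
  simp only [smul_eq_mul]
  ring

theorem d_sum {ι : Type} (s : Finset ι) (f : ι → Mer) :
    (∑ i ∈ s, f i)′ = ∑ i ∈ s, (f i)′ := map_sum _ _ _

theorem coeff_dz {σ : Type} (F : MvPolynomial σ Mer) (α : σ →₀ ℕ) :
    (dz F).coeff α = (F.coeff α)′ := by
  classical
  unfold dz
  rw [MvPolynomial.coeff_sum]
  simp only [MvPolynomial.coeff_monomial]
  rw [Finset.sum_ite_eq']
  split_ifs with h
  · rfl
  · rw [MvPolynomial.notMem_support_iff.1 h, d_zero]

theorem ev_dz {σ : Type} (F : MvPolynomial σ Mer) (p : σ → ℂ) :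
    evC p (dz F) = (evC p F)′ := by
  unfold evC
  rw [MvPolynomial.eval_eq (fun i => algebraMap ℂ Mer (p i)) F, d_sum]
  unfold dz
  rw [map_sum]
  refine Finset.sum_congr rfl fun α _ => ?_
  rw [MvPolynomial.eval_monomial, d_mul]
  have h1 : (∏ i ∈ α.support, (algebraMap ℂ Mer (p i)) ^ α i) =
      algebraMap ℂ Mer (∏ i ∈ α.support, p i ^ α i) := by
    rw [map_prod]
    refine Finset.prod_congr rfl fun i _ => ?_
    rw [map_pow]
  rw [h1, Mer.deriv_algebraMap, mul_zero, add_zero, ← h1]
  rfl

end DZR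

open DZR in
theorem p_DZR : Stmt_DZR := by
  classical
  refine ⟨fun σ F α => coeff_dz F α, ?_, ?_, ?_, fun σ F p => ev_dz F p, ?_⟩
  · intro σ F G
    ext α
    rw [MvPolynomial.coeff_add, coeff_dz, coeff_dz, coeff_dz, MvPolynomial.coeff_add, d_add]
  · intro σ F G
    ext α
    rw [MvPolynomial.coeff_add, coeff_dz, MvPolynomial.coeff_mul, MvPolynomial.coeff_mul,
      MvPolynomial.coeff_mul, d_sum, ← Finset.sum_add_distrib]
    refine Finset.sum_congr rfl fun x _ => ?_
    rw [d_mul, coeff_dz, coeff_dz]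
  · intro σ F q hF α hα
    rw [coeff_dz] at hα
    apply hF
    intro h0
    rw [h0] at hα
    exact hα d_zero
  · intro σ F
    constructor
    · intro h
      have h1 : ∀ α, ∃ c : ℂ, F.coeff α = algebraMap ℂ Mer c := by
        intro α
        apply Mer.exists_algebraMap
        rw [← coeff_dz, h, MvPolynomial.coeff_zero]
      choose c hc using h1
      refine ⟨∑ α ∈ F.support, MvPolynomial.monomial α (c α), ?_⟩
      rw [map_sum]
      conv_lhs => rw [F.as_sum]
      refine Finset.sum_congr rfl fun α _ => ?_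
      rw [MvPolynomial.map_monomial, ← hc]
    · rintro ⟨G, rfl⟩
      ext α
      rw [coeff_dz, MvPolynomial.coeff_map, Mer.deriv_algebraMap, MvPolynomial.coeff_zero]

end Pool.ThmM
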