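import Pool.Agent.Work.MP_f82ddf_M1.Interface3

/-!
# Theorem M, part 1, block END: the end of the argument
-/

open Topology Filter
open scoped Differential
open Pool.Agent.Work.MP_f82ddf_nt.DQ

namespace Pool.ThmM

namespace END

private lemma evC_eq {w : ℕ} (F : MvPolynomial (Fin (w + 1)) Mer) (p : Fin (w + 1) → ℂ) :
    evC p F = ∑ i : F.support, algebraMap ℂ Mer (∏ k, p k ^ (i : Fin (w + 1) →₀ ℕ) k) * cf F i := by
  unfold evC cf
  rw [MvPolynomial.eval_eq', ← Finset.sum_coe_sort]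
  refine Finset.sum_congr rfl fun i _ => ?_
  rw [mul_comm, map_prod]
  simp only [map_pow]

private lemma choose_step (w a : ℕ) :
    ((a + 1 + w).choose w : ℝ) * (a + 1) = (a + 1 + w) * ((a + w).choose w : ℝ) := by
  have h1 := Nat.add_one_mul_choose_eq (a + w) a
  have h2 : (a + w).choose a = (a + w).choose w := by
    rw [← Nat.choose_symm_add]
  have h3 : (a + w + 1).choose (a + 1) = (a + 1 + w).choose w := by
    have e : a + w + 1 = (a + 1) + w := by ring
    rw [e, ← Nat.choose_symm_add]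
  have h4 : (a + w + 1) * (a + w).choose a = (a + w + 1).choose (a + 1) * (a + 1) := h1
  rw [h2, h3] at h4
  have h5 : ((a + w + 1 : ℕ) : ℝ) * ((a + w).choose w : ℝ)
      = ((a + 1 + w).choose w : ℝ) * ((a + 1 : ℕ) : ℝ) := by exact_mod_cast h4
  push_cast at h5
  linarith

private lemma ratio_one (w : ℕ) : Tendsto
    (fun a : ℕ => ((a + 1 + w).choose w : ℝ) / ((a + w).choose w : ℝ)) atTop (𝓝 1) := by
  have h1 : ∀ a : ℕ, ((a + 1 + w).choose w : ℝ) / ((a + w).choose w : ℝ)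
      = 1 + w / ((a : ℝ) + 1) := by
    intro a
    have h2 : (0 : ℝ) < ((a + w).choose w : ℝ) := by
      exact_mod_cast Nat.choose_pos (by omega)
    have h3 : (0 : ℝ) < (a : ℝ) + 1 := by positivity
    rw [div_eq_iff h2.ne']
    have h4 := choose_step w a
    field_simp
    linarith
  simp_rw [h1]
  have h5 : Tendsto (fun a : ℕ => (w : ℝ) / ((a : ℝ) + 1)) atTop (𝓝 0) := by
    apply Tendsto.div_atTop tendsto_const_nhds
    exact tendsto_atTop_add_const_right _ _ tendsto_natCast_atTop_atTop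
  simpa using h5.const_add 1

private lemma ratio (w q : ℕ) : Tendsto
    (fun a : ℕ => ((a + q + w).choose w : ℝ) / ((a + w).choose w : ℝ)) atTop (𝓝 1) := by
  induction q with
  | zero =>
    apply tendsto_const_nhds.congr'
    filter_upwards with a
    have h2 : (0 : ℝ) < ((a + w).choose w : ℝ) := by
      exact_mod_cast Nat.choose_pos (by omega)
    rw [Nat.add_zero, div_self h2.ne']
  | succ q ih =>
    have h1 : Tendsto (fun a : ℕ => ((a + q + 1 + w).choose w : ℝ) / ((a + q + w).choose w : ℝ))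
        atTop (𝓝 1) := (ratio_one w).comp (tendsto_add_atTop_nat q)
    have h2 := h1.mul ih
    rw [one_mul] at h2
    apply h2.congr
    intro a
    have h3 : (0 : ℝ) < ((a + w).choose w : ℝ) := by
      exact_mod_cast Nat.choose_pos (by omega)
    have h4 : (0 : ℝ) < ((a + q + w).choose w : ℝ) := by
      exact_mod_cast Nat.choose_pos (by omega)
    have e : a + (q + 1) + w = a + q + 1 + w := by ring
    rw [e]
    field_simp

private lemma numbers (w q b : ℕ) : ∃ a₀ : ℕ, ∀ a : ℕ, a₀ ≤ a →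
    (4 * (b : ℝ) - 2) * ((a + q + w).choose w : ℝ) < (4 * b - 1) * ((a + w).choose w : ℝ) := by
  have h1 := (ratio w q).const_mul (4 * (b : ℝ) - 2)
  rw [mul_one] at h1
  have h2 : ∀ᶠ a : ℕ in atTop, (4 * (b : ℝ) - 2) *
      (((a + q + w).choose w : ℝ) / ((a + w).choose w : ℝ)) < 4 * b - 1 :=
    h1.eventually_lt_const (by linarith)
  obtain ⟨a₀, ha⟩ := eventually_atTop.1 h2
  refine ⟨a₀, fun a h => ?_⟩
  have h3 := ha a h
  have h4 : (0 : ℝ) < ((a + w).choose w : ℝ) := by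
    exact_mod_cast Nat.choose_pos (by omega)
  rw [← mul_div_assoc, div_lt_iff₀ h4] at h3
  exact h3

end END

/-- END: the end of the argument. -/
theorem p_END (hL : Stmt_LEMS) (hN : Stmt_NNP) (hW : Stmt_LOW) (hM : Stmt_MON) : Stmt_END := by
  intro w q b hb
  obtain ⟨a₀, ha₀⟩ := END.numbers w q b
  refine ⟨a₀, fun a ha F S hq hF hdiv hev hG hT hD => ?_⟩
  obtain ⟨J, hJS, hcard, hmain⟩ := hL w q a F S hq hF hdiv hev hG hT
  obtain ⟨hN1, hN2, hN3, hN4, hN5, hN6⟩ := hN
  have hb0 : (1 : ℝ) ≤ b := by exact_mod_cast hb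
  -- the bound for one node
  have hone : ∀ p ∈ J, ∃ C : ℝ, ∀ r : ℝ, 1 ≤ r →
      2 * b * NN (tru (dv1 (evC p F) - dvP F)) r ≤ (2 * b - 1) * TP F r + C := by
    intro p hp
    obtain ⟨D, C₁, hD0, hDle, hD1, hDN⟩ := hD p (hJS p hp)
    obtain ⟨hdv, C₂, K, hW1, hW2, hW3⟩ := hW F.support (cf F)
      (fun i => ∏ j, p j ^ (i : Fin (w + 1) →₀ ℕ) j) (evC p F) (END.evC_eq F p) (hev p (hJS p hp))
    set δ := dv1 (evC p F) - dvP F with hδ
    have hδ0 : 0 ≤ δ := by
      rw [hδ, sub_nonneg]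
      exact hdv
    refine ⟨b * (K - C₂) + C₁, fun r hr => ?_⟩
    have h1 := hN6 δ (δ - D) r hδ0 (fun z => by
      have hz1 : (0 : ℤ) ≤ D z := hD0 z
      have hz2 : D z ≤ δ z := hDle z
      have hz3 : (δ - D) z = δ z - D z := rfl
      refine ⟨by rw [hz3]; linarith, by rw [hz3]; linarith, hD1 z⟩) hr
    rw [hN2 δ D r] at h1
    have h2 := hW1 r (by linarith)
    have h3 := hW2 r (by linarith)
    have h4 := hDN r hr
    have h5 : TT (cf F) r = TP F r := rfl
    have h6 : dv1 (evC p F) - dv (cf F) = δ := rfl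
    rw [h5, h6] at h2
    have h7 : NN δ r ≤ TP F r + (K - C₂) := by linarith
    have h8 : 2 * NN (tru δ) r ≤ NN δ r + NN D r := by linarith
    have h9 : b * (2 * NN (tru δ) r) ≤ b * (NN δ r + NN D r) :=
      mul_le_mul_of_nonneg_left h8 (by linarith)
    have h10 : b * NN δ r ≤ b * (TP F r + (K - C₂)) :=
      mul_le_mul_of_nonneg_left h7 (by linarith)
    nlinarith
  choose! Cp hCp using hone
  set Ct : ℝ := ∑ p ∈ J, Cp p with hCt
  have hsum : ∀ r : ℝ, 1 ≤ r →
      2 * b * ∑ p ∈ J, NN (tru (dv1 (evC p F) - dvP F)) r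
        ≤ J.card * ((2 * b - 1) * TP F r) + Ct := by
    intro r hr
    rw [Finset.mul_sum, hCt]
    have h1 : ∑ p ∈ J, 2 * b * NN (tru (dv1 (evC p F) - dvP F)) r
        ≤ ∑ p ∈ J, ((2 * b - 1) * TP F r + Cp p) := Finset.sum_le_sum fun p hp => hCp p hp r hr
    rw [Finset.sum_add_distrib, Finset.sum_const, nsmul_eq_mul] at h1
    exact h1
  -- the numbers
  have hnum := ha₀ a ha
  have hMa : (numM w a : ℝ) = ((a + w).choose w : ℝ) := by rw [hM.1 w a]
  have hMq : (numM w (a + q) : ℝ) = ((a + q + w).choose w : ℝ) := by rw [hM.1 w (a + q)]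
  rw [← hMa, ← hMq] at hnum
  have hcard' : (J.card : ℝ) + numM w a = 2 * numM w (a + q) := by exact_mod_cast hcard
  have hγ : (J.card : ℝ) * (2 * b - 1) < 2 * b * numM w a := by nlinarith
  -- as integers
  have hγ1 : (J.card : ℝ) * (2 * b - 1) + 1 ≤ 2 * b * numM w a := by
    have h1 : ((J.card : ℤ) * (2 * b - 1)) < 2 * b * numM w a := by exact_mod_cast hγ
    have h2 : ((J.card : ℤ) * (2 * b - 1)) + 1 ≤ 2 * b * numM w a := h1
    exact_mod_cast h2
  have hlog : Tendsto (fun r : ℝ => Real.log r) atTop atTop := Real.tendsto_log_atTop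
  have h1 : ∀ᶠ r : ℝ in atTop, 2 * |Ct| + 1 ≤ TP F r := by
    have h2 : ∀ᶠ r : ℝ in atTop, 1 ≤ TP F r / Real.log r := hT.eventually_ge_atTop 1
    have h3 : ∀ᶠ r : ℝ in atTop, 2 * |Ct| + 1 ≤ Real.log r := hlog.eventually_ge_atTop _
    filter_upwards [h2, h3] with r h2 h3
    have h4 : 0 < Real.log r := by
      have := abs_nonneg Ct
      linarith
    rw [le_div_iff₀ h4, one_mul] at h2
    exact h3.trans h2
  obtain ⟨r₁, hr₁⟩ := eventually_atTop.1 h1
  obtain ⟨r, hr0, hr1, hle⟩ := hmain (1 / (4 * b)) (by positivity) r₁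
  have h2 := hr₁ r hr0
  have h3 := hsum r hr1
  have h4 : 2 * b * (numM w a * TP F r) ≤ 2 * b * (∑ p ∈ J, NN (tru (dv1 (evC p F) - dvP F)) r
      + 1 / (4 * b) * TP F r) := mul_le_mul_of_nonneg_left hle (by positivity)
  have h5 : 2 * (b : ℝ) * (1 / (4 * b) * TP F r) = TP F r / 2 := by
    field_simp
    ring
  rw [mul_add, h5] at h4
  have h6 := le_abs_self Ct
  have h7 := abs_nonneg Ct
  have hTP : 0 < TP F r := by linarith
  have h8 : ((J.card : ℝ) * (2 * b - 1) + 1) * TP F r ≤ 2 * b * numM w a * TP F r :=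
    mul_le_mul_of_nonneg_right hγ1 hTP.le
  nlinarith

end Pool.ThmM
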