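import Pool.Agent.Work.MP_f82ddf_M1.Interface2

/-! # Block EXP (helper29): composition with the exponential function -/

open Topology Filter
open scoped Differential
open Pool.Agent.Work.MP_f82ddf_nt.DQ

namespace Pool.ThmM

namespace EXP

theorem mer_comp {f : ℂ → ℂ} (hf : ∀ z, MeromorphicAt f z) (z : ℂ) :
    MeromorphicAt (fun z => f (Complex.exp z)) z := by
  have h : AnalyticAt ℂ Complex.exp z := by fun_prop
  exact (hf (Complex.exp z)).comp_analyticAt h

/-- Composition with `exp` on meromorphic functions. -/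
noncomputable def e : MerFun →+* MerFun where
  toFun f := ⟨fun z => f.1 (Complex.exp z), mem_merFun.2 (mer_comp (mem_merFun.1 f.2))⟩
  map_one' := rfl
  map_mul' _ _ := rfl
  map_zero' := rfl
  map_add' _ _ := rfl

theorem tends (z₀ : ℂ) : Tendsto Complex.exp (𝓝[≠] z₀) (𝓝[≠] (Complex.exp z₀)) :=
  (Complex.hasDerivAt_exp z₀).tendsto_nhdsNE (Complex.exp_ne_zero z₀)

theorem e_mem {f : MerFun} (hf : f ∈ MerIdeal) : e f ∈ MerIdeal := by
  rw [mem_merIdeal] at hf ⊢
  intro z₀
  exact (tends z₀).eventually (hf (Complex.exp z₀))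

theorem hom_eq_zero {f : MerFun} : merHom f = 0 ↔ f ∈ MerIdeal := by
  have h := merHom_eq (f := f) (g := 0)
  rw [map_zero, sub_zero] at h
  exact h

theorem ker_le : RingHom.ker merHom ≤ RingHom.ker (merHom.comp e) := by
  intro f hf
  rw [RingHom.mem_ker] at hf ⊢
  rw [RingHom.comp_apply, hom_eq_zero]
  exact e_mem (hom_eq_zero.1 hf)

/-- Composition with `exp` as a ring homomorphism of `Mer`. -/
noncomputable def E₀ : Mer →+* Mer :=
  merHom.liftOfSurjective merHom_surjective ⟨merHom.comp e, ker_le⟩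

theorem E₀_hom (f : MerFun) : E₀ (merHom f) = merHom (e f) :=
  RingHom.liftOfSurjective_comp_apply merHom merHom_surjective ⟨merHom.comp e, ker_le⟩ f

theorem E₀_mk (f : ℂ → ℂ) (hf : ∀ z, MeromorphicAt f z) :
    E₀ (Mer.mk f hf) = Mer.mk (fun z => f (Complex.exp z)) (mer_comp hf) :=
  E₀_hom ⟨f, mem_merFun.2 hf⟩

/-- Composition with `exp` as an algebra homomorphism. -/
noncomputable def E : Mer →ₐ[ℂ] Mer :=
  { E₀ with
    commutes' := by
      intro c
      show E₀ (algebraMap ℂ Mer c) = algebraMap ℂ Mer c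
      rw [Mer.algebraMap_eq, E₀_mk] }

end EXP

theorem p_EXP : Stmt_EXP := by
  refine ⟨EXP.E, EXP.E.toRingHom.injective, ?_⟩
  intro f hf
  exact ⟨EXP.mer_comp hf, EXP.E₀_mk f hf⟩

end Pool.ThmM
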