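import Pool.Agent.Work.MP_f82ddf_M1.Interface3

/-!
# Block GRP of the Theorem M project: growth of the moving factors of a periodic polynomial
-/

open Topology Filter
open scoped Differential
open Pool.Agent.Work.MP_f82ddf_nt.DQ

namespace Pool.ThmM

namespace GRP

/-- Irreducibility and divisibility are preserved by the iterates of an automorphism. -/
private lemma iter_irred {A : Type} [CommRing A] (E : A ≃+* A) (Φ P : A) (hΦ : E Φ = Φ)
    (hP : Irreducible P) (hd : P ∣ Φ) (n : ℕ) : Irreducible (E^[n] P) ∧ E^[n] P ∣ Φ := by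
  induction n with
  | zero => exact ⟨hP, hd⟩
  | succ n ih =>
    rw [Function.iterate_succ_apply']
    refine ⟨(MulEquiv.irreducible_iff E.toMulEquiv).2 ih.1, ?_⟩
    have := map_dvd E ih.2
    rwa [hΦ] at this

private lemma iter_assoc {A : Type} [CommRing A] (E : A ≃+* A) (m : ℕ) (X Y : A)
    (h : Associated (E^[m] X) (E^[m] Y)) : Associated X Y := by
  induction m with
  | zero => exact h
  | succ m ih =>
    apply ih
    rw [Function.iterate_succ_apply', Function.iterate_succ_apply'] at h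
    have h2 := h.map E.symm
    simpa using h2

private lemma exists_period {A : Type} [CommRing A] [IsDomain A] [UniqueFactorizationMonoid A]
    (E : A ≃+* A) (Φ P : A) (h0 : Φ ≠ 0) (hΦ : E Φ = Φ)
    (hP : Irreducible P) (hd : P ∣ Φ) : ∃ N : ℕ, 1 ≤ N ∧ Associated P (E^[N] P) := by
  classical
  have key : ∀ n : ℕ, ∃ q ∈ UniqueFactorizationMonoid.factors Φ, Associated (E^[n] P) q :=
    fun n => UniqueFactorizationMonoid.exists_mem_factors_of_dvd h0
      (iter_irred E Φ P hΦ hP hd n).1 (iter_irred E Φ P hΦ hP hd n).2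
  choose q hq hqa using key
  let g : ℕ → (UniqueFactorizationMonoid.factors Φ).toFinset :=
    fun n => ⟨q n, Multiset.mem_toFinset.2 (hq n)⟩
  obtain ⟨m, n, hmn, hg⟩ := Finite.exists_ne_map_eq_of_infinite g
  have hqq : q m = q n := congrArg Subtype.val hg
  rcases lt_or_gt_of_ne hmn with h | h
  · refine ⟨n - m, by omega, ?_⟩
    apply iter_assoc E m
    rw [← Function.iterate_add_apply, show m + (n - m) = n by omega]
    exact (hqa m).trans (hqq ▸ (hqa n).symm)
  · refine ⟨m - n, by omega, ?_⟩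
    apply iter_assoc E n
    rw [← Function.iterate_add_apply, show n + (m - n) = m by omega]
    exact (hqa n).trans (hqq ▸ (hqa m).symm)

private lemma iter_coeff {σ : Type} (tr : Mer ≃ₐ[ℂ] Mer) (N : ℕ) (P : MvPolynomial σ Mer)
    (α : σ →₀ ℕ) : MvPolynomial.coeff α
      ((MvPolynomial.mapEquiv σ (tr : Mer ≃+* Mer))^[N] P) = tr^[N] (MvPolynomial.coeff α P) := by
  induction N with
  | zero => rfl
  | succ n ih =>
    rw [Function.iterate_succ_apply', Function.iterate_succ_apply', ← ih,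
      MvPolynomial.mapEquiv_apply, MvPolynomial.coeff_map]
    rfl

private lemma iter_div (tr : Mer ≃ₐ[ℂ] Mer) (N : ℕ) (x y : Mer) :
    tr^[N] (x / y) = tr^[N] x / tr^[N] y := by
  induction N with
  | zero => rfl
  | succ n ih =>
    rw [Function.iterate_succ_apply', Function.iterate_succ_apply',
      Function.iterate_succ_apply', ih, map_div₀]

/-- The periodic irreducible polynomial has a non rational quotient of coefficients. -/
private lemma exists_notRat (tr : Mer ≃ₐ[ℂ] Mer)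
    (htr : ∀ (f : Mer) (n : ℕ), 1 ≤ n → (tr^[n]) f = f → IsRat f →
      ∃ a : ℂ, f = algebraMap ℂ Mer a)
    {σ : Type} (P : MvPolynomial σ Mer) (h0 : P ≠ 0) (N : ℕ) (hN : 1 ≤ N) (κ : Mer) (hκ : κ ≠ 0)
    (hP : (MvPolynomial.mapEquiv σ (tr : Mer ≃+* Mer))^[N] P = P * MvPolynomial.C κ)
    (hfix : ¬ IsFix P) : ∃ α β : σ →₀ ℕ, MvPolynomial.coeff β P ≠ 0 ∧
      ¬ IsRat (MvPolynomial.coeff α P / MvPolynomial.coeff β P) := by
  obtain ⟨β, hβ⟩ := MvPolynomial.ne_zero_iff.1 h0
  by_contra hcon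
  push Not at hcon
  apply hfix
  have hc : ∀ α : σ →₀ ℕ, tr^[N] (MvPolynomial.coeff α P) = MvPolynomial.coeff α P * κ := by
    intro α
    rw [← iter_coeff, hP, mul_comm, MvPolynomial.coeff_C_mul, mul_comm]
  have hq : ∀ α : σ →₀ ℕ, ∃ a : ℂ,
      MvPolynomial.coeff α P / MvPolynomial.coeff β P = algebraMap ℂ Mer a := by
    intro α
    refine htr _ N hN ?_ (hcon α β hβ)
    rw [iter_div, hc, hc, mul_div_mul_right _ _ hκ]
  choose a ha using hq
  refine ⟨MvPolynomial.coeff β P, ∑ α ∈ P.support, MvPolynomial.monomial α (a α), ?_⟩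
  have hsum : MvPolynomial.C (MvPolynomial.coeff β P) *
      MvPolynomial.map (algebraMap ℂ Mer) (∑ α ∈ P.support, MvPolynomial.monomial α (a α)) =
      ∑ α ∈ P.support, MvPolynomial.monomial α (MvPolynomial.coeff α P) := by
    rw [map_sum, Finset.mul_sum]
    refine Finset.sum_congr rfl fun α _ => ?_
    rw [MvPolynomial.map_monomial, MvPolynomial.C_mul_monomial, ← ha α, mul_div_cancel₀ _ hβ]
  rw [hsum]
  exact (MvPolynomial.support_sum_monomial_coeff P).symm

end GRP

theorem p_GRP (h1 : Stmt_GRW) (h2 : Stmt_GEL) (h3 : Stmt_LOW) : Stmt_GRP := by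
  classical
  intro tr htr σ _ Φ P R hΦ0 hΦ hirr hfix hPΦ hR0 hPR
  have hP0 : P ≠ 0 := hirr.ne_zero
  obtain ⟨N, hN, hass⟩ := GRP.exists_period (MvPolynomial.mapEquiv σ (tr : Mer ≃+* Mer)) Φ P hΦ0
    (by rw [MvPolynomial.mapEquiv_apply]; exact hΦ) hirr hPΦ
  obtain ⟨u, hu⟩ := hass
  obtain ⟨κ, hκ, hκ2⟩ := MvPolynomial.isUnit_iff_eq_C_of_isReduced.1 u.isUnit
  rw [hκ2] at hu
  obtain ⟨α, β, hβ, hnr⟩ := GRP.exists_notRat tr htr P hP0 N hN κ hκ.ne_zero hu.symm hfix
  have hα : MvPolynomial.coeff α P ≠ 0 := by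
    intro h
    apply hnr
    rw [h, zero_div]
    exact ⟨0, 1, one_ne_zero, by simp⟩
  have hgrow : Tendsto (fun r => TP P r / Real.log r) atTop atTop :=
    h1 P.support (cf P) ⟨α, MvPolynomial.mem_support_iff.2 hα⟩
      ⟨β, MvPolynomial.mem_support_iff.2 hβ⟩ hβ hnr
  obtain ⟨R₁, hR₁⟩ := hPR
  have hR₁0 : R₁ ≠ 0 := by
    rintro rfl
    exact hR0 (by rw [hR₁, mul_zero])
  obtain ⟨C, hC⟩ := h2 σ P R₁ hP0 hR₁0
  obtain ⟨γ, hγ⟩ := MvPolynomial.ne_zero_iff.1 hR₁0
  have hγs : γ ∈ R₁.support := MvPolynomial.mem_support_iff.2 hγ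
  obtain ⟨-, C', K, -, -, hK⟩ := h3 R₁.support (cf R₁)
    (fun i => if i = ⟨γ, hγs⟩ then 1 else 0) (MvPolynomial.coeff γ R₁)
    (by
      rw [Finset.sum_eq_single (⟨γ, hγs⟩ : R₁.support)]
      · simp [cf]
      · intro i _ hi
        simp [hi]
      · intro h
        exact absurd (Finset.mem_univ _) h) hγ
  have hmain : ∀ᶠ r in atTop, TP P r / Real.log r - (|K| + C) ≤ TP R r / Real.log r := by
    filter_upwards [eventually_ge_atTop (Real.exp 1)] with r hr
    have hr1 : (1 : ℝ) ≤ r := le_trans (Real.one_le_exp zero_le_one) hr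
    have hlog : 1 ≤ Real.log r := by
      rw [Real.le_log_iff_exp_le (by linarith)]
      exact hr
    have hCr := (hC r (by linarith)).2
    rw [← hR₁] at hCr
    have hCr' := (abs_le.1 hCr).1
    have hKr : - K ≤ TP R₁ r := hK r hr1
    have hC0 : 0 ≤ C := le_trans (abs_nonneg _) hCr
    have hle : TP P r - (|K| + C) ≤ TP R r := by
      have := le_abs_self K
      linarith
    have h5 : (|K| + C) / Real.log r ≤ |K| + C :=
      div_le_self (by positivity) hlog
    have h6 : (TP P r - (|K| + C)) / Real.log r ≤ TP R r / Real.log r :=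
      div_le_div_of_nonneg_right hle (by linarith)
    rw [sub_div] at h6
    linarith
  refine tendsto_atTop_mono' atTop hmain ?_
  exact tendsto_atTop_add_const_right atTop (-(|K| + C)) hgrow |>.congr fun r => by ring

end Pool.ThmM
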