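import Pool.Agent.Work.MP_f82ddf_M1.Interface2

set_option autoImplicit false

open Topology Filter
open scoped Differential
open Pool.Agent.Work.MP_f82ddf_nt.DQ

namespace Pool.ThmM

theorem p_GRW (hTOP : Stmt_TOP) (hRAT : Stmt_RAT) : Stmt_GRW := by
  intro ι _ c i i₀ h0 hnr
  classical
  have h1 := (hTOP ι c).1 (Pi.single i 1) (Pi.single i₀ 1)
  have hs : ∀ j : ι, (∑ k, algebraMap ℂ Mer ((Pi.single j (1 : ℂ) : ι → ℂ) k) * c k) = c j := by
    intro j
    rw [Finset.sum_eq_single j]
    · rw [Pi.single_eq_same, map_one, one_mul]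
    · intro k _ hk
      rw [Pi.single_eq_of_ne hk, map_zero, zero_mul]
    · intro h
      exact absurd (Finset.mem_univ _) h
  rw [hs i, hs i₀] at h1
  obtain ⟨C, hC⟩ := h1 h0
  have h2 := hRAT (c i / c i₀) hnr
  have h3 : Tendsto (fun r => TT ![c i / c i₀, 1] r / Real.log r + - |C|) atTop atTop :=
    tendsto_atTop_add_const_right _ _ h2
  refine tendsto_atTop_mono' _ ?_ h3
  filter_upwards [eventually_ge_atTop (Real.exp 1)] with r hr
  have hr1 : 1 ≤ r := le_trans (by
    have := Real.add_one_le_exp (1 : ℝ)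
    linarith) hr
  have hlog : 1 ≤ Real.log r := by
    rw [Real.le_log_iff_exp_le (by linarith)]
    exact hr
  have hlog0 : 0 < Real.log r := by linarith
  have h4 := hC r hr1
  have h5 : TT ![c i / c i₀, 1] r ≤ TT c r + |C| * Real.log r := by
    have h6 : |C| * 1 ≤ |C| * Real.log r := mul_le_mul_of_nonneg_left hlog (abs_nonneg C)
    have h7 := le_abs_self C
    linarith
  have h8 : TT ![c i / c i₀, 1] r / Real.log r ≤ (TT c r + |C| * Real.log r) / Real.log r :=
    div_le_div_of_nonneg_right h5 hlog0.le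
  have h9 : (TT c r + |C| * Real.log r) / Real.log r = TT c r / Real.log r + |C| := by
    field_simp
  rw [h9] at h8
  linarith

end Pool.ThmM
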