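import Pool.Agent.Work.MP_f82ddf_M1.Interface2

/-!
# INJ: choice of the nodes by linear algebra over the field `Mer`
-/

open Topology Filter
open scoped Differential
open Pool.Agent.Work.MP_f82ddf_nt.DQ

namespace Pool.ThmM

namespace INJ

open MvPolynomial

/-- Finitely many linearly independent functions have a non vanishing determinant. -/
theorem exists_det {K I S : Type} [Field K] [Fintype I] [DecidableEq I] (φ : I → S → K)
    (h : ∀ c : I → K, (∀ s, ∑ i, c i * φ i s = 0) → c = 0) :
    ∃ p : I → S, Matrix.det (Matrix.of fun j i => φ i (p j)) ≠ 0 := by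
  classical
  let v : S → (I → K) := fun s i => φ i s
  have htop : Submodule.span K (Set.range v) = ⊤ := by
    by_contra hne
    obtain ⟨f, hf0, hf⟩ := Submodule.exists_le_ker_of_lt_top _ (lt_top_iff_ne_top.2 hne)
    have hfs : ∀ x : I → K, f x = ∑ i, f (Pi.single i 1) * x i := by
      intro x
      conv_lhs => rw [pi_eq_sum_univ' x]
      rw [map_sum]
      refine Finset.sum_congr rfl fun i _ => ?_
      rw [map_smul, smul_eq_mul, mul_comm]
    have h1 : (fun i => f (Pi.single i 1)) = 0 := by
      apply h
      intro s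
      rw [← hfs (v s)]
      exact hf (Submodule.subset_span ⟨s, rfl⟩)
    apply hf0
    ext x
    rw [LinearMap.comp_apply, LinearMap.comp_apply]
    have h2 : f (LinearMap.single K (fun _ => K) x 1) = 0 := by
      have := congrFun h1 x
      simpa using this
    rw [h2]
    simp
  obtain ⟨b, hb1, hb2, hb3⟩ := exists_linearIndependent K (Set.range v)
  rw [htop] at hb2
  let B : Module.Basis b K (I → K) := Module.Basis.mk hb3 (by
    rw [Subtype.range_coe]; exact hb2.ge)
  let e : I ≃ b := (Pi.basisFun K I).indexEquiv B
  have h3 : ∀ j : I, ∃ s : S, v s = (e j).1 := fun j => hb1 (e j).2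
  choose p hp using h3
  refine ⟨p, ?_⟩
  have h4 : LinearIndependent K (fun j : I => v (p j)) := by
    have h5 : (fun j : I => v (p j)) = (fun x : b => (x : I → K)) ∘ e := by
      funext j
      exact hp j
    rw [h5]
    exact hb3.comp e e.injective
  have h6 : IsUnit (Matrix.of fun j i => φ i (p j)) :=
    Matrix.linearIndependent_rows_iff_isUnit.1 h4
  exact ((Matrix.isUnit_iff_isUnit_det _).1 h6).ne_zero

theorem hc_mul {σ R : Type} [CommRing R] {F : MvPolynomial σ R} {q : ℕ} (hF : F.IsHomogeneous q)
    (a : ℕ) (A : MvPolynomial σ R) :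
    homogeneousComponent (q + a) (F * A) = F * homogeneousComponent a A := by
  have h0 : ∀ i, homogeneousComponent (q + a) (F * homogeneousComponent i A) =
      if i = a then F * homogeneousComponent a A else 0 := by
    intro i
    rw [homogeneousComponent_of_mem (hF.mul (homogeneousComponent_isHomogeneous i A))]
    by_cases hi : i = a
    · subst hi; simp
    · rw [if_neg (by omega), if_neg hi]
  conv_lhs => rw [← sum_homogeneousComponent A]
  rw [Finset.mul_sum, map_sum, Finset.sum_congr rfl fun i _ => h0 i, Finset.sum_ite_eq']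
  split_ifs with h
  · rfl
  · rw [homogeneousComponent_eq_zero a A (by
      rw [Finset.mem_range] at h; omega), mul_zero]

/-- A form is the sum of its monomials. -/
theorem decomp (hM : Stmt_MON) {K : Type} [Field K] {w a : ℕ}
    {A : MvPolynomial (Fin (w + 1)) K} (hA : A.IsHomogeneous a) :
    A = ∑ α : MonT w a, monomial α.1 (A.coeff α.1) := by
  classical
  ext γ
  rw [coeff_sum]
  simp only [coeff_monomial]
  by_cases hγ : γ.degree = a
  · rw [Finset.sum_eq_single (⟨γ, (hM.2 w a γ).2 hγ⟩ : MonT w a)]
    · simp
    · intro β _ hβ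
      rw [if_neg]
      intro h
      exact hβ (Subtype.ext h)
    · intro h; exact absurd (Finset.mem_univ _) h
  · rw [hA.coeff_eq_zero hγ, Finset.sum_eq_zero]
    intro β _
    rw [if_neg]
    intro h
    exact hγ (h ▸ (hM.2 w a β.1).1 β.2)

theorem isHom_mon (hM : Stmt_MON) {K : Type} [Field K] {w a : ℕ} (α : MonT w a) (c : K) :
    (monomial α.1 c : MvPolynomial (Fin (w + 1)) K).IsHomogeneous a :=
  isHomogeneous_monomial c ((hM.2 w a α.1).1 α.2)

/-- The unit columns which complete the multiples of `F`. -/
theorem exists_units (hM : Stmt_MON) {K : Type} [Field K] {w q a ρ : ℕ}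
    (η : MonT w a ⊕ Fin ρ ≃ MonT w (a + q)) (F : MvPolynomial (Fin (w + 1)) K) :
    ∃ e : Fin ρ → MonT w (a + q), ∀ (g : Fin ρ → K) (A : MvPolynomial (Fin (w + 1)) K),
      A.IsHomogeneous a → (∑ l, monomial (e l).1 (g l)) = F * A → g = 0 := by
  classical
  let V := MonT w (a + q) → K
  let col : MonT w a → V := fun α β => coeff β.1 (F * monomial α.1 1)
  let W : Submodule K V := Submodule.span K (Set.range col)
  let u : MonT w (a + q) → V ⧸ W := fun β => W.mkQ (Pi.single β 1)
  have hspan : Submodule.span K (Set.range u) = ⊤ := by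
    rw [eq_top_iff]
    rintro x -
    obtain ⟨x, rfl⟩ := W.mkQ_surjective x
    rw [pi_eq_sum_univ' x, map_sum]
    refine Submodule.sum_mem _ fun i _ => ?_
    rw [map_smul]
    refine Submodule.smul_mem _ _ (Submodule.subset_span ⟨i, ?_⟩)
    change W.mkQ _ = W.mkQ _
    congr 1
  obtain ⟨b, hb1, hb2, hb3⟩ := exists_linearIndependent K (Set.range u)
  rw [hspan] at hb2
  let B : Module.Basis b K (V ⧸ W) := Module.Basis.mk hb3 (by
    rw [Subtype.range_coe]; exact hb2.ge)
  have : Fintype b := FiniteDimensional.fintypeBasisIndex B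
  have hcard : ρ ≤ Fintype.card b := by
    have h1 : Fintype.card b = Module.finrank K (V ⧸ W) := (Module.finrank_eq_card_basis B).symm
    have h2 : Module.finrank K (V ⧸ W) + Module.finrank K W = Module.finrank K V :=
      Submodule.finrank_quotient_add_finrank W
    have h3 : Module.finrank K W ≤ Fintype.card (MonT w a) := finrank_range_le_card col
    have h4 : Module.finrank K V = Fintype.card (MonT w (a + q)) :=
      Module.finrank_fintype_fun_eq_card K
    have h5 : Fintype.card (MonT w a) + ρ = Fintype.card (MonT w (a + q)) := by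
      rw [← Fintype.card_congr η, Fintype.card_sum, Fintype.card_fin]
    omega
  obtain ⟨j⟩ : Nonempty (Fin ρ ↪ b) := by
    rw [Function.Embedding.nonempty_iff_card_le, Fintype.card_fin]
    exact hcard
  have h6 : ∀ l : Fin ρ, ∃ β : MonT w (a + q), u β = (j l).1 := fun l => hb1 (j l).2
  choose e he using h6
  refine ⟨e, ?_⟩
  intro g A hA hg
  have hli : LinearIndependent K (fun l : Fin ρ => u (e l)) := by
    have h5 : (fun l : Fin ρ => u (e l)) = (fun x : b => (x : V ⧸ W)) ∘ j := by
      funext l
      exact he l
    rw [h5]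
    exact hb3.comp j j.injective
  have hsum : ∑ l, g l • u (e l) = 0 := by
    have h7 : ∑ l, g l • u (e l) = W.mkQ (∑ l, g l • (Pi.single (e l) 1 : V)) := by
      rw [map_sum]
      refine Finset.sum_congr rfl fun l _ => ?_
      rw [map_smul]
    rw [h7, Submodule.mkQ_apply, Submodule.Quotient.mk_eq_zero]
    have h8 : (∑ l, g l • (Pi.single (e l) 1 : V)) = ∑ α : MonT w a, A.coeff α.1 • col α := by
      funext β
      rw [Finset.sum_apply, Finset.sum_apply]
      have h9 : coeff β.1 (∑ l, monomial (e l).1 (g l)) = coeff β.1 (F * A) := by rw [hg]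
      rw [coeff_sum] at h9
      have h10 : coeff β.1 (F * A) = ∑ α : MonT w a, A.coeff α.1 * col α β := by
        conv_lhs => rw [decomp hM hA, Finset.mul_sum, coeff_sum]
        refine Finset.sum_congr rfl fun α _ => ?_
        change _ = _ * coeff β.1 (F * monomial α.1 1)
        have h11 : F * monomial α.1 (A.coeff α.1) = C (A.coeff α.1) * (F * monomial α.1 1) := by
          rw [mul_left_comm, C_mul_monomial, mul_one]
        rw [h11, coeff_C_mul]
      rw [h10] at h9
      have h12 : (∑ α : MonT w a, (A.coeff α.1 • col α) β) =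
          ∑ α : MonT w a, A.coeff α.1 * col α β := rfl
      rw [h12, ← h9]
      refine Finset.sum_congr rfl fun l _ => ?_
      rw [Pi.smul_apply, Pi.single_apply, coeff_monomial, smul_eq_mul]
      by_cases hβ : β = e l
      · rw [if_pos hβ, if_pos (by rw [hβ]), mul_one]
      · rw [if_neg hβ, if_neg (fun h => hβ (Subtype.ext h.symm)), mul_zero]
    rw [h8]
    exact Submodule.sum_mem _ fun α _ => Submodule.smul_mem _ _ (Submodule.subset_span ⟨α, rfl⟩)
  exact funext fun l => (Fintype.linearIndependent_iff.1 hli g hsum l)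

/-- Vanishing at the points of `S` over the extension field. -/
theorem vanish {K : Type} [Field K] [Algebra ℂ K] {σ : Type} {c : ℕ} (S : Set (σ → ℂ))
    (hS : ∀ G : MvPolynomial σ ℂ, G.IsHomogeneous c → (∀ p ∈ S, eval p G = 0) → G = 0)
    (P : MvPolynomial σ K) (hP : P.IsHomogeneous c)
    (h0 : ∀ p ∈ S, eval (fun i => algebraMap ℂ K (p i)) P = 0) : P = 0 := by
  classical
  ext γ
  rw [coeff_zero]
  rw [← Module.forall_dual_apply_eq_zero_iff ℂ]
  intro l
  let G : MvPolynomial σ ℂ := ∑ β ∈ P.support, monomial β (l (P.coeff β))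
  have hGc : ∀ β, G.coeff β = l (P.coeff β) := by
    intro β
    change coeff β (∑ β ∈ P.support, monomial β (l (P.coeff β))) = _
    rw [coeff_sum]
    simp only [coeff_monomial]
    rw [Finset.sum_ite_eq']
    split_ifs with h
    · rfl
    · rw [notMem_support_iff.1 h, map_zero]
  have hG : G = 0 := by
    apply hS
    · apply IsHomogeneous.sum
      intro β hβ
      exact isHomogeneous_monomial _ (by
        by_contra hne
        exact (mem_support_iff.1 hβ) (hP.coeff_eq_zero hne))
    · intro p hp
      have h1 := h0 p hp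
      rw [eval_eq] at h1
      change eval p (∑ β ∈ P.support, monomial β (l (P.coeff β))) = 0
      rw [map_sum]
      have h2 := congrArg l h1
      rw [map_sum, map_zero] at h2
      rw [← h2]
      refine Finset.sum_congr rfl fun β _ => ?_
      rw [eval_monomial, Finsupp.prod]
      have h3 : ∏ i ∈ β.support, (algebraMap ℂ K (p i)) ^ β i =
          algebraMap ℂ K (∏ i ∈ β.support, p i ^ β i) := by
        rw [map_prod]
        exact Finset.prod_congr rfl fun i _ => (map_pow _ _ _).symm
      rw [h3, mul_comm (coeff β P), ← Algebra.smul_def, map_smul, smul_eq_mul, mul_comm]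
  rw [← hGc, hG, coeff_zero]

theorem evC_mon {w a : ℕ} (p : Fin (w + 1) → ℂ) (α : MonT w a) (F : MvPolynomial (Fin (w + 1)) Mer)
    (c : Mer) : evC p (F * monomial α.1 c) = evC p F * (c * algebraMap ℂ Mer (mval p α)) := by
  unfold evC mval
  rw [map_mul, eval_monomial, map_prod, Finsupp.prod_fintype _ _ (fun i => pow_zero _)]
  simp only [map_pow]

end INJ

open MvPolynomial in
theorem p_INJ (hM : Stmt_MON) : Stmt_INJ := by
  classical
  intro w q a ρ η F F' S hF hF' hF0 hdiv hS hvan
  obtain ⟨e, he⟩ := INJ.exists_units hM η F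
  let v : MonT w (a + q) ⊕ Fin ρ → MvPolynomial (Fin (w + 1)) Mer :=
    Sum.elim (fun α => F * monomial α.1 1) (fun l => F' * monomial (e l).1 1)
  have hv : ∀ i, (v i).IsHomogeneous (a + 2 * q) := by
    intro i
    have h1 : q + (a + q) = a + 2 * q := by ring
    rw [← h1]
    rcases i with α | l
    · exact hF.mul (INJ.isHom_mon hM α 1)
    · exact hF'.mul (INJ.isHom_mon hM (e l) 1)
  have hind : ∀ c : MonT w (a + q) ⊕ Fin ρ → Mer,
      (∀ s : S, ∑ i, c i * evC s.1 (v i) = 0) → c = 0 := by
    intro c hc
    have h1 : (∑ i, C (c i) * v i) = 0 := by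
      refine INJ.vanish S hvan _ ?_ ?_
      · apply IsHomogeneous.sum
        intro i _
        exact (hv i).C_mul (c i)
      · intro p hp
        have h2 := hc ⟨p, hp⟩
        rw [map_sum, ← h2]
        refine Finset.sum_congr rfl fun i _ => ?_
        rw [map_mul, eval_C]
        rfl
    rw [Fintype.sum_sum_type] at h1
    -- the two parts
    have hB : (∑ α : MonT w (a + q), C (c (Sum.inl α)) * v (Sum.inl α)) =
        F * ∑ α : MonT w (a + q), monomial α.1 (c (Sum.inl α)) := by
      rw [Finset.mul_sum]
      refine Finset.sum_congr rfl fun α _ => ?_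
      change C _ * (F * monomial α.1 1) = _
      rw [mul_left_comm, C_mul_monomial, mul_one]
    have hG : (∑ l : Fin ρ, C (c (Sum.inr l)) * v (Sum.inr l)) =
        (∑ l : Fin ρ, monomial (e l).1 (c (Sum.inr l))) * F' := by
      rw [Finset.sum_mul]
      refine Finset.sum_congr rfl fun l _ => ?_
      change C _ * (F' * monomial (e l).1 1) = _
      rw [mul_left_comm, C_mul_monomial, mul_one, mul_comm]
    rw [hB, hG] at h1
    set B := ∑ α : MonT w (a + q), monomial α.1 (c (Sum.inl α)) with hBd
    set G := ∑ l : Fin ρ, monomial (e l).1 (c (Sum.inr l)) with hGd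
    have hGh : G.IsHomogeneous (a + q) := by
      apply IsHomogeneous.sum
      intro l _
      exact INJ.isHom_mon hM (e l) _
    have hd : F ∣ G * F' := ⟨-B, by
      rw [mul_neg]; exact eq_neg_of_add_eq_zero_right h1⟩
    obtain ⟨A, hA⟩ := hdiv G hGh hd
    have hA2 : G = F * homogeneousComponent a A := by
      rw [← INJ.hc_mul hF a A, ← hA]
      have h1 : q + a = a + q := add_comm _ _
      rw [h1]
      exact (homogeneousComponent_eq_self hGh).symm
    have hg0 := he (fun l => c (Sum.inr l)) _ (homogeneousComponent_isHomogeneous a A) hA2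
    have hG0 : G = 0 := by
      rw [hGd]
      refine Finset.sum_eq_zero fun l _ => ?_
      have := congrFun hg0 l
      simp only [Pi.zero_apply] at this
      rw [this, map_zero]
    rw [hG0, zero_mul, add_zero] at h1
    have hB0 : B = 0 := (mul_eq_zero.1 h1).resolve_left hF0
    funext i
    rcases i with α | l
    · have h3 : coeff α.1 B = c (Sum.inl α) := by
        rw [hBd, coeff_sum]
        simp only [coeff_monomial]
        rw [Finset.sum_eq_single α]
        · simp
        · intro β _ hβ
          rw [if_neg]
          intro h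
          exact hβ (Subtype.ext h)
        · intro h; exact absurd (Finset.mem_univ _) h
      rw [hB0, coeff_zero] at h3
      exact h3.symm
    · exact congrFun hg0 l
  obtain ⟨p, hp⟩ := INJ.exists_det (fun i (s : S) => evC s.1 (v i)) hind
  refine ⟨fun j => (p j).1, fun j => (p j).2, ?_, ?_⟩
  · intro i j hij
    by_contra hne
    apply hp
    refine Matrix.det_zero_of_row_eq hne ?_
    funext k
    change evC (p i).1 (v k) = evC (p j).1 (v k)
    have : (p i).1 = (p j).1 := hij
    rw [this]
  · intro h0
    apply hp
    have h1 := congrFun h0 e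
    have h2 : (Matrix.of fun j i => evC (p j).1 (v i)) =
        Matrix.of fun j i => evC (p j).1 F * (Matrix.fromCols
          (fun j α => algebraMap ℂ Mer (mval (p j).1 α) :
            Matrix (MonT w (a + q) ⊕ Fin ρ) (MonT w (a + q)) Mer)
          (fun j l => evC (p j).1 F' / evC (p j).1 F * algebraMap ℂ Mer (mval (p j).1 (e l)))) j i
          := by
      funext j i
      rcases i with α | l
      · change evC (p j).1 (F * monomial α.1 1) = evC (p j).1 F * algebraMap ℂ Mer (mval (p j).1 α)
        rw [INJ.evC_mon, one_mul]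
      · change evC (p j).1 (F' * monomial (e l).1 1) = evC (p j).1 F *
          (evC (p j).1 F' / evC (p j).1 F * algebraMap ℂ Mer (mval (p j).1 (e l)))
        rw [INJ.evC_mon, one_mul, ← mul_assoc, mul_div_cancel₀ _ (hS _ (p j).2)]
    rw [h2, Matrix.det_mul_column]
    have h3 : Matrix.det (Matrix.fromCols
          (fun j α => algebraMap ℂ Mer (mval (p j).1 α) :
            Matrix (MonT w (a + q) ⊕ Fin ρ) (MonT w (a + q)) Mer)
          (fun j l => evC (p j).1 F' / evC (p j).1 F * algebraMap ℂ Mer (mval (p j).1 (e l)))) = 0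
        := h1
    rw [h3, mul_zero]

end Pool.ThmM
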