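import Pool.Agent.Work.MP_f82ddf_M1.Interface2

open Topology Filter Metric

namespace Pool.ThmM

namespace LDA

theorem norm_circleAverage_le {F : ℂ → ℂ} {h : ℂ → ℝ} {R : ℝ}
    (hh : CircleIntegrable h 0 R)
    (hb : ∀ θ : ℝ, ‖F (circleMap 0 R θ)‖ ≤ h (circleMap 0 R θ)) :
    ‖Real.circleAverage F 0 R‖ ≤ Real.circleAverage h 0 R := by
  unfold Real.circleAverage
  rw [norm_smul, Real.norm_of_nonneg (by positivity), smul_eq_mul]
  gcongr
  apply intervalIntegral.norm_integral_le_of_norm_le (by positivity)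
  · exact Filter.Eventually.of_forall fun θ _ => hb θ
  · exact hh

end LDA

theorem p_LDA : Stmt_LDA := by
  intro g ρ r hr hrρ hg hg0 w hw
  have hρ : 0 < ρ := hr.trans hrρ
  have hwb : w ∈ ball (0 : ℂ) ρ := by
    rw [mem_ball_zero_iff]
    rw [mem_closedBall_zero_iff] at hw
    linarith
  -- the logarithm of the norm
  set u : ℂ → ℝ := fun z => Real.log ‖g z‖ with hu
  have hcont : ContinuousOn u (sphere (0 : ℂ) |ρ|) := by
    intro z hz
    have hz' : z ∈ closedBall (0 : ℂ) ρ := by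
      rw [abs_of_pos hρ] at hz
      exact sphere_subset_closedBall hz
    have h1 : ContinuousAt g z := (hg z hz').continuousAt
    exact ((h1.norm).log (norm_ne_zero_iff.2 (hg0 z hz'))).continuousWithinAt
  have hint : CircleIntegrable u 0 ρ := hcont.circleIntegrable'
  have hintC : CircleIntegrable (fun z => (u z : ℂ)) 0 ρ :=
    (Complex.continuous_ofReal.comp_continuousOn hcont).circleIntegrable'
  have hharm : InnerProductSpace.HarmonicOnNhd u (closedBall (0 : ℂ) ρ) := fun z hz =>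
    (hg z hz).harmonicAt_log_norm (hg0 z hz)
  set Φ : ℂ → ℂ := fun w => Real.circleAverage
    (fun ζ => herglotzRieszKernel 0 w ζ • (u ζ : ℂ)) 0 ρ with hΦ
  have hre : ∀ v ∈ ball (0 : ℂ) ρ, (Φ v).re = u v := by
    intro v hv
    rw [hΦ]
    simp only
    rw [re_circleAverage_herglotzRieszKernel_smul hint hv]
    exact hharm.circleAverage_re_herglotzRieszKernel_smul hv
  have hder : ∀ v ∈ ball (0 : ℂ) ρ, HasDerivAt Φ
      (Real.circleAverage (fun ζ => (2 * ζ / (ζ - v) ^ 2) • (u ζ : ℂ)) 0 ρ) v := fun v hv =>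
    hasDerivAt_circleAverage_herglotzRieszKernel_smul hintC hv
  -- modulus one
  have hmod : ∀ v ∈ ball (0 : ℂ) ρ, ‖g v * Complex.exp (-Φ v)‖ = 1 := by
    intro v hv
    rw [norm_mul, Complex.norm_exp, Complex.neg_re, hre v hv, hu]
    simp only
    have h0 : 0 < ‖g v‖ := norm_pos_iff.2 (hg0 v (ball_subset_closedBall hv))
    rw [Real.exp_neg, Real.exp_log h0, mul_inv_cancel₀ h0.ne']
  have hgd : ∀ v ∈ ball (0 : ℂ) ρ, HasDerivAt g (deriv g v) v := fun v hv =>
    (hg v (ball_subset_closedBall hv)).differentiableAt.hasDerivAt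
  have hGd : ∀ v ∈ ball (0 : ℂ) ρ, HasDerivAt (fun v => g v * Complex.exp (-Φ v))
      (deriv g v * Complex.exp (-Φ v) + g v * (Complex.exp (-Φ v) *
        -(Real.circleAverage (fun ζ => (2 * ζ / (ζ - v) ^ 2) • (u ζ : ℂ)) 0 ρ))) v := by
    intro v hv
    exact (hgd v hv).mul (((hder v hv).neg).cexp)
  have hconst : Set.EqOn (fun v => g v * Complex.exp (-Φ v))
      (Function.const ℂ (g w * Complex.exp (-Φ w))) (ball (0 : ℂ) ρ) := by
    apply Complex.eqOn_of_isPreconnected_of_isMaxOn_norm (convex_ball 0 ρ).isPreconnected isOpen_ball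
      (fun v hv => (hGd v hv).differentiableAt.differentiableWithinAt) hwb
    intro v hv
    simp only [Function.comp_apply, Set.mem_ofPred_eq]
    rw [hmod v hv, hmod w hwb]
  have hz : deriv g w * Complex.exp (-Φ w) + g w * (Complex.exp (-Φ w) *
        -(Real.circleAverage (fun ζ => (2 * ζ / (ζ - w) ^ 2) • (u ζ : ℂ)) 0 ρ)) = 0 := by
    have h1 := (hGd w hwb).deriv
    have h2 : (fun v => g v * Complex.exp (-Φ v)) =ᶠ[𝓝 w]
        Function.const ℂ (g w * Complex.exp (-Φ w)) := by
      filter_upwards [isOpen_ball.mem_nhds hwb] with v hv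
      exact hconst hv
    rw [h2.deriv_eq] at h1
    rw [← h1]
    exact deriv_const w (g w * Complex.exp (-Φ w))
  have hquot : deriv g w / g w =
      Real.circleAverage (fun ζ => (2 * ζ / (ζ - w) ^ 2) • (u ζ : ℂ)) 0 ρ := by
    have hgw : g w ≠ 0 := hg0 w (ball_subset_closedBall hwb)
    have he : Complex.exp (-Φ w) ≠ 0 := Complex.exp_ne_zero _
    rw [div_eq_iff hgw]
    have h3 : Complex.exp (-Φ w) * (deriv g w - g w *
        Real.circleAverage (fun ζ => (2 * ζ / (ζ - w) ^ 2) • (u ζ : ℂ)) 0 ρ) = 0 := by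
      linear_combination hz
    rcases mul_eq_zero.1 h3 with h | h
    · exact absurd h he
    · linear_combination h
  rw [hquot]
  have hint2 : CircleIntegrable (fun z => 2 * ρ / (ρ - r) ^ 2 * |u z|) 0 ρ :=
    (continuousOn_const.mul hcont.abs).circleIntegrable'
  refine (LDA.norm_circleAverage_le hint2 ?_).trans (le_of_eq ?_)
  · intro θ
    have hn : ‖circleMap 0 ρ θ‖ = ρ := by rw [norm_circleMap_zero, abs_of_pos hρ]
    rw [norm_smul, norm_div, norm_mul, norm_pow, hn]
    have h2 : ‖(2 : ℂ)‖ = 2 := by norm_num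
    rw [h2, Complex.norm_real, Real.norm_eq_abs]
    have h4 : ρ - r ≤ ‖circleMap 0 ρ θ - w‖ := by
      have h5 := norm_sub_norm_le (circleMap 0 ρ θ) w
      rw [hn] at h5
      rw [mem_closedBall_zero_iff] at hw
      linarith
    have h6 : 0 < ρ - r := by linarith
    gcongr
  · exact Real.circleAverage_fun_smul (a := 2 * ρ / (ρ - r) ^ 2) (f := fun z => |u z|)

end Pool.ThmM
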