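import Pool.Agent.Work.MP_f82ddf_M1.Interface2

/-!
# Block LDB (helper46)
-/

open Topology Filter Metric ComplexConjugate

namespace Pool.ThmM

theorem p_LDB : Stmt_LDB := by
  intro ρ r a z hr hrρ ha hz hza
  have hρ : 0 < ρ := hr.trans hrρ
  have hρC : (ρ : ℂ) ≠ 0 := by exact_mod_cast hρ.ne'
  have hza' : z - a ≠ 0 := sub_ne_zero.2 hza
  have hden : (ρ : ℂ) * (z - a) ≠ 0 := mul_ne_zero hρC hza'
  have hlow : ρ * (ρ - r) ≤ ‖(ρ : ℂ) ^ 2 - conj a * z‖ := by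
    have h1 : ‖conj a * z‖ ≤ ρ * r := by
      rw [norm_mul, RCLike.norm_conj]
      exact mul_le_mul ha.le hz (norm_nonneg _) hρ.le
    have h2 : ‖(ρ : ℂ) ^ 2‖ = ρ ^ 2 := by
      rw [norm_pow, Complex.norm_real, Real.norm_of_nonneg hρ.le]
    have h3 := norm_sub_norm_le ((ρ : ℂ) ^ 2) (conj a * z)
    rw [h2] at h3
    nlinarith
  have hpos : 0 < ρ * (ρ - r) := mul_pos hρ (sub_pos.2 hrρ)
  have hnum : (ρ : ℂ) ^ 2 - conj a * z ≠ 0 := by
    rw [← norm_pos_iff]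
    exact hpos.trans_le hlow
  have hd1 : HasDerivAt (fun z : ℂ => (ρ : ℂ) ^ 2 - conj a * z) (-(conj a)) z := by
    have := ((hasDerivAt_id z).const_mul (conj a)).const_sub ((ρ : ℂ) ^ 2)
    simpa using this
  have hd2 : HasDerivAt (fun z : ℂ => (ρ : ℂ) * (z - a)) (ρ : ℂ) z := by
    have := ((hasDerivAt_id z).sub_const a).const_mul (ρ : ℂ)
    simpa using this
  have hlog : logDeriv (Complex.canonicalFactor ρ a) z =
      -(conj a) / ((ρ : ℂ) ^ 2 - conj a * z) - 1 / (z - a) := by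
    rw [Complex.canonicalFactor_def, logDeriv_div (x := z) (f := fun z : ℂ => (ρ : ℂ) ^ 2 - conj a * z)
      (g := fun z : ℂ => (ρ : ℂ) * (z - a)) hnum hden hd1.differentiableAt hd2.differentiableAt,
      logDeriv_apply, logDeriv_apply, hd1.deriv, hd2.deriv]
    congr 1
    field_simp
  rw [hlog]
  have h4 : ‖-(conj a) / ((ρ : ℂ) ^ 2 - conj a * z)‖ ≤ 1 / (ρ - r) := by
    rw [norm_div, norm_neg, RCLike.norm_conj, div_le_div_iff₀ (hpos.trans_le hlow) (sub_pos.2 hrρ)]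
    have h5 : ‖a‖ * (ρ - r) ≤ ρ * (ρ - r) :=
      mul_le_mul_of_nonneg_right ha.le (sub_pos.2 hrρ).le
    linarith
  have h6 : ‖1 / (z - a)‖ = 1 / ‖z - a‖ := by rw [norm_div, norm_one]
  calc ‖-(conj a) / ((ρ : ℂ) ^ 2 - conj a * z) - 1 / (z - a)‖
      ≤ ‖-(conj a) / ((ρ : ℂ) ^ 2 - conj a * z)‖ + ‖1 / (z - a)‖ := norm_sub_le _ _
    _ ≤ 1 / (ρ - r) + 1 / ‖z - a‖ := by rw [h6]; linarith
    _ = 1 / ‖z - a‖ + 1 / (ρ - r) := add_comm _ _

end Pool.ThmM
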