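import Pool.Agent.Work.MP_f82ddf_M1.Interface2

open Topology Filter Metric

namespace Pool.ThmM

namespace LDC

theorem codiscrete_of_ball {P : ℂ → Prop} {ρ r : ℝ} (h : r < ρ)
    (hP : ∀ᶠ z in codiscreteWithin (ball (0 : ℂ) ρ), P z) :
    ∀ᶠ z in codiscrete ℂ, ‖z‖ ≤ r → P z := by
  change {z | ‖z‖ ≤ r → P z} ∈ codiscreteWithin Set.univ
  rw [mem_codiscreteWithin_iff_forall_mem_nhdsNE]
  intro x _
  have h0 := mem_codiscreteWithin_iff_forall_mem_nhdsNE.1 hP x
  by_cases hx : ‖x‖ < ρ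
  · have hxb : x ∈ ball (0 : ℂ) ρ := by rwa [mem_ball_zero_iff]
    have h1 : ball (0 : ℂ) ρ ∈ 𝓝[≠] x := mem_nhdsWithin_of_mem_nhds (isOpen_ball.mem_nhds hxb)
    filter_upwards [h0 hxb, h1] with z hz hz1
    left
    intro _
    rcases hz with hz | hz
    · exact hz
    · exact absurd hz1 hz
  · have h2 : {z : ℂ | r < ‖z‖} ∈ 𝓝[≠] x := by
      apply mem_nhdsWithin_of_mem_nhds
      apply (isOpen_lt continuous_const continuous_norm).mem_nhds
      change r < ‖x‖
      push Not at hx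
      linarith
    filter_upwards [h2] with z hz
    left
    intro h3
    exact absurd h3 (not_le.2 hz)

end LDC

theorem p_LDC (h1 : Stmt_LDA) (h2 : Stmt_LDB) : Stmt_LDC := by
  classical
  intro f ρ r hf hne hr hrρ hsph
  have hρ : 0 < ρ := hr.trans hrρ
  have hfm : MeromorphicOn f (closedBall (0 : ℂ) ρ) := fun z _ => hf z
  have hfu : MeromorphicOn f Set.univ := fun z _ => hf z
  obtain ⟨g, D⟩ := hfm.exists_ecanonicalDecomp (fun u => hne u)
  have hfin : (MeromorphicOn.divisor f (ball (0 : ℂ) ρ)).support.Finite :=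
    hfm.divisor_ball_support_finite
  have hdiv : ∀ a ∈ ball (0 : ℂ) ρ, MeromorphicOn.divisor f (ball (0 : ℂ) ρ) a =
      MeromorphicOn.divisor f Set.univ a := by
    intro a ha
    rw [MeromorphicOn.divisor_apply (hfm.mono_set ball_subset_closedBall) ha,
      MeromorphicOn.divisor_apply hfu (Set.mem_univ a)]
  have hmem : ∀ a, a ∈ hfin.toFinset ↔ ‖a‖ < ρ ∧ MeromorphicOn.divisor f Set.univ a ≠ 0 := by
    intro a
    rw [Set.Finite.mem_toFinset, Function.mem_support]
    constructor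
    · intro h
      have ha := (MeromorphicOn.divisor f (ball (0 : ℂ) ρ)).supportWithinDomain h
      refine ⟨by rwa [mem_ball_zero_iff] at ha, ?_⟩
      rwa [← hdiv a ha]
    · rintro ⟨h3, h4⟩
      have ha : a ∈ ball (0 : ℂ) ρ := by rwa [mem_ball_zero_iff]
      rwa [hdiv a ha]
  set s : Finset ℂ := hfin.toFinset with hs
  refine ⟨s, hmem, ?_⟩
  -- the product
  set G : ℂ → ℂ := fun z => (∏ u ∈ s, (Complex.canonicalFactor ρ u z) ^
    (-MeromorphicOn.divisor f (ball (0 : ℂ) ρ) u)) * g z with hG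
  have hsd : ∀ v : ℂ, MeromorphicOn.divisor f (sphere (0 : ℂ) ρ) v = 0 := by
    intro v
    by_cases hv : v ∈ sphere (0 : ℂ) ρ
    · rw [MeromorphicOn.divisor_apply (hfm.mono_set sphere_subset_closedBall) hv,
        hsph v (by rwa [mem_sphere_zero_iff_norm] at hv)]
      rfl
    · exact Function.locallyFinsuppWithin.apply_eq_zero_of_notMem _ hv
  have hfG : f =ᶠ[codiscreteWithin (closedBall (0 : ℂ) ρ)] G := by
    filter_upwards [D.eventuallyEq] with z hz
    rw [hz]
    have e1 : (∏ᶠ v : ℂ, (fun x : ℂ => x - v) ^ (MeromorphicOn.divisor f (sphere (0 : ℂ) ρ)) v)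
        = 1 := by
      rw [finprod_eq_one_of_forall_eq_one]
      intro v
      rw [hsd v, zpow_zero]
    rw [e1, mul_one, finprod_eq_prod_of_mulSupport_subset (s := s)]
    · simp only [Pi.smul_apply', Finset.prod_apply, Pi.pow_apply, smul_eq_mul, hG]
    · intro u hu
      rw [Function.mem_mulSupport] at hu
      rw [hs, Set.Finite.coe_toFinset, Function.mem_support]
      intro h0
      apply hu
      rw [h0, neg_zero, zpow_zero]
  -- values on the circle
  have hav : Real.circleAverage (fun z => |Real.log ‖g z‖|) 0 ρ =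
      Real.circleAverage (fun z => |Real.log ‖f z‖|) 0 ρ := by
    apply Real.circleAverage_congr_codiscreteWithin _ hρ.ne'
    rw [abs_of_pos hρ]
    filter_upwards [hfG.filter_mono (codiscreteWithin_mono sphere_subset_closedBall),
      self_mem_codiscreteWithin (sphere (0 : ℂ) ρ)] with z hz hzs
    rw [hz, hG]
    simp only
    rw [norm_mul, norm_prod, Finset.prod_eq_one, one_mul]
    intro u hu
    rw [norm_zpow, Complex.norm_canonicalFactor_eval_circle_eq_one _ hzs, one_zpow]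
    rw [mem_ball_zero_iff]
    exact ((hmem u).1 hu).1
  have hld : logDeriv f =ᶠ[codiscreteWithin (ball (0 : ℂ) ρ)] logDeriv G :=
    logDeriv_congr_codiscreteWithin isOpen_ball
      (hfG.filter_mono (codiscreteWithin_mono ball_subset_closedBall))
  have hsc : ∀ᶠ z in codiscreteWithin (ball (0 : ℂ) ρ), z ∉ s := by
    have h5 : ((s : Set ℂ)ᶜ) ∈ codiscrete ℂ := s.finite_toSet.compl_mem_codiscrete
    exact codiscreteWithin_mono (Set.subset_univ _) h5
  have hboth : ∀ᶠ z in codiscreteWithin (ball (0 : ℂ) ρ), logDeriv f z = logDeriv G z ∧ z ∉ s :=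
    hld.and hsc
  filter_upwards [LDC.codiscrete_of_ball hrρ hboth] with z hz hzr
  obtain ⟨hz1, hz2⟩ := hz hzr
  have hzb : z ∈ ball (0 : ℂ) ρ := by
    rw [mem_ball_zero_iff]
    linarith
  have hzc : z ∈ closedBall (0 : ℂ) ρ := ball_subset_closedBall hzb
  have hzu : ∀ u ∈ s, z ≠ u := by
    rintro u hu rfl
    exact hz2 hu
  have hub : ∀ u ∈ s, u ∈ ball (0 : ℂ) ρ := fun u hu => by
    rw [mem_ball_zero_iff]
    exact ((hmem u).1 hu).1
  have hcd : ∀ u ∈ s, DifferentiableAt ℂ (Complex.canonicalFactor ρ u) z := fun u hu =>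
    (Complex.analyticOnNhd_canonicalFactor ρ u z (hzu u hu)).differentiableAt
  have hc0 : ∀ u ∈ s, Complex.canonicalFactor ρ u z ≠ 0 := fun u hu =>
    Complex.canonicalFactor_ne_zero (hub u hu) hzc (hzu u hu)
  have hgd : DifferentiableAt ℂ g z := (D.analyticOnNhd z hzc).differentiableAt
  have hg0 : g z ≠ 0 := D.ne_zero z hzc
  have hpd : ∀ u ∈ s, DifferentiableAt ℂ (fun y => (Complex.canonicalFactor ρ u y) ^
      (-MeromorphicOn.divisor f (ball (0 : ℂ) ρ) u)) z := fun u hu =>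
    (hcd u hu).zpow (Or.inl (hc0 u hu))
  have hp0 : ∀ u ∈ s, (Complex.canonicalFactor ρ u z) ^
      (-MeromorphicOn.divisor f (ball (0 : ℂ) ρ) u) ≠ 0 := fun u hu => zpow_ne_zero _ (hc0 u hu)
  have hGl : logDeriv G z = (∑ u ∈ s, ((-MeromorphicOn.divisor f (ball (0 : ℂ) ρ) u : ℤ) : ℂ) *
      logDeriv (Complex.canonicalFactor ρ u) z) + logDeriv g z := by
    rw [hG, logDeriv_mul z (Finset.prod_ne_zero_iff.2 hp0) hg0
      (DifferentiableAt.fun_finsetProd hpd) hgd,
      logDeriv_prod (f := fun u y => (Complex.canonicalFactor ρ u y) ^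
      (-MeromorphicOn.divisor f (ball (0 : ℂ) ρ) u)) hp0 hpd]
    congr 1
    apply Finset.sum_congr rfl
    intro u hu
    rw [logDeriv_fun_zpow (hcd u hu)]
  have hgA := h1 g ρ r hr hrρ D.analyticOnNhd D.ne_zero z (by rwa [mem_closedBall_zero_iff])
  rw [hav] at hgA
  rw [hz1, hGl]
  refine (norm_add_le _ _).trans ?_
  rw [add_comm]
  refine add_le_add ?_ ?_
  · rw [logDeriv_apply]
    exact hgA
  · refine (norm_sum_le _ _).trans (Finset.sum_le_sum ?_)
    intro u hu
    rw [norm_mul, Complex.norm_intCast]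
    have h7 := h2 ρ r u z hr hrρ ((hmem u).1 hu).1 hzr (hzu u hu)
    rw [hdiv u (hub u hu)]
    push_cast
    rw [abs_neg]
    exact mul_le_mul_of_nonneg_left h7 (abs_nonneg _)

end Pool.ThmM
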