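import Pool.Agent.Work.MP_f82ddf_M1.Interface2

set_option autoImplicit false

/-! # Theorem M, part 1, block LDE: average of the positive logarithm of simple poles -/

open Topology Filter
open Pool.Agent.Work.MP_f82ddf_nt.DQ

namespace Pool.ThmM

namespace LDE

private theorem sq_rpow (x : ℝ) (hx : 0 ≤ x) : 1 / x = (x ^ (-(1 / 2) : ℝ)) ^ 2 := by
  rw [← Real.rpow_natCast, ← Real.rpow_mul hx]
  norm_num
  rw [Real.rpow_neg_one]

private theorem sum_le_sq (s : Finset ℂ) (n : ℂ → ℕ) (v : ℂ → ℝ) (hv : ∀ a, 0 ≤ v a) :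
    ∑ a ∈ s, (n a : ℝ) * v a ^ 2 ≤ (∑ a ∈ s, (n a : ℝ) * v a) ^ 2 := by
  have h0 : ∀ a ∈ s, 0 ≤ (n a : ℝ) * v a := fun a _ => mul_nonneg (Nat.cast_nonneg _) (hv a)
  calc ∑ a ∈ s, (n a : ℝ) * v a ^ 2 ≤ ∑ a ∈ s, ((n a : ℝ) * v a) * ∑ b ∈ s, (n b : ℝ) * v b := by
        refine Finset.sum_le_sum fun a ha => ?_
        have h1 : (n a : ℝ) * v a ≤ ∑ b ∈ s, (n b : ℝ) * v b := Finset.single_le_sum h0 ha
        have h2 : (n a : ℝ) ≤ (n a : ℝ) * n a := by
          exact_mod_cast Nat.le_mul_self (n a)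
        have h3 : (n a : ℝ) * v a ^ 2 ≤ ((n a : ℝ) * v a) * ((n a : ℝ) * v a) := by
          nlinarith [mul_le_mul_of_nonneg_right h2 (sq_nonneg (v a))]
        exact h3.trans (mul_le_mul_of_nonneg_left h1 (h0 a ha))
    _ = (∑ a ∈ s, (n a : ℝ) * v a) ^ 2 := by
        rw [← Finset.sum_mul, sq]

private theorem log_tan (x c : ℝ) (hx : 0 < x) (hc : 0 < c) :
    Real.log x ≤ Real.log c + x / c - 1 := by
  have h := Real.log_le_sub_one_of_pos (div_pos hx hc)
  rw [Real.log_div hx.ne' hc.ne'] at h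
  linarith

end LDE

open LDE in
theorem p_LDE (hD : Stmt_LDD) (hC : Stmt_CMP) : Stmt_LDE := by
  obtain ⟨C₀, hC₀, hD⟩ := hD
  refine ⟨2 * Real.log 2 + 2 * Real.log (1 + C₀), ?_, ?_⟩
  · have h1 := Real.log_nonneg (by norm_num : (1 : ℝ) ≤ 2)
    have h2 := Real.log_nonneg (by linarith : (1 : ℝ) ≤ 1 + C₀)
    linarith
  intro s n A B r φ hr hA hB hφ hI hle
  have hr0 : r ≠ 0 := by linarith
  set N : ℝ := ∑ a ∈ s, (n a : ℝ) with hN
  have hN0 : 0 ≤ N := Finset.sum_nonneg fun a _ => Nat.cast_nonneg _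
  set W : ℂ → ℝ := fun z => ∑ a ∈ s, (n a : ℝ) * ‖z - a‖ ^ (-(1 / 2) : ℝ) with hW
  have hv : ∀ z a : ℂ, 0 ≤ ‖z - a‖ ^ (-(1 / 2) : ℝ) := fun z a =>
    Real.rpow_nonneg (norm_nonneg _) _
  have hW0 : ∀ z, 0 ≤ W z := fun z => Finset.sum_nonneg fun a _ =>
    mul_nonneg (Nat.cast_nonneg _) (hv z a)
  have hWI : CircleIntegrable W 0 r := by
    have h1 : W = ∑ a ∈ s, fun z => (n a : ℝ) * ‖z - a‖ ^ (-(1 / 2) : ℝ) := by
      funext z
      simp [hW, Finset.sum_apply]
    rw [h1]
    exact CircleIntegrable.sum s fun a _ => ((hD a r hr).1.const_smul (a := (n a : ℝ)))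
  have hWA : Real.circleAverage W 0 r ≤ N * C₀ := by
    have h1 : Real.circleAverage W 0 r =
        ∑ a ∈ s, Real.circleAverage (fun z => (n a : ℝ) * ‖z - a‖ ^ (-(1 / 2) : ℝ)) 0 r := by
      have h2 : W = ∑ a ∈ s, fun z => (n a : ℝ) * ‖z - a‖ ^ (-(1 / 2) : ℝ) := by
        funext z
        simp [hW, Finset.sum_apply]
      rw [h2]
      exact Real.circleAverage_sum fun a _ => ((hD a r hr).1.const_smul (a := (n a : ℝ)))
    rw [h1, hN, Finset.sum_mul]
    refine Finset.sum_le_sum fun a _ => ?_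
    have h3 : Real.circleAverage (fun z => (n a : ℝ) * ‖z - a‖ ^ (-(1 / 2) : ℝ)) 0 r =
        (n a : ℝ) * Real.circleAverage (fun z => ‖z - a‖ ^ (-(1 / 2) : ℝ)) 0 r :=
      Real.circleAverage_fun_smul (a := (n a : ℝ))
    rw [h3]
    exact mul_le_mul_of_nonneg_left (hD a r hr).2 (Nat.cast_nonneg _)
  set c : ℝ := 1 + N * C₀ with hc
  have hc1 : 1 ≤ c := by
    have := mul_nonneg hN0 (by linarith : (0 : ℝ) ≤ C₀)
    linarith
  have hc0 : 0 < c := by linarith
  set k : ℝ := Real.posLog A + Real.posLog N + Real.posLog B + 2 * Real.log 2 +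
    2 * (Real.log c + 1 / c - 1) with hk
  -- the comparison function
  have hmain : ∀ z, ‖z‖ = r → φ z ≤ A + ∑ a ∈ s, (n a : ℝ) * (1 / ‖z - a‖ + B) →
      Real.posLog (φ z) ≤ k + 2 / c * W z := by
    intro z hz hzle
    have h1 : A + ∑ a ∈ s, (n a : ℝ) * (1 / ‖z - a‖ + B) ≤ A + (N * B + W z ^ 2) := by
      have h2 : ∑ a ∈ s, (n a : ℝ) * (1 / ‖z - a‖ + B) =
          ∑ a ∈ s, (n a : ℝ) * (‖z - a‖ ^ (-(1 / 2) : ℝ)) ^ 2 + N * B := by
        rw [hN, Finset.sum_mul, ← Finset.sum_add_distrib]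
        refine Finset.sum_congr rfl fun a _ => ?_
        rw [sq_rpow _ (norm_nonneg _)]
        ring
      have h3 := sum_le_sq s n (fun a => ‖z - a‖ ^ (-(1 / 2) : ℝ)) (fun a => hv z a)
      rw [h2]
      have h4 : W z = ∑ a ∈ s, (n a : ℝ) * ‖z - a‖ ^ (-(1 / 2) : ℝ) := rfl
      rw [h4]
      linarith
    have h5 : Real.posLog (φ z) ≤ Real.posLog (A + (N * B + W z ^ 2)) :=
      Real.posLog_le_posLog (hφ z) (hzle.trans h1)
    have h6 := Real.posLog_add (x := A) (y := N * B + W z ^ 2)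
    have h7 := Real.posLog_add (x := N * B) (y := W z ^ 2)
    have h8 := Real.posLog_mul (x := N) (y := B)
    have h9 : Real.posLog (W z ^ 2) = 2 * Real.posLog (W z) := by
      simp [Real.posLog_pow]
    have h10 : Real.posLog (W z) ≤ Real.log (1 + W z) := by
      rw [Real.posLog_def]
      refine max_le (Real.log_nonneg (by linarith [hW0 z])) ?_
      rcases (hW0 z).eq_or_lt with h0 | h0
      · rw [← h0]
        simp
      · exact Real.log_le_log h0 (by linarith)
    have h11 := log_tan (1 + W z) c (by linarith [hW0 z]) hc0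
    have h12 : (1 + W z) / c = 1 / c + W z / c := add_div _ _ _
    have h13 : 2 / c * W z = 2 * (W z / c) := by ring
    rw [hk, h13]
    linarith
  have hnn : ∀ z, 0 ≤ k + 2 / c * W z := by
    intro z
    have h11 := log_tan (1 + W z) c (by linarith [hW0 z]) hc0
    have h12 : (1 + W z) / c = 1 / c + W z / c := add_div _ _ _
    have h13 : 2 / c * W z = 2 * (W z / c) := by ring
    have h14 : 0 ≤ Real.log (1 + W z) := Real.log_nonneg (by linarith [hW0 z])
    have h15 := Real.log_nonneg (by norm_num : (1 : ℝ) ≤ 2)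
    have h16 := Real.posLog_nonneg (x := A)
    have h17 := Real.posLog_nonneg (x := B)
    have h18 := Real.posLog_nonneg (x := N)
    rw [hk, h13]
    linarith
  classical
  set g : ℂ → ℝ := fun z => if ‖z‖ = r then Real.posLog (φ z) else 0 with hg
  have hgeq : ∀ θ : ℝ, g (circleMap 0 r θ) = Real.posLog (φ (circleMap 0 r θ)) := by
    intro θ
    have h1 : ‖circleMap 0 r θ‖ = r := by
      rw [norm_circleMap_zero, abs_of_pos (by linarith)]
    simp only [hg]
    rw [if_pos h1]
  have hgI : CircleIntegrable g 0 r := by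
    have h1 : (fun θ => g (circleMap 0 r θ)) = fun θ => Real.posLog (φ (circleMap 0 r θ)) :=
      funext hgeq
    unfold CircleIntegrable at hI ⊢
    rw [h1]
    exact hI
  have hgA : Real.circleAverage g 0 r = Real.circleAverage (fun z => Real.posLog (φ z)) 0 r := by
    unfold Real.circleAverage
    simp only [hgeq]
  have hhI : CircleIntegrable (fun z => k + 2 / c * W z) 0 r :=
    (circleIntegrable_const k 0 r).add (hWI.const_smul (a := 2 / c))
  have hcmp := hC g (fun z => k + 2 / c * W z) r hr0 hgI hhI (by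
    filter_upwards [hle] with z hz
    simp only [hg]
    split_ifs with h
    · exact hmain z h (hz h)
    · exact hnn z)
  rw [hgA] at hcmp
  have hA2 : Real.circleAverage (fun z => k + 2 / c * W z) 0 r =
      k + 2 / c * Real.circleAverage W 0 r := by
    have h1 : Real.circleAverage (fun z => k + 2 / c * W z) 0 r =
        Real.circleAverage (fun _ => k) 0 r + Real.circleAverage (fun z => 2 / c * W z) 0 r :=
      Real.circleAverage_fun_add (circleIntegrable_const k 0 r) (hWI.const_smul (a := 2 / c))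
    rw [h1, Real.circleAverage_const]
    congr 1
    exact Real.circleAverage_fun_smul (a := 2 / c)
  rw [hA2] at hcmp
  refine hcmp.trans ?_
  have h1 : 2 / c * Real.circleAverage W 0 r ≤ 2 / c * (N * C₀) :=
    mul_le_mul_of_nonneg_left hWA (by positivity)
  have h2 : 2 / c * (N * C₀) = 2 * (1 - 1 / c) := by
    have h3 : N * C₀ = c - 1 := by rw [hc]; ring
    rw [h3]
    field_simp
  have h4 : Real.log c ≤ Real.posLog N + Real.log (1 + C₀) := by
    by_cases hz : N < 1
    · have h5 : N = 0 := by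
        have h6 : (∑ a ∈ s, (n a : ℝ)) = ((∑ a ∈ s, n a : ℕ) : ℝ) := by push_cast; rfl
        rw [hN, h6] at hz ⊢
        have h7 : (∑ a ∈ s, n a) < 1 := by exact_mod_cast hz
        have h8 : (∑ a ∈ s, n a) = 0 := by omega
        rw [h8]
        simp
      have h9 := Real.posLog_nonneg (x := N)
      have h10 : c = 1 := by rw [hc, h5]; ring
      have h11 := Real.log_nonneg (by linarith : (1 : ℝ) ≤ 1 + C₀)
      rw [h10, Real.log_one]
      linarith
    · push Not at hz
      have h5 : c ≤ N * (1 + C₀) := by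
        rw [hc]
        nlinarith
      have h6 := Real.log_le_log hc0 h5
      rw [Real.log_mul (by linarith) (by linarith)] at h6
      have h7 : Real.log N ≤ Real.posLog N := by
        rw [Real.posLog_def]
        exact le_max_right _ _
      linarith
  rw [hk]
  linarith

end Pool.ThmM
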