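import Pool.Agent.Work.MP_f82ddf_M1.Interface2

/-! # Block LDF (helper87): unintegrated against integrated counting function -/

open Topology Filter
open scoped Differential
open Pool.Agent.Work.MP_f82ddf_nt.DQ

namespace Pool.ThmM

theorem p_LDF : Stmt_LDF := by
  classical
  intro D ρ ρ' s hD hρ hρ' hs
  have hD' : ∀ z, 0 ≤ D z := by
    intro z
    have h := Function.locallyFinsuppWithin.le_def.1 hD z
    exact h
  have h1 : ∑ a ∈ s, D a • Function.locallyFinsuppWithin.single a (1 : ℤ) ≤ D := by
    rw [Function.locallyFinsuppWithin.le_def]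
    intro z
    have h2 : (∑ a ∈ s, D a • Function.locallyFinsuppWithin.single a (1 : ℤ)) z =
        if z ∈ s then D z else 0 := by
      rw [Function.locallyFinsuppWithin.coe_sum, Finset.sum_apply]
      have h3 : ∀ a, (D a • Function.locallyFinsuppWithin.single a (1 : ℤ)) z =
          if z = a then D a else 0 := by
        intro a
        rw [Function.locallyFinsuppWithin.coe_zsmul, Pi.smul_apply,
          Function.locallyFinsuppWithin.single_apply]
        by_cases h : z = a
        · simp [h]
        · simp [h]
      rw [Finset.sum_congr rfl fun a _ => h3 a, Finset.sum_ite_eq]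
    rw [h2]
    have h3 : (if z ∈ s then D z else 0) ≤ D z := by
      split_ifs
      · exact le_rfl
      · exact hD' z
    exact h3
  have h2 := Function.locallyFinsuppWithin.logCounting_le h1 (hρ.trans hρ'.le)
  refine le_trans ?_ h2
  rw [map_sum, Finset.sum_apply, Finset.sum_mul]
  refine Finset.sum_le_sum fun a ha => ?_
  rw [map_zsmul, Pi.smul_apply, zsmul_eq_mul]
  refine mul_le_mul_of_nonneg_left ?_ (by exact_mod_cast hD' a)
  rw [Function.locallyFinsuppWithin.logCounting_single_eq_log_sub_const ((hs a ha).trans hρ'.le)]
  rw [Real.log_div (by linarith) (by linarith), Int.cast_one, one_mul]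
  have h3 : Real.log ‖a‖ ≤ Real.log ρ := by
    by_cases h0 : a = 0
    · rw [h0, norm_zero, Real.log_zero]
      exact Real.log_nonneg hρ
    · exact Real.log_le_log (norm_pos_iff.2 h0) (hs a ha)
  linarith

end Pool.ThmM
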