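import Pool.Agent.Work.MP_f82ddf_M1.Interface2

open Topology Filter Metric
open scoped Differential
open Pool.Agent.Work.MP_f82ddf_nt.DQ

namespace Pool.ThmM

namespace LDG

/-- A radius without zeros and poles. -/
theorem exists_radius (F : ℂ → ℂ) (hF : MeromorphicOn F Set.univ) (a b ρ : ℝ) (hab : a < b)
    (hb : b ≤ ρ) : ∃ ρ₁, a < ρ₁ ∧ ρ₁ < b ∧
      ∀ z : ℂ, ‖z‖ = ρ₁ → MeromorphicOn.divisor F Set.univ z = 0 := by
  have hfin : (MeromorphicOn.divisor F (closedBall (0 : ℂ) ρ)).support.Finite :=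
    (MeromorphicOn.divisor F (closedBall (0 : ℂ) ρ)).finiteSupport (isCompact_closedBall 0 ρ)
  have hinf : (Set.Ioo a b).Infinite := Set.Ioo_infinite hab
  obtain ⟨ρ₁, hρ₁, hnot⟩ := (hinf.sdiff (hfin.image (fun z : ℂ => ‖z‖))).nonempty
  refine ⟨ρ₁, hρ₁.1, hρ₁.2, ?_⟩
  intro z hz
  by_contra h
  apply hnot
  refine ⟨z, ?_, hz⟩
  have hzc : z ∈ closedBall (0 : ℂ) ρ := by
    rw [mem_closedBall_zero_iff, hz]
    exact (hρ₁.2.le).trans hb
  rw [Function.mem_support, MeromorphicOn.divisor_apply (hF.mono_set (Set.subset_univ _)) hzc]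
  rwa [MeromorphicOn.divisor_apply hF (Set.mem_univ z)] at h

theorem posLog_three (x y z : ℝ) :
    Real.posLog (x * y * z) ≤ Real.posLog x + Real.posLog y + Real.posLog z := by
  have h1 := @Real.posLog_mul (x * y) z
  have h2 := @Real.posLog_mul x y
  linarith

end LDG

theorem p_LDG (hREP : Stmt_REP) (hALG : Stmt_ALG) (hVAL : Stmt_VAL) (hJEN : Stmt_JEN)
    (hNNP : Stmt_NNP) (hCHR : Stmt_CHR) (_hDV1 : Stmt_DV1) (_hCMP : Stmt_CMP) (hLDC : Stmt_LDC)
    (hLDE : Stmt_LDE) (hLDF : Stmt_LDF) : Stmt_LDG := by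
  classical
  intro f hf
  obtain ⟨hrn, hrm, -⟩ := hREP f
  obtain ⟨CJ, hCJ⟩ := hJEN f
  obtain ⟨hT1, hTmono, hT0, hTeq⟩ := hCHR f
  obtain ⟨hN1, hN2, -, hNmono, hNpos, -⟩ := hNNP
  obtain ⟨K, hK, hKE⟩ := hLDE
  have hrmo : MeromorphicOn (rep f) Set.univ := fun z _ => hrm z
  have hord : ∀ z, meromorphicOrderAt (rep f) z = ((dv1 f z : ℤ) : WithTop ℤ) := by
    intro z
    exact (hVAL z).2.2.2.2.1 f hf
  have hne : ∀ z, meromorphicOrderAt (rep f) z ≠ ⊤ := by
    intro z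
    rw [hord z]
    exact WithTop.coe_ne_top
  have hMP0 : ∀ x, 0 ≤ MP f x := fun x =>
    Real.circleAverage_nonneg_of_nonneg (fun z _ => Real.posLog_nonneg)
  have hposD : (0 : Function.locallyFinsupp ℂ ℤ) ≤ (dv1 f)⁺ := posPart_nonneg _
  have hnegD : (0 : Function.locallyFinsupp ℂ ℤ) ≤ (dv1 f)⁻ := negPart_nonneg _
  have hDdec : dv1 f = (dv1 f)⁺ - (dv1 f)⁻ := (posPart_sub_negPart _).symm
  -- integrability
  have hi1 : ∀ x : ℝ, CircleIntegrable (fun z => Real.posLog ‖rep f z‖) 0 x := fun x =>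
    MeromorphicOn.circleIntegrable_posLog_norm (fun z _ => hrm z)
  have hi2 : ∀ x : ℝ, CircleIntegrable (fun z => Real.log ‖rep f z‖) 0 x := fun x =>
    MeromorphicOn.circleIntegrable_log_norm (fun z _ => hrm z)
  -- average of the absolute value of the logarithm
  have havg : ∀ x : ℝ, Real.circleAverage (fun z => |Real.log ‖rep f z‖|) 0 x =
      2 * MP f x - LL1 f x := by
    intro x
    have e1 : (fun z => |Real.log ‖rep f z‖|) =
        fun z => (2 : ℝ) • Real.posLog ‖rep f z‖ - Real.log ‖rep f z‖ := by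
      funext z
      have := @Real.half_mul_log_add_log_abs ‖rep f z‖
      rw [smul_eq_mul]
      linarith
    have hi3 : CircleIntegrable (fun z => (2 : ℝ) • Real.posLog ‖rep f z‖) 0 x :=
      (hi1 x).const_smul
    rw [e1, Real.circleAverage_fun_sub hi3 (hi2 x), Real.circleAverage_fun_smul, smul_eq_mul]
    rfl
  -- bounds in terms of the height
  have hTD : ∀ x : ℝ, 1 ≤ x → MP f x ≤ TT ![f, 1] x ∧ NN (dv1 f)⁻ x ≤ TT ![f, 1] x ∧
      Real.circleAverage (fun z => |Real.log ‖rep f z‖|) 0 x ≤ 2 * TT ![f, 1] x + |CJ| ∧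
      NN (dv1 f)⁺ x ≤ TT ![f, 1] x + |CJ| := by
    intro x hx
    have hx0 : x ≠ 0 := by linarith
    have h1 := hTeq x hx0
    have h2 := hNpos _ x hnegD hx
    have h3 := hNpos _ x hposD hx
    have h4 := hCJ x hx0
    have h5 : NN (dv1 f) x = NN (dv1 f)⁺ x - NN (dv1 f)⁻ x := by
      rw [← hN2, ← hDdec]
    have h6 := hMP0 x
    have h7 := havg x
    have h8 := neg_abs_le CJ
    have h9 : LL1 f x ≤ MP f x := by
      unfold LL1 MP
      apply Real.circleAverage_mono (hi2 x) (hi1 x)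
      intro z _
      have := @Real.posLog_sub_posLog_inv ‖rep f z‖
      have h10 := @Real.posLog_nonneg (‖rep f z‖⁻¹)
      linarith
    refine ⟨by linarith, by linarith, ?_, ?_⟩
    · rw [h7]
      linarith
    · linarith
  -- the constant
  set PL : ℝ := 2 * Real.log 2 + Real.posLog |CJ| with hPL
  have hlog2 : 0 ≤ Real.log 2 := Real.log_nonneg (by norm_num)
  have hPL0 : 0 ≤ PL := by
    have := @Real.posLog_nonneg |CJ|
    positivity
  set c₀ : ℝ := K + Real.posLog 18 + 4 * Real.posLog 3 + 4 * PL with hc₀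
  have hc₀0 : 0 ≤ c₀ := by
    have h1 := @Real.posLog_nonneg 18
    have h2 := @Real.posLog_nonneg 3
    positivity
  refine ⟨c₀ + 6, by linarith, ?_⟩
  intro r ρ hr hrρ
  set h : ℝ := ρ - r with hh
  have hh0 : 0 < h := by rw [hh]; linarith
  obtain ⟨ρ₁, hρa, hρb, hρz⟩ := LDG.exists_radius (rep f) hrmo (r + h / 3) (r + 2 * h / 3) ρ
    (by linarith) (by rw [hh]; linarith)
  have hρ0 : 0 < ρ := by linarith
  have hρ₁0 : 0 < ρ₁ := by linarith
  have hρ₁1 : 1 ≤ ρ₁ := by linarith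
  have hρ₁ρ : ρ₁ < ρ := by linarith
  have hrρ₁ : r < ρ₁ := by linarith
  set T : ℝ := TT ![f, 1] ρ with hT
  have hTn : 0 ≤ T := hT0 ρ (by linarith)
  have hTT : TT ![f, 1] ρ₁ ≤ T := hTmono (Set.mem_Ioi.2 hρ₁0) (Set.mem_Ioi.2 hρ0) hρ₁ρ.le
  obtain ⟨-, -, hA1, -⟩ := hTD ρ₁ hρ₁1
  obtain ⟨-, hB1, -, hB2⟩ := hTD ρ (by linarith)
  set M : ℝ := 2 * T + |CJ| with hM
  have hM0 : 0 ≤ M := by
    have := abs_nonneg CJ
    positivity
  have hMlog : Real.posLog M ≤ PL + Real.posLog T := by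
    have h1 := @Real.posLog_add (2 * T) |CJ|
    have h2 := @Real.posLog_mul 2 T
    have h3 : Real.posLog 2 = Real.log 2 := Real.posLog_eq_log (by norm_num)
    rw [hM, hPL]
    linarith
  -- LDC
  obtain ⟨s, hs, hsb⟩ := hLDC (rep f) ρ₁ r hrm hne (by linarith) hrρ₁ (by
    intro z hz
    rw [hord z]
    have h1 : dv1 f z = 0 := hρz z hz
    rw [h1]
    rfl)
  set avg : ℝ := Real.circleAverage (fun z => |Real.log ‖rep f z‖|) 0 ρ₁ with havg'
  have havg0 : 0 ≤ avg := Real.circleAverage_nonneg_of_nonneg (fun z _ => abs_nonneg _)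
  have havgM : avg ≤ M := by
    rw [hM]
    linarith
  set A : ℝ := 2 * ρ₁ / (ρ₁ - r) ^ 2 * avg with hA
  set B : ℝ := 1 / (ρ₁ - r) with hB
  set n : ℂ → ℕ := fun a => (dv1 f a).natAbs with hn
  have hd0 : 0 < ρ₁ - r := by linarith
  have hA0 : 0 ≤ A := by positivity
  have hB0 : 0 ≤ B := by positivity
  -- the function
  have hφ : rep (f′ / f) =ᶠ[codiscrete ℂ] logDeriv (rep f) := by
    have e1 : f′ / f = f′ * f⁻¹ := div_eq_mul_inv _ _
    rw [e1]
    obtain ⟨-, -, -, a1, a2, a3, -⟩ := hALG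
    filter_upwards [a1 (f′) f⁻¹, a2 f, a3 f] with z h1 h2 h3
    rw [h1, h2, h3, logDeriv_apply, div_eq_mul_inv]
  obtain ⟨-, hqm, -⟩ := hREP (f′ / f)
  have hE := hKE s n A B r (fun z => ‖rep (f′ / f) z‖) hr hA0 hB0 (fun z => norm_nonneg _)
    (MeromorphicOn.circleIntegrable_posLog_norm (fun z _ => hqm z)) (by
      filter_upwards [hφ, hsb] with z h1 h2 h3
      rw [h1]
      refine (h2 h3.le).trans (le_of_eq ?_)
      rw [hA, hB]
      congr 1
      apply Finset.sum_congr rfl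
      intro a _
      congr 1
      rw [hn]
      simp only
      rw [Nat.cast_natAbs, Int.cast_abs]
      rfl)
  have hE' : MP (f′ / f) r ≤ K + Real.posLog A + Real.posLog B +
      3 * Real.posLog (∑ a ∈ s, (n a : ℝ)) := hE
  -- the number of points
  have hdec : ∀ a, ((n a : ℕ) : ℝ) = (((dv1 f)⁺ a : ℤ) : ℝ) + (((dv1 f)⁻ a : ℤ) : ℝ) := by
    intro a
    have h1 : (n a : ℤ) = (dv1 f)⁺ a + (dv1 f)⁻ a := by
      rw [hn]
      simp only [Function.locallyFinsuppWithin.posPart_apply,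
        Function.locallyFinsuppWithin.negPart_apply]
      rw [Int.natCast_natAbs, posPart_add_negPart]
    exact_mod_cast h1
  have hsr : ∀ a ∈ s, ‖a‖ ≤ ρ₁ := fun a ha => ((hs a).1 ha).1.le
  have hF1 := hLDF (dv1 f)⁺ ρ₁ ρ s hposD hρ₁1 hρ₁ρ hsr
  have hF2 := hLDF (dv1 f)⁻ ρ₁ ρ s hnegD hρ₁1 hρ₁ρ hsr
  set N : ℝ := ∑ a ∈ s, (n a : ℝ) with hN
  have hN0 : 0 ≤ N := Finset.sum_nonneg fun a _ => Nat.cast_nonneg _
  have hNsum : N = (∑ a ∈ s, (((dv1 f)⁺ a : ℤ) : ℝ)) + ∑ a ∈ s, (((dv1 f)⁻ a : ℤ) : ℝ) := by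
    rw [hN, ← Finset.sum_add_distrib]
    exact Finset.sum_congr rfl fun a _ => hdec a
  have hNlog : N * Real.log (ρ / ρ₁) ≤ M := by
    rw [hNsum, add_mul, hM]
    linarith
  have hlog : h / (3 * ρ) ≤ Real.log (ρ / ρ₁) := by
    have h1 := Real.one_sub_inv_le_log_of_pos (x := ρ / ρ₁) (by positivity)
    rw [inv_div] at h1
    refine le_trans ?_ h1
    rw [div_le_iff₀ (by positivity)]
    have h2 : (1 - ρ₁ / ρ) * (3 * ρ) = 3 * (ρ - ρ₁) := by
      field_simp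
    rw [h2]
    linarith
  have hNb : N ≤ 3 * ρ * (1 / h) * M := by
    have h1 : N * (h / (3 * ρ)) ≤ M := (mul_le_mul_of_nonneg_left hlog hN0).trans hNlog
    have h2 : N = N * (h / (3 * ρ)) * (3 * ρ * (1 / h)) := by
      field_simp
    rw [h2, mul_comm (3 * ρ * (1 / h)) M]
    exact mul_le_mul_of_nonneg_right h1 (by positivity)
  have hNl : Real.posLog N ≤ Real.posLog 3 + Real.posLog ρ + Real.posLog (1 / h) +
      (PL + Real.posLog T) := by
    refine (Real.posLog_le_posLog hN0 hNb).trans ?_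
    have h1 := @Real.posLog_mul (3 * ρ * (1 / h)) M
    have h2 := LDG.posLog_three 3 ρ (1 / h)
    linarith
  have hBb : B ≤ 3 * (1 / h) := by
    rw [hB, mul_one_div, div_le_div_iff₀ hd0 hh0]
    linarith
  have hBl : Real.posLog B ≤ Real.posLog 3 + Real.posLog (1 / h) :=
    (Real.posLog_le_posLog hB0 hBb).trans Real.posLog_mul
  have hAb : A ≤ 18 * ρ * (1 / h) * ((1 / h) * M) := by
    have h1 : 2 * ρ₁ / (ρ₁ - r) ^ 2 ≤ 2 * ρ / (h / 3) ^ 2 := by
      have h2 : h / 3 ≤ ρ₁ - r := by linarith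
      gcongr
    have h3 : 18 * ρ * (1 / h) * ((1 / h) * M) = 2 * ρ / (h / 3) ^ 2 * M := by
      field_simp
      ring
    rw [h3, hA]
    exact mul_le_mul h1 havgM havg0 (by positivity)
  have hAl : Real.posLog A ≤ Real.posLog 18 + Real.posLog ρ + 2 * Real.posLog (1 / h) +
      (PL + Real.posLog T) := by
    refine (Real.posLog_le_posLog hA0 hAb).trans ?_
    have h1 := @Real.posLog_mul (18 * ρ * (1 / h)) ((1 / h) * M)
    have h2 := LDG.posLog_three 18 ρ (1 / h)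
    have h3 := @Real.posLog_mul (1 / h) M
    linarith
  have hp1 := @Real.posLog_nonneg ρ
  have hp2 := @Real.posLog_nonneg (1 / h)
  have hp3 := @Real.posLog_nonneg T
  have hfin : MP (f′ / f) r ≤ c₀ + 4 * Real.posLog ρ + 6 * Real.posLog (1 / h) +
      4 * Real.posLog T := by
    rw [hc₀]
    linarith
  refine hfin.trans ?_
  have hq1 := mul_nonneg hc₀0 hp1
  have hq2 := mul_nonneg hc₀0 hp2
  have hq3 := mul_nonneg hc₀0 hp3
  clear * - hq1 hq2 hq3 hp1 hp2 hp3 hc₀0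
  nlinarith

end Pool.ThmM
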