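import Pool.Agent.Work.MP_f82ddf_M1.Interface2

/-! # Block LDH (helper87): Borel's growth lemma -/

open Topology Filter
open scoped Differential
open Pool.Agent.Work.MP_f82ddf_nt.DQ

namespace Pool.ThmM

namespace LDH

/-- the sequence of radii -/
noncomputable def rr (T : ℝ → ℝ) (r₁ : ℝ) : ℕ → ℝ
  | 0 => r₁
  | n + 1 => rr T r₁ n + 1 / T (rr T r₁ n)

end LDH

open LDH in
theorem p_LDH : Stmt_LDH := by
  intro T hT h1 r₀
  by_contra hcon
  push Not at hcon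
  set r₁ := max r₀ 1 with hr₁
  have hb : ∀ n, r₁ ≤ rr T r₁ n ∧ (2 : ℝ) ^ n ≤ T (rr T r₁ n) ∧
      rr T r₁ n ≤ r₁ + 2 - 2 / 2 ^ n := by
    intro n
    induction n with
    | zero =>
      refine ⟨le_rfl, ?_, ?_⟩
      · rw [pow_zero]
        exact h1 _ (le_max_right _ _)
      · show r₁ ≤ r₁ + 2 - 2 / 2 ^ 0
        norm_num
    | succ n ih =>
      obtain ⟨h2, h3, h4⟩ := ih
      have h5 : (0 : ℝ) < 2 ^ n := by positivity
      have h6 : 0 < T (rr T r₁ n) := lt_of_lt_of_le h5 h3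
      have h7 : 1 / T (rr T r₁ n) ≤ 1 / 2 ^ n := one_div_le_one_div_of_le h5 h3
      have h8 : 0 < 1 / T (rr T r₁ n) := one_div_pos.2 h6
      refine ⟨?_, ?_, ?_⟩
      · show r₁ ≤ rr T r₁ n + 1 / T (rr T r₁ n)
        linarith
      · have h9 := hcon (rr T r₁ n) ((le_max_left _ _).trans h2) ((le_max_right _ _).trans h2)
        show (2 : ℝ) ^ (n + 1) ≤ T (rr T r₁ n + 1 / T (rr T r₁ n))
        rw [pow_succ]
        linarith
      · show rr T r₁ n + 1 / T (rr T r₁ n) ≤ r₁ + 2 - 2 / 2 ^ (n + 1)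
        have h10 : (2 : ℝ) / 2 ^ (n + 1) = 1 / 2 ^ n := by
          rw [pow_succ]
          field_simp
        have h11 : (2 : ℝ) / 2 ^ n = 1 / 2 ^ n + 1 / 2 ^ n := by ring
        rw [h10]
        linarith
  obtain ⟨n, hn⟩ := pow_unbounded_of_one_lt (T (r₁ + 2)) (one_lt_two (α := ℝ))
  obtain ⟨h2, h3, h4⟩ := hb n
  have h5 : (1 : ℝ) ≤ r₁ := le_max_right _ _
  have h6 : (0 : ℝ) < 2 / 2 ^ n := by positivity
  have h7 : T (rr T r₁ n) ≤ T (r₁ + 2) := by
    refine hT ?_ ?_ ?_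
    · exact h5.trans h2
    · show (1 : ℝ) ≤ r₁ + 2
      linarith
    · linarith
  linarith

end Pool.ThmM
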