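import Pool.Agent.Work.MP_f82ddf_M1.Interface2

/-! # Block LDX of Theorem M: the lemma of the logarithmic derivative in the form used -/

open Topology Filter
open scoped Differential
open Pool.Agent.Work.MP_f82ddf_nt.DQ

namespace Pool.ThmM

namespace LDX

theorem posLog_le {δ x : ℝ} (hδ : 0 < δ) (hx : 0 ≤ x) :
    Real.posLog x ≤ δ * x + |Real.log δ| := by
  rcases le_or_gt x 1 with h | h
  · have h1 : Real.posLog x = 0 := by
      rw [Real.posLog_eq_zero_iff, abs_of_nonneg hx]; exact h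
    rw [h1]
    positivity
  · rw [Real.posLog_eq_log (by rw [abs_of_nonneg hx]; exact h.le)]
    have h1 : Real.log (δ * x) ≤ δ * x - 1 := Real.log_le_sub_one_of_pos (by positivity)
    rw [Real.log_mul hδ.ne' (by linarith : x ≠ 0)] at h1
    have h2 := neg_abs_le (Real.log δ)
    linarith

theorem posLog_add_one {r : ℝ} (hr : 1 ≤ r) (hl : 1 ≤ Real.log r) :
    Real.posLog (r + 1) ≤ 2 * Real.log r := by
  have h1 : Real.posLog (r + 1) ≤ Real.posLog (2 * r) :=
    Real.posLog_le_posLog (by linarith) (by linarith)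
  rw [Real.posLog_eq_log (x := 2 * r) (by rw [abs_of_nonneg (by linarith)]; linarith),
    Real.log_mul (by norm_num) (by linarith)] at h1
  have h2 : Real.log 2 ≤ 1 := by
    have := Real.log_le_sub_one_of_pos (x := 2) (by norm_num)
    linarith
  linarith

end LDX

theorem p_LDX (hTOP : Stmt_TOP) (hCHR : Stmt_CHR) (hLDG : Stmt_LDG) (hLDH : Stmt_LDH) :
    Stmt_LDX := by
  intro ι κ _ _ c f g m n hf hg hf0 hg0 hgr ε hε r₀
  classical
  have hev : ∀ A : ℝ, ∃ R : ℝ, 1 ≤ R ∧ ∀ r, R ≤ r → 1 ≤ Real.log r ∧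
      A * Real.log r ≤ TT c r := by
    intro A
    have h1 := (tendsto_atTop.1 hgr A).and (tendsto_atTop.1 Real.tendsto_log_atTop 1)
    obtain ⟨R, hR⟩ := eventually_atTop.1 h1
    refine ⟨max R 1, le_max_right _ _, fun r hr => ?_⟩
    obtain ⟨h2, h3⟩ := hR r ((le_max_left _ _).trans hr)
    refine ⟨h3, ?_⟩
    rwa [le_div_iff₀ (by linarith)] at h2
  rcases isEmpty_or_nonempty κ with hκ | ⟨⟨k₀⟩⟩
  · obtain ⟨R, hR, h⟩ := hev 0
    refine ⟨max r₀ R, le_max_left _ _, hR.trans (le_max_right _ _), ?_⟩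
    obtain ⟨_, h2⟩ := h _ (le_max_right r₀ R)
    rw [Finset.univ_eq_empty, Finset.sum_empty]
    rw [zero_mul] at h2
    positivity
  obtain ⟨i₀, hi₀⟩ : ∃ i₀, c i₀ ≠ 0 := by
    by_contra hc
    push Not at hc
    apply hf0 k₀
    rw [hf k₀]
    exact Finset.sum_eq_zero fun i _ => by rw [hc i, mul_zero]
  obtain ⟨hT1, hT2⟩ := hTOP ι c
  obtain ⟨C2, hC2⟩ := hT2 i₀ hi₀
  have hsing : ∀ i, ∑ j, algebraMap ℂ Mer ((Pi.single i 1 : ι → ℂ) j) * c j = c i := by
    intro i
    rw [Finset.sum_eq_single i]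
    · rw [Pi.single_eq_same, map_one, one_mul]
    · intro j _ hj
      rw [Pi.single_eq_of_ne hj, map_zero, zero_mul]
    · intro h
      exact absurd (Finset.mem_univ i) h
  have hq : ∀ i, ∃ C : ℝ, ∀ r : ℝ, 1 ≤ r → TT ![c i / c i₀, 1] r ≤ TT c r + C := by
    intro i
    have h := hT1 (Pi.single i 1) (Pi.single i₀ 1) (by rw [hsing]; exact hi₀)
    rw [hsing, hsing] at h
    exact h
  choose C1 hC1 using hq
  have hk : ∀ k, ∃ C : ℝ, ∀ r : ℝ, 1 ≤ r → TT ![f k / g k, 1] r ≤ TT c r + C := by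
    intro k
    have h := hT1 (m k) (n k) (by rw [← hg k]; exact hg0 k)
    rw [← hf k, ← hg k] at h
    exact h
  choose C3 hC3 using hk
  have hG : ∀ k, ∃ C : ℝ, 0 ≤ C ∧ ∀ r ρ : ℝ, 1 ≤ r → r < ρ →
      MP ((f k)′ / f k - (g k)′ / g k) r ≤ C * (1 + Real.posLog ρ +
        Real.posLog (1 / (ρ - r)) + Real.posLog (TT ![f k / g k, 1] ρ)) := by
    intro k
    have h := hLDG (f k / g k) (div_ne_zero (hf0 k) (hg0 k))
    have e : (f k / g k)′ / (f k / g k) = (f k)′ / f k - (g k)′ / g k :=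
      Differential.logDeriv_div _ _ (hf0 k) (hg0 k)
    rw [e] at h
    exact h
  choose C4 hC4 hG using hG
  set T : ℝ → ℝ := fun r => 1 + ∑ i, TT ![c i / c i₀, 1] r with hTdef
  have hTmono : MonotoneOn T (Set.Ici 1) := by
    intro r hr ρ hρ h
    have hr' : (0 : ℝ) < r := lt_of_lt_of_le one_pos hr
    have hρ' : (0 : ℝ) < ρ := lt_of_lt_of_le one_pos hρ
    have h1 : ∑ i, TT ![c i / c i₀, 1] r ≤ ∑ i, TT ![c i / c i₀, 1] ρ :=
      Finset.sum_le_sum fun i _ => (hCHR (c i / c i₀)).2.1 hr' hρ' h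
    show 1 + ∑ i, TT ![c i / c i₀, 1] r ≤ 1 + ∑ i, TT ![c i / c i₀, 1] ρ
    linarith
  have hTone : ∀ r, 1 ≤ r → 1 ≤ T r := by
    intro r hr
    have h1 : 0 ≤ ∑ i, TT ![c i / c i₀, 1] r :=
      Finset.sum_nonneg fun i _ => (hCHR (c i / c i₀)).2.2.1 r hr
    show 1 ≤ 1 + ∑ i, TT ![c i / c i₀, 1] r
    linarith
  set s : ℝ := (Fintype.card ι : ℝ) with hs
  have hs0 : 0 ≤ s := Nat.cast_nonneg _
  set D1 : ℝ := 1 + ∑ i, |C1 i| with hD1
  have hD1' : 0 ≤ D1 := by positivity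
  have hTle : ∀ r, 1 ≤ r → T r ≤ s * TT c r + D1 := by
    intro r hr
    have h : ∑ i, TT ![c i / c i₀, 1] r ≤ ∑ i, (TT c r + |C1 i|) :=
      Finset.sum_le_sum fun i _ => (hC1 i r hr).trans (by linarith [le_abs_self (C1 i)])
    rw [Finset.sum_add_distrib, Finset.sum_const, Finset.card_univ, nsmul_eq_mul] at h
    show 1 + ∑ i, TT ![c i / c i₀, 1] r ≤ s * TT c r + (1 + ∑ i, |C1 i|)
    linarith
  set D3 : ℝ := ∑ k, |C3 k| + |C2| with hD3
  have hD3' : 0 ≤ D3 := by positivity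
  have hTk : ∀ k ρ, 1 ≤ ρ → TT ![f k / g k, 1] ρ ≤ T ρ + D3 := by
    intro k ρ hρ
    have h1 := hC3 k ρ hρ
    have h2 := hC2 ρ hρ
    have h3 : |C3 k| ≤ ∑ k, |C3 k| :=
      Finset.single_le_sum (f := fun k => |C3 k|) (fun _ _ => abs_nonneg _) (Finset.mem_univ k)
    have h4 := le_abs_self (C3 k)
    have h5 := le_abs_self C2
    show TT ![f k / g k, 1] ρ ≤ (1 + ∑ i, TT ![c i / c i₀, 1] ρ) + (∑ k, |C3 k| + |C2|)
    linarith
  have hbound : ∀ k r, 1 ≤ r → T (r + 1 / T r) ≤ 2 * T r →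
      MP ((f k)′ / f k - (g k)′ / g k) r ≤ C4 k * (1 + Real.posLog (r + 1) +
        Real.posLog (T r) + Real.posLog (2 * T r + D3)) := by
    intro k r hr hT
    have h0 := hTone r hr
    have h1 : 0 < 1 / T r := by positivity
    have h2 : 1 / T r ≤ 1 := by
      rw [div_le_one (by linarith)]
      exact h0
    have h3 := hG k r (r + 1 / T r) hr (by linarith)
    refine h3.trans (mul_le_mul_of_nonneg_left ?_ (hC4 k))
    have h4 : Real.posLog (r + 1 / T r) ≤ Real.posLog (r + 1) :=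
      Real.posLog_le_posLog (by linarith) (by linarith)
    have h5 : Real.posLog (1 / (r + 1 / T r - r)) = Real.posLog (T r) := by
      congr 1
      rw [add_sub_cancel_left, one_div_one_div]
    have h6 : Real.posLog (TT ![f k / g k, 1] (r + 1 / T r)) ≤ Real.posLog (2 * T r + D3) := by
      refine Real.posLog_le_posLog ((hCHR (f k / g k)).2.2.1 _ (by linarith)) ?_
      have := hTk k (r + 1 / T r) (by linarith)
      linarith
    rw [h5]
    linarith
  set K : ℝ := ∑ k, C4 k with hK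
  have hK0 : 0 ≤ K := Finset.sum_nonneg fun k _ => hC4 k
  set δ : ℝ := ε / (6 * (K + 1) * (s + 1)) with hδ
  have hδ0 : 0 < δ := by positivity
  set D5 : ℝ := 1 + 3 * δ * D1 + δ * D3 + 2 * |Real.log δ| with hD5
  have hD5' : 0 ≤ D5 := by positivity
  obtain ⟨R, hR1, hR⟩ := hev (2 * K * (D5 + 2) / ε)
  obtain ⟨r, hr1, hr2, hr3⟩ := hLDH T hTmono hTone (max r₀ R)
  refine ⟨r, (le_max_left _ _).trans hr1, hr2, ?_⟩
  obtain ⟨hl, hU⟩ := hR r ((le_max_right _ _).trans hr1)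
  have hTr := hTone r hr2
  have hU0 : 0 ≤ TT c r := le_trans (by positivity) hU
  have hsum : ∑ k, MP ((f k)′ / f k - (g k)′ / g k) r ≤ K * (1 + Real.posLog (r + 1) +
      Real.posLog (T r) + Real.posLog (2 * T r + D3)) := by
    rw [hK, Finset.sum_mul]
    exact Finset.sum_le_sum fun k _ => hbound k r hr2 hr3
  refine hsum.trans ?_
  have e1 := LDX.posLog_add_one hr2 hl
  have e2 := LDX.posLog_le hδ0 (by linarith : 0 ≤ T r)
  have e3 := LDX.posLog_le hδ0 (by linarith : 0 ≤ 2 * T r + D3)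
  have e4 := hTle r hr2
  have e5 : 3 * δ * T r ≤ 3 * δ * (s * TT c r + D1) :=
    mul_le_mul_of_nonneg_left e4 (by positivity)
  have e6 : 1 + Real.posLog (r + 1) + Real.posLog (T r) + Real.posLog (2 * T r + D3) ≤
      (D5 + 2) * Real.log r + 3 * δ * s * TT c r := by
    have e7 : D5 ≤ D5 * Real.log r := le_mul_of_one_le_right hD5' hl
    have e8 : 1 + Real.posLog (r + 1) + Real.posLog (T r) + Real.posLog (2 * T r + D3) ≤
        D5 + 2 * Real.log r + 3 * δ * s * TT c r := by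
      rw [hD5]
      nlinarith [e1, e2, e3, e5]
    linarith
  refine (mul_le_mul_of_nonneg_left e6 hK0).trans ?_
  have e9 : K * ((D5 + 2) * Real.log r) ≤ ε / 2 * TT c r := by
    have h1 : 2 * K * (D5 + 2) / ε * Real.log r * (ε / 2) ≤ TT c r * (ε / 2) :=
      mul_le_mul_of_nonneg_right hU (by positivity)
    have h2 : 2 * K * (D5 + 2) / ε * Real.log r * (ε / 2) = K * ((D5 + 2) * Real.log r) := by
      field_simp
    rw [h2] at h1
    linarith
  have e10 : K * (3 * δ * s) ≤ ε / 2 := by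
    have h1 : 3 * δ = ε / (2 * ((K + 1) * (s + 1))) := by
      rw [hδ]
      field_simp
      norm_num
    have h2 : K * (3 * δ * s) = ε / 2 * (K * s / ((K + 1) * (s + 1))) := by
      rw [h1]
      field_simp
    rw [h2]
    have h3 : K * s / ((K + 1) * (s + 1)) ≤ 1 := by
      rw [div_le_one (by positivity)]
      nlinarith
    have h4 : 0 ≤ ε / 2 := by positivity
    nlinarith
  have e11 : K * (3 * δ * s * TT c r) ≤ ε / 2 * TT c r := by
    have := mul_le_mul_of_nonneg_right e10 hU0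
    linarith
  have e12 : K * ((D5 + 2) * Real.log r + 3 * δ * s * TT c r) =
      K * ((D5 + 2) * Real.log r) + K * (3 * δ * s * TT c r) := by ring
  rw [e12]
  linarith

end Pool.ThmM
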