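import Pool.Agent.Work.MP_f82ddf_M1.Interface2

/-!
# Theorem M, part 1, block LEMS: Lemma S, final form
-/

open Topology Filter
open scoped Differential
open Pool.Agent.Work.MP_f82ddf_nt.DQ

namespace Pool.ThmM

namespace LEMS

/-- The value at a complex point is a complex linear combination of the coefficients. -/
private lemma evC_eq {w : ℕ} (F : MvPolynomial (Fin (w + 1)) Mer) (p : Fin (w + 1) → ℂ) :
    evC p F = ∑ i : F.support, algebraMap ℂ Mer (∏ k, p k ^ (i : Fin (w + 1) →₀ ℕ) k) * cf F i := by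
  unfold evC cf
  rw [MvPolynomial.eval_eq', ← Finset.sum_coe_sort]
  refine Finset.sum_congr rfl fun i _ => ?_
  rw [mul_comm, map_prod]
  simp only [map_pow]

end LEMS

/-- LEMS: Lemma S, final form. -/
theorem p_LEMS (hS : Stmt_SMT) (hL : Stmt_LDX) (hM : Stmt_MON) (_hN : Stmt_NNP)
    (_hW : Stmt_LOW) : Stmt_LEMS := by
  intro w q a F S hq hF hdiv hev hG hT
  obtain ⟨J, hJS, hcard, hmain⟩ := hS w q a F S hq hF hdiv hev hG
  refine ⟨J, hJS, hcard, ?_⟩
  have hpos : 0 < numM w a := by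
    rw [hM.1 w a]
    exact Nat.choose_pos (by omega)
  have hmono : numM w a ≤ numM w (a + q) := by
    rw [hM.1 w a, hM.1 w (a + q)]
    exact Nat.choose_le_choose w (by omega)
  have hJpos : 0 < J.card := by omega
  obtain ⟨p₀, hp₀⟩ := Finset.card_pos.1 hJpos
  obtain ⟨C, hC⟩ := hmain p₀ hp₀
  intro ε hε r₀
  have hlog : Tendsto (fun r : ℝ => Real.log r) atTop atTop := Real.tendsto_log_atTop
  have h1 : ∀ᶠ r : ℝ in atTop, C ≤ ε / 2 * TP F r := by
    have h2 : ∀ᶠ r : ℝ in atTop, 1 ≤ TP F r / Real.log r := hT.eventually_ge_atTop 1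
    have h3 : ∀ᶠ r : ℝ in atTop, |C| * (2 / ε) ≤ Real.log r := hlog.eventually_ge_atTop _
    have h4 : ∀ᶠ r : ℝ in atTop, 0 < Real.log r := hlog.eventually_gt_atTop 0
    filter_upwards [h2, h3, h4] with r h2 h3 h4
    rw [le_div_iff₀ h4, one_mul] at h2
    have h5 : |C| * (2 / ε) ≤ TP F r := h3.trans h2
    have h6 : ε / 2 * (|C| * (2 / ε)) = |C| := by
      field_simp
    calc C ≤ |C| := le_abs_self C
      _ = ε / 2 * (|C| * (2 / ε)) := h6.symm
      _ ≤ ε / 2 * TP F r := by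
        apply mul_le_mul_of_nonneg_left h5
        positivity
  obtain ⟨r₁, hr₁⟩ := eventually_atTop.1 h1
  obtain ⟨r, hr0, hr1, hsum⟩ := hL F.support J (cf F) (fun k => evC (k : Fin (w + 1) → ℂ) F)
    (fun _ => evC p₀ F) (fun k i => ∏ j, (k : Fin (w + 1) → ℂ) j ^ (i : Fin (w + 1) →₀ ℕ) j)
    (fun _ i => ∏ j, p₀ j ^ (i : Fin (w + 1) →₀ ℕ) j)
    (fun k => LEMS.evC_eq F _) (fun _ => LEMS.evC_eq F _)
    (fun k => hev _ (hJS _ k.2)) (fun _ => hev _ (hJS _ hp₀)) hT (ε / 2) (by positivity)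
    (max r₀ r₁)
  refine ⟨r, (le_max_left _ _).trans hr0, hr1, ?_⟩
  have h7 := hC r hr1
  have h8 := hr₁ r ((le_max_right _ _).trans hr0)
  have h9 : ∑ p ∈ J, MP ((evC p F)′ / evC p F - (evC p₀ F)′ / evC p₀ F) r
      = ∑ k : J, MP ((evC (k : Fin (w + 1) → ℂ) F)′ / evC (k : Fin (w + 1) → ℂ) F -
        (evC p₀ F)′ / evC p₀ F) r :=
    (Finset.sum_coe_sort J
      (fun p => MP ((evC p F)′ / evC p F - (evC p₀ F)′ / evC p₀ F) r)).symm
  rw [h9] at h7
  have h10 : TT (cf F) r = TP F r := rfl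
  rw [h10] at hsum
  linarith

end Pool.ThmM
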