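import Pool.Agent.Work.MP_f82ddf_M1.Interface2

/-!
# Theorem M, part 1, block LGD (helper65): orders of shifted logarithmic derivatives
-/

open Topology Filter
open scoped Differential
open Pool.Agent.Work.MP_f82ddf_nt.DQ

namespace Pool.ThmM

namespace LGD

theorem evNE {P : ℂ → Prop} (h : ∀ᶠ z in codiscrete ℂ, P z) (z₀ : ℂ) :
    ∀ᶠ z in 𝓝[≠] z₀, P z := by
  have h1 := (mem_codiscreteWithin_iff_forall_mem_nhdsNE.1 h) z₀ (Set.mem_univ z₀)
  rw [Set.compl_univ, Set.union_empty] at h1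
  exact h1

theorem om_deriv (hR : Stmt_REP) (hA : Stmt_ALG) (h : Mer) (z : ℂ) (h0 : 0 ≤ om h z) :
    0 ≤ om (h′) z := by
  have h1 : MeromorphicNFAt (rep h) z := (hR h).1 (Set.mem_univ z)
  have h2 : AnalyticAt ℂ (rep h) z := h1.meromorphicOrderAt_nonneg_iff_analyticAt.1 h0
  have h3 : om (h′) z = meromorphicOrderAt (deriv (rep h)) z :=
    meromorphicOrderAt_congr (evNE (hA.2.2.2.2.2.1 h) z)
  rw [h3]
  exact h2.deriv.meromorphicOrderAt_nonneg

theorem om_one (hV : Stmt_VAL) (z : ℂ) : om (1 : Mer) z = 0 := by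
  have h := (hV z).2.2.2.1 1 one_ne_zero
  rwa [map_one] at h

theorem zt_ne (hV : Stmt_VAL) (z : ℂ) : zt z ≠ 0 := by
  intro h
  have h1 := (hV z).2.2.2.2.2
  rw [((hV z).2.2.1 (zt z)).2 h] at h1
  exact absurd h1 (by simp)

theorem om_zpow (hV : Stmt_VAL) (z : ℂ) (k : ℤ) : om (zt z ^ k) z = (k : WithTop ℤ) := by
  have hz := zt_ne hV z
  have h1 := (hV z).2.2.2.2.2
  induction k using Int.induction_on with
  | zero => rw [zpow_zero, om_one hV]; rfl
  | succ k ih =>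
    rw [zpow_add_one₀ hz, (hV z).1, ih, h1]
    rfl
  | pred k ih =>
    have h2 : om (zt z ^ (-(k : ℤ) - 1) * zt z) z = ((-(k : ℤ) : ℤ) : WithTop ℤ) := by
      rw [← zpow_add_one₀ hz]
      rw [show -(k : ℤ) - 1 + 1 = -(k : ℤ) by ring]
      exact ih
    rw [(hV z).1, h1] at h2
    cases hx : om (zt z ^ (-(k : ℤ) - 1)) z with
    | top =>
      rw [hx, top_add] at h2
      exact absurd h2 WithTop.top_ne_coe
    | coe a =>
      rw [hx] at h2
      have h3 : ((a + 1 : ℤ) : WithTop ℤ) = ((-(k : ℤ) : ℤ) : WithTop ℤ) := by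
        rw [← h2]
        rfl
      have h4 : a + 1 = -(k : ℤ) := WithTop.coe_injective h3
      congr 1
      omega

theorem zt_deriv (z : ℂ) : (zt z)′ = 1 := by
  have h1 : (zt z)′ = Mer.mk (deriv fun w => w - z)
      (fun w => ((MeromorphicAt.id w).sub (MeromorphicAt.const z w)).deriv) :=
    Mer.deriv_mk _ _
  rw [h1, ← map_one (algebraMap ℂ Mer), Mer.algebraMap_eq, Mer.mk_eq_mk]
  intro z₀
  refine Eventually.of_forall fun w => ?_
  simp

end LGD

open LGD in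
theorem p_LGD (hR : Stmt_REP) (hA : Stmt_ALG) (hV : Stmt_VAL) (_hD : Stmt_DZR) : Stmt_LGD := by
  intro f z n hf hn
  have hz := zt_ne hV z
  set N : ℤ := dv1 f z with hN
  have hfN : om f z = (N : WithTop ℤ) := (hV z).2.2.2.2.1 f hf
  set h : Mer := f * zt z ^ (-N) with hh
  have hh0 : h ≠ 0 := mul_ne_zero hf (zpow_ne_zero _ hz)
  have hhz : om h z = 0 := by
    rw [hh, (hV z).1, hfN, om_zpow hV, ← WithTop.coe_add, add_neg_cancel]
    rfl
  have hfh : f = zt z ^ N * h := by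
    rw [hh, mul_comm f, ← mul_assoc, ← zpow_add₀ hz, add_neg_cancel, zpow_zero, one_mul]
  have hinv : om h⁻¹ z = 0 := by
    have h1 : om (h * h⁻¹) z = 0 := by rw [mul_inv_cancel₀ hh0, om_one hV]
    rw [(hV z).1, hhz, zero_add] at h1
    exact h1
  have hB : 0 ≤ om (h′ * h⁻¹) z := by
    rw [(hV z).1, hinv, add_zero]
    exact om_deriv hR hA h z (le_of_eq hhz.symm)
  have hlog : f′ / f + - (algebraMap ℂ Mer n * (zt z)⁻¹) =
      algebraMap ℂ Mer ((N : ℂ) - n) * (zt z)⁻¹ + h′ * h⁻¹ := by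
    have h1 : f′ = zt z ^ N * h′ + h * ((N : Mer) * (zt z ^ (N - 1))) := by
      have h2 : f′ = (zt z ^ N * h)′ := congrArg _ hfh
      rw [h2]
      have h3 := (Differential.deriv (R := Mer)).leibniz (zt z ^ N) h
      have h4 := (Differential.deriv (R := Mer)).leibniz_zpow (zt z) N
      rw [h3, h4, zt_deriv]
      simp only [smul_eq_mul, zsmul_eq_mul, mul_one]
    have hzN : zt z ^ N ≠ 0 := zpow_ne_zero _ hz
    rw [h1, hfh, map_sub, map_intCast, map_intCast, zpow_sub_one₀ hz]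
    field_simp
    ring
  rw [hlog]
  rcases eq_or_lt_of_le hn with h1 | h1
  · rw [← h1]
    have h2 : algebraMap ℂ Mer ((n : ℂ) - n) * (zt z)⁻¹ + h′ * h⁻¹ = h′ * h⁻¹ := by
      rw [sub_self, map_zero, zero_mul, zero_add]
    rw [h2]
    have h3 : (- min (n - n) 1 : ℤ) = 0 := by simp
    rw [h3]
    exact hB
  · have h2 : (- min (N - n) 1 : ℤ) = -1 := by
      rw [min_eq_right (by omega)]
    rw [h2]
    have hne : ((N : ℂ) - n) ≠ 0 := by
      rw [sub_ne_zero]
      exact_mod_cast h1.ne'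
    have h3 : om (algebraMap ℂ Mer ((N : ℂ) - n) * (zt z)⁻¹) z = ((-1 : ℤ) : WithTop ℤ) := by
      rw [(hV z).1, (hV z).2.2.2.1 _ hne, zero_add, ← zpow_neg_one, om_zpow hV]
    refine le_trans (le_min (le_of_eq h3.symm) ?_) ((hV z).2.1 _ _)
    refine le_trans ?_ hB
    exact WithTop.coe_le_coe.2 (by norm_num : (-1 : ℤ) ≤ 0)

end Pool.ThmM
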