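import Pool.Agent.Work.MP_f82ddf_M1.Interface2

/-! # Block MON: the number of monomials -/

set_option autoImplicit false

namespace Pool.ThmM

theorem p_MON : Stmt_MON := by
  refine ⟨fun w a => ?_, fun w a α => ?_⟩
  · unfold numM
    rw [Fintype.card_coe, Finset.card_finsuppAntidiag_nat_eq_choose, Finset.card_univ,
      Fintype.card_fin]
    have h : w + 1 + a - 1 = a + w := by omega
    rw [h]
    exact Nat.choose_symm_of_eq_add (by omega)
  · rw [Finset.mem_finsuppAntidiag, Finsupp.degree_eq_sum]
    simp

end Pool.ThmM
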