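import Pool.Agent.Work.MP_f82ddf_M1.Interface2

set_option autoImplicit false

open Topology Filter
open scoped Differential
open Pool.Agent.Work.MP_f82ddf_nt.DQ

namespace Pool.ThmM

theorem PLA_mem {w a : ℕ} (α : Fin (w + 1) →₀ ℕ) :
    α ∈ Finset.finsuppAntidiag (Finset.univ : Finset (Fin (w + 1))) a ↔ α.degree = a := by
  rw [Finset.mem_finsuppAntidiag, Finsupp.degree_eq_sum]
  simp

theorem PLA_nonempty (w a : ℕ) : Nonempty (MonT w a) := by
  refine ⟨⟨Finsupp.single 0 a, ?_⟩⟩
  rw [PLA_mem, Finsupp.degree_single]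

/-- linear independence completed by unit vectors -/
theorem PLA_compl {K : Type} [Field K] {m n : Type} [Fintype m] [Fintype n] [DecidableEq m]
    {ρ : ℕ} (v : n → m → K) (hv : LinearIndependent K v)
    (hc : Fintype.card n + ρ = Fintype.card m) :
    ∃ e : Fin ρ → m, LinearIndependent K (Sum.elim v (fun l => Pi.single (e l) (1 : K))) := by
  classical
  have hs : LinearIndepOn K id (Set.range v) := hv.linearIndepOn_id
  have hst : Set.range v ⊆ Set.range v ∪ Set.range (fun i : m => (Pi.single i (1 : K) : m → K)) :=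
    Set.subset_union_left
  obtain ⟨b, hbt, hsb, htb, hb⟩ := exists_linearIndepOn_id_extension hs hst
  have htop : (⊤ : Submodule K (m → K)) ≤ Submodule.span K b := by
    have h1 : Submodule.span K (Set.range (fun i : m => (Pi.single i (1 : K) : m → K))) = ⊤ := by
      have := (Pi.basisFun K m).span_eq
      convert this using 2
      ext x
      simp [Pi.basisFun_apply]
    rw [← h1]
    rw [Submodule.span_le]
    exact Set.subset_union_right.trans htb
  let B : Module.Basis b K (m → K) := Module.Basis.mk (v := fun x : b => (x : m → K)) hb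
    (by simpa using htop)
  have : Finite b := Module.Finite.finite_basis B
  have : Fintype b := Fintype.ofFinite b
  have hcard : Fintype.card b = Fintype.card m := by
    have := Module.finrank_eq_card_basis B
    rw [Module.finrank_fintype_fun_eq_card] at this
    exact this.symm
  have hbs : (b \ Set.range v).ncard = ρ := by
    have h1 : (b \ Set.range v).ncard + (Set.range v).ncard = b.ncard := by
      rw [Set.ncard_sdiff_add_ncard_of_subset hsb]
    have h2 : b.ncard = Fintype.card m := by
      rw [← hcard, ← Nat.card_eq_fintype_card, Nat.card_coe_set_eq]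
    have h3 : (Set.range v).ncard = Fintype.card n := by
      rw [← Set.image_univ, Set.ncard_image_of_injective _ hv.injective, Set.ncard_univ,
        Nat.card_eq_fintype_card]
    omega
  have : Finite ↑(b \ Set.range v) := Set.Finite.to_subtype (Set.Finite.sdiff (Set.toFinite b))
  have hcd : Nat.card ↑(b \ Set.range v) = ρ := by
    rw [Nat.card_coe_set_eq, hbs]
  let f : Fin ρ ≃ ↑(b \ Set.range v) := (Finite.equivFinOfCardEq hcd).symm
  have hf : ∀ l, ∃ i : m, (Pi.single i (1 : K) : m → K) = (f l : m → K) := by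
    intro l
    rcases hbt (f l).2.1 with h | ⟨i, hi⟩
    · exact absurd h (f l).2.2
    · exact ⟨i, hi⟩
  choose e he using hf
  refine ⟨e, ?_⟩
  let g : n ⊕ Fin ρ → b := Sum.elim (fun j => ⟨v j, hsb ⟨j, rfl⟩⟩) (fun l => ⟨f l, (f l).2.1⟩)
  have hg : Function.Injective g := by
    rintro (x | x) (y | y) hxy
    · have : v x = v y := congrArg Subtype.val hxy
      rw [hv.injective this]
    · exfalso
      have : v x = (f y : m → K) := congrArg Subtype.val hxy
      exact (f y).2.2 ⟨x, this⟩
    · exfalso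
      have : (f x : m → K) = v y := congrArg Subtype.val hxy
      exact (f x).2.2 ⟨y, this.symm⟩
    · have : (f x : m → K) = (f y : m → K) :=
        congrArg (Subtype.val : b → (m → K)) hxy
      rw [f.injective (Subtype.ext this)]
  have h := hb.linearIndependent.comp g hg
  have h' : Sum.elim v (fun l => Pi.single (e l) (1 : K)) = (fun x : b => id (x : m → K)) ∘ g := by
    funext x
    rcases x with x | x
    · rfl
    · exact he x
  rw [h']
  exact h

theorem PLA_det {K : Type} [Field K] {m n : Type} [Fintype m] [Fintype n] [DecidableEq m]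
    [DecidableEq n] {ρ : ℕ} (A : Matrix m n K) (hA : LinearIndependent K A.col)
    (η : n ⊕ Fin ρ ≃ m) : ∃ e : Fin ρ → m,
      Matrix.det ((Matrix.fromCols A (unitC e)).submatrix η id) ≠ 0 := by
  have hc : Fintype.card n + ρ = Fintype.card m := by
    rw [← Fintype.card_congr η, Fintype.card_sum, Fintype.card_fin]
  obtain ⟨e, he⟩ := PLA_compl (fun j i => A i j) hA hc
  refine ⟨e, ?_⟩
  have h1 : LinearIndependent K ((Matrix.fromCols A (unitC e)).submatrix η id).col := by
    have hi : Function.Injective (LinearMap.funLeft K K η) :=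
      LinearMap.funLeft_injective_of_surjective K K η η.surjective
    have h2 := he.map' (LinearMap.funLeft K K η) (LinearMap.ker_eq_bot.2 hi)
    have h3 : ((Matrix.fromCols A (unitC e)).submatrix η id).col = (LinearMap.funLeft K K η) ∘
        Sum.elim (fun j i => A i j) (fun l => Pi.single (e l) (1 : K)) := by
      funext j
      rcases j with j | l
      · rfl
      · funext i
        simp [Matrix.col, unitC, LinearMap.funLeft, Pi.single_apply]
    rw [h3]
    exact h2
  rw [Matrix.linearIndependent_cols_iff_isUnit] at h1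
  rw [Matrix.isUnit_iff_isUnit_det] at h1
  exact h1.ne_zero

/-- The columns of the multiplication matrix are linearly independent. -/
theorem PLA_col {K : Type} [Field K] {w q : ℕ} (a : ℕ) (F : MvPolynomial (Fin (w + 1)) K)
    (hF : F.IsHomogeneous q) (h0 : F ≠ 0) : LinearIndependent K (mulM a (a + q) F).col := by
  rw [Fintype.linearIndependent_iff]
  intro g hg
  set G : MvPolynomial (Fin (w + 1)) K := ∑ α : MonT w a, MvPolynomial.monomial α.1 (g α) with hG
  have hGh : G.IsHomogeneous a := by
    refine MvPolynomial.IsHomogeneous.sum _ _ _ ?_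
    intro α _
    exact MvPolynomial.isHomogeneous_monomial _ ((PLA_mem α.1).1 α.2)
  have hFG : F * G = 0 := by
    ext β
    rw [MvPolynomial.coeff_zero]
    by_cases hβ : β.degree = q + a
    · have hβ' : β ∈ Finset.finsuppAntidiag (Finset.univ : Finset (Fin (w + 1))) (a + q) := by
        rw [PLA_mem, hβ, add_comm]
      have h1 := congrFun hg ⟨β, hβ'⟩
      rw [Finset.sum_apply] at h1
      rw [hG, Finset.mul_sum, MvPolynomial.coeff_sum]
      rw [Pi.zero_apply] at h1
      rw [← h1]
      refine Finset.sum_congr rfl ?_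
      intro α _
      have : (MvPolynomial.monomial α.1 (g α) : MvPolynomial (Fin (w + 1)) K) =
          MvPolynomial.C (g α) * MvPolynomial.monomial α.1 1 := by
        rw [MvPolynomial.C_mul_monomial, mul_one]
      rw [this, mul_left_comm, MvPolynomial.coeff_C_mul]
      rfl
    · exact (hF.mul hGh).coeff_eq_zero hβ
  have hG0 : G = 0 := (mul_eq_zero.1 hFG).resolve_left h0
  intro α
  have h2 := congrArg (MvPolynomial.coeff α.1) hG0
  rw [hG, MvPolynomial.coeff_sum, MvPolynomial.coeff_zero] at h2
  rw [Finset.sum_eq_single α] at h2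
  · rwa [MvPolynomial.coeff_monomial, if_pos rfl] at h2
  · intro β _ hβ
    rw [MvPolynomial.coeff_monomial, if_neg]
    intro h
    exact hβ (Subtype.ext h)
  · intro h
    exact absurd (Finset.mem_univ _) h

/-- the form with given coefficients -/
noncomputable def PLA_frm {w q : ℕ} (u : MonT w q → ℂ) : MvPolynomial (Fin (w + 1)) ℂ :=
  ∑ α : MonT w q, MvPolynomial.monomial α.1 (u α)

theorem PLA_frm_hom {w q : ℕ} (u : MonT w q → ℂ) : (PLA_frm u).IsHomogeneous q := by
  refine MvPolynomial.IsHomogeneous.sum _ _ _ ?_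
  intro α _
  exact MvPolynomial.isHomogeneous_monomial _ ((PLA_mem α.1).1 α.2)

theorem PLA_frm_coeff {w q : ℕ} (u : MonT w q → ℂ) (α : MonT w q) :
    (PLA_frm u).coeff α.1 = u α := by
  rw [PLA_frm, MvPolynomial.coeff_sum, Finset.sum_eq_single α]
  · rw [MvPolynomial.coeff_monomial, if_pos rfl]
  · intro β _ hβ
    rw [MvPolynomial.coeff_monomial, if_neg]
    intro h
    exact hβ (Subtype.ext h)
  · intro h
    exact absurd (Finset.mem_univ _) h

theorem PLA_frm_eq {w q : ℕ} (F : MvPolynomial (Fin (w + 1)) ℂ) (hF : F.IsHomogeneous q) :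
    PLA_frm (fun α : MonT w q => F.coeff α.1) = F := by
  ext β
  by_cases hβ : β.degree = q
  · exact PLA_frm_coeff (fun α : MonT w q => F.coeff α.1) ⟨β, (PLA_mem β).2 hβ⟩
  · rw [(PLA_frm_hom _).coeff_eq_zero hβ, hF.coeff_eq_zero hβ]

theorem PLA_frm_smul {w q : ℕ} (t : ℂ) (u : MonT w q → ℂ) :
    PLA_frm (t • u) = MvPolynomial.C t * PLA_frm u := by
  rw [PLA_frm, PLA_frm, Finset.mul_sum]
  refine Finset.sum_congr rfl ?_
  intro α _
  rw [MvPolynomial.C_mul_monomial]
  rfl

/-- the Pluecker coordinates -/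
noncomputable def PLA_phi {w : ℕ} (q a ρ : ℕ) (η : MonT w a ⊕ Fin ρ ≃ MonT w (a + q))
    (e : Fin ρ → MonT w (a + q)) (u : MonT w q → ℂ) : ℂ :=
  Matrix.det ((Matrix.fromCols (mulM a (a + q) (PLA_frm u)) (unitC e)).submatrix η id)

theorem PLA_phi_smul {w : ℕ} (q a ρ : ℕ) (η : MonT w a ⊕ Fin ρ ≃ MonT w (a + q))
    (e : Fin ρ → MonT w (a + q)) (t : ℂ) (u : MonT w q → ℂ) :
    PLA_phi q a ρ η e (t • u) = t ^ numM w a * PLA_phi q a ρ η e u := by
  unfold PLA_phi
  have h := Matrix.det_mul_row (Sum.elim (fun _ : MonT w a => t) (fun _ : Fin ρ => (1 : ℂ)))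
    ((Matrix.fromCols (mulM a (a + q) (PLA_frm u)) (unitC e)).submatrix η id)
  have hp : (∏ i, Sum.elim (fun _ : MonT w a => t) (fun _ : Fin ρ => (1 : ℂ)) i) =
      t ^ numM w a := by
    rw [Fintype.prod_sum_type]
    simp [numM]
  rw [hp] at h
  rw [← h]
  congr 1
  ext i j
  rcases j with j | j
  · simp only [Matrix.submatrix_apply, id, Matrix.fromCols_apply_inl, Matrix.of_apply,
      Sum.elim_inl, mulM]
    rw [PLA_frm_smul, mul_assoc, MvPolynomial.coeff_C_mul]
  · simp

theorem PLA_phi_cont {w : ℕ} (q a ρ : ℕ) (η : MonT w a ⊕ Fin ρ ≃ MonT w (a + q))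
    (e : Fin ρ → MonT w (a + q)) : Continuous (PLA_phi q a ρ η e) := by
  unfold PLA_phi
  refine Continuous.matrix_det ?_
  refine continuous_matrix ?_
  intro i j
  rcases j with j | j
  · simp only [Matrix.submatrix_apply, id, Matrix.fromCols_apply_inl, mulM, PLA_frm,
      Finset.sum_mul, MvPolynomial.coeff_sum, MvPolynomial.monomial_mul, mul_one,
      MvPolynomial.coeff_monomial]
    refine continuous_finsetSum _ ?_
    intro γ _
    split_ifs
    · exact continuous_apply γ
    · exact continuous_const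
  · simp only [Matrix.submatrix_apply, id, Matrix.fromCols_apply_inr]
    exact continuous_const

theorem p_PLA : Stmt_PLA := by
  intro w q a ρ η
  have := PLA_nonempty w q
  have := PLA_nonempty w (a + q)
  have := PLA_nonempty w a
  -- the sum of the absolute values
  let S : (MonT w q → ℂ) → ℝ := fun u => ∑ e : Fin ρ → MonT w (a + q), ‖PLA_phi q a ρ η e u‖
  have hSc : Continuous S := continuous_finsetSum _ fun e _ => (PLA_phi_cont q a ρ η e).norm
  obtain ⟨u₀, hu₀, hmin⟩ := (isCompact_sphere (0 : MonT w q → ℂ) 1).exists_isMinOn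
    (NormedSpace.sphere_nonempty.2 zero_le_one) hSc.continuousOn
  have hu₀' : u₀ ≠ 0 := by
    rintro rfl
    simp at hu₀
  have hpos : 0 < S u₀ := by
    have hF : PLA_frm u₀ ≠ 0 := by
      intro h
      apply hu₀'
      funext α
      rw [← PLA_frm_coeff u₀ α, h]
      rfl
    obtain ⟨e, he⟩ := PLA_det (mulM a (a + q) (PLA_frm u₀))
      (PLA_col a (PLA_frm u₀) (PLA_frm_hom u₀) hF) η
    exact Finset.sum_pos' (fun _ _ => norm_nonneg _) ⟨e, Finset.mem_univ _, norm_pos_iff.2 he⟩
  set N : ℝ := (Fintype.card (Fin ρ → MonT w (a + q)) : ℝ) with hN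
  have hNpos : 0 < N := by
    rw [hN]
    exact_mod_cast Fintype.card_pos
  refine ⟨S u₀ / N, div_pos hpos hNpos, ?_⟩
  intro F hF x hx ⟨α, hα⟩
  have hnum : numM w a ≠ 0 := Fintype.card_ne_zero
  rcases hx.eq_or_lt with rfl | hx0
  · refine ⟨fun _ => Classical.arbitrary _, ?_⟩
    rw [zero_pow hnum, mul_zero]
    exact norm_nonneg _
  · set u : MonT w q → ℂ := fun α => F.coeff α.1 with hu
    have hFu : PLA_frm u = F := PLA_frm_eq F hF
    have hαq : α.degree = q := by
      by_contra hne
      rw [hF.coeff_eq_zero hne, norm_zero] at hα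
      linarith
    have hxu : x ≤ ‖u‖ := hα.trans (norm_le_pi_norm u ⟨α, (PLA_mem α).2 hαq⟩)
    have hupos : 0 < ‖u‖ := hx0.trans_le hxu
    have hune : ‖u‖ ≠ 0 := hupos.ne'
    have hmem : ((‖u‖⁻¹ : ℝ) : ℂ) • u ∈ Metric.sphere (0 : MonT w q → ℂ) 1 := by
      rw [mem_sphere_zero_iff_norm, norm_smul, Complex.norm_real, norm_inv, norm_norm,
        inv_mul_cancel₀ hune]
    have h1 : S u₀ ≤ S (((‖u‖⁻¹ : ℝ) : ℂ) • u) := hmin hmem
    have h2 : S (((‖u‖⁻¹ : ℝ) : ℂ) • u) = (‖u‖⁻¹) ^ numM w a * S u := by
      simp only [S]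
      rw [Finset.mul_sum]
      refine Finset.sum_congr rfl ?_
      intro e _
      rw [PLA_phi_smul, norm_mul, norm_pow, Complex.norm_real, norm_inv, norm_norm]
    have h3 : S u₀ * ‖u‖ ^ numM w a ≤ S u := by
      rw [h2] at h1
      have := mul_le_mul_of_nonneg_right h1 (pow_nonneg hupos.le (numM w a))
      rw [mul_right_comm, ← mul_pow, inv_mul_cancel₀ hune, one_pow, one_mul] at this
      exact this
    have h4 : S u₀ * x ^ numM w a ≤ S u :=
      (mul_le_mul_of_nonneg_left (pow_le_pow_left₀ hx hxu _) hpos.le).trans h3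
    by_contra hcon
    push Not at hcon
    have h5 : S u < ∑ _e : Fin ρ → MonT w (a + q), S u₀ / N * x ^ numM w a := by
      refine Finset.sum_lt_sum_of_nonempty Finset.univ_nonempty ?_
      intro e _
      have := hcon e
      rw [PLA_phi, hFu]
      exact this
    rw [Finset.sum_const, nsmul_eq_mul, Finset.card_univ, ← hN] at h5
    have h6 : N * (S u₀ / N * x ^ numM w a) = S u₀ * x ^ numM w a := by
      field_simp
    rw [h6] at h5
    linarith

end Pool.ThmM
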