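import Pool.Agent.Work.MP_f82ddf_M1.Interface2

set_option autoImplicit false

/-! # Theorem M, part 1, block PSO: orders of the determinants -/

open Topology Filter
open Pool.Agent.Work.MP_f82ddf_nt.DQ

namespace Pool.ThmM

namespace PSO

private theorem om_zero (hV : Stmt_VAL) (z : ℂ) : om (0 : Mer) z = ⊤ := ((hV z).2.2.1 0).2 rfl

private theorem om_one (hV : Stmt_VAL) (z : ℂ) : om (1 : Mer) z = 0 := by
  have h := (hV z).2.2.2.1 1 one_ne_zero
  rwa [map_one] at h

private theorem om_C (hV : Stmt_VAL) (z : ℂ) (a : ℂ) : 0 ≤ om (algebraMap ℂ Mer a) z := by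
  by_cases ha : a = 0
  · subst ha
    rw [map_zero, om_zero hV]
    exact le_top
  · exact ((hV z).2.2.2.1 a ha).ge

private theorem om_sum (hV : Stmt_VAL) (z : ℂ) {ι : Type} (s : Finset ι) (f : ι → Mer)
    (N : WithTop ℤ) (h : ∀ i ∈ s, N ≤ om (f i) z) : N ≤ om (∑ i ∈ s, f i) z := by
  classical
  induction s using Finset.induction_on with
  | empty =>
    rw [Finset.sum_empty, om_zero hV]
    exact le_top
  | insert i s hi ih =>
    rw [Finset.sum_insert hi]
    refine le_trans (le_min (h i (Finset.mem_insert_self i s)) (ih fun j hj => ?_))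
      ((hV z).2.1 _ _)
    exact h j (Finset.mem_insert_of_mem hj)

private theorem om_prod (hV : Stmt_VAL) (z : ℂ) {ι : Type} (s : Finset ι) (f : ι → Mer)
    (t : ι → ℕ) (h : ∀ i ∈ s, ((- (t i : ℤ) : ℤ) : WithTop ℤ) ≤ om (f i) z) :
    ((- (∑ i ∈ s, (t i : ℤ)) : ℤ) : WithTop ℤ) ≤ om (∏ i ∈ s, f i) z := by
  classical
  induction s using Finset.induction_on with
  | empty =>
    rw [Finset.prod_empty, om_one hV, Finset.sum_empty]
    exact le_rfl
  | insert i s hi ih =>
    rw [Finset.prod_insert hi, (hV z).1, Finset.sum_insert hi, neg_add, WithTop.coe_add]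
    exact add_le_add (h i (Finset.mem_insert_self i s))
      (ih fun j hj => h j (Finset.mem_insert_of_mem hj))

private theorem om_sign (hV : Stmt_VAL) (z : ℂ) (u : ℤˣ) (f : Mer) (N : WithTop ℤ)
    (h : N ≤ om f z) : N ≤ om (u • f) z := by
  rcases Int.units_eq_one_or u with rfl | rfl
  · rwa [one_smul]
  · have h1 : ((-1 : ℤˣ) • f : Mer) = algebraMap ℂ Mer (-1) * f := by
      rw [map_neg, map_one, Units.neg_smul, one_smul, neg_mul, one_mul]
    rw [h1, (hV z).1, (hV z).2.2.2.1 (-1) (by norm_num), zero_add]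
    exact h

end PSO

open PSO in
theorem p_PSO (hV : Stmt_VAL) (hS : Stmt_SHF) : Stmt_PSO := by
  classical
  intro w b ρ p τ z s t ht e
  have h2 : ∀ (E : Matrix (MonT w b ⊕ Fin ρ) (MonT w b) Mer) j l,
      (E * (unitC e : Matrix (MonT w b) (Fin ρ) Mer)) j l = E j (e l) := by
    intro E j l
    rw [Matrix.mul_apply]
    simp only [unitC]
    rw [Finset.sum_eq_single (e l)]
    · simp
    · intro i _ hi
      rw [if_neg hi, mul_zero]
    · intro h
      exact absurd (Finset.mem_univ _) h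
  have h1 : ∀ (E : Matrix (MonT w b ⊕ Fin ρ) (MonT w b) Mer),
      Matrix.det (Matrix.fromCols E (fun j l => (τ j + s) * E j (e l))) =
      Matrix.det (Matrix.fromCols E (fun j l => τ j * E j (e l))) := by
    intro E
    have h := hS Mer (MonT w b) ρ E τ s (unitC e)
    simp only [h2] at h
    exact h
  have h3 : psi b ρ p τ e = Matrix.det (Matrix.fromCols
    (fun j α => algebraMap ℂ Mer (mval (p j) α) : Matrix (MonT w b ⊕ Fin ρ) (MonT w b) Mer)
    (fun j l => (τ j + s) * algebraMap ℂ Mer (mval (p j) (e l)))) :=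
    (h1 (fun j α => algebraMap ℂ Mer (mval (p j) α))).symm
  rw [h3, Matrix.det_apply]
  refine om_sum hV z _ _ _ fun σ _ => om_sign hV z _ _ _ ?_
  have h4 := om_prod hV z Finset.univ (fun i => Matrix.fromCols
    (fun j α => algebraMap ℂ Mer (mval (p j) α) : Matrix (MonT w b ⊕ Fin ρ) (MonT w b) Mer)
    (fun j l => (τ j + s) * algebraMap ℂ Mer (mval (p j) (e l))) (σ i) i) (fun i => t (σ i)) ?_
  · have h5 : ∑ i, ((t (σ i) : ℕ) : ℤ) = ∑ j, (t j : ℤ) := Equiv.sum_comp σ fun j => (t j : ℤ)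
    rw [h5] at h4
    exact h4
  · intro i _
    rcases i with α | l
    · refine le_trans ?_ (om_C hV z (mval (p (σ (Sum.inl α))) α))
      have h6 : (- (t (σ (Sum.inl α)) : ℤ)) ≤ 0 := by omega
      exact_mod_cast h6
    · show _ ≤ om ((τ (σ (Sum.inr l)) + s) * algebraMap ℂ Mer (mval (p (σ (Sum.inr l))) (e l))) z
      rw [(hV z).1]
      have h7 := add_le_add (ht (σ (Sum.inr l))) (om_C hV z (mval (p (σ (Sum.inr l))) (e l)))
      rwa [add_zero] at h7

end Pool.ThmM
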