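import Pool.Agent.Work.MP_f82ddf_M1.Interface2

/-!
# Block PSU of Theorem M, part 1 (helper12): size of the determinants
-/

open Topology Filter
open scoped Differential
open Pool.Agent.Work.MP_f82ddf_nt.DQ

namespace Pool.ThmM

namespace PSU

theorem rep_sum (hALG : Stmt_ALG) {ι : Type} (s : Finset ι) (g : ι → Mer) (G : ι → ℂ → ℂ)
    (h : ∀ i ∈ s, rep (g i) =ᶠ[codiscrete ℂ] G i) :
    rep (∑ i ∈ s, g i) =ᶠ[codiscrete ℂ] fun z => ∑ i ∈ s, G i z := by
  classical
  induction s using Finset.induction_on with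
  | empty =>
    have h0 := hALG.2.2.2.2.2.2.1 0
    rw [map_zero] at h0
    simpa using h0
  | insert a s ha ih =>
    rw [Finset.sum_insert ha]
    have h1 := ih fun i hi => h i (Finset.mem_insert_of_mem hi)
    have h2 := h a (Finset.mem_insert_self _ _)
    filter_upwards [hALG.2.1 (g a) (∑ i ∈ s, g i), h1, h2] with z e1 e2 e3
    rw [e1, e2, e3, Finset.sum_insert ha]

theorem rep_prod (hALG : Stmt_ALG) {ι : Type} (s : Finset ι) (g : ι → Mer) :
    rep (∏ i ∈ s, g i) =ᶠ[codiscrete ℂ] fun z => ∏ i ∈ s, rep (g i) z := by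
  classical
  induction s using Finset.induction_on with
  | empty =>
    have h0 := hALG.2.2.2.2.2.2.1 1
    rw [map_one] at h0
    simpa using h0
  | insert a s ha ih =>
    rw [Finset.prod_insert ha]
    filter_upwards [hALG.2.2.2.1 (g a) (∏ i ∈ s, g i), ih] with z e1 e2
    rw [e1, e2, Finset.prod_insert ha]

theorem rep_det (hALG : Stmt_ALG) {m : Type} [Fintype m] [DecidableEq m] (M : Matrix m m Mer) :
    rep M.det =ᶠ[codiscrete ℂ] fun z => ∑ π : Equiv.Perm m,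
      ((Equiv.Perm.sign π : ℤ) : ℂ) * ∏ i, rep (M (π i) i) z := by
  rw [Matrix.det_apply']
  refine rep_sum hALG _ _ _ fun π _ => ?_
  have h1 : (((Equiv.Perm.sign π : ℤ)) : Mer) = algebraMap ℂ Mer ((Equiv.Perm.sign π : ℤ) : ℂ) := by
    rw [map_intCast]
  rw [h1]
  filter_upwards [hALG.2.2.2.1 (algebraMap ℂ Mer ((Equiv.Perm.sign π : ℤ) : ℂ))
    (∏ i, M (π i) i), rep_prod hALG Finset.univ (fun i => M (π i) i),
    hALG.2.2.2.2.2.2.1 ((Equiv.Perm.sign π : ℤ) : ℂ)] with z e1 e2 e3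
  rw [e1, e2, e3]

theorem det_bound (hALG : Stmt_ALG) {m : Type} [Fintype m] [DecidableEq m] (M : Matrix m m Mer)
    (σ : m → Mer) (K : ℝ)
    (hM : ∀ j k, ∀ᶠ z in codiscrete ℂ, ‖rep (M j k) z‖ ≤ K * max 1 ‖rep (σ j) z‖) :
    ∀ᶠ z in codiscrete ℂ, ‖rep M.det z‖ ≤
      (Fintype.card (Equiv.Perm m) : ℝ) * K ^ Fintype.card m * ∏ j, max 1 ‖rep (σ j) z‖ := by
  have hall : ∀ᶠ z in codiscrete ℂ, ∀ j k, ‖rep (M j k) z‖ ≤ K * max 1 ‖rep (σ j) z‖ :=
    Filter.eventually_all.2 fun j => Filter.eventually_all.2 fun k => hM j k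
  filter_upwards [rep_det hALG M, hall] with z h1 h2
  rw [h1]
  calc ‖∑ π : Equiv.Perm m, ((Equiv.Perm.sign π : ℤ) : ℂ) * ∏ i, rep (M (π i) i) z‖
      ≤ ∑ π : Equiv.Perm m, ‖((Equiv.Perm.sign π : ℤ) : ℂ) * ∏ i, rep (M (π i) i) z‖ :=
        norm_sum_le _ _
    _ ≤ ∑ _π : Equiv.Perm m, K ^ Fintype.card m * ∏ j, max 1 ‖rep (σ j) z‖ := by
        refine Finset.sum_le_sum fun π _ => ?_
        have hs : ‖((Equiv.Perm.sign π : ℤ) : ℂ)‖ = 1 := by
          rcases Int.units_eq_one_or (Equiv.Perm.sign π) with h | h <;> simp [h]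
        rw [norm_mul, hs, one_mul, norm_prod]
        calc ∏ i, ‖rep (M (π i) i) z‖ ≤ ∏ i, (K * max 1 ‖rep (σ (π i)) z‖) :=
              Finset.prod_le_prod (fun i _ => norm_nonneg _) fun i _ => h2 _ _
          _ = K ^ Fintype.card m * ∏ i, max 1 ‖rep (σ (π i)) z‖ := by
              rw [Finset.prod_mul_distrib, Finset.prod_const, Finset.card_univ]
          _ = K ^ Fintype.card m * ∏ j, max 1 ‖rep (σ j) z‖ := by
              rw [Equiv.prod_comp π (fun j => max 1 ‖rep (σ j) z‖)]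
    _ = _ := by
        rw [Finset.sum_const, nsmul_eq_mul, Finset.card_univ, mul_assoc]

theorem ci (f : Mer) (r : ℝ) : CircleIntegrable (fun z => Real.posLog ‖rep f z‖) 0 r := by
  refine MeromorphicOn.circleIntegrable_posLog_norm fun z _ => ?_
  exact (meromorphicNFOn_toMeromorphicNFOn (Mer.exists_mk f).choose Set.univ).meromorphicOn z
    (Set.mem_univ z)

theorem psi_shift (hSHF : Stmt_SHF) {w : ℕ} (b ρ : ℕ) (p : MonT w b ⊕ Fin ρ → Fin (w + 1) → ℂ)
    (τ : MonT w b ⊕ Fin ρ → Mer) (s : Mer) :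
    psi b ρ p (fun j => τ j + s) = psi b ρ p τ := by
  funext e
  obtain ⟨E, hE⟩ : ∃ E : Matrix (MonT w b ⊕ Fin ρ) (MonT w b) Mer,
      E = fun j α => algebraMap ℂ Mer (mval (p j) α) := ⟨_, rfl⟩
  have h := hSHF Mer (MonT w b) ρ E τ s (unitC e)
  have hG : ∀ j l, (E * (unitC e : Matrix (MonT w b) (Fin ρ) Mer)) j l
      = algebraMap ℂ Mer (mval (p j) (e l)) := by
    intro j l
    rw [Matrix.mul_apply, hE]
    simp [unitC]
  simp only [hG] at h
  rw [hE] at h
  exact h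

end PSU

theorem p_PSU (hALG : Stmt_ALG) (_hVAL : Stmt_VAL) (hORD : Stmt_ORD) (hSHF : Stmt_SHF)
    (hCMP : Stmt_CMP) : Stmt_PSU := by
  classical
  intro w b ρ p τ j₀ _hne
  obtain ⟨hmer, -⟩ := hORD (Fin ρ → MonT w b) (psi b ρ p τ)
  set σ : MonT w b ⊕ Fin ρ → Mer := fun j => τ j - τ j₀ with hσ
  have hpsi : psi b ρ p σ = psi b ρ p τ := by
    have h := PSU.psi_shift hSHF b ρ p τ (-τ j₀)
    simp only [← sub_eq_add_neg] at h
    exact h
  set K : ℝ := 1 + ∑ j, ∑ α : MonT w b, ‖mval (p j) α‖ with hK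
  have hKb : ∀ (j : MonT w b ⊕ Fin ρ) (α : MonT w b), ‖mval (p j) α‖ ≤ K := by
    intro j α
    have h1 : ‖mval (p j) α‖ ≤ ∑ α : MonT w b, ‖mval (p j) α‖ :=
      Finset.single_le_sum (f := fun α : MonT w b => ‖mval (p j) α‖) (fun i _ => norm_nonneg _)
        (Finset.mem_univ α)
    have h2 : ∑ α : MonT w b, ‖mval (p j) α‖ ≤ ∑ j, ∑ α : MonT w b, ‖mval (p j) α‖ :=
      Finset.single_le_sum (f := fun j => ∑ α : MonT w b, ‖mval (p j) α‖)
        (fun j _ => Finset.sum_nonneg fun i _ => norm_nonneg _) (Finset.mem_univ j)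
    rw [hK]
    linarith
  have hK1 : 1 ≤ K := by
    have h2 : 0 ≤ ∑ j, ∑ α : MonT w b, ‖mval (p j) α‖ :=
      Finset.sum_nonneg fun j _ => Finset.sum_nonneg fun i _ => norm_nonneg _
    rw [hK]
    linarith
  set n := Fintype.card (MonT w b ⊕ Fin ρ) with hn
  set A : ℝ := (Fintype.card (Equiv.Perm (MonT w b ⊕ Fin ρ)) : ℝ) * K ^ n with hA
  have hA1 : 1 ≤ A := by
    have h1 : (1 : ℝ) ≤ (Fintype.card (Equiv.Perm (MonT w b ⊕ Fin ρ)) : ℝ) := by
      exact_mod_cast Fintype.card_pos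
    have h2 : 1 ≤ K ^ n := one_le_pow₀ hK1
    rw [hA]
    nlinarith
  have hbd : ∀ e : Fin ρ → MonT w b, ∀ᶠ z in codiscrete ℂ,
      ‖rep (psi b ρ p σ e) z‖ ≤ A * ∏ j, max 1 ‖rep (σ j) z‖ := by
    intro e
    refine PSU.det_bound hALG _ σ K fun j k => ?_
    rcases k with α | l
    · filter_upwards [hALG.2.2.2.2.2.2.1 (mval (p j) α)] with z h1
      rw [Matrix.fromCols_apply_inl, h1]
      calc ‖mval (p j) α‖ ≤ K * 1 := by rw [mul_one]; exact hKb j α
        _ ≤ K * max 1 ‖rep (σ j) z‖ :=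
          mul_le_mul_of_nonneg_left (le_max_left _ _) (by linarith)
    · filter_upwards [hALG.2.2.2.1 (σ j) (algebraMap ℂ Mer (mval (p j) (e l))),
        hALG.2.2.2.2.2.2.1 (mval (p j) (e l))] with z h1 h2
      rw [Matrix.fromCols_apply_inr, h1, h2, norm_mul, mul_comm]
      exact mul_le_mul (hKb j (e l)) (le_max_right _ _) (norm_nonneg _) (by linarith)
  have hall : ∀ᶠ z in codiscrete ℂ, ∀ e : Fin ρ → MonT w b,
      ‖rep (psi b ρ p σ e) z‖ ≤ A * ∏ j, max 1 ‖rep (σ j) z‖ := Filter.eventually_all.2 hbd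
  refine ⟨Real.log A, fun r hr => ?_⟩
  have hint1 : CircleIntegrable (fun z => Real.log ‖vec (psi b ρ p τ) z‖) 0 r :=
    MeromorphicOn.circleIntegrable_log_norm fun z _ => hmer z
  have hint2 : CircleIntegrable (fun z => ∑ j, Real.posLog ‖rep (σ j) z‖) 0 r :=
    CircleIntegrable.fun_sum _ fun j _ => PSU.ci (σ j) r
  have hint3 : CircleIntegrable (fun _ : ℂ => Real.log A) 0 r := circleIntegrable_const _ _ _
  have hcmp := hCMP (fun z => Real.log ‖vec (psi b ρ p τ) z‖)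
    ((fun z => ∑ j, Real.posLog ‖rep (σ j) z‖) + fun _ => Real.log A) r hr hint1
    (hint2.add hint3) (by
      filter_upwards [hall] with z h1
      have hP : 1 ≤ ∏ j, max 1 ‖rep (σ j) z‖ :=
        Finset.one_le_prod fun j _ => le_max_left _ _
      have hb : ‖vec (psi b ρ p τ) z‖ ≤ A * ∏ j, max 1 ‖rep (σ j) z‖ := by
        refine (pi_norm_le_iff_of_nonneg (mul_nonneg (le_trans zero_le_one hA1)
          (le_trans zero_le_one hP))).2 fun e => ?_
        have := h1 e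
        rw [hpsi] at this
        exact this
      have hlog : Real.log (A * ∏ j, max 1 ‖rep (σ j) z‖)
          = (∑ j, Real.posLog ‖rep (σ j) z‖) + Real.log A := by
        rw [Real.log_mul (lt_of_lt_of_le one_pos hA1).ne' (lt_of_lt_of_le one_pos hP).ne',
          Real.log_prod, add_comm]
        · refine congrArg₂ (· + ·) ?_ rfl
          refine Finset.sum_congr rfl fun j _ => ?_
          rw [Real.posLog_eq_log_max_one (norm_nonneg _)]
        · intro j _
          have : (1 : ℝ) ≤ max 1 ‖rep (σ j) z‖ := le_max_left _ _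
          linarith
      change Real.log ‖vec (psi b ρ p τ) z‖ ≤ (∑ j, Real.posLog ‖rep (σ j) z‖) + Real.log A
      rw [← hlog]
      rcases (norm_nonneg (vec (psi b ρ p τ) z)).eq_or_lt with h0 | h0
      · rw [← h0, Real.log_zero]
        apply Real.log_nonneg
        nlinarith
      · exact Real.log_le_log h0 hb)
  rw [Real.circleAverage_add hint2 hint3, Real.circleAverage_const,
    Real.circleAverage_fun_sum (fun j _ => PSU.ci (σ j) r)] at hcmp
  exact hcmp

end Pool.ThmM
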