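import Pool.Agent.Work.MP_f82ddf_M1.Interface2

/-! # Block RAT (helper83): logarithmic growth of the characteristic implies rational -/

set_option autoImplicit false

open Topology Filter
open scoped Differential
open Pool.Agent.Work.MP_f82ddf_nt.DQ

namespace Pool.ThmM

namespace RAT

theorem cod {p : ℂ → Prop} : (∀ᶠ z in codiscrete ℂ, p z) ↔ ∀ z₀, ∀ᶠ z in 𝓝[≠] z₀, p z := by
  unfold Filter.Eventually Filter.codiscrete
  rw [mem_codiscreteWithin_iff_forall_mem_nhdsNE]
  simp

/-- logarithmic growth along a sequence of radii: finite support -/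
theorem fin_supp (hLDF : Stmt_LDF) (D : Function.locallyFinsupp ℂ ℤ) (hD : 0 ≤ D) (K : ℝ)
    (h : ∃ᶠ r in atTop, NN D r ≤ K * Real.log r) : (Function.support D).Finite := by
  by_contra hinf
  obtain ⟨s, hs, hcard⟩ := Set.Infinite.exists_subset_card_eq (s := Function.support D) hinf
    (⌈K⌉₊ + 1)
  set ρ : ℝ := 1 + ∑ a ∈ s, ‖a‖ with hρ
  have hρ1 : 1 ≤ ρ := by
    have : 0 ≤ ∑ a ∈ s, ‖a‖ := Finset.sum_nonneg fun a _ => norm_nonneg a
    linarith
  have hsρ : ∀ a ∈ s, ‖a‖ ≤ ρ := by
    intro a ha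
    have := Finset.single_le_sum (f := fun a : ℂ => ‖a‖) (fun a _ => norm_nonneg a) ha
    linarith
  set S : ℝ := ∑ a ∈ s, (D a : ℝ) with hS
  have hSK : K < S := by
    have h1 : (s.card : ℝ) ≤ S := by
      rw [hS, Finset.card_eq_sum_ones, Nat.cast_sum]
      apply Finset.sum_le_sum
      intro a ha
      have h2 : D a ≠ 0 := hs ha
      have h3 : (0 : ℤ) ≤ D a := hD a
      have h4 : (1 : ℤ) ≤ D a := by omega
      push_cast
      exact_mod_cast h4
    have h2 : K ≤ (⌈K⌉₊ : ℝ) := Nat.le_ceil K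
    rw [hcard] at h1
    push_cast at h1
    linarith
  have h5 : ∀ᶠ r : ℝ in atTop, S * Real.log ρ < (S - K) * Real.log r := by
    have h6 : Tendsto (fun r : ℝ => (S - K) * Real.log r) atTop atTop :=
      Real.tendsto_log_atTop.const_mul_atTop (by linarith)
    exact h6.eventually_gt_atTop _
  obtain ⟨r, hr, hr1, hr2⟩ := (h.and_eventually (h5.and (eventually_gt_atTop ρ))).exists
  have h7 := hLDF D ρ r s hD hρ1 hr2 hsρ
  rw [Real.log_div (by linarith) (by linarith)] at h7
  have h8 : S * (Real.log r - Real.log ρ) ≤ K * Real.log r := h7.trans hr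
  nlinarith

/-- distances to a fixed point -/
theorem log_dist (u z : ℂ) (r : ℝ) (hz : ‖z‖ = r) (hr : 2 * ‖u‖ + 2 ≤ r) :
    |Real.log ‖z - u‖| ≤ 2 * Real.log r := by
  have hu := norm_nonneg u
  have h1 : ‖z‖ - ‖u‖ ≤ ‖z - u‖ := norm_sub_norm_le z u
  have h2 : ‖z - u‖ ≤ ‖z‖ + ‖u‖ := norm_sub_le z u
  have h3 : 1 ≤ ‖z - u‖ := by rw [hz] at h1; linarith
  have h4 : ‖z - u‖ ≤ r ^ 2 := by rw [hz] at h2; nlinarith
  rw [abs_of_nonneg (Real.log_nonneg h3)]
  calc Real.log ‖z - u‖ ≤ Real.log (r ^ 2) := Real.log_le_log (by linarith) h4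
    _ = 2 * Real.log r := by rw [Real.log_pow]; norm_num

theorem abs_log_eq (x : ℝ) : |Real.log x| = 2 * Real.posLog x - Real.log x := by
  rw [← Real.half_mul_log_add_log_abs]
  ring

theorem aeval_mk (P : Polynomial ℂ) : ∃ h : ∀ z, MeromorphicAt (fun z => P.eval z) z,
    Polynomial.aeval (zt 0) P = Mer.mk (fun z => P.eval z) h := by
  induction P using Polynomial.induction_on' with
  | add p q hp hq =>
    obtain ⟨h1, h2⟩ := hp
    obtain ⟨h3, h4⟩ := hq
    have h5 : (fun z => (p + q).eval z) = fun z => p.eval z + q.eval z := by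
      funext z; simp
    rw [h5]
    refine ⟨fun z => (h1 z).add (h3 z), ?_⟩
    rw [map_add, h2, h4, Mer.mk_add]
  | monomial n a =>
    have h5 : (fun z => (Polynomial.monomial n a).eval z) = fun z => a * z ^ n := by
      funext z; simp
    rw [h5]
    refine ⟨fun z => (MeromorphicAt.const a z).mul ((MeromorphicAt.id z).pow n), ?_⟩
    rw [Polynomial.aeval_monomial]
    have h6 : zt 0 = Mer.mk (fun z => z) (fun z => MeromorphicAt.id z) := by
      unfold zt
      rw [Mer.mk_eq_mk]
      intro z₀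
      exact Eventually.of_forall fun z => by simp
    rw [h6, Mer.mk_pow, Mer.algebraMap_eq, Mer.mk_mul]

end RAT

open RAT in
theorem p_RAT (hREP : Stmt_REP) (_hALG : Stmt_ALG) (hVAL : Stmt_VAL) (_hDV1 : Stmt_DV1)
    (hJEN : Stmt_JEN) (hNNP : Stmt_NNP) (hCHR : Stmt_CHR) (hCMP : Stmt_CMP) (hLDA : Stmt_LDA)
    (hLDF : Stmt_LDF) : Stmt_RAT := by
  intro φ hφ
  have hφ0 : φ ≠ 0 := by
    rintro rfl
    exact hφ ⟨0, 1, one_ne_zero, by simp⟩
  by_contra hT
  rw [tendsto_atTop] at hT
  push Not at hT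
  obtain ⟨K, hK⟩ := hT
  obtain ⟨hNF, hmer, hmer', hmk⟩ := hREP φ
  obtain ⟨-, -, -, hTeq⟩ := hCHR φ
  obtain ⟨C, hC⟩ := hJEN φ
  obtain ⟨hN1, hN2, -, -, hN5, -⟩ := hNNP
  have hfreq : ∃ᶠ r : ℝ in atTop, TT ![φ, 1] r < K * Real.log r := by
    have h1 : ∃ᶠ r : ℝ in atTop, TT ![φ, 1] r / Real.log r < K := by
      simpa [Filter.Frequently, not_lt] using hK
    refine (h1.and_eventually (eventually_gt_atTop 1)).mono ?_
    rintro r ⟨h2, h3⟩
    have h4 := Real.log_pos h3
    rwa [div_lt_iff₀ h4] at h2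
  have hint1 : ∀ r : ℝ, CircleIntegrable (fun z => Real.log ‖rep φ z‖) 0 r := fun r =>
    MeromorphicOn.circleIntegrable_log_norm fun z _ => hmer z
  have hint2 : ∀ r : ℝ, CircleIntegrable (fun z => Real.posLog ‖rep φ z‖) 0 r := fun r =>
    MeromorphicOn.circleIntegrable_posLog_norm fun z _ => hmer z
  have hMP0 : ∀ r, 0 ≤ MP φ r := fun r =>
    Real.circleAverage_nonneg_of_nonneg fun z _ => Real.posLog_nonneg
  have hLM : ∀ r, LL1 φ r ≤ MP φ r := by
    intro r
    refine Real.circleAverage_mono (hint1 r) (hint2 r) fun z _ => ?_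
    rw [← Real.half_mul_log_add_log_abs]
    have := le_abs_self (Real.log ‖rep φ z‖)
    linarith
  have hpos : 0 ≤ (dv1 φ)⁺ := posPart_nonneg _
  have hneg : 0 ≤ (dv1 φ)⁻ := negPart_nonneg _
  have hsplit : dv1 φ = (dv1 φ)⁺ - (dv1 φ)⁻ := (posPart_sub_negPart _).symm
  have hNsplit : ∀ r, NN (dv1 φ) r = NN (dv1 φ)⁺ r - NN (dv1 φ)⁻ r := by
    intro r
    conv_lhs => rw [hsplit]
    exact hN2 _ _ _
  -- the supports are finite
  have hfn : (Function.support (dv1 φ)⁻).Finite := by
    refine fin_supp hLDF _ hneg K ((hfreq.and_eventually (eventually_ge_atTop 1)).mono ?_)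
    rintro r ⟨h1, h2⟩
    rw [hTeq r (by linarith)] at h1
    have := hMP0 r
    linarith
  have hfp : (Function.support (dv1 φ)⁺).Finite := by
    refine fin_supp hLDF _ hpos (K + |C|)
      ((hfreq.and_eventually (eventually_ge_atTop (Real.exp 1))).mono ?_)
    rintro r ⟨h1, h2⟩
    have he : (1 : ℝ) ≤ Real.exp 1 := Real.one_le_exp (by norm_num)
    have hr : 1 ≤ r := he.trans h2
    have hlog : 1 ≤ Real.log r := by
      rw [Real.le_log_iff_exp_le (by linarith)]
      exact h2
    rw [hTeq r (by linarith)] at h1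
    have h3 := hC r (by linarith)
    rw [hNsplit] at h3
    have h4 := hLM r
    have h5 := neg_abs_le C
    have h6 := abs_nonneg C
    nlinarith
  have hfin : (Function.support (dv1 φ)).Finite := by
    refine (hfp.union hfn).subset ?_
    intro a ha
    by_contra hcon
    rw [Set.mem_union, not_or] at hcon
    have h1 : (dv1 φ)⁺ a = 0 := by simpa using hcon.1
    have h2 : (dv1 φ)⁻ a = 0 := by simpa using hcon.2
    apply ha
    rw [hsplit]
    change (dv1 φ)⁺ a - (dv1 φ)⁻ a = 0
    rw [h1, h2, sub_zero]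
  -- the zero free part
  obtain ⟨g, hg1, hg2, hg3⟩ := MeromorphicOn.extract_zeros_poles (f := rep φ) (U := Set.univ)
    (fun z _ => hmer z) (fun u => by
      intro h
      exact hφ0 (((hVAL u).2.2.1 φ).1 h)) hfin
  have hlog := MeromorphicOn.extract_zeros_poles_log hg2 hg3
  have hg2' : ∀ z, g z ≠ 0 := fun z => hg2 ⟨z, Set.mem_univ z⟩
  set D : Function.locallyFinsupp ℂ ℤ := MeromorphicOn.divisor (rep φ) Set.univ with hDdef
  set s : Finset ℂ := hfin.toFinset with hs
  have hsmem : ∀ u, u ∈ s ↔ D u ≠ 0 := by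
    intro u
    rw [hs, Set.Finite.mem_toFinset]
    rfl
  have hlog' : ∀ᶠ z in codiscrete ℂ, Real.log ‖rep φ z‖ =
      ∑ u ∈ s, (D u : ℝ) * Real.log ‖z - u‖ + Real.log ‖g z‖ := by
    filter_upwards [hlog] with z hz
    rw [hz, Pi.add_apply]
    congr 1
    rw [finsum_eq_sum_of_support_subset (s := s)]
    · simp
    · intro u hu
      rw [Finset.mem_coe, hsmem]
      intro h0
      apply hu
      funext w
      simp [h0]
  set M : ℝ := ∑ u ∈ s, |(D u : ℝ)| * 2 with hM
  have hM0 : 0 ≤ M := Finset.sum_nonneg fun u _ => by positivity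
  have hgint : ∀ r : ℝ, CircleIntegrable (fun z => Real.log ‖g z‖) 0 r := fun r =>
    MeromorphicOn.circleIntegrable_log_norm fun z _ => (hg1 z (Set.mem_univ z)).meromorphicAt
  have huint : ∀ (u : ℂ) (r : ℝ), CircleIntegrable (fun z => Real.log ‖z - u‖) 0 r := fun u r =>
    circleIntegrable_log_norm_sub_const r
  -- bound of the mean of `|log ‖g‖|`
  have hbound : ∀ᶠ r : ℝ in atTop, Real.circleAverage (fun z => |Real.log ‖g z‖|) 0 r ≤
      2 * TT ![φ, 1] r + |C| + M * Real.log r := by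
    have h1 : ∀ᶠ r : ℝ in atTop, ∀ u ∈ s, 2 * ‖u‖ + 2 ≤ r := by
      rw [Finset.eventually_all]
      exact fun u _ => eventually_ge_atTop _
    filter_upwards [h1, eventually_ge_atTop 1] with r hr1 hr2
    have hr0 : r ≠ 0 := by linarith
    have hi1 : CircleIntegrable (fun z => |Real.log ‖rep φ z‖|) 0 r := (hint1 r).abs
    have hi2 : CircleIntegrable (fun z => ∑ u ∈ s, |(D u : ℝ)| * |Real.log ‖z - u‖|) 0 r := by
      have h2 := CircleIntegrable.sum (c := 0) (R := r) s
        (f := fun u z => |(D u : ℝ)| * |Real.log ‖z - u‖|)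
        (fun u _ => ((huint u r).abs).const_smul (a := |(D u : ℝ)|))
      refine (circleIntegrable_congr (c := 0) (R := r) ?_).1 h2
      intro z _
      simp
    have h3 : Real.circleAverage (fun z => |Real.log ‖g z‖|) 0 r ≤
        Real.circleAverage (fun z => |Real.log ‖rep φ z‖| +
          ∑ u ∈ s, |(D u : ℝ)| * |Real.log ‖z - u‖|) 0 r := by
      refine hCMP _ _ r hr0 (hgint r).abs (hi1.add hi2) ?_
      filter_upwards [hlog'] with z hz
      have h4 : Real.log ‖g z‖ = Real.log ‖rep φ z‖ -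
          ∑ u ∈ s, (D u : ℝ) * Real.log ‖z - u‖ := by rw [hz]; ring
      rw [h4]
      refine (abs_sub _ _).trans (add_le_add le_rfl ?_)
      refine (Finset.abs_sum_le_sum_abs _ _).trans (Finset.sum_le_sum fun u _ => ?_)
      rw [abs_mul]
    rw [Real.circleAverage_fun_add hi1 hi2] at h3
    have h5 : Real.circleAverage (fun z => ∑ u ∈ s, |(D u : ℝ)| * |Real.log ‖z - u‖|) 0 r ≤
        M * Real.log r := by
      refine Real.circleAverage_mono_on_of_le_circle hi2 fun z hz => ?_
      have hz' : ‖z‖ = r := by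
        rw [mem_sphere_zero_iff_norm] at hz
        rw [hz, abs_of_pos (by linarith)]
      rw [hM, Finset.sum_mul]
      refine Finset.sum_le_sum fun u hu => ?_
      rw [mul_assoc]
      exact mul_le_mul_of_nonneg_left (log_dist u z r hz' (hr1 u hu)) (abs_nonneg _)
    have h6 : Real.circleAverage (fun z => |Real.log ‖rep φ z‖|) 0 r = 2 * MP φ r - LL1 φ r := by
      have h7 : (fun z => |Real.log ‖rep φ z‖|) =
          fun z => (2 * Real.posLog ‖rep φ z‖) - Real.log ‖rep φ z‖ := by
        funext z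
        exact abs_log_eq _
      have h7' : CircleIntegrable (fun z => 2 * Real.posLog ‖rep φ z‖) 0 r :=
        (hint2 r).const_smul (a := (2 : ℝ))
      rw [h7, Real.circleAverage_fun_sub h7' (hint1 r)]
      congr 1
      exact Real.circleAverage_fun_smul (a := (2 : ℝ)) (f := fun z => Real.posLog ‖rep φ z‖)
    have h8 := hTeq r hr0
    have h9 := hC r hr0
    rw [hNsplit] at h9
    have h10 := hN5 _ r hpos hr2
    have h11 := hN5 _ r hneg hr2
    have h12 := neg_abs_le C
    rw [h6] at h3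
    linarith
  set K' : ℝ := 2 * K + |C| + M with hK'
  have hfreq2 : ∃ᶠ r : ℝ in atTop,
      Real.circleAverage (fun z => |Real.log ‖g z‖|) 0 r ≤ K' * Real.log r := by
    refine ((hfreq.and_eventually hbound).and_eventually
      (eventually_ge_atTop (Real.exp 1))).mono ?_
    rintro r ⟨⟨h1, h2⟩, h3⟩
    have he : (1 : ℝ) ≤ Real.exp 1 := Real.one_le_exp (by norm_num)
    have hr : 1 ≤ r := he.trans h3
    have hlog : 1 ≤ Real.log r := by
      rw [Real.le_log_iff_exp_le (by linarith)]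
      exact h3
    have h4 := abs_nonneg C
    rw [hK']
    nlinarith
  -- the derivative vanishes
  have hder : ∀ w, deriv g w = 0 := by
    intro w
    by_contra hw
    set r₀ : ℝ := ‖w‖ + 1 with hr₀
    have hr₀0 : 0 < r₀ := by have := norm_nonneg w; linarith
    set L : ℝ := ‖deriv g w / g w‖ with hL
    have hL0 : 0 < L := by
      rw [hL, norm_pos_iff]
      exact div_ne_zero hw (hg2' w)
    have h1 : ∀ᶠ r : ℝ in atTop, 8 * |K'| * (Real.log r / r) < L := by
      have h2 : Tendsto (fun r : ℝ => 8 * |K'| * (Real.log r / r)) atTop (𝓝 (8 * |K'| * 0)) := by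
        refine Tendsto.const_mul _ ?_
        have := Real.isLittleO_log_id_atTop.tendsto_div_nhds_zero
        simpa using this
      rw [mul_zero] at h2
      exact h2.eventually_lt_const hL0
    obtain ⟨r, hr1, hr2, hr3, hr4⟩ := (hfreq2.and_eventually
      (h1.and ((eventually_ge_atTop (2 * r₀)).and (eventually_ge_atTop 1)))).exists
    have h3 := hLDA g r r₀ hr₀0 (by linarith) (fun z _ => hg1 z (Set.mem_univ z))
      (fun z _ => hg2' z) w (by
        rw [mem_closedBall_zero_iff]
        linarith)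
    have hlogr : 0 ≤ Real.log r := Real.log_nonneg hr4
    have hrpos : 0 < r := by linarith
    have h4 : (r / 2) ^ 2 ≤ (r - r₀) ^ 2 := by
      apply pow_le_pow_left₀ (by linarith)
      linarith
    have h5 : 2 * r / (r - r₀) ^ 2 ≤ 8 / r := by
      rw [div_le_div_iff₀ (by nlinarith) hrpos]
      nlinarith
    have h6 : L ≤ 8 / r * (|K'| * Real.log r) := by
      refine h3.trans ?_
      have h7 : 0 ≤ Real.circleAverage (fun z => |Real.log ‖g z‖|) 0 r :=
        Real.circleAverage_nonneg_of_nonneg fun z _ => abs_nonneg _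
      have h8 : Real.circleAverage (fun z => |Real.log ‖g z‖|) 0 r ≤ |K'| * Real.log r :=
        hr1.trans (mul_le_mul_of_nonneg_right (le_abs_self _) hlogr)
      exact mul_le_mul h5 h8 h7 (by positivity)
    have h9 : 8 / r * (|K'| * Real.log r) = 8 * |K'| * (Real.log r / r) := by
      field_simp
    linarith
  have hconst : ∀ z, g z = g 0 := by
    intro z
    refine is_const_of_deriv_eq_zero ?_ hder z 0
    intro z
    exact (hg1 z (Set.mem_univ z)).differentiableAt
  -- conclusion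
  apply hφ
  refine ⟨Polynomial.C (g 0) * ∏ u ∈ s, (Polynomial.X - Polynomial.C u) ^ (D u).toNat,
    ∏ u ∈ s, (Polynomial.X - Polynomial.C u) ^ (-(D u)).toNat, ?_, ?_⟩
  · exact Finset.prod_ne_zero_iff.2 fun u _ => pow_ne_zero _ (Polynomial.X_sub_C_ne_zero u)
  · obtain ⟨h1, h2⟩ := aeval_mk (∏ u ∈ s, (Polynomial.X - Polynomial.C u) ^ (-(D u)).toNat)
    obtain ⟨h3, h4⟩ := aeval_mk
      (Polynomial.C (g 0) * ∏ u ∈ s, (Polynomial.X - Polynomial.C u) ^ (D u).toNat)
    rw [h2, h4]
    conv_lhs => rw [← hmk]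
    rw [Mer.mk_mul, Mer.mk_eq_mk]
    rw [← cod]
    have h5 : ∀ᶠ z in codiscrete ℂ, D z = 0 := D.eq_zero_codiscreteWithin
    filter_upwards [hg3, h5] with z hz hz0
    rw [hz]
    rw [finprod_eq_prod_of_mulSupport_subset (s := s)]
    · simp only [Pi.smul_apply', Finset.prod_apply, Pi.pow_apply, smul_eq_mul, hconst z,
        Polynomial.eval_mul, Polynomial.eval_C, Polynomial.eval_prod, Polynomial.eval_pow,
        Polynomial.eval_sub, Polynomial.eval_X]
      rw [mul_comm (∏ u ∈ s, (z - u) ^ D u) (g 0), mul_assoc, ← Finset.prod_mul_distrib]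
      congr 1
      refine Finset.prod_congr rfl fun u hu => ?_
      have hzu : z - u ≠ 0 := by
        rw [sub_ne_zero]
        rintro rfl
        exact (hsmem z).1 hu hz0
      rw [← zpow_natCast, ← zpow_natCast, ← zpow_add₀ hzu]
      congr 1
      omega
    · intro u hu
      rw [Finset.mem_coe, hsmem]
      intro h0
      apply hu
      funext w
      simp [h0]

end Pool.ThmM
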