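import Pool.Agent.Work.MP_f82ddf_M1.Interface2

set_option autoImplicit false

/-! # Theorem M, part 1, block SHF: shift invariance of the determinants -/

namespace Pool.ThmM

theorem p_SHF : Stmt_SHF := by
  intro K _ m _ _ ρ E τ s G
  have key : ∀ X Y : Matrix (m ⊕ Fin ρ) (Fin ρ) K,
      (∀ j l, X j l = Y j l + s * (E * G : Matrix (m ⊕ Fin ρ) (Fin ρ) K) j l) →
      Matrix.det (Matrix.fromCols E X) = Matrix.det (Matrix.fromCols E Y) := by
    intro X Y hXY
    have h : Matrix.fromCols E X = Matrix.fromCols E Y *
        Matrix.fromBlocks (1 : Matrix m m K) (s • G) (0 : Matrix (Fin ρ) m K)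
          (1 : Matrix (Fin ρ) (Fin ρ) K) := by
      rw [Matrix.fromCols_mul_fromBlocks]
      ext j k
      rcases k with k | l
      · simp
      · simp only [Matrix.fromCols_apply_inr, Matrix.mul_smul, Matrix.mul_one, Matrix.add_apply,
          Matrix.smul_apply, smul_eq_mul]
        rw [hXY]
        ring
    rw [h, Matrix.det_mul, Matrix.det_fromBlocks_zero₂₁]
    simp
  refine key _ _ fun j l => ?_
  ring

end Pool.ThmM
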