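import Pool.Agent.Work.MP_f82ddf_M1.Interface2

/-! # Block SMT: Lemma S with the proximity terms -/

open Topology Filter
open scoped Differential
open Pool.Agent.Work.MP_f82ddf_nt.DQ

namespace Pool.ThmM

namespace SMT

/-- evaluation of a homogeneous polynomial as a sum over the monomials -/
theorem eval_sum (hmon : Stmt_MON) {w b : ℕ} (p : Fin (w + 1) → ℂ)
    (H : MvPolynomial (Fin (w + 1)) Mer) (hH : H.IsHomogeneous b) :
    ∑ β : MonT w b, algebraMap ℂ Mer (mval p β) * MvPolynomial.coeff β.1 H = evC p H := by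
  have h1 : ∑ β : MonT w b, algebraMap ℂ Mer (mval p β) * MvPolynomial.coeff β.1 H =
      ∑ α ∈ Finset.finsuppAntidiag (Finset.univ : Finset (Fin (w + 1))) b,
        algebraMap ℂ Mer (∏ i, p i ^ α i) * MvPolynomial.coeff α H :=
    Finset.sum_coe_sort (Finset.finsuppAntidiag (Finset.univ : Finset (Fin (w + 1))) b)
      (fun α => algebraMap ℂ Mer (∏ i, p i ^ α i) * MvPolynomial.coeff α H)
  rw [h1, evC, MvPolynomial.eval_eq']
  symm
  have hsub : H.support ⊆ Finset.finsuppAntidiag (Finset.univ : Finset (Fin (w + 1))) b := by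
    intro α hα
    rw [hmon.2]
    by_contra h
    exact (MvPolynomial.mem_support_iff.1 hα) (hH.coeff_eq_zero h)
  rw [Finset.sum_subset hsub]
  · apply Finset.sum_congr rfl
    intro α _
    rw [map_prod, mul_comm]
    simp only [map_pow]
  · intro α _ hα
    rw [MvPolynomial.notMem_support_iff.1 hα, zero_mul]

theorem evC_mul {σ : Type} (p : σ → ℂ) (F G : MvPolynomial σ Mer) :
    evC p (F * G) = evC p F * evC p G := map_mul _ _ _

theorem evC_mon {w a : ℕ} (p : Fin (w + 1) → ℂ) (α : MonT w a) :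
    evC p (MvPolynomial.monomial α.1 (1 : Mer)) = algebraMap ℂ Mer (mval p α) := by
  rw [evC, MvPolynomial.eval_monomial, one_mul, mval, map_prod, Finsupp.prod_fintype]
  · simp only [map_pow]
  · intro i
    exact pow_zero _

/-- the evaluation matrix -/
noncomputable def Em {w b : ℕ} {J : Type} (p : J → Fin (w + 1) → ℂ) :
    Matrix J (MonT w b) Mer := fun j α => algebraMap ℂ Mer (mval (p j) α)

/-- the product of the evaluation matrix and of the multiplication matrix -/
theorem EA (hmon : Stmt_MON) {w a q : ℕ} {J : Type} (p : J → Fin (w + 1) → ℂ)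
    (F : MvPolynomial (Fin (w + 1)) Mer) (hF : F.IsHomogeneous q) (j : J) (α : MonT w a) :
    ((Em p : Matrix J (MonT w (a + q)) Mer) * mulM a (a + q) F) j α = evC (p j) F * algebraMap ℂ Mer (mval (p j) α) := by
  have h1 : (F * MvPolynomial.monomial α.1 (1 : Mer)).IsHomogeneous (a + q) := by
    rw [add_comm a q]
    apply hF.mul
    exact MvPolynomial.isHomogeneous_monomial _ ((hmon.2 w a α.1).1 α.2)
  rw [Matrix.mul_apply]
  show ∑ β : MonT w (a + q), algebraMap ℂ Mer (mval (p j) β) *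
    MvPolynomial.coeff β.1 (F * MvPolynomial.monomial α.1 1) = _
  rw [eval_sum hmon (p j) _ h1, evC_mul, evC_mon]

theorem EG {w b ρ : ℕ} {J : Type} (E : Matrix J (MonT w b) Mer) (e : Fin ρ → MonT w b)
    (j : J) (l : Fin ρ) :
    (E * (unitC e : Matrix (MonT w b) (Fin ρ) Mer)) j l = E j (e l) := by
  rw [Matrix.mul_apply]
  simp only [unitC, mul_ite, mul_one, mul_zero, Finset.sum_ite_eq', Finset.mem_univ, if_true]

/-- the order of a finite sum -/
theorem om_sum (hval : Stmt_VAL) {ι : Type} (s : Finset ι) (f : ι → Mer) (z : ℂ)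
    (c : WithTop ℤ) (h : ∀ i ∈ s, c ≤ om (f i) z) : c ≤ om (∑ i ∈ s, f i) z := by
  classical
  induction s using Finset.induction_on with
  | empty =>
    rw [Finset.sum_empty, ((hval z).2.2.1 0).2 rfl]
    exact le_top
  | insert a s ha ih =>
    rw [Finset.sum_insert ha]
    refine le_trans (le_min (h a (Finset.mem_insert_self a s)) (ih ?_)) ((hval z).2.1 _ _)
    intro i hi
    exact h i (Finset.mem_insert_of_mem hi)

/-- the order of a value is at least the minimum of the orders of the coefficients -/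
theorem le_evC (hval : Stmt_VAL) (hvpd : Stmt_VPD) {w : ℕ} (p : Fin (w + 1) → ℂ)
    (F : MvPolynomial (Fin (w + 1)) Mer) (hF : F ≠ 0) (hp : evC p F ≠ 0) (z : ℂ) :
    dvP F z ≤ dv1 (evC p F) z := by
  have h1 : vP F z ≤ om (evC p F) z := by
    rw [evC, MvPolynomial.eval_eq']
    apply om_sum hval
    intro α hα
    have h2 : vP F z ≤ om (MvPolynomial.coeff α F) z := Finset.inf_le hα
    rw [(hval z).1]
    have h3 : (∏ i, algebraMap ℂ Mer (p i) ^ α i) = algebraMap ℂ Mer (∏ i, p i ^ α i) := by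
      rw [map_prod]
      simp only [map_pow]
    rw [h3]
    by_cases h4 : (∏ i, p i ^ α i) = 0
    · rw [h4, map_zero, ((hval z).2.2.1 0).2 rfl]
      simp
    · rw [(hval z).2.2.2.1 _ h4, add_zero]
      exact h2
  rw [hvpd _ F hF z, (hval z).2.2.2.2.1 _ hp] at h1
  exact_mod_cast h1

theorem NN_neg (D : Function.locallyFinsupp ℂ ℤ) (r : ℝ) : NN (-D) r = - NN D r := by
  unfold NN
  rw [map_neg]
  rfl

theorem NN_sum {ι : Type} (s : Finset ι) (D : ι → Function.locallyFinsupp ℂ ℤ) (r : ℝ) :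
    NN (∑ i ∈ s, D i) r = ∑ i ∈ s, NN (D i) r := by
  unfold NN
  rw [map_sum, Finset.sum_apply]

end SMT

open SMT in
theorem p_SMT (hinj : Stmt_INJ) (hdet : Stmt_DET) (hplt : Stmt_PLT) (hpso : Stmt_PSO)
    (hpsu : Stmt_PSU) (hlgd : Stmt_LGD) (hsml : Stmt_SML) (hnnp : Stmt_NNP) (hmon : Stmt_MON)
    (hdzr : Stmt_DZR) (hval : Stmt_VAL) (hord : Stmt_ORD) (hvpd : Stmt_VPD) : Stmt_SMT := by
  classical
  intro w q a F S hF hF0 hdiv hS hG
  -- the number of additional columns
  have hle : numM w a ≤ numM w (a + q) := by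
    rw [hmon.1, hmon.1]
    exact Nat.choose_le_choose w (by omega)
  obtain ⟨ρ, hρ⟩ := Nat.exists_eq_add_of_le hle
  have hcard : Fintype.card (MonT w a ⊕ Fin ρ) = Fintype.card (MonT w (a + q)) := by
    rw [Fintype.card_sum, Fintype.card_fin]
    exact hρ.symm
  let η : MonT w a ⊕ Fin ρ ≃ MonT w (a + q) := Fintype.equivOfCardEq hcard
  have hF' : (dz F).IsHomogeneous q := hdzr.2.2.2.1 _ F q hF
  obtain ⟨p, hpS, hpinj, hpsi⟩ := hinj w q a ρ η F (dz F) S hF hF' hF0 hdiv hS hG
  have hev : ∀ p : Fin (w + 1) → ℂ, evC p (dz F) = (evC p F)′ := hdzr.2.2.2.2.1 _ F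
  have hJc : (Finset.univ.image p).card = numM w (a + q) + ρ := by
    rw [Finset.card_image_of_injective _ hpinj, Finset.card_univ, Fintype.card_sum,
      Fintype.card_fin]
    rfl
  refine ⟨Finset.univ.image p, ?_, ?_, ?_⟩
  · intro x hx
    obtain ⟨j, _, rfl⟩ := Finset.mem_image.1 hx
    exact hpS j
  · rw [hJc]
    omega
  intro p₀ hp₀
  obtain ⟨j₀, _, rfl⟩ := Finset.mem_image.1 hp₀
  set τ : MonT w (a + q) ⊕ Fin ρ → Mer := fun j => evC (p j) (dz F) / evC (p j) F with hτ
  have hne : ∀ j, evC (p j) F ≠ 0 := fun j => hS _ (hpS j)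
  -- the two tuples are proportional
  have hprop : ∀ e e' : Fin ρ → MonT w (a + q),
      psi (a + q) ρ p τ e * plu q a ρ η F e' = psi (a + q) ρ p τ e' * plu q a ρ η F e := by
    intro e e'
    have h1 := hdet Mer (MonT w (a + q)) (MonT w a) ρ (mulM a (a + q) F)
      (mulM a (a + q) (dz F))
      (Em p) τ (unitC e) (unitC e') η (by
        intro j α
        rw [EA hmon p F hF j α, EA hmon p (dz F) hF' j α, hτ]
        simp only
        rw [← mul_assoc, div_mul_cancel₀ _ (hne j)])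
    simp only [EG] at h1
    exact h1
  obtain ⟨hplu, hdvplu, C₁, hC₁⟩ := hplt w q a ρ η F hF hF0
  obtain ⟨e₀, he₀⟩ : ∃ e₀, plu q a ρ η F e₀ ≠ 0 := by
    by_contra h
    push Not at h
    exact hplu (funext h)
  set lam : Mer := psi (a + q) ρ p τ e₀ / plu q a ρ η F e₀ with hlam
  have hpl : psi (a + q) ρ p τ = lam • plu q a ρ η F := by
    funext e
    rw [Pi.smul_apply, smul_eq_mul, hlam, div_mul_eq_mul_div, eq_div_iff he₀]
    exact hprop e e₀
  have hlam0 : lam ≠ 0 := by
    intro h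
    apply hpsi
    rw [hpl, h, zero_smul]
  obtain ⟨_, _, C₂, hC₂⟩ := hsml _ lam (plu q a ρ η F) hlam0 hplu
  obtain ⟨C₃, hC₃⟩ := hpsu w (a + q) ρ p τ j₀ hpsi
  -- orders
  have hordz : -(∑ j, tru (dv1 (evC (p j) F) - dvP F)) ≤ dv (psi (a + q) ρ p τ) := by
    intro z
    obtain ⟨e, he, hez⟩ := ((hord _ (psi (a + q) ρ p τ)).2 hpsi z).2
    have hmin : ∀ j, 0 ≤ min (dv1 (evC (p j) F) z - dvP F z) 1 := by
      intro j
      have := le_evC hval hvpd (p j) F hF0 (hne j) z
      exact le_min (by omega) (by norm_num)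
    have h1 := hpso w (a + q) ρ p τ z (-(algebraMap ℂ Mer (dvP F z : ℂ) * (zt z)⁻¹))
      (fun j => (min (dv1 (evC (p j) F) z - dvP F z) 1).toNat) (by
        intro j
        rw [Int.toNat_of_nonneg (hmin j)]
        have h2 := hlgd (evC (p j) F) z (dvP F z) (hne j)
          (le_evC hval hvpd (p j) F hF0 (hne j) z)
        rw [hτ]
        simp only
        rw [hev]
        exact h2) e
    have h3 : om (psi (a + q) ρ p τ e) z = ((dv (psi (a + q) ρ p τ) z : ℤ) : WithTop ℤ) := by
      rw [(hval z).2.2.2.2.1 _ he, hez]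
    rw [h3] at h1
    have h4 : (-(∑ j, ((min (dv1 (evC (p j) F) z - dvP F z) 1).toNat : ℤ)) : ℤ) ≤
        dv (psi (a + q) ρ p τ) z := by exact_mod_cast h1
    have h5 : (∑ j, tru (dv1 (evC (p j) F) - dvP F)) z =
        ∑ j, min (dv1 (evC (p j) F) z - dvP F z) 1 := by
      have h6 : ∀ s : Finset (MonT w (a + q) ⊕ Fin ρ),
          (∑ j ∈ s, tru (dv1 (evC (p j) F) - dvP F)) z =
          ∑ j ∈ s, min (dv1 (evC (p j) F) z - dvP F z) 1 := by
        intro s
        induction s using Finset.induction_on with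
        | empty => simp
        | insert x s hx ih =>
          rw [Finset.sum_insert hx, Finset.sum_insert hx, ← ih]
          rfl
      exact h6 _
    show -((∑ j, tru (dv1 (evC (p j) F) - dvP F)) z) ≤ _
    rw [h5]
    refine le_trans (le_of_eq ?_) h4
    refine congrArg Neg.neg ?_
    apply Finset.sum_congr rfl
    intro j _
    rw [Int.toNat_of_nonneg (hmin j)]
  refine ⟨C₁ - C₂ + C₃, fun r hr => ?_⟩
  have hr0 : r ≠ 0 := by linarith
  have e1 := hC₁ r hr0
  have e2 := hC₂ r hr0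
  have e3 := hC₃ r hr0
  rw [← hpl] at e2
  have e4 := hnnp.2.2.2.1 _ _ r hordz hr
  rw [NN_neg, NN_sum] at e4
  have e5 : NN (dv (plu q a ρ η F)) r = numM w a * NN (dvP F) r := by
    rw [hdvplu]
    exact hnnp.2.2.1 _ _ _
  have e6 : TT (psi (a + q) ρ p τ) r =
    LL (psi (a + q) ρ p τ) r - NN (dv (psi (a + q) ρ p τ)) r := rfl
  have e7 : TT (plu q a ρ η F) r = LL (plu q a ρ η F) r - NN (dv (plu q a ρ η F)) r := rfl
  have e8 : TP F r = LL (cf F) r - NN (dvP F) r := rfl
  rw [Finset.sum_image (fun x _ y _ h => hpinj h), Finset.sum_image (fun x _ y _ h => hpinj h)]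
  have e9 : ∑ j, MP ((evC (p j) F)′ / evC (p j) F - (evC (p j₀) F)′ / evC (p j₀) F) r =
      ∑ j, MP (τ j - τ j₀) r := by
    apply Finset.sum_congr rfl
    intro j _
    rw [hτ]
    simp only [hev]
  rw [e9, e8, mul_sub]
  linarith

end Pool.ThmM
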