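import Pool.Agent.Work.MP_f82ddf_M1.Interface2

/-!
# Theorem M, part 1: block TRA (translation by a period)
-/

open Topology Filter
open scoped Differential
open Pool.Agent.Work.MP_f82ddf_nt.DQ

namespace Pool.ThmM

namespace TRA

theorem tendsto_add_ne (c z₀ : ℂ) : Tendsto (fun z : ℂ => z + c) (𝓝[≠] z₀) (𝓝[≠] (z₀ + c)) := by
  refine tendsto_nhdsWithin_iff.2 ⟨?_, ?_⟩
  · exact ((continuous_id.add continuous_const).tendsto z₀).mono_left nhdsWithin_le_nhds
  · filter_upwards [self_mem_nhdsWithin] with z hz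
    intro h
    exact hz (add_right_cancel h)

theorem mer_add {f : ℂ → ℂ} (hf : ∀ z, MeromorphicAt f z) (c : ℂ) :
    ∀ z, MeromorphicAt (fun z => f (z + c)) z := by
  intro z
  have h1 : AnalyticAt ℂ (fun z : ℂ => z + c) z := by fun_prop
  exact MeromorphicAt.comp_analyticAt (f := f) (g := fun z : ℂ => z + c) (hf (z + c)) h1

/-- Translation as a function. -/
noncomputable def tf (c : ℂ) (x : Mer) : Mer :=
  Mer.mk (fun z => (Mer.exists_mk x).choose (z + c))
    (mer_add (Mer.exists_mk x).choose_spec.choose c)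

theorem tf_mk (c : ℂ) (f : ℂ → ℂ) (hf : ∀ z, MeromorphicAt f z) :
    tf c (Mer.mk f hf) = Mer.mk (fun z => f (z + c)) (mer_add hf c) := by
  have h := (Mer.exists_mk (Mer.mk f hf)).choose_spec.choose_spec
  have h2 := Mer.mk_eq_mk.1 h
  unfold tf
  rw [Mer.mk_eq_mk]
  intro z₀
  filter_upwards [(tendsto_add_ne c z₀).eventually (h2 (z₀ + c))] with z hz
  exact hz.symm

/-- Translation as an algebra homomorphism. -/
noncomputable def th (c : ℂ) : Mer →ₐ[ℂ] Mer where
  toFun := tf c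
  map_one' := by
    change tf c (Mer.mk (fun _ => 1) (fun z => MeromorphicAt.const 1 z)) = _
    rw [tf_mk]
    rfl
  map_zero' := by
    rw [Mer.zero_eq, tf_mk]
  map_mul' x y := by
    obtain ⟨f, hf, rfl⟩ := Mer.exists_mk x
    obtain ⟨g, hg, rfl⟩ := Mer.exists_mk y
    rw [Mer.mk_mul, tf_mk, tf_mk, tf_mk, Mer.mk_mul]
  map_add' x y := by
    obtain ⟨f, hf, rfl⟩ := Mer.exists_mk x
    obtain ⟨g, hg, rfl⟩ := Mer.exists_mk y
    rw [Mer.mk_add, tf_mk, tf_mk, tf_mk, Mer.mk_add]
  commutes' a := by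
    rw [Mer.algebraMap_eq, tf_mk]

theorem th_mk (c : ℂ) (f : ℂ → ℂ) (hf : ∀ z, MeromorphicAt f z) :
    th c (Mer.mk f hf) = Mer.mk (fun z => f (z + c)) (mer_add hf c) := tf_mk c f hf

theorem th_th (c d : ℂ) (x : Mer) : th c (th d x) = th (c + d) x := by
  obtain ⟨f, hf, rfl⟩ := Mer.exists_mk x
  rw [th_mk, th_mk, th_mk, Mer.mk_eq_mk]
  intro z₀
  refine Eventually.of_forall fun z => ?_
  rw [add_assoc]

theorem th_zero (x : Mer) : th 0 x = x := by
  obtain ⟨f, hf, rfl⟩ := Mer.exists_mk x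
  rw [th_mk, Mer.mk_eq_mk]
  intro z₀
  refine Eventually.of_forall fun z => ?_
  rw [add_zero]

/-- Translation as an automorphism. -/
noncomputable def te (c : ℂ) : Mer ≃ₐ[ℂ] Mer :=
  AlgEquiv.ofAlgHom (th c) (th (-c))
    (by
      ext x
      change th c (th (-c) x) = x
      rw [th_th, add_neg_cancel, th_zero])
    (by
      ext x
      change th (-c) (th c x) = x
      rw [th_th, neg_add_cancel, th_zero])

theorem te_apply (c : ℂ) (x : Mer) : te c x = th c x := rfl

theorem te_iter (c : ℂ) (n : ℕ) (x : Mer) : (te c)^[n] x = th (n * c) x := by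
  induction n generalizing x with
  | zero => simp [th_zero]
  | succ n ih =>
    rw [Function.iterate_succ_apply, ih, te_apply, th_th]
    congr 2
    push_cast
    ring

theorem te_deriv (c : ℂ) (x : Mer) : te c (x′) = (te c x)′ := by
  obtain ⟨f, hf, rfl⟩ := Mer.exists_mk x
  rw [te_apply, te_apply, Mer.deriv_mk, th_mk, th_mk, Mer.deriv_mk, Mer.mk_eq_mk]
  intro z₀
  refine Eventually.of_forall fun z => ?_
  exact (deriv_comp_add_const f c z).symm

theorem th_zt (c : ℂ) : th c (zt 0) = zt 0 + algebraMap ℂ Mer c := by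
  unfold zt
  rw [th_mk, Mer.algebraMap_eq, Mer.mk_add, Mer.mk_eq_mk]
  intro z₀
  refine Eventually.of_forall fun z => ?_
  ring

theorem th_aeval (c : ℂ) (P : Polynomial ℂ) : th c (Polynomial.aeval (zt 0) P) =
    Polynomial.aeval (zt 0) (Polynomial.taylor c P) := by
  rw [← Polynomial.aeval_algHom_apply, th_zt, Polynomial.taylor_apply, Polynomial.aeval_comp]
  congr 1
  simp

theorem aeval_zt (R : Polynomial ℂ) : ∃ h : ∀ z, MeromorphicAt (fun z => R.eval z) z,
    Polynomial.aeval (zt 0) R = Mer.mk (fun z => R.eval z) h := by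
  have hm : ∀ R : Polynomial ℂ, ∀ z, MeromorphicAt (fun z => R.eval z) z := by
    intro R z
    have h1 : AnalyticAt ℂ (fun z => R.eval z) z :=
      (R.differentiable.analyticAt z)
    exact h1.meromorphicAt
  refine ⟨hm R, ?_⟩
  induction R using Polynomial.induction_on' with
  | add p q hp hq =>
    rw [map_add, hp, hq, Mer.mk_add, Mer.mk_eq_mk]
    intro z₀
    refine Eventually.of_forall fun z => ?_
    rw [Polynomial.eval_add]
  | monomial n a =>
    rw [Polynomial.aeval_monomial]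
    unfold zt
    rw [Mer.algebraMap_eq, Mer.mk_pow, Mer.mk_mul, Mer.mk_eq_mk]
    intro z₀
    refine Eventually.of_forall fun z => ?_
    rw [Polynomial.eval_monomial, sub_zero]

theorem aeval_zt_inj (R : Polynomial ℂ) (hR : Polynomial.aeval (zt 0) R = 0) : R = 0 := by
  obtain ⟨h, h1⟩ := aeval_zt R
  rw [h1, Mer.zero_eq, Mer.mk_eq_mk] at hR
  by_contra hne
  have h2 : {z : ℂ | R.IsRoot z}.Finite := Polynomial.finite_setOfPred_isRoot hne
  have h3 : ∀ᶠ z in 𝓝[≠] (0 : ℂ), z ∉ {z : ℂ | R.IsRoot z} := by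
    have h4 : ({z : ℂ | R.IsRoot z} \ {0})ᶜ ∈ 𝓝 (0 : ℂ) :=
      (h2.subset Set.sdiff_subset).isClosed.isOpen_compl.mem_nhds (by simp)
    filter_upwards [mem_nhdsWithin_of_mem_nhds h4, self_mem_nhdsWithin] with z hz hz0 hzr
    exact hz ⟨hzr, hz0⟩
  obtain ⟨z, hz1, hz2⟩ := (h3.and (hR 0)).exists
  exact hz1 hz2

theorem isRat_th {c : ℂ} {f : Mer} (hf : IsRat f) : IsRat (th c f) := by
  obtain ⟨P, Q, hQ, h⟩ := hf
  refine ⟨Polynomial.taylor c P, Polynomial.taylor c Q, ?_, ?_⟩
  · intro h0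
    exact hQ ((Polynomial.taylor_injective c) (by rw [h0, map_zero]))
  · rw [← th_aeval, ← th_aeval, ← map_mul, h]

theorem const_of_rat {f : Mer} {w : ℂ} (hw : w ≠ 0) (hf : th w f = f) (hr : IsRat f) :
    ∃ a : ℂ, f = algebraMap ℂ Mer a := by
  obtain ⟨P, Q, hQ, h⟩ := hr
  have hk : ∀ k : ℕ, th (k * w) f = f := by
    intro k
    induction k with
    | zero => simp [th_zero]
    | succ k ih =>
      have : ((k + 1 : ℕ) : ℂ) * w = k * w + w := by push_cast; ring
      rw [this, ← th_th, hf, ih]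
  have hpoly : ∀ k : ℕ, Polynomial.taylor (k * w) P * Q = P * Polynomial.taylor (k * w) Q := by
    intro k
    have h1 : f * Polynomial.aeval (zt 0) (Polynomial.taylor (k * w) Q) =
        Polynomial.aeval (zt 0) (Polynomial.taylor (k * w) P) := by
      rw [← th_aeval, ← th_aeval, ← h, map_mul, hk]
    rw [← sub_eq_zero]
    apply aeval_zt_inj
    rw [map_sub, map_mul, map_mul, ← h, ← h1]
    ring
  obtain ⟨z₀, hz₀⟩ : ∃ z₀ : ℂ, Q.eval z₀ ≠ 0 := by
    by_contra hall
    push Not at hall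
    exact hQ (Polynomial.funext (fun z => by rw [hall z, Polynomial.eval_zero]))
  have hroot : P - Polynomial.C (P.eval z₀ / Q.eval z₀) * Q = 0 := by
    apply Polynomial.eq_zero_of_infinite_isRoot
    have hinj : Function.Injective (fun k : ℕ => z₀ + (k : ℂ) * w) := by
      intro k l hkl
      have h1 : (k : ℂ) * w = l * w := add_left_cancel hkl
      exact_mod_cast mul_right_cancel₀ hw h1
    refine (Set.infinite_range_of_injective hinj).mono ?_
    rintro _ ⟨k, rfl⟩
    have h2 := congrArg (Polynomial.eval z₀) (hpoly k)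
    rw [Polynomial.eval_mul, Polynomial.eval_mul, Polynomial.taylor_eval,
      Polynomial.taylor_eval] at h2
    change Polynomial.eval (z₀ + (k : ℂ) * w) (P - Polynomial.C (P.eval z₀ / Q.eval z₀) * Q) = 0
    rw [Polynomial.eval_sub, Polynomial.eval_mul, Polynomial.eval_C]
    field_simp
    linear_combination h2
  refine ⟨P.eval z₀ / Q.eval z₀, ?_⟩
  have h3 : Polynomial.aeval (zt 0) Q ≠ 0 := fun h0 => hQ (aeval_zt_inj Q h0)
  apply mul_right_cancel₀ h3
  rw [h, ← sub_eq_zero, ← Polynomial.aeval_C (zt 0 : Mer) (P.eval z₀ / Q.eval z₀), ← map_mul,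
    ← map_sub, hroot, map_zero]

end TRA

theorem p_TRA : Stmt_TRA := by
  refine ⟨TRA.te (2 * Real.pi * Complex.I), fun f => TRA.te_deriv _ f, ?_, ?_, ?_⟩
  · intro f
    constructor
    · intro h
      have h1 := TRA.isRat_th (c := -(2 * Real.pi * Complex.I)) h
      rw [TRA.te_apply, TRA.th_th, neg_add_cancel, TRA.th_zero] at h1
      exact h1
    · intro h
      exact TRA.isRat_th h
  · intro f n hn hf hr
    rw [TRA.te_iter] at hf
    refine TRA.const_of_rat ?_ hf hr
    have h1 : (n : ℂ) ≠ 0 := by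
      exact_mod_cast (by omega : n ≠ 0)
    exact mul_ne_zero h1 Complex.two_pi_I_ne_zero
  · intro f hf
    exact ⟨TRA.mer_add hf _, TRA.th_mk _ f hf⟩

end Pool.ThmM
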