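import Pool.Agent.Work.MP_f82ddf_M1.All1
import Pool.Agent.Work.MP_f82ddf_M1.B_LDB
import Pool.Agent.Work.MP_f82ddf_M1.B_LDA
import Pool.Agent.Work.MP_f82ddf_M1.B_LDF
import Pool.Agent.Work.MP_f82ddf_M1.B_RAT
import Pool.Agent.Work.MP_f82ddf_M1.B_DZR
import Pool.Agent.Work.MP_f82ddf_M1.B_DVD
import Pool.Agent.Work.MP_f82ddf_M1.B_SHF
import Pool.Agent.Work.MP_f82ddf_M1.B_PSU
import Pool.Agent.Work.MP_f82ddf_M1.B_LDC
import Pool.Agent.Work.MP_f82ddf_M1.B_LDD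
import Pool.Agent.Work.MP_f82ddf_M1.B_LDE
import Pool.Agent.Work.MP_f82ddf_M1.B_LDG
import Pool.Agent.Work.MP_f82ddf_M1.B_LDH
import Pool.Agent.Work.MP_f82ddf_M1.B_LDX
import Pool.Agent.Work.MP_f82ddf_M1.B_GRW
import Pool.Agent.Work.MP_f82ddf_M1.B_COP
import Pool.Agent.Work.MP_f82ddf_M1.B_MON
import Pool.Agent.Work.MP_f82ddf_M1.B_INJ
import Pool.Agent.Work.MP_f82ddf_M1.B_DET
import Pool.Agent.Work.MP_f82ddf_M1.B_PLA
import Pool.Agent.Work.MP_f82ddf_M1.B_PLT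
import Pool.Agent.Work.MP_f82ddf_M1.B_PSO
import Pool.Agent.Work.MP_f82ddf_M1.B_LGD
import Pool.Agent.Work.MP_f82ddf_M1.B_SMT
import Pool.Agent.Work.MP_f82ddf_M1.B_LEMS
import Pool.Agent.Work.MP_f82ddf_M1.B_END
import Pool.Agent.Work.MP_f82ddf_M1.B_GRP
import Pool.Agent.Work.MP_f82ddf_M1.B_EXP
import Pool.Agent.Work.MP_f82ddf_M1.B_TRA

/-!
# Theorem M, part 1: all blocks of Interface2 and Interface3
-/

namespace Pool.ThmM

theorem all_LDB : Stmt_LDB := p_LDB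

theorem all_LDA : Stmt_LDA := p_LDA

theorem all_LDF : Stmt_LDF := p_LDF

theorem all_RAT : Stmt_RAT := p_RAT all_REP all_ALG all_VAL all_DV1 all_JEN all_NNP all_CHR all_CMP all_LDA all_LDF

theorem all_DZR : Stmt_DZR := p_DZR

theorem all_DVD : Stmt_DVD := p_DVD all_DZR

theorem all_SHF : Stmt_SHF := p_SHF

theorem all_PSU : Stmt_PSU := p_PSU all_ALG all_VAL all_ORD all_SHF all_CMP

theorem all_LDC : Stmt_LDC := p_LDC all_LDA all_LDB

theorem all_LDD : Stmt_LDD := p_LDD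

theorem all_LDE : Stmt_LDE := p_LDE all_LDD all_CMP

theorem all_LDG : Stmt_LDG := p_LDG all_REP all_ALG all_VAL all_JEN all_NNP all_CHR all_DV1 all_CMP all_LDC all_LDE all_LDF

theorem all_LDH : Stmt_LDH := p_LDH

theorem all_LDX : Stmt_LDX := p_LDX all_TOP all_CHR all_LDG all_LDH

theorem all_GRW : Stmt_GRW := p_GRW all_TOP all_RAT

theorem all_COP : Stmt_COP := p_COP all_DVD all_DZR

theorem all_MON : Stmt_MON := p_MON

theorem all_INJ : Stmt_INJ := p_INJ all_MON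

theorem all_DET : Stmt_DET := p_DET

theorem all_PLA : Stmt_PLA := p_PLA

theorem all_PLT : Stmt_PLT := p_PLT all_PLA all_ALG all_ORD all_CMP

theorem all_PSO : Stmt_PSO := p_PSO all_VAL all_SHF

theorem all_LGD : Stmt_LGD := p_LGD all_REP all_ALG all_VAL all_DZR

theorem all_SMT : Stmt_SMT := p_SMT all_INJ all_DET all_PLT all_PSO all_PSU all_LGD all_SML all_NNP all_MON all_DZR all_VAL all_ORD all_VPD

theorem all_LEMS : Stmt_LEMS := p_LEMS all_SMT all_LDX all_MON all_NNP all_LOW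

theorem all_END : Stmt_END := p_END all_LEMS all_NNP all_LOW all_MON

theorem all_GRP : Stmt_GRP := p_GRP all_GRW all_GEL all_LOW

theorem all_EXP : Stmt_EXP := p_EXP

theorem all_TRA : Stmt_TRA := p_TRA

end Pool.ThmM
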