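import Pool.Agent.Work.MP_f82ddf_M1.Interface2

set_option autoImplicit false

/-! # LDD: circle averages of `‖z - a‖ ^ (-1/2)` -/

open Topology Filter MeasureTheory

namespace Pool.ThmM

namespace LDD

/-- the majorant -/
noncomputable def h (θ : ℝ) : ℝ := |Real.sin θ| ^ (-(1 / 2) : ℝ)

theorem h_periodic : Function.Periodic h (2 * Real.pi) := by
  intro θ
  unfold h
  rw [Real.sin_add_two_pi]

theorem h_meas : Measurable h := by
  unfold h
  exact (Real.continuous_sin.measurable.abs).pow_const _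

theorem h_periodic' : Function.Periodic h Real.pi := by
  intro θ
  unfold h
  rw [Real.sin_add_pi, abs_neg]

theorem h_int0 : IntervalIntegrable h volume (-(Real.pi / 2)) (-(Real.pi / 2) + Real.pi) := by
  have hpi := Real.pi_pos
  have e1 : -(Real.pi / 2) + Real.pi = Real.pi / 2 := by ring
  rw [e1]
  -- majorant on the right half
  have hR : IntervalIntegrable h volume 0 (Real.pi / 2) := by
    have h1 : IntervalIntegrable (fun x : ℝ => (2 / Real.pi) ^ (-(1 / 2) : ℝ) *
        x ^ (-(1 / 2) : ℝ)) volume 0 (Real.pi / 2) :=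
      (intervalIntegral.intervalIntegrable_rpow' (by norm_num)).const_mul _
    refine h1.mono_fun h_meas.aestronglyMeasurable ?_
    refine (ae_restrict_iff' measurableSet_uIoc).2 (Filter.Eventually.of_forall fun x hx => ?_)
    rw [Set.uIoc_of_le (by positivity)] at hx
    have hx0 : 0 < x := hx.1
    have h2 : 2 / Real.pi * x ≤ Real.sin x := Real.mul_le_sin hx0.le hx.2
    have h3 : 0 < 2 / Real.pi * x := by positivity
    have h4 : 0 < Real.sin x := lt_of_lt_of_le h3 h2
    show ‖|Real.sin x| ^ (-(1 / 2) : ℝ)‖ ≤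
      ‖(2 / Real.pi) ^ (-(1 / 2) : ℝ) * x ^ (-(1 / 2) : ℝ)‖
    rw [abs_of_pos h4, Real.norm_of_nonneg (Real.rpow_nonneg h4.le _),
      Real.norm_of_nonneg (by positivity), ← Real.mul_rpow (by positivity) hx0.le]
    exact Real.rpow_le_rpow_of_nonpos h3 h2 (by norm_num)
  have hL : IntervalIntegrable h volume (-(Real.pi / 2)) 0 := by
    have h1 := hR.comp_sub_left 0
    have h2 : (fun x : ℝ => h (0 - x)) = h := by
      funext x
      unfold h
      rw [zero_sub, Real.sin_neg, abs_neg]
    rw [h2] at h1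
    simp only [sub_zero, zero_sub] at h1
    exact h1.symm
  exact hL.trans hR

theorem h_int (a b : ℝ) : IntervalIntegrable h volume a b :=
  h_periodic'.intervalIntegrable Real.pi_ne_zero h_int0 a b

theorem sin_le (a : ℂ) (r θ : ℝ) (hr : 1 ≤ r) :
    |Real.sin (θ - Complex.arg a)| ≤ ‖circleMap 0 r θ - a‖ := by
  set α := Complex.arg a with hα
  have h0 : (‖a‖ : ℂ) * Complex.exp (α * Complex.I) = a := Complex.norm_mul_exp_arg_mul_I a
  have h1 : circleMap 0 r θ - a = Complex.exp (α * Complex.I) *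
      ((r : ℂ) * Complex.exp (((θ - α : ℝ) : ℂ) * Complex.I) - (‖a‖ : ℂ)) := by
    have h2 : Complex.exp (α * Complex.I) *
        ((r : ℂ) * Complex.exp (((θ - α : ℝ) : ℂ) * Complex.I)) =
        (r : ℂ) * Complex.exp (θ * Complex.I) := by
      have h3 : Complex.exp (θ * Complex.I) = Complex.exp (α * Complex.I) *
          Complex.exp (((θ - α : ℝ) : ℂ) * Complex.I) := by
        rw [← Complex.exp_add]
        congr 1
        push_cast
        ring
      rw [h3]
      ring
    rw [mul_sub, h2, mul_comm (Complex.exp (α * Complex.I)) (‖a‖ : ℂ), h0]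
    simp [circleMap]
  rw [h1, norm_mul, Complex.norm_exp_ofReal_mul_I, one_mul]
  refine le_trans ?_ (Complex.abs_im_le_norm _)
  rw [Complex.sub_im, Complex.ofReal_im, sub_zero, Complex.im_ofReal_mul,
    Complex.exp_ofReal_mul_I_im, abs_mul, abs_of_nonneg (by linarith : (0 : ℝ) ≤ r)]
  exact le_mul_of_one_le_left (abs_nonneg _) hr

theorem ae_le (a : ℂ) (r : ℝ) (hr : 1 ≤ r) :
    (fun θ : ℝ => ‖circleMap 0 r θ - a‖ ^ (-(1 / 2) : ℝ)) ≤ᵐ[volume]
      fun θ => h (θ - Complex.arg a) := by
  have h1 : (Set.range fun n : ℤ => (n : ℝ) * Real.pi + Complex.arg a).Countable :=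
    Set.countable_range _
  filter_upwards [h1.ae_notMem volume] with θ hθ
  have h2 : Real.sin (θ - Complex.arg a) ≠ 0 := by
    intro h3
    obtain ⟨n, hn⟩ := Real.sin_eq_zero_iff.1 h3
    exact hθ ⟨n, by simp only [hn]; ring⟩
  exact Real.rpow_le_rpow_of_nonpos (abs_pos.2 h2) (sin_le a r θ hr) (by norm_num)

theorem int_shift (α : ℝ) : IntervalIntegrable (fun θ => h (θ - α)) volume 0 (2 * Real.pi) := by
  have h1 := (h_int (0 - α) (2 * Real.pi - α)).comp_sub_right α
  simpa using h1

theorem int_eq (α : ℝ) :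
    ∫ θ in (0 : ℝ)..(2 * Real.pi), h (θ - α) = ∫ θ in (0 : ℝ)..(2 * Real.pi), h θ := by
  rw [intervalIntegral.integral_comp_sub_right]
  have h1 := h_periodic.intervalIntegral_add_eq (0 - α) 0
  have e1 : 0 - α + 2 * Real.pi = 2 * Real.pi - α := by ring
  rw [e1, zero_add] at h1
  exact h1

theorem circ (a : ℂ) (r : ℝ) (hr : 1 ≤ r) :
    CircleIntegrable (fun z => ‖z - a‖ ^ (-(1 / 2) : ℝ)) 0 r := by
  unfold CircleIntegrable
  refine (int_shift (Complex.arg a)).mono_fun ?_ ?_
  · apply Measurable.aestronglyMeasurable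
    exact (((continuous_circleMap 0 r).sub continuous_const).norm.measurable).pow_const _
  · refine ae_restrict_of_ae ?_
    filter_upwards [ae_le a r hr] with θ hθ
    rw [Real.norm_of_nonneg (Real.rpow_nonneg (norm_nonneg _) _),
      Real.norm_of_nonneg (show 0 ≤ h (θ - Complex.arg a) from
        Real.rpow_nonneg (abs_nonneg _) _)]
    exact hθ

end LDD

open LDD in
theorem p_LDD : Stmt_LDD := by
  refine ⟨max 1 ((2 * Real.pi)⁻¹ * ∫ θ in (0 : ℝ)..(2 * Real.pi), h θ), le_max_left _ _, ?_⟩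
  intro a r hr
  refine ⟨circ a r hr, le_trans ?_ (le_max_right _ _)⟩
  unfold Real.circleAverage
  rw [smul_eq_mul]
  refine mul_le_mul_of_nonneg_left ?_ (by positivity)
  rw [← int_eq (Complex.arg a)]
  exact intervalIntegral.integral_mono_ae (by positivity) (circ a r hr)
    (int_shift (Complex.arg a)) (ae_le a r hr)

end Pool.ThmM
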