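import Pool.Agent.Work.MP_f82ddf_M1.Interface

/-! # Block NNP (helper87): rules for the counting function -/

open Topology Filter
open scoped Differential
open Pool.Agent.Work.MP_f82ddf_nt.DQ

namespace Pool.ThmM

theorem p_NNP : Stmt_NNP := by
  have hsub : ∀ (D E : Function.locallyFinsupp ℂ ℤ) (r : ℝ), NN (D - E) r = NN D r - NN E r := by
    intro D E r
    unfold NN
    rw [map_sub]
    rfl
  have hsmul : ∀ (D : Function.locallyFinsupp ℂ ℤ) (n : ℕ) (r : ℝ),
      NN (n • D) r = n * NN D r := by
    intro D n r
    unfold NN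
    rw [map_nsmul, Pi.smul_apply, nsmul_eq_mul]
  refine ⟨?_, hsub, hsmul, ?_, ?_, ?_⟩
  · intro D E r
    unfold NN
    rw [map_add]
    rfl
  · intro D E r h hr
    exact Function.locallyFinsuppWithin.logCounting_le h hr
  · intro D r h hr
    exact Function.locallyFinsuppWithin.logCounting_nonneg h hr
  · intro D E r hD hE hr
    have h1 : E ≤ 2 • (D - tru D) := by
      rw [Function.locallyFinsuppWithin.le_def]
      intro z
      obtain ⟨h2, h3, h4⟩ := hE z
      have h5 : (2 • (D - tru D)) z = 2 * (D z - min (D z) 1) := by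
        rw [Function.locallyFinsuppWithin.coe_nsmul, Pi.smul_apply,
          Function.locallyFinsuppWithin.coe_sub, Pi.sub_apply, nsmul_eq_mul]
        rfl
      rw [h5]
      have h8 : (E z : ℤ) ≤ 2 * (D z - min (D z) 1) := by omega
      exact h8
    have h6 := Function.locallyFinsuppWithin.logCounting_le h1 hr
    have h7 : NN (2 • (D - tru D)) r = 2 * (NN D r - NN (tru D) r) := by
      rw [hsmul, hsub]
      norm_num
    rw [← h7]
    exact h6

end Pool.ThmM
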