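import Pool.Agent.Work.MP_f82ddf_M1.Interface2
import Pool.Agent.Work.MP_f82ddf_M1.B_GEL

/-! # Block PLT (helper54): height of the Pluecker tuple -/

open Topology Filter
open scoped Differential
open Pool.Agent.Work.MP_f82ddf_nt.DQ

namespace Pool.ThmM

namespace PLT

open GEL

theorem rep_one (hALG : Stmt_ALG) : rep (1 : Mer) =ᶠ[codiscrete ℂ] fun _ => 1 := by
  have := hALG.2.2.2.2.2.2.1 1
  rwa [map_one] at this

theorem rep_prod (hALG : Stmt_ALG) {ι : Type} (s : Finset ι) (f : ι → Mer) :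
    rep (∏ i ∈ s, f i) =ᶠ[codiscrete ℂ] fun z => ∏ i ∈ s, rep (f i) z := by
  classical
  induction s using Finset.induction_on with
  | empty =>
    simp only [Finset.prod_empty]
    exact rep_one hALG
  | insert a s ha ih =>
    rw [Finset.prod_insert ha]
    filter_upwards [hALG.2.2.2.1 (f a) (∏ i ∈ s, f i), ih] with z h1 h2
    rw [h1, h2, Finset.prod_insert ha]

theorem rep_det (hALG : Stmt_ALG) {n : Type} [Fintype n] [DecidableEq n] (M : Matrix n n Mer) :
    ∀ᶠ z in codiscrete ℂ, rep (Matrix.det M) z = Matrix.det (Matrix.of fun i j => rep (M i j) z) := by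
  rw [Matrix.det_apply']
  have h1 : ∀ᶠ z in codiscrete ℂ, ∀ σ : Equiv.Perm n,
      rep ((((Equiv.Perm.sign σ : ℤˣ) : ℤ) : Mer) * ∏ i, M (σ i) i) z =
        (((Equiv.Perm.sign σ : ℤˣ) : ℤ) : ℂ) * ∏ i, rep (M (σ i) i) z := by
    rw [Filter.eventually_all]
    intro σ
    have h2 := hALG.2.2.2.2.2.2.1 (((Equiv.Perm.sign σ : ℤˣ) : ℤ) : ℂ)
    rw [map_intCast] at h2
    filter_upwards [hALG.2.2.2.1 (((Equiv.Perm.sign σ : ℤˣ) : ℤ) : Mer) (∏ i, M (σ i) i), h2,
      rep_prod hALG Finset.univ (fun i => M (σ i) i)] with z h3 h4 h5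
    rw [h3, h4, h5]
  filter_upwards [rep_sum hALG Finset.univ (fun σ : Equiv.Perm n =>
    (((Equiv.Perm.sign σ : ℤˣ) : ℤ) : Mer) * ∏ i, M (σ i) i), h1] with z h3 h4
  rw [h3, Matrix.det_apply']
  exact Finset.sum_congr rfl fun σ _ => h4 σ

theorem homog_at {σ : Type} (F : MvPolynomial σ Mer) (z : ℂ) (h0 : rep (0 : Mer) z = 0) {q : ℕ}
    (hF : F.IsHomogeneous q) : (at' F z).IsHomogeneous q := by
  intro α hα
  rw [coeff_at F z h0] at hα
  apply hF
  intro h
  rw [h, h0] at hα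
  exact hα rfl

/-- generically the Pluecker coordinates are those of the values -/
theorem plu_at (hALG : Stmt_ALG) {w : ℕ} (q a ρ : ℕ) (η : MonT w a ⊕ Fin ρ ≃ MonT w (a + q))
    (F : MvPolynomial (Fin (w + 1)) Mer) :
    ∀ᶠ z in codiscrete ℂ, ∀ e, rep (plu q a ρ η F e) z =
      Matrix.det ((Matrix.fromCols (mulM a (a + q) (at' F z)) (unitC e)).submatrix η id) := by
  rw [Filter.eventually_all]
  intro e
  filter_upwards [rep_zero hALG, rep_one hALG,
    rep_det hALG ((Matrix.fromCols (mulM a (a + q) F) (unitC e)).submatrix η id)] with z h0 h1 h2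
  have h3 : rep (plu q a ρ η F e) z =
      rep (Matrix.det ((Matrix.fromCols (mulM a (a + q) F) (unitC e)).submatrix η id)) z := rfl
  rw [h3, h2]
  congr 1
  ext i j
  rw [Matrix.of_apply, Matrix.submatrix_apply, Matrix.submatrix_apply, id]
  rcases j with α | l
  · rw [Matrix.fromCols_apply_inl, Matrix.fromCols_apply_inl]
    unfold mulM
    rw [MvPolynomial.coeff_mul_monomial', MvPolynomial.coeff_mul_monomial']
    split_ifs with h
    · rw [mul_one, mul_one, coeff_at F z h0]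
    · exact h0
  · rw [Matrix.fromCols_apply_inr, Matrix.fromCols_apply_inr]
    unfold unitC
    split_ifs with h
    · exact h1
    · exact h0

/-- upper bound for the Pluecker coordinates -/
theorem plu_le {w : ℕ} (q a ρ : ℕ) (η : MonT w a ⊕ Fin ρ ≃ MonT w (a + q))
    (G : MvPolynomial (Fin (w + 1)) ℂ) (x : ℝ) (hx : 0 < x) (hG : ∀ α, ‖G.coeff α‖ ≤ x)
    (e : Fin ρ → MonT w (a + q)) :
    ‖Matrix.det ((Matrix.fromCols (mulM a (a + q) G) (unitC e)).submatrix η id)‖ ≤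
      (Nat.factorial (Fintype.card (MonT w a ⊕ Fin ρ)) : ℝ) * x ^ numM w a := by
  set M : Matrix (MonT w a ⊕ Fin ρ) (MonT w a ⊕ Fin ρ) ℂ :=
    (Matrix.fromCols (mulM a (a + q) G) (unitC e)).submatrix η id with hM
  set v : MonT w a ⊕ Fin ρ → ℂ := Sum.elim (fun _ => (x : ℂ)) (fun _ => 1) with hv
  have hx' : (x : ℂ) ≠ 0 := by exact_mod_cast hx.ne'
  have hv0 : ∀ j, v j ≠ 0 := by
    intro j
    rcases j with j | j
    · exact hx'
    · exact one_ne_zero
  have h1 : M = Matrix.of fun i j => v j * ((v j)⁻¹ * M i j) := by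
    ext i j
    rw [Matrix.of_apply, mul_inv_cancel_left₀ (hv0 j)]
  have h2 : Matrix.det M = (∏ j, v j) * Matrix.det (Matrix.of fun i j => (v j)⁻¹ * M i j) := by
    rw [← Matrix.det_mul_row]
    congr 1
  have h3 : ∏ j, v j = (x : ℂ) ^ numM w a := by
    rw [Fintype.prod_sum_type]
    simp [hv, numM]
  have h4 : ∀ i j, ‖(Matrix.of fun i j => (v j)⁻¹ * M i j : Matrix _ _ ℂ) i j‖ ≤ 1 := by
    intro i j
    rw [Matrix.of_apply, norm_mul, norm_inv]
    rcases j with α | l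
    · have : M i (Sum.inl α) = MvPolynomial.coeff (η i).1 (G * MvPolynomial.monomial α.1 1) := rfl
      rw [this, MvPolynomial.coeff_mul_monomial']
      have hvx : ‖v (Sum.inl α)‖ = x := by
        show ‖(x : ℂ)‖ = x
        rw [Complex.norm_real, Real.norm_of_nonneg hx.le]
      rw [hvx]
      split_ifs with h
      · rw [mul_one]
        rw [inv_mul_le_iff₀ hx, mul_one]
        exact hG _
      · rw [norm_zero, mul_zero]
        exact zero_le_one
    · have : M i (Sum.inr l) = if η i = e l then 1 else 0 := rfl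
      rw [this]
      have hv1 : v (Sum.inr l) = 1 := rfl
      rw [hv1]
      split_ifs with h <;> simp
  have h5 : ‖Matrix.det (Matrix.of fun i j => (v j)⁻¹ * M i j)‖ ≤
      (Nat.factorial (Fintype.card (MonT w a ⊕ Fin ρ)) : ℝ) := by
    have := Matrix.det_le (A := (Matrix.of fun i j => (v j)⁻¹ * M i j : Matrix _ _ ℂ))
      (abv := NormedField.toAbsoluteValue ℂ) (x := 1) h4
    rw [one_pow, nsmul_eq_mul, mul_one] at this
    exact this
  rw [h2, h3, norm_mul, norm_pow, Complex.norm_real, Real.norm_of_nonneg hx.le, mul_comm]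
  exact mul_le_mul_of_nonneg_right h5 (by positivity)

/-- two sided estimates of the growth near a point determine the order -/
theorem order_scale {E₁ E₂ : Type} [NormedAddCommGroup E₁] [NormedSpace ℂ E₁]
    [NormedAddCommGroup E₂] [NormedSpace ℂ E₂] (f : ℂ → E₁) (g : ℂ → E₂) (z : ℂ)
    (hf : MeromorphicAt f z) (hg : MeromorphicAt g z) (m k : ℤ) (n : ℕ)
    (hm : meromorphicOrderAt f z = m) (hk : meromorphicOrderAt g z = k) (c C : ℝ) (hc : 0 < c)
    (h : ∀ᶠ w in 𝓝[≠] z, c * ‖f w‖ ^ n ≤ ‖g w‖ ∧ ‖g w‖ ≤ C * ‖f w‖ ^ n) :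
    k = n * m := by
  obtain ⟨F, hFa, hF0, hF⟩ := (meromorphicOrderAt_eq_int_iff hf).1 hm
  obtain ⟨G, hGa, hG0, hG⟩ := (meromorphicOrderAt_eq_int_iff hg).1 hk
  have tF : Tendsto (fun w => ‖F w‖ ^ n) (𝓝[≠] z) (𝓝 (‖F z‖ ^ n)) :=
    ((hFa.continuousAt.norm.pow n).tendsto).mono_left nhdsWithin_le_nhds
  have tG : Tendsto (fun w => ‖G w‖) (𝓝[≠] z) (𝓝 ‖G z‖) :=
    (hGa.continuousAt.norm.tendsto).mono_left nhdsWithin_le_nhds
  have tz : ∀ j : ℕ, 1 ≤ j → Tendsto (fun w => ‖w - z‖ ^ j) (𝓝[≠] z) (𝓝 0) := by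
    intro j hj
    have h1 : ContinuousAt (fun w : ℂ => ‖w - z‖ ^ j) z := by fun_prop
    have h2 := h1.tendsto
    simp only [sub_self, norm_zero] at h2
    rw [zero_pow (by omega)] at h2
    exact h2.mono_left nhdsWithin_le_nhds
  have hne : ∀ᶠ w in 𝓝[≠] z, w ≠ z := eventually_mem_nhdsWithin
  rcases lt_trichotomy k (n * m) with hlt | heq | hgt
  · exfalso
    obtain ⟨j, hj⟩ := Int.eq_ofNat_of_zero_le (sub_nonneg.2 hlt.le)
    have hj1 : 1 ≤ j := by omega
    have hle : ∀ᶠ w in 𝓝[≠] z, ‖G w‖ ≤ C * (‖w - z‖ ^ j * ‖F w‖ ^ n) := by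
      filter_upwards [h, hne, hF, hG] with w h1 h2 h3 h4
      have hw : 0 < ‖w - z‖ := norm_pos_iff.2 (sub_ne_zero.2 h2)
      have h5 := h1.2
      rw [h3, h4, norm_smul, norm_smul, norm_zpow, norm_zpow, mul_pow] at h5
      have h6 : (‖w - z‖ ^ m) ^ n = ‖w - z‖ ^ k * ‖w - z‖ ^ j := by
        rw [← zpow_natCast, ← zpow_mul, ← zpow_natCast, ← zpow_add₀ hw.ne']
        congr 1
        linarith
      rw [h6] at h5
      have hk0 : 0 < ‖w - z‖ ^ k := zpow_pos hw k
      have h7 : ‖w - z‖ ^ k * ‖G w‖ ≤ ‖w - z‖ ^ k * (C * (‖w - z‖ ^ j * ‖F w‖ ^ n)) := by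
        calc ‖w - z‖ ^ k * ‖G w‖ ≤ C * (‖w - z‖ ^ k * ‖w - z‖ ^ j * ‖F w‖ ^ n) := h5
          _ = ‖w - z‖ ^ k * (C * (‖w - z‖ ^ j * ‖F w‖ ^ n)) := by ring
      exact le_of_mul_le_mul_left h7 hk0
    have hlim := le_of_tendsto_of_tendsto tG (((tz j hj1).mul tF).const_mul C) hle
    rw [zero_mul, mul_zero] at hlim
    exact absurd (norm_pos_iff.2 hG0) (not_lt.2 hlim)
  · exact heq
  · exfalso
    obtain ⟨j, hj⟩ := Int.eq_ofNat_of_zero_le (sub_nonneg.2 hgt.le)
    have hj1 : 1 ≤ j := by omega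
    have hle : ∀ᶠ w in 𝓝[≠] z, c * ‖F w‖ ^ n ≤ ‖w - z‖ ^ j * ‖G w‖ := by
      filter_upwards [h, hne, hF, hG] with w h1 h2 h3 h4
      have hw : 0 < ‖w - z‖ := norm_pos_iff.2 (sub_ne_zero.2 h2)
      have h5 := h1.1
      rw [h3, h4, norm_smul, norm_smul, norm_zpow, norm_zpow, mul_pow] at h5
      have h6 : ‖w - z‖ ^ k = (‖w - z‖ ^ m) ^ n * ‖w - z‖ ^ j := by
        rw [← zpow_natCast, ← zpow_mul, ← zpow_natCast, ← zpow_add₀ hw.ne']
        congr 1
        linarith
      rw [h6] at h5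
      have hk0 : 0 < (‖w - z‖ ^ m) ^ n := pow_pos (zpow_pos hw m) n
      have h7 : (‖w - z‖ ^ m) ^ n * (c * ‖F w‖ ^ n) ≤
          (‖w - z‖ ^ m) ^ n * (‖w - z‖ ^ j * ‖G w‖) := by
        calc (‖w - z‖ ^ m) ^ n * (c * ‖F w‖ ^ n) = c * ((‖w - z‖ ^ m) ^ n * ‖F w‖ ^ n) := by ring
          _ ≤ (‖w - z‖ ^ m) ^ n * ‖w - z‖ ^ j * ‖G w‖ := h5
          _ = (‖w - z‖ ^ m) ^ n * (‖w - z‖ ^ j * ‖G w‖) := by ring
      exact le_of_mul_le_mul_left h7 hk0
    have hlim := le_of_tendsto_of_tendsto (tF.const_mul c) ((tz j hj1).mul tG) hle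
    rw [zero_mul] at hlim
    have : 0 < c * ‖F z‖ ^ n := mul_pos hc (pow_pos (norm_pos_iff.2 hF0) n)
    linarith

theorem codis_nhds {p : ℂ → Prop} (h : ∀ᶠ w in codiscrete ℂ, p w) (z : ℂ) :
    ∀ᶠ w in 𝓝[≠] z, p w := by
  have h1 := mem_codiscreteWithin_iff_forall_mem_nhdsNE.1 h z (Set.mem_univ z)
  filter_upwards [h1] with w hw
  rcases hw with hw | hw
  · exact hw
  · exact absurd (Set.mem_univ w) hw

/-- the divisor of a tuple with generically positive norm -/
theorem dv_order {ι : Type} [Fintype ι] (c : ι → Mer) (hm : Meromorphic (vec c))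
    (hpos : ∀ᶠ z in codiscrete ℂ, 0 < ‖vec c z‖) (z : ℂ) :
    meromorphicOrderAt (vec c) z = ((dv c z : ℤ) : WithTop ℤ) := by
  have h1 : meromorphicOrderAt (vec c) z ≠ ⊤ := by
    intro h
    rw [meromorphicOrderAt_eq_top_iff] at h
    obtain ⟨w, hw1, hw2⟩ := (h.and (codis_nhds hpos z)).exists
    rw [hw1, norm_zero] at hw2
    exact lt_irrefl _ hw2
  have h2 : dv c z = (meromorphicOrderAt (vec c) z).untop₀ := by
    unfold dv
    exact MeromorphicOn.divisor_apply (fun z _ => hm z) (Set.mem_univ z)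
  rw [h2, WithTop.coe_untop₀_of_ne_top h1]

end PLT

open GEL PLT

theorem p_PLT (hPLA : Stmt_PLA) (hALG : Stmt_ALG) (hORD : Stmt_ORD) (hCMP : Stmt_CMP) :
    Stmt_PLT := by
  intro w q a ρ η F hFh hF
  obtain ⟨c, hc, hpla⟩ := hPLA w q a ρ η
  set K : ℝ := (Nat.factorial (Fintype.card (MonT w a ⊕ Fin ρ)) : ℝ) with hK
  have hK0 : 0 ≤ K := by positivity
  have hpt : ∀ᶠ z in codiscrete ℂ, c * ‖vec (cf F) z‖ ^ numM w a ≤ ‖vec (plu q a ρ η F) z‖ ∧
      ‖vec (plu q a ρ η F) z‖ ≤ K * ‖vec (cf F) z‖ ^ numM w a := by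
    filter_upwards [plu_at hALG q a ρ η F, rep_zero hALG, norm_pos hALG F hF] with z hz h0 hx
    constructor
    · obtain ⟨α, hα⟩ := exists_eq F hF z
      obtain ⟨e, he⟩ := hpla (at' F z) (homog_at F z h0 hFh) ‖vec (cf F) z‖ hx.le
        ⟨α, by rw [coeff_at F z h0]; exact hα.ge⟩
      rw [← hz e] at he
      exact he.trans (norm_le_pi_norm (vec (plu q a ρ η F) z) e)
    · rw [pi_norm_le_iff_of_nonneg (by positivity)]
      intro e
      have h1 := plu_le q a ρ η (at' F z) ‖vec (cf F) z‖ hx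
        (fun α => by rw [coeff_at F z h0]; exact coeff_le F z h0 α) e
      rw [← hz e] at h1
      exact h1
  have hposF := norm_pos hALG F hF
  have hposP : ∀ᶠ z in codiscrete ℂ, 0 < ‖vec (plu q a ρ η F) z‖ := by
    filter_upwards [hpt, hposF] with z h1 h2
    exact lt_of_lt_of_le (mul_pos hc (pow_pos h2 _)) h1.1
  have hmF := (hORD _ (cf F)).1
  have hmP := (hORD _ (plu q a ρ η F)).1
  refine ⟨?_, ?_, ?_⟩
  · intro h
    have h1 : ∀ᶠ z in codiscrete ℂ, False := by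
      filter_upwards [hposP, rep_zero hALG] with z h2 h3
      rw [h] at h2
      have : vec (0 : (Fin ρ → MonT w (a + q)) → Mer) z = 0 := by
        funext e
        exact h3
      rw [this, norm_zero] at h2
      exact lt_irrefl _ h2
    exact (codis_nhds h1 0).exists.choose_spec
  · ext z
    have h1 := order_scale (vec (cf F)) (vec (plu q a ρ η F)) z (hmF z) (hmP z) (dvP F z)
      (dv (plu q a ρ η F) z) (numM w a) (dv_order (cf F) hmF hposF z)
      (dv_order _ hmP hposP z) c K hc (codis_nhds hpt z)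
    rw [h1]
    simp
  · refine ⟨- Real.log c, fun r hr => ?_⟩
    have i1 : CircleIntegrable (fun z => Real.log ‖vec (cf F) z‖) 0 r :=
      MeromorphicOn.circleIntegrable_log_norm (fun z _ => hmF z)
    have i2 : CircleIntegrable (fun z => Real.log ‖vec (plu q a ρ η F) z‖) 0 r :=
      MeromorphicOn.circleIntegrable_log_norm (fun z _ => hmP z)
    have i3 : CircleIntegrable (fun z => (numM w a : ℝ) • Real.log ‖vec (cf F) z‖) 0 r :=
      i1.const_smul
    have i4 : CircleIntegrable (fun _ : ℂ => - Real.log c) 0 r := circleIntegrable_const _ _ _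
    have hle := hCMP _ _ r hr i3 (i2.add i4) (by
      filter_upwards [hpt, hposF] with z h1 h2
      have h3 := Real.log_le_log (mul_pos hc (pow_pos h2 _)) h1.1
      rw [Real.log_mul hc.ne' (pow_pos h2 _).ne', Real.log_pow] at h3
      show (numM w a : ℝ) * Real.log ‖vec (cf F) z‖ ≤
        Real.log ‖vec (plu q a ρ η F) z‖ + - Real.log c
      linarith)
    have e1 : Real.circleAverage (fun z => (numM w a : ℝ) • Real.log ‖vec (cf F) z‖) 0 r =
        numM w a * LL (cf F) r := Real.circleAverage_fun_smul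
    have e2 : Real.circleAverage (fun z => Real.log ‖vec (plu q a ρ η F) z‖ + - Real.log c) 0 r =
        LL (plu q a ρ η F) r + - Real.log c := by
      rw [Real.circleAverage_fun_add i2 i4, Real.circleAverage_const]
      rfl
    rw [← e1, ← e2]
    exact hle

end Pool.ThmM
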