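import Mathlib
import Pool.Agent.Work.MP_f82ddf_nt.DQ.Mer

/-!
# Theorem M, part 1: heights of tuples of meromorphic functions

`Mer` is the differential field of meromorphic functions on the complex plane
(`Pool.Agent.Work.MP_f82ddf_nt.DQ.Mer`).
-/

open Topology Filter
open scoped Differential
open Pool.Agent.Work.MP_f82ddf_nt.DQ

namespace Pool.ThmM

/-- The representative of an element of `Mer` in normal form. -/
noncomputable def rep (f : Mer) : ℂ → ℂ :=
  toMeromorphicNFOn (Mer.exists_mk f).choose Set.univ

/-- The vector valued meromorphic function given by a tuple of elements of `Mer`. -/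
noncomputable def vec {ι : Type} (c : ι → Mer) : ℂ → ι → ℂ := fun z i => rep (c i) z

/-- The order of a tuple at `z`: the minimum of the orders of the entries (`0` if all are zero). -/
noncomputable def dv {ι : Type} [Fintype ι] (c : ι → Mer) : Function.locallyFinsupp ℂ ℤ :=
  MeromorphicOn.divisor (vec c) Set.univ

/-- The divisor of an element of `Mer`. -/
noncomputable def dv1 (f : Mer) : Function.locallyFinsupp ℂ ℤ :=
  MeromorphicOn.divisor (rep f) Set.univ

/-- The counting function `N(D, r)` of a divisor. -/
noncomputable def NN (D : Function.locallyFinsupp ℂ ℤ) (r : ℝ) : ℝ :=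
  Function.locallyFinsuppWithin.logCounting D r

/-- The mean of `log ‖c‖` (maximum norm) on the circle of radius `r`. -/
noncomputable def LL {ι : Type} [Fintype ι] (c : ι → Mer) (r : ℝ) : ℝ :=
  Real.circleAverage (fun z => Real.log ‖vec c z‖) 0 r

/-- The mean of `log |f|` on the circle of radius `r`. -/
noncomputable def LL1 (f : Mer) (r : ℝ) : ℝ :=
  Real.circleAverage (fun z => Real.log ‖rep f z‖) 0 r

/-- The height `T(c, r)` of a tuple. -/
noncomputable def TT {ι : Type} [Fintype ι] (c : ι → Mer) (r : ℝ) : ℝ := LL c r - NN (dv c) r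

/-- The divisor truncated at one: `min (D z) 1`. -/
noncomputable def tru (D : Function.locallyFinsupp ℂ ℤ) : Function.locallyFinsupp ℂ ℤ where
  toFun z := min (D z) 1
  supportWithinDomain' := by intro z _; exact Set.mem_univ z
  supportLocallyFiniteWithinDomain' := by
    intro z hz
    obtain ⟨t, ht, hf⟩ := D.supportLocallyFiniteWithinDomain' z hz
    refine ⟨t, ht, hf.subset ?_⟩
    intro y hy
    refine ⟨hy.1, fun h0 => hy.2 ?_⟩
    change D y = 0 at h0
    change min (D y) 1 = 0
    rw [h0]; rfl

/-- The mean of `log⁺ |f|`. -/
noncomputable def MP (f : Mer) (r : ℝ) : ℝ :=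
  Real.circleAverage (fun z => Real.posLog ‖rep f z‖) 0 r

/-- The tuple of the coefficients of a polynomial. -/
noncomputable def cf {σ : Type} (F : MvPolynomial σ Mer) : F.support → Mer :=
  fun α => MvPolynomial.coeff (α : σ →₀ ℕ) F

/-- The height of a polynomial. -/
noncomputable def TP {σ : Type} (F : MvPolynomial σ Mer) (r : ℝ) : ℝ := TT (cf F) r

/-- The order divisor of a polynomial: minimum of the orders of its coefficients. -/
noncomputable def dvP {σ : Type} (F : MvPolynomial σ Mer) : Function.locallyFinsupp ℂ ℤ :=
  dv (cf F)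

/-- The order at `z` of an element of `Mer` (`⊤` for zero). -/
noncomputable def om (f : Mer) (z : ℂ) : WithTop ℤ := meromorphicOrderAt (rep f) z

/-- The order at `z` of a polynomial: the minimum of the orders of its coefficients. -/
noncomputable def vP {σ : Type} (F : MvPolynomial σ Mer) (z : ℂ) : WithTop ℤ :=
  F.support.inf fun α => om (MvPolynomial.coeff α F) z

/-- The function `z - z₀`. -/
noncomputable def zt (z₀ : ℂ) : Mer :=
  Mer.mk (fun z => z - z₀) (fun z => (MeromorphicAt.id z).sub (MeromorphicAt.const z₀ z))

/-- The value of a polynomial at a complex point. -/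
noncomputable def evC {σ : Type} (p : σ → ℂ) (F : MvPolynomial σ Mer) : Mer :=
  MvPolynomial.eval (fun i => algebraMap ℂ Mer (p i)) F

/-- The coefficientwise derivative of a polynomial with coefficients in `Mer`. -/
noncomputable def dz {σ : Type} (F : MvPolynomial σ Mer) : MvPolynomial σ Mer :=
  ∑ α ∈ F.support, MvPolynomial.monomial α ((MvPolynomial.coeff α F)′)

end Pool.ThmM
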