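import Pool.Agent.Work.MP_f82ddf_M1.Interface2

/-!
# Theorem M, part 1, third part: fixed and moving polynomials, growth, end of the argument
-/

open Topology Filter
open scoped Differential
open Pool.Agent.Work.MP_f82ddf_nt.DQ

namespace Pool.ThmM

/-- A polynomial is fixed if it is a scalar multiple of a complex polynomial. -/
def IsFix {σ : Type} (F : MvPolynomial σ Mer) : Prop :=
  ∃ (c : Mer) (G : MvPolynomial σ ℂ),
    F = MvPolynomial.C c * MvPolynomial.map (algebraMap ℂ Mer) G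

/-- DVD (uses DZR).  A polynomial which divides its coefficientwise derivative is fixed.
Proof: if `dz F = F * H` and `dz F ≠ 0`, degrees (`totalDegree (dz F) ≤ totalDegree F`) give
`H = C κ`; so `f_α′ = κ f_α` for all coefficients; with `f_β ≠ 0`: `(f_α / f_β)′ = 0`, so
`f_α / f_β` is a constant (`Mer.exists_algebraMap`). Conversely `dz (C c * map G) = C c′ * map G`.
If `dz F = 0` use DZR (6). -/
def Stmt_DVD : Prop := ∀ (σ : Type) (F : MvPolynomial σ Mer), F ≠ 0 → (F ∣ dz F ↔ IsFix F)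

/-- COP (uses DVD, DZR).  A product of pairwise non associated irreducible moving polynomials is
coprime to its derivative.
Proof: let `P ∈ s`, `R = P * R₁`, `R₁` the product of the others; `dz R = dz P * R₁ + P * dz R₁`.
`R ∣ B * dz R` gives `P ∣ B * (dz P * R₁)`; `P` is prime (unique factorisation), does not divide
`dz P` (DVD) nor `R₁` (non associated irreducible factors), so `P ∣ B`.  Pairwise non associated
primes: the product divides `B` (`Finset.prod_dvd_of_isRelPrime` or induction). -/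
def Stmt_COP : Prop := ∀ (σ : Type) (s : Finset (MvPolynomial σ Mer)),
  (∀ P ∈ s, Irreducible P ∧ ¬ IsFix P) → (∀ P ∈ s, ∀ P' ∈ s, P ≠ P' → ¬ Associated P P') →
  ∀ B : MvPolynomial σ Mer, (∏ P ∈ s, P) ∣ B * dz (∏ P ∈ s, P) → (∏ P ∈ s, P) ∣ B

/-- GRP (uses GRW, GEL, LOW).  Growth of the moving factors of a periodic polynomial.
`tr` is any automorphism as in TRA.
Proof: let `P` be an irreducible moving factor of `Φ`, `map tr Φ = Φ`.  All `map tr^n P` are
irreducible factors of `Φ`; up to associates there are finitely many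
(`UniqueFactorizationMonoid`), so `map tr^m P` and `map tr^n P` are associated for some `m < n`,
hence (apply `tr⁻¹`) `map tr^N P = C κ * P` with `N = n - m ≥ 1`.  Let `p_β ≠ 0` be a coefficient of
`P`: all quotients `p_α / p_β` are invariant under `tr^N`.  If all of them were rational they were
constants (clause 3 of TRA) and `P` were fixed.  So some `p_α / p_β` is not rational, GRW with
`c = cf P`: `TP P r / log r → ∞`.  For `P ∣ R`, `R = P * R₁`: GEL and LOW (`TP R₁ ≥ - K`):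
`TP R ≥ TP P - K'`. -/
def Stmt_GRP : Prop := ∀ (tr : Mer ≃ₐ[ℂ] Mer),
  (∀ (f : Mer) (n : ℕ), 1 ≤ n → (tr^[n]) f = f → IsRat f → ∃ a : ℂ, f = algebraMap ℂ Mer a) →
  ∀ (σ : Type) [Finite σ] (Φ P R : MvPolynomial σ Mer), Φ ≠ 0 →
    MvPolynomial.map (tr : Mer →+* Mer) Φ = Φ → Irreducible P → ¬ IsFix P → P ∣ Φ → R ≠ 0 → P ∣ R →
    Tendsto (fun r => TP R r / Real.log r) atTop atTop

/-- END (uses LEMS, NNP, LOW, MON).  The end of the argument.
Proof: `|J| = 2 s_(a+q) - s_a` where `s_a = numM w a = (a + w).choose w`; `|J| / s_a → 1` for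
`a → ∞`, so there is `a₀` with `|J| (2 b - 1) < 2 b s_a` for all `a ≥ a₀` (for instance
`s_(a+q) ≤ s_a (1 + q / (a + 1)) ^ w`).  LEMS gives `J`.  For `p ∈ J` let `δ = dv1 (evC p F) - dvP F`
(`≥ 0`, and `NN δ r ≤ TP F r + C` for `r ≥ 1`: LOW with the coefficients of `F` and the linear
combination `evC p F`).  NNP (6) with `δ` and `E = δ - D`: `NN (δ - D) ≤ 2 (NN δ - NN (tru δ))`, so
`2 NN (tru δ) ≤ NN δ + NN D` and `2 b NN (tru δ) ≤ (2 b - 1) TP F + C`.  Sum over `J`, LEMS: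
`2 b s_a TP F r ≤ |J| (2 b - 1) TP F r + 2 b ε TP F r + C` for arbitrarily large `r`; choose `ε` small;
`TP F r → ∞`: contradiction. -/
def Stmt_END : Prop := ∀ (w q b : ℕ), 1 ≤ b → ∃ a₀ : ℕ, ∀ a : ℕ, a₀ ≤ a →
  ∀ (F : MvPolynomial (Fin (w + 1)) Mer) (S : Set (Fin (w + 1) → ℂ)), F.IsHomogeneous q → F ≠ 0 →
  (∀ B : MvPolynomial (Fin (w + 1)) Mer, B.IsHomogeneous (a + q) → F ∣ B * dz F → F ∣ B) →
  (∀ p ∈ S, evC p F ≠ 0) →
  (∀ G : MvPolynomial (Fin (w + 1)) ℂ, G.IsHomogeneous (a + 2 * q) →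
    (∀ p ∈ S, MvPolynomial.eval p G = 0) → G = 0) →
  Tendsto (fun r => TP F r / Real.log r) atTop atTop →
  (∀ p ∈ S, ∃ (D : Function.locallyFinsupp ℂ ℤ) (C : ℝ), 0 ≤ D ∧
    D ≤ dv1 (evC p F) - dvP F ∧ (∀ z, (dv1 (evC p F) - dvP F - D) z ≠ 1) ∧
    ∀ r : ℝ, 1 ≤ r → b * NN D r ≤ (b - 1) * TP F r + C) → False

end Pool.ThmM
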